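import Mathlib
import Pool.Agent.TOL.Words

set_option maxSynthPendingDepth 3

open scoped ContDiff Distributions Topology unitInterval
open Set Function TopologicalSpace

namespace Pool.Agent.BHS

open Pool.Agent.Helper17 Pool.Agent.TOR Pool.Agent.TOL

section defs

variable {n N : ℕ} (b : Module.Basis (Fin N) ℝ (Phase n))

/-! ### Families with supports in a given set -/

/-- Support sets at level `j`: closed, invariant under translations in the directions `b i`,
`i < j`, and bounded in the other directions. -/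
structure Cyl (j : ℕ) (S : Set (Phase n)) : Prop where
  closed : IsClosed S
  inv : ∀ i : Fin N, (i : ℕ) < j → ∀ (s : ℝ), ∀ x ∈ S, x + s • b i ∈ S
  bdd : ∃ R, S ⊆ slab b j R

/-- Families of symplectomorphisms at level `j` with support in `S`. -/
structure LevS (j : ℕ) (S : Set (Phase n)) {T : Type} [TopologicalSpace T]
    (F : T → Equiv.Perm (Phase n)) : Prop where
  cf : CF (fun t x => F t x)
  cf' : CF (fun t x => (F t).symm x)
  symp : ∀ t p u v, omegaStd (fderiv ℝ (F t) p u) (fderiv ℝ (F t) p v) = omegaStd u v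
  per : ∀ t, ∀ i : Fin N, (i : ℕ) < j → ∀ x, F t (x + b i) = F t x + b i
  supp : ∀ t, ∀ x ∉ S, F t x = x

/-- Families of smooth maps with admissible derivatives at level `j` with support in `S`. -/
structure ALevS (j : ℕ) (S : Set (Phase n)) {T : Type} [TopologicalSpace T]
    (F : T → Phase n → Phase n) : Prop where
  cf : CF F
  adm : ∀ t x, Admissible (fderiv ℝ (F t) x)
  per : ∀ t, ∀ i : Fin N, (i : ℕ) < j → ∀ x, F t (x + b i) = F t x + b i
  supp : ∀ t, ∀ x ∉ S, F t x = x

/-- Homotopies through families of admissible maps at level `j` with support in `S`, equal to the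
identity on `T0`. -/
def AHS (j : ℕ) (S : Set (Phase n)) {T : Type} [TopologicalSpace T] (T0 : Set T)
    (F0 F1 : T → Phase n → Phase n) : Prop :=
  ∃ F : T × I → Phase n → Phase n, ALevS b j S F ∧ (∀ t x, F (t, 0) x = F0 t x) ∧
    (∀ t x, F (t, 1) x = F1 t x) ∧ ∀ t ∈ T0, ∀ s x, F (t, s) x = x

/-- Homotopies through families of symplectomorphisms at level `j` with support in `S`, equal to
the identity on `T0`. -/
def LHS (j : ℕ) (S : Set (Phase n)) {T : Type} [TopologicalSpace T] (T0 : Set T)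
    (g0 g1 : T → Equiv.Perm (Phase n)) : Prop :=
  ∃ F : T × I → Equiv.Perm (Phase n), LevS b j S F ∧ (∀ t, F (t, 0) = g0 t) ∧
    (∀ t, F (t, 1) = g1 t) ∧ ∀ t ∈ T0, ∀ s, F (t, s) = 1

/-- The points of `S` with `p ≤ ξ_j ≤ q`. -/
def cut (j : Fin N) (p q : ℝ) (S : Set (Phase n)) : Set (Phase n) :=
  S ∩ {x | p ≤ b.repr x j ∧ b.repr x j ≤ q}

/-- The points with `p i ≤ ξ_i ≤ q i` for all `i ≥ j`. -/
def bx (j : ℕ) (p q : Fin N → ℝ) : Set (Phase n) :=
  {x | ∀ i : Fin N, j ≤ (i : ℕ) → p i ≤ b.repr x i ∧ b.repr x i ≤ q i}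

/-- The periodization in the direction `b j`, with offset `c`, of a map `g` supported in the strip
`0 < ξ_j + c < 1`. -/
noncomputable def perM (j : Fin N) (c : ℝ) (g : Phase n → Phase n) (x : Phase n) : Phase n :=
  g (x - (⌊b.repr x j + c⌋ : ℝ) • b j) + (⌊b.repr x j + c⌋ : ℝ) • b j

/-! ### Slowly varying phases -/

/-- The maps `x ↦ V (t, a) x`, where the parameter `a` is replaced by the phase `φ t (ξ_j x)`
(after smoothing in the parameter, see `TOL.grid`). -/
noncomputable def Gr (j : Fin N) (M : ℕ) {T : Type} (V : T × I → Phase n → Phase n)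
    (φ : T → ℝ → ℝ) (t : T) (x : Phase n) : Phase n :=
  grid M (fun a => V (t, a)) (φ t (b.repr x j)) x

/-- The standard increasing phase: `≤ 0` for `ξ ≤ - 1/ε`, `≥ 1` for `ξ ≥ 0`. -/
noncomputable def upPh (ε ξ : ℝ) : ℝ := ε * (ξ + ε⁻¹)

/-- `z` represents the value of the loop detector on the family of loops `u` (at level `j + 1`,
trivial for `a ∈ {0, 1}`): the maps `x ↦ u (t, ε ξ_j x + 1) x` are homotopic to `z` through
admissible families at level `j`. -/
def IsD (j : Fin N) {T : Type} [TopologicalSpace T] (T0 : Set T)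
    (u : T × I → Equiv.Perm (Phase n)) (z : T → Equiv.Perm (Phase n)) : Prop :=
  ∃ M0 : ℕ, ∀ M ≥ M0, ∃ ε0 > 0, ∀ ε : ℝ, 0 < ε → ε ≤ ε0 →
    AH b (j : ℕ) T0 (Gr b j M (fun p x => u p x) (fun _ => upPh ε)) (fun t x => z t x)

/-- The same with control of the supports in the directions of index `> j`. -/
def IsDS (j : Fin N) (S' : Set (Phase n)) {T : Type} [TopologicalSpace T] (T0 : Set T)
    (u : T × I → Equiv.Perm (Phase n)) (z : T → Equiv.Perm (Phase n)) : Prop :=
  ∃ M0 : ℕ, ∀ M ≥ M0, ∃ ε0 > 0, ∀ ε : ℝ, 0 < ε → ε ≤ ε0 → ∃ R : ℝ,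
    AHS b (j : ℕ) (cut b j (-R) R S') T0 (Gr b j M (fun p x => u p x) (fun _ => upPh ε))
      (fun t x => z t x)

/-! ### Covers -/

/-- The basis `L i • b i`. -/
noncomputable def scal (L : Fin N → ℕ+) : Module.Basis (Fin N) ℝ (Phase n) :=
  b.unitsSMul fun i => Units.mk0 ((L i : ℕ) : ℝ) (Nat.cast_ne_zero.2 (L i).ne_zero)

/-- The scaling factors `l` in the direction `j` and `1` in the other directions. -/
def one1 (j : Fin N) (l : ℕ+) : Fin N → ℕ+ := Function.update (fun _ => 1) j l

/-- Reparametrisations of the unit interval used for products of loops. -/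
noncomputable def tau (a : I) : I := pr (2 * (a : ℝ))

/-- See `tau`. -/
noncomputable def tau' (a : I) : I := pr (2 * (a : ℝ) - 1)

/-- Pairs `(T, T0)` for which families over `T`, trivial on `T0`, can be separated by
reparametrisations: two homotopies of the identity of `(T, T0)` such that at the end each point is
mapped into `T0` by one of the two maps (for instance `T = T' × I`, `T0 = relI T0'`). -/
def EHP {T : Type} [TopologicalSpace T] (T0 : Set T) : Prop :=
  ∃ α β : T × I → T, Continuous α ∧ Continuous β ∧ (∀ t, α (t, 0) = t) ∧ (∀ t, β (t, 0) = t) ∧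
    (∀ t ∈ T0, ∀ s, α (t, s) ∈ T0 ∧ β (t, s) ∈ T0) ∧ ∀ t, α (t, 1) ∈ T0 ∨ β (t, 1) ∈ T0

/-- The conjugate of `g` by the translation by `v`. -/
def cj {n : ℕ} (v : Phase n) (g : Equiv.Perm (Phase n)) : Equiv.Perm (Phase n) :=
  Equiv.addRight v * g * (Equiv.addRight v)⁻¹

end defs

end Pool.Agent.BHS
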