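import Mathlib
import Pool.Agent.BHS.Defs
import Pool.Agent.TOL.Sympl

set_option maxSynthPendingDepth 3

open scoped ContDiff Distributions Topology unitInterval
open Set Function TopologicalSpace

namespace Pool.Agent.BHS

open Pool.Agent.Helper17 Pool.Agent.TOR Pool.Agent.TOL

section basic

variable {n N : ℕ} {b : Module.Basis (Fin N) ℝ (Phase n)}

/-! ### Coordinates -/

lemma repr_add_smul (x : Phase n) (s : ℝ) (i k : Fin N) :
    b.repr (x + s • b i) k = b.repr x k + if i = k then s else 0 := by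
  rw [map_add, Finsupp.add_apply, repr_smul_basis]

lemma repr_sub_smul (x : Phase n) (s : ℝ) (i k : Fin N) :
    b.repr (x - s • b i) k = b.repr x k - if i = k then s else 0 := by
  rw [map_sub, Finsupp.sub_apply, repr_smul_basis]

lemma repr_add_smul_self (x : Phase n) (s : ℝ) (i : Fin N) :
    b.repr (x + s • b i) i = b.repr x i + s := by
  rw [repr_add_smul, if_pos rfl]

lemma repr_add_smul_ne (x : Phase n) (s : ℝ) {i k : Fin N} (h : i ≠ k) :
    b.repr (x + s • b i) k = b.repr x k := by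
  rw [repr_add_smul, if_neg h, add_zero]

lemma repr_sub_smul_self (x : Phase n) (s : ℝ) (i : Fin N) :
    b.repr (x - s • b i) i = b.repr x i - s := by
  rw [repr_sub_smul, if_pos rfl]

lemma repr_sub_smul_ne (x : Phase n) (s : ℝ) {i k : Fin N} (h : i ≠ k) :
    b.repr (x - s • b i) k = b.repr x k := by
  rw [repr_sub_smul, if_neg h, sub_zero]

lemma continuous_repr (b : Module.Basis (Fin N) ℝ (Phase n)) (i : Fin N) :
    Continuous (fun x : Phase n => b.repr x i) :=
  (LinearMap.toContinuousLinearMap (b.coord i)).continuous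

lemma contDiff_repr (b : Module.Basis (Fin N) ℝ (Phase n)) (i : Fin N) :
    ContDiff ℝ ∞ (fun x : Phase n => b.repr x i) :=
  (LinearMap.toContinuousLinearMap (b.coord i)).contDiff

lemma scal_apply (b : Module.Basis (Fin N) ℝ (Phase n)) (L : Fin N → ℕ+) (i : Fin N) :
    scal b L i = ((L i : ℕ) : ℝ) • b i := by
  unfold scal
  rw [Module.Basis.unitsSMul_apply]
  rfl

lemma scal_repr (b : Module.Basis (Fin N) ℝ (Phase n)) (L : Fin N → ℕ+) (x : Phase n)
    (i : Fin N) : (scal b L).repr x i = b.repr x i / ((L i : ℕ) : ℝ) := by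
  unfold scal
  rw [Module.Basis.repr_unitsSMul]
  change ((Units.mk0 ((L i : ℕ) : ℝ) _)⁻¹ : ℝˣ) • b.repr x i = _
  rw [Units.smul_def, Units.val_inv_eq_inv_val, Units.val_mk0, smul_eq_mul, div_eq_inv_mul]

lemma one1_self (j : Fin N) (l : ℕ+) : one1 j l j = l := Function.update_self _ _ _

lemma one1_ne {i j : Fin N} (h : i ≠ j) (l : ℕ+) : one1 j l i = 1 :=
  Function.update_of_ne h _ _

/-! ### Support sets -/

lemma isClosed_slab (b : Module.Basis (Fin N) ℝ (Phase n)) (j : ℕ) (R : ℝ) :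
    IsClosed (slab b j R) := by
  have : slab b j R = ⋂ i : Fin N, ⋂ _ : j ≤ (i : ℕ), {x | |b.repr x i| ≤ R} := by
    ext x
    simp [slab]
  rw [this]
  exact isClosed_iInter fun i => isClosed_iInter fun _ =>
    isClosed_le (continuous_repr b i).abs continuous_const

lemma cyl_slab (b : Module.Basis (Fin N) ℝ (Phase n)) (j : ℕ) (R : ℝ) : Cyl b j (slab b j R) := by
  refine ⟨isClosed_slab b j R, ?_, R, subset_rfl⟩
  intro i hi s x hx k hk
  have hne : i ≠ k := by
    intro h; rw [h] at hi; omega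
  rw [repr_add_smul_ne x s hne]
  exact hx k hk

lemma cyl_univ (b : Module.Basis (Fin N) ℝ (Phase n)) : Cyl b N univ :=
  ⟨isClosed_univ, fun _ _ _ _ _ => mem_univ _, 0, fun _ _ i hi => absurd i.2 (not_lt.2 hi)⟩

lemma Cyl.inv_sub {j : ℕ} {S : Set (Phase n)} (h : Cyl b j S) {i : Fin N} (hi : (i : ℕ) < j)
    (s : ℝ) {x : Phase n} (hx : x ∈ S) : x - s • b i ∈ S := by
  have := h.inv i hi (-s) x hx
  rwa [neg_smul, ← sub_eq_add_neg] at this

lemma Cyl.add_mem_iff {j : ℕ} {S : Set (Phase n)} (h : Cyl b j S) {i : Fin N} (hi : (i : ℕ) < j)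
    (s : ℝ) {x : Phase n} : x + s • b i ∈ S ↔ x ∈ S := by
  refine ⟨fun hx => ?_, fun hx => h.inv i hi s x hx⟩
  have := h.inv_sub hi s hx
  rwa [add_sub_cancel_right] at this

lemma Cyl.sub_mem_iff {j : ℕ} {S : Set (Phase n)} (h : Cyl b j S) {i : Fin N} (hi : (i : ℕ) < j)
    (s : ℝ) {x : Phase n} : x - s • b i ∈ S ↔ x ∈ S := by
  refine ⟨fun hx => ?_, fun hx => h.inv_sub hi s hx⟩
  have := h.inv i hi s _ hx
  rwa [sub_add_cancel] at this

lemma mem_cut {j : Fin N} {p q : ℝ} {S : Set (Phase n)} {x : Phase n} :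
    x ∈ cut b j p q S ↔ x ∈ S ∧ p ≤ b.repr x j ∧ b.repr x j ≤ q := Iff.rfl

lemma cut_subset (b : Module.Basis (Fin N) ℝ (Phase n)) (j : Fin N) (p q : ℝ)
    (S : Set (Phase n)) : cut b j p q S ⊆ S := inter_subset_left

lemma cut_mono {j : Fin N} {p q p' q' : ℝ} {S S' : Set (Phase n)} (hS : S ⊆ S') (hp : p' ≤ p)
    (hq : q ≤ q') : cut b j p q S ⊆ cut b j p' q' S' :=
  fun _ hx => ⟨hS hx.1, hp.trans hx.2.1, hx.2.2.trans hq⟩

/-- A support set at level `j + 1`, cut in the direction `j`, is a support set at level `j`. -/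
lemma Cyl.cut {j : Fin N} {S : Set (Phase n)} (h : Cyl b ((j : ℕ) + 1) S) (p q : ℝ) :
    Cyl b (j : ℕ) (cut b j p q S) := by
  obtain ⟨R, hR⟩ := h.bdd
  refine ⟨?_, ?_, ⟨max R (max |p| |q|), ?_⟩⟩
  · refine h.closed.inter ((isClosed_le continuous_const (continuous_repr b j)).inter
      (isClosed_le (continuous_repr b j) continuous_const))
  · intro i hi s x hx
    have hne : i ≠ j := by
      intro h; rw [h] at hi; exact lt_irrefl _ hi
    refine ⟨h.inv i (by omega) s x hx.1, ?_⟩
    change p ≤ b.repr (x + s • b i) j ∧ b.repr (x + s • b i) j ≤ q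
    rw [repr_add_smul_ne x s hne]
    exact hx.2
  · intro x hx i hi
    rcases Nat.eq_or_lt_of_le hi with h1 | h1
    · have : i = j := Fin.ext h1.symm
      subst this
      refine le_trans ?_ (le_max_right _ _)
      rw [abs_le]
      have h2 := neg_abs_le p
      have h3 := le_abs_self q
      have h4 := hx.2.1
      have h5 := hx.2.2
      constructor
      · have := le_max_left |p| |q|
        linarith
      · have := le_max_right |p| |q|
        linarith
    · exact (hR hx.1 i h1).trans (le_max_left _ _)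

/-! ### Operations on families with supports -/

lemma levS_of_lev {j : ℕ} {R : ℝ} {T : Type} [TopologicalSpace T]
    {F : T → Equiv.Perm (Phase n)} (h : Lev b j R F) : LevS b j (slab b j R) F :=
  ⟨h.cf, h.cf', h.symp, h.per, h.supp⟩

lemma LevS.mono {j : ℕ} {S S' : Set (Phase n)} {T : Type} [TopologicalSpace T]
    {F : T → Equiv.Perm (Phase n)} (h : LevS b j S F) (hS : S ⊆ S') : LevS b j S' F :=
  ⟨h.cf, h.cf', h.symp, h.per, fun t x hx => h.supp t x fun hx' => hx (hS hx')⟩

lemma LevS.lev {j : ℕ} {S : Set (Phase n)} {R : ℝ} {T : Type} [TopologicalSpace T]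
    {F : T → Equiv.Perm (Phase n)} (h : LevS b j S F) (hS : S ⊆ slab b j R) : Lev b j R F :=
  ⟨h.cf, h.cf', h.symp, h.per, fun t x hx => h.supp t x fun hx' => hx (hS hx')⟩

lemma LevS.lev' {j : ℕ} {S : Set (Phase n)} {T : Type} [TopologicalSpace T]
    {F : T → Equiv.Perm (Phase n)} (h : LevS b j S F) (hS : Cyl b j S) : ∃ R, Lev b j R F := by
  obtain ⟨R, hR⟩ := hS.bdd
  exact ⟨R, h.lev hR⟩

lemma LevS.reparam {j : ℕ} {S : Set (Phase n)} {T T' : Type} [TopologicalSpace T]
    [TopologicalSpace T'] {F : T → Equiv.Perm (Phase n)} (h : LevS b j S F) {g : T' → T}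
    (hg : Continuous g) : LevS b j S (fun t => F (g t)) :=
  ⟨h.cf.base hg, h.cf'.base hg, fun t => h.symp (g t), fun t => h.per (g t),
    fun t => h.supp (g t)⟩

lemma LevS.mul {j : ℕ} {S : Set (Phase n)} {T : Type} [TopologicalSpace T]
    {F G : T → Equiv.Perm (Phase n)} (hF : LevS b j S F) (hG : LevS b j S G) :
    LevS b j S (fun t => F t * G t) := by
  refine ⟨hF.cf.comp hG.cf, hG.cf'.comp hF.cf', ?_, ?_, ?_⟩
  · intro t p u v
    exact symp_comp (hF.cf.differentiable t) (hG.cf.differentiable t) (hF.symp t) (hG.symp t) p u v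
  · intro t i hi x
    simp only [Equiv.Perm.coe_mul, comp_apply]
    rw [hG.per t i hi, hF.per t i hi]
  · intro t x hx
    simp only [Equiv.Perm.coe_mul, comp_apply]
    rw [hG.supp t x hx, hF.supp t x hx]

lemma LevS.inv {j : ℕ} {S : Set (Phase n)} {T : Type} [TopologicalSpace T]
    {F : T → Equiv.Perm (Phase n)} (hF : LevS b j S F) : LevS b j S (fun t => (F t)⁻¹) := by
  refine ⟨hF.cf', hF.cf, ?_, ?_, ?_⟩
  · intro t p u v
    exact symp_symm (hF.cf.differentiable t) (hF.cf'.differentiable t) (hF.symp t) p u v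
  · intro t i hi x
    exact symm_add (hF.per t i hi) x
  · intro t x hx
    change (F t).symm x = x
    rw [Equiv.symm_apply_eq]
    exact (hF.supp t x hx).symm

lemma LevS.one (j : ℕ) (S : Set (Phase n)) (T : Type) [TopologicalSpace T] :
    LevS b j S (fun _ : T => (1 : Equiv.Perm (Phase n))) := by
  refine ⟨CF.const contDiff_id, CF.const contDiff_id, ?_, fun _ _ _ _ => rfl, fun _ _ _ => rfl⟩
  intro t p u v
  have : fderiv ℝ (1 : Equiv.Perm (Phase n)) p = ContinuousLinearMap.id ℝ _ := fderiv_id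
  rw [this]; simp

/-- A permutation which fixes the points outside `S` preserves `S`. -/
lemma LevS.mem_iff {j : ℕ} {S : Set (Phase n)} {T : Type} [TopologicalSpace T]
    {F : T → Equiv.Perm (Phase n)} (h : LevS b j S F) (t : T) (x : Phase n) :
    F t x ∈ S ↔ x ∈ S := by
  constructor
  · intro hx
    by_contra hx'
    rw [h.supp t x hx'] at hx
    exact hx' hx
  · intro hx
    by_contra hx'
    have h1 := h.supp t _ hx'
    have h2 : F t x = x := (F t).injective h1
    rw [h2] at hx'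
    exact hx' hx

lemma Lev.tame' {j : ℕ} {R : ℝ} {T : Type} [TopologicalSpace T]
    {F : T → Equiv.Perm (Phase n)} (h : Lev b j R F) :
    Tame b (|R| + 1) (fun t x => F t x) := h.tame

lemma LevS.tame {j : ℕ} {S : Set (Phase n)} {T : Type} [TopologicalSpace T]
    {F : T → Equiv.Perm (Phase n)} (h : LevS b j S F) (hS : Cyl b j S) :
    ∃ R, Tame b R (fun t x => F t x) := by
  obtain ⟨R, hR⟩ := h.lev' hS
  exact ⟨_, hR.tame⟩

/-- Commutators with translations in the periodic directions. -/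
lemma LevS.cm {j : ℕ} {S : Set (Phase n)} {T : Type} [TopologicalSpace T]
    {F : T → Equiv.Perm (Phase n)} (hF : LevS b j S F) (hS : Cyl b j S) {i : Fin N}
    (hi : (i : ℕ) < j) {c : T → ℝ} (hc : Continuous c) :
    LevS b j S (fun t => TOL.cm (c t • b i) (F t)) := by
  obtain ⟨R, hR⟩ := hF.lev' hS
  have h1 : Lev b j R (fun t => TOL.cm (c t • b i) (F t)) := by
    refine hR.cm (hc.smul continuous_const) ?_
    intro t k hk
    rw [repr_smul_basis, if_neg]
    intro h; rw [h] at hi; omega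
  refine ⟨h1.cf, h1.cf', h1.symp, h1.per, ?_⟩
  intro t x hx
  have h2 : (F t).symm x = x := by
    rw [Equiv.symm_apply_eq]
    exact (hF.supp t x hx).symm
  have h3 : x - c t • b i ∉ S := fun h => hx ((hS.sub_mem_iff hi (c t)).1 h)
  rw [cm_apply, h2, hF.supp t _ h3, sub_add_cancel]

lemma cj_apply (v : Phase n) (g : Equiv.Perm (Phase n)) (x : Phase n) :
    cj v g x = g (x - v) + v := by
  change g (x + -v) + v = _
  rw [← sub_eq_add_neg]

lemma cj_symm_apply (v : Phase n) (g : Equiv.Perm (Phase n)) (x : Phase n) :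
    (cj v g).symm x = g.symm (x - v) + v := by
  rw [Equiv.symm_apply_eq, cj_apply, add_sub_cancel_right, Equiv.apply_symm_apply,
    sub_add_cancel]

lemma cj_one (v : Phase n) : cj v 1 = 1 := by
  ext1 x
  rw [cj_apply]
  change x - v + v = x
  abel

lemma cj_zero (g : Equiv.Perm (Phase n)) : cj 0 g = g := by
  ext1 x
  rw [cj_apply, sub_zero, add_zero]

lemma cj_mul (v : Phase n) (g h : Equiv.Perm (Phase n)) : cj v (g * h) = cj v g * cj v h := by
  simp only [cj]
  group

lemma cj_inv (v : Phase n) (g : Equiv.Perm (Phase n)) : cj v g⁻¹ = (cj v g)⁻¹ := by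
  simp only [cj]
  group

lemma cj_cj (v w : Phase n) (g : Equiv.Perm (Phase n)) : cj v (cj w g) = cj (v + w) g := by
  ext1 x
  rw [cj_apply, cj_apply, cj_apply]
  have h1 : x - v - w = x - (v + w) := by abel
  rw [h1]
  abel

lemma cm_eq_cj (v : Phase n) (g : Equiv.Perm (Phase n)) : cm v g = cj v g * g⁻¹ := rfl

/-- Conjugation of families by translations. -/
lemma LevS.cj {j : ℕ} {S S' : Set (Phase n)} {T : Type} [TopologicalSpace T]
    {F : T → Equiv.Perm (Phase n)} (hF : LevS b j S F) {v : T → Phase n} (hv : Continuous v)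
    (hS : ∀ t, ∀ x ∈ S, x + v t ∈ S') : LevS b j S' (fun t => BHS.cj (v t) (F t)) := by
  have hd1 : ∀ t, Differentiable ℝ (fun x : Phase n => x + v t) := fun t =>
    differentiable_id.add (differentiable_const _)
  have hd2 : ∀ t, Differentiable ℝ (fun x : Phase n => x - v t) := fun t =>
    differentiable_id.sub (differentiable_const _)
  have hs1 : ∀ t (p a c : Phase n), omegaStd (fderiv ℝ (fun x : Phase n => x + v t) p a)
      (fderiv ℝ (fun x : Phase n => x + v t) p c) = omegaStd a c := by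
    intro t p a c
    have : fderiv ℝ (fun x : Phase n => x + v t) p = ContinuousLinearMap.id ℝ _ :=
      ((hasFDerivAt_id p).add_const (v t)).fderiv
    rw [this]; simp
  have hs2 : ∀ t (p a c : Phase n), omegaStd (fderiv ℝ (fun x : Phase n => x - v t) p a)
      (fderiv ℝ (fun x : Phase n => x - v t) p c) = omegaStd a c := by
    intro t p a c
    have : fderiv ℝ (fun x : Phase n => x - v t) p = ContinuousLinearMap.id ℝ _ :=
      ((hasFDerivAt_id p).sub_const (v t)).fderiv
    rw [this]; simp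
  refine ⟨?_, ?_, ?_, ?_, ?_⟩
  · have h1 : CF (fun t x => F t (x - v t) + v t) :=
      (hF.cf.comp ((CF.const contDiff_id).sub (CF.param hv))).add (CF.param hv)
    have e : (fun t x => BHS.cj (v t) (F t) x) = fun t x => F t (x - v t) + v t := by
      funext t x
      exact cj_apply _ _ _
    rw [e]
    exact h1
  · have h1 : CF (fun t x => (F t).symm (x - v t) + v t) :=
      (hF.cf'.comp ((CF.const contDiff_id).sub (CF.param hv))).add (CF.param hv)
    have e : (fun t x => (BHS.cj (v t) (F t)).symm x) = fun t x => (F t).symm (x - v t) + v t := by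
      funext t x
      exact cj_symm_apply _ _ _
    rw [e]
    exact h1
  · intro t p a c
    have e : (BHS.cj (v t) (F t) : Phase n → Phase n) =
        fun x => (fun y => y + v t) (F t ((fun y => y - v t) x)) := by
      funext x
      exact cj_apply _ _ _
    rw [e]
    refine symp_comp (φ := fun y => y + v t) (hd1 t)
      ((hF.cf.differentiable t).comp (hd2 t)) (hs1 t) ?_ p a c
    intro p a c
    exact symp_comp (φ := F t) (ψ := fun x => x - v t) (hF.cf.differentiable t)
      (hd2 t) (hF.symp t) (hs2 t) p a c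
  · intro t i hi x
    rw [cj_apply, cj_apply]
    have h1 : x + b i - v t = (x - v t) + b i := by abel
    rw [h1, hF.per t i hi]
    abel
  · intro t x hx
    have h1 : x - v t ∉ S := by
      intro h
      apply hx
      have := hS t _ h
      rwa [sub_add_cancel] at this
    rw [cj_apply, hF.supp t _ h1, sub_add_cancel]

/-! ### Admissible families -/

lemma ALevS.mono {j : ℕ} {S S' : Set (Phase n)} {T : Type} [TopologicalSpace T]
    {F : T → Phase n → Phase n} (h : ALevS b j S F) (hS : S ⊆ S') : ALevS b j S' F :=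
  ⟨h.cf, h.adm, h.per, fun t x hx => h.supp t x fun hx' => hx (hS hx')⟩

lemma ALevS.reparam {j : ℕ} {S : Set (Phase n)} {T T' : Type} [TopologicalSpace T]
    [TopologicalSpace T'] {F : T → Phase n → Phase n} (h : ALevS b j S F) {g : T' → T}
    (hg : Continuous g) : ALevS b j S (fun t x => F (g t) x) :=
  ⟨h.cf.base hg, fun t => h.adm (g t), fun t => h.per (g t), fun t => h.supp (g t)⟩

lemma admissible_of_symp {A : Phase n →L[ℝ] Phase n}
    (h : ∀ u v, omegaStd (A u) (A v) = omegaStd u v) : Admissible A := by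
  intro s _ v hv
  apply eq_zero_of_omegaStd
  intro w
  have := hv w
  rw [h] at this
  linarith

lemma LevS.alevS {j : ℕ} {S : Set (Phase n)} {T : Type} [TopologicalSpace T]
    {F : T → Equiv.Perm (Phase n)} (h : LevS b j S F) : ALevS b j S (fun t x => F t x) :=
  ⟨h.cf, fun t x => admissible_of_symp (h.symp t x), h.per, h.supp⟩

lemma alev_iff {j : ℕ} {R : ℝ} {T : Type} [TopologicalSpace T] {F : T → Phase n → Phase n} :
    ALev b j R F ↔ ALevS b j (slab b j R) F :=
  ⟨fun h => ⟨h.cf, h.adm, h.per, h.supp⟩, fun h => ⟨h.cf, h.adm, h.per, h.supp⟩⟩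

lemma AHS.mono {j : ℕ} {S S' : Set (Phase n)} {T : Type} [TopologicalSpace T] {T0 : Set T}
    {F0 F1 : T → Phase n → Phase n} (h : AHS b j S T0 F0 F1) (hS : S ⊆ S') :
    AHS b j S' T0 F0 F1 := by
  obtain ⟨F, hF, h0, h1, hr⟩ := h
  exact ⟨F, hF.mono hS, h0, h1, hr⟩

lemma AHS.ah {j : ℕ} {S : Set (Phase n)} {R : ℝ} {T : Type} [TopologicalSpace T] {T0 : Set T}
    {F0 F1 : T → Phase n → Phase n} (h : AHS b j S T0 F0 F1) (hS : S ⊆ slab b j R) :
    AH b j T0 F0 F1 := by
  obtain ⟨F, hF, h0, h1, hr⟩ := h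
  exact ⟨R, F, alev_iff.2 (hF.mono hS), h0, h1, hr⟩

lemma ah_iff {j : ℕ} {T : Type} [TopologicalSpace T] {T0 : Set T}
    {F0 F1 : T → Phase n → Phase n} :
    AH b j T0 F0 F1 ↔ ∃ R, AHS b j (slab b j R) T0 F0 F1 := by
  constructor
  · rintro ⟨R, F, hF, h0, h1, hr⟩
    exact ⟨R, F, alev_iff.1 hF, h0, h1, hr⟩
  · rintro ⟨R, h⟩
    exact h.ah subset_rfl

lemma lh_iff {j : ℕ} {T : Type} [TopologicalSpace T] {T0 : Set T}
    {g0 g1 : T → Equiv.Perm (Phase n)} :
    LH b j T0 g0 g1 ↔ ∃ R, LHS b j (slab b j R) T0 g0 g1 := by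
  constructor
  · rintro ⟨R, F, hF, h0, h1, hr⟩
    exact ⟨R, F, levS_of_lev hF, h0, h1, hr⟩
  · rintro ⟨R, F, hF, h0, h1, hr⟩
    exact ⟨R, F, hF.lev subset_rfl, h0, h1, hr⟩

lemma LHS.mono {j : ℕ} {S S' : Set (Phase n)} {T : Type} [TopologicalSpace T] {T0 : Set T}
    {g0 g1 : T → Equiv.Perm (Phase n)} (h : LHS b j S T0 g0 g1) (hS : S ⊆ S') :
    LHS b j S' T0 g0 g1 := by
  obtain ⟨F, hF, h0, h1, hr⟩ := h
  exact ⟨F, hF.mono hS, h0, h1, hr⟩

lemma LHS.lh {j : ℕ} {S : Set (Phase n)} {T : Type} [TopologicalSpace T] {T0 : Set T}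
    {g0 g1 : T → Equiv.Perm (Phase n)} (h : LHS b j S T0 g0 g1) (hS : Cyl b j S) :
    LH b j T0 g0 g1 := by
  obtain ⟨R, hR⟩ := hS.bdd
  exact lh_iff.2 ⟨R, h.mono hR⟩

lemma LHS.refl {j : ℕ} {S : Set (Phase n)} {T : Type} [TopologicalSpace T] {T0 : Set T}
    {g : T → Equiv.Perm (Phase n)} (h : LevS b j S g) (h0 : ∀ t ∈ T0, g t = 1) :
    LHS b j S T0 g g :=
  ⟨fun p => g p.1, h.reparam continuous_fst, fun _ => rfl, fun _ => rfl, fun t ht _ => h0 t ht⟩

lemma LHS.mul {j : ℕ} {S : Set (Phase n)} {T : Type} [TopologicalSpace T] {T0 : Set T}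
    {g0 g1 h0 h1 : T → Equiv.Perm (Phase n)} (hg : LHS b j S T0 g0 g1)
    (hh : LHS b j S T0 h0 h1) :
    LHS b j S T0 (fun t => g0 t * h0 t) (fun t => g1 t * h1 t) := by
  obtain ⟨F, hF, F0, F1, Fr⟩ := hg
  obtain ⟨G, hG, G0, G1, Gr⟩ := hh
  refine ⟨fun p => F p * G p, hF.mul hG, ?_, ?_, ?_⟩
  · intro t; simp only [F0, G0]
  · intro t; simp only [F1, G1]
  · intro t ht s; simp only [Fr t ht s, Gr t ht s, mul_one]

lemma LHS.inv {j : ℕ} {S : Set (Phase n)} {T : Type} [TopologicalSpace T] {T0 : Set T}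
    {g0 g1 : T → Equiv.Perm (Phase n)} (hg : LHS b j S T0 g0 g1) :
    LHS b j S T0 (fun t => (g0 t)⁻¹) (fun t => (g1 t)⁻¹) := by
  obtain ⟨F, hF, F0, F1, Fr⟩ := hg
  refine ⟨fun p => (F p)⁻¹, hF.inv, ?_, ?_, ?_⟩
  · intro t; simp only [F0]
  · intro t; simp only [F1]
  · intro t ht s; simp only [Fr t ht s, inv_one]

lemma LHS.reparam {j : ℕ} {S : Set (Phase n)} {T T' : Type} [TopologicalSpace T]
    [TopologicalSpace T'] {T0 : Set T} {T0' : Set T'} {g0 g1 : T → Equiv.Perm (Phase n)}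
    (h : LHS b j S T0 g0 g1) {f : T' → T} (hf : Continuous f) (hf0 : ∀ t ∈ T0', f t ∈ T0) :
    LHS b j S T0' (fun t => g0 (f t)) (fun t => g1 (f t)) := by
  obtain ⟨F, hF, F0, F1, Fr⟩ := h
  refine ⟨fun p => F (f p.1, p.2), hF.reparam ((hf.comp continuous_fst).prodMk continuous_snd),
    fun t => F0 (f t), fun t => F1 (f t), fun t ht s => Fr _ (hf0 t ht) s⟩

lemma AHS.reparam {j : ℕ} {S : Set (Phase n)} {T T' : Type} [TopologicalSpace T]
    [TopologicalSpace T'] {T0 : Set T} {T0' : Set T'} {g0 g1 : T → Phase n → Phase n}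
    (h : AHS b j S T0 g0 g1) {f : T' → T} (hf : Continuous f) (hf0 : ∀ t ∈ T0', f t ∈ T0) :
    AHS b j S T0' (fun t x => g0 (f t) x) (fun t x => g1 (f t) x) := by
  obtain ⟨F, hF, F0, F1, Fr⟩ := h
  refine ⟨fun p x => F (f p.1, p.2) x,
    hF.reparam ((hf.comp continuous_fst).prodMk continuous_snd),
    fun t => F0 (f t), fun t => F1 (f t), fun t ht s => Fr _ (hf0 t ht) s⟩

/-! ### Reparametrisations of the interval -/

lemma continuous_tau : Continuous tau :=
  continuous_pr.comp (continuous_const.mul continuous_subtype_val)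

lemma continuous_tau' : Continuous tau' :=
  continuous_pr.comp ((continuous_const.mul continuous_subtype_val).sub continuous_const)

lemma tau_zero : tau 0 = 0 := by
  unfold tau
  apply pr_nonpos
  rw [Icc.coe_zero]
  norm_num

lemma tau'_zero : tau' 0 = 0 := by
  unfold tau'
  apply pr_nonpos
  rw [Icc.coe_zero]
  norm_num

lemma tau_one : tau 1 = 1 := by
  unfold tau
  apply pr_one_le
  rw [Icc.coe_one]
  norm_num

lemma tau'_one : tau' 1 = 1 := by
  unfold tau'
  apply pr_one_le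
  rw [Icc.coe_one]
  norm_num

/-- At each time one of the two parameters is at an end of the interval. -/
lemma tau_cases (a : I) : tau' a = 0 ∨ tau a = 1 := by
  rcases le_or_gt (2 * (a : ℝ)) 1 with h | h
  · left
    exact pr_nonpos (by linarith)
  · right
    exact pr_one_le h.le

lemma ehp_relI {T : Type} [TopologicalSpace T] (T0 : Set T) : EHP (relI T0) := by
  have hc : ∀ {f : I → I}, Continuous f → Continuous (fun p : (T × I) × I =>
      ((p.1.1, pr ((1 - (p.2 : ℝ)) * (p.1.2 : ℝ) + (p.2 : ℝ) * (f p.1.2 : ℝ))) : T × I)) := by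
    intro f hf
    refine (continuous_fst.comp continuous_fst).prodMk (continuous_pr.comp ?_)
    refine Continuous.add (Continuous.mul ?_ ?_) (Continuous.mul ?_ ?_)
    · exact continuous_const.sub (continuous_subtype_val.comp continuous_snd)
    · exact continuous_subtype_val.comp (continuous_snd.comp continuous_fst)
    · exact continuous_subtype_val.comp continuous_snd
    · exact continuous_subtype_val.comp (hf.comp (continuous_snd.comp continuous_fst))
  have hpr : ∀ a : I, pr (a : ℝ) = a := fun a => projIcc_val zero_le_one a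
  have hrel : ∀ {f : I → I}, f 0 = 0 → f 1 = 1 → ∀ p ∈ relI T0, ∀ s : I,
      ((p.1, pr ((1 - (s : ℝ)) * (p.2 : ℝ) + (s : ℝ) * (f p.2 : ℝ))) : T × I) ∈ relI T0 := by
    intro f f0 f1 p hp s
    rcases hp with hp | hp | hp
    · exact Or.inl hp
    · refine Or.inr (Or.inl ?_)
      change pr ((1 - (s : ℝ)) * (p.2 : ℝ) + (s : ℝ) * (f p.2 : ℝ)) = 0
      rw [hp, f0]
      apply pr_nonpos
      rw [Icc.coe_zero]; simp
    · refine Or.inr (Or.inr ?_)
      change pr ((1 - (s : ℝ)) * (p.2 : ℝ) + (s : ℝ) * (f p.2 : ℝ)) = 1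
      rw [hp, f1]
      apply pr_one_le
      rw [Icc.coe_one]; simp
  refine ⟨_, _, hc continuous_tau, hc continuous_tau', ?_, ?_, ?_, ?_⟩
  · intro t
    refine Prod.ext rfl ?_
    change pr ((1 - ((0 : I) : ℝ)) * (t.2 : ℝ) + ((0 : I) : ℝ) * (tau t.2 : ℝ)) = t.2
    rw [Icc.coe_zero, sub_zero, one_mul, zero_mul, add_zero, hpr]
  · intro t
    refine Prod.ext rfl ?_
    change pr ((1 - ((0 : I) : ℝ)) * (t.2 : ℝ) + ((0 : I) : ℝ) * (tau' t.2 : ℝ)) = t.2
    rw [Icc.coe_zero, sub_zero, one_mul, zero_mul, add_zero, hpr]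
  · intro t ht s
    exact ⟨hrel tau_zero tau_one t ht s, hrel tau'_zero tau'_one t ht s⟩
  · intro t
    rcases tau_cases t.2 with h | h
    · right
      refine Or.inr (Or.inl ?_)
      change pr ((1 - ((1 : I) : ℝ)) * (t.2 : ℝ) + ((1 : I) : ℝ) * (tau' t.2 : ℝ)) = 0
      rw [h]
      apply pr_nonpos
      simp
    · left
      refine Or.inr (Or.inr ?_)
      change pr ((1 - ((1 : I) : ℝ)) * (t.2 : ℝ) + ((1 : I) : ℝ) * (tau t.2 : ℝ)) = 1
      rw [h]
      apply pr_one_le
      simp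

end basic

end Pool.Agent.BHS
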