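import Mathlib
import Pool.Agent.BHS.Defs

set_option maxSynthPendingDepth 3

open scoped ContDiff Distributions Topology unitInterval
open Set Function TopologicalSpace

namespace Pool.Agent.BHS

open Pool.Agent.Helper17 Pool.Agent.TOR Pool.Agent.TOL

/-! ### Analysis: Moser's method and the grid with support sets -/

/-- [MoserS] Moser's method for families at level `j` with support in `S`. Proof: as
`TOL.thm_MoserLev` (copy), with the slab replaced by `S`: the field `moserField Ψ` vanishes on the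
open set `Sᶜ` (`moserField_eq_zero`), it is invariant under the translations by `b i`, `i < j`,
and by `Cyl.bdd` its derivative is bounded (`TOR.thm_Box` on the slab; it vanishes near the points
outside `S`). -/
def St_MoserS : Prop :=
  ∀ {n N : ℕ} (b : Module.Basis (Fin N) ℝ (Phase n)) (j : ℕ) (T : Type) [TopologicalSpace T]
    [CompactSpace T] (S : Set (Phase n)), Cyl b j S → ∀ (Ψ : T → Phase n → Phase n),
    ALevS b j S Ψ →
    ∃ ρ : T × Icc (0 : ℝ) 1 → Phase n → Phase n, CF ρ ∧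
      (∀ (t : T) (s : Icc (0 : ℝ) 1) (x v w : Phase n),
        (1 - (s : ℝ)) * omegaStd (fderiv ℝ (ρ (t, s)) x v) (fderiv ℝ (ρ (t, s)) x w) +
        s * omegaStd (fderiv ℝ (Ψ t) (ρ (t, s) x) (fderiv ℝ (ρ (t, s)) x v))
          (fderiv ℝ (Ψ t) (ρ (t, s) x) (fderiv ℝ (ρ (t, s)) x w)) = omegaStd v w) ∧
      (∀ p, ∀ x ∉ S, ρ p x = x) ∧
      (∀ t x, ρ (t, 0) x = x) ∧
      (∀ t, (∀ x, Ψ t x = x) → ∀ s x, ρ (t, s) x = x) ∧
      ∀ p, ∀ i : Fin N, (i : ℕ) < j → ∀ x, ρ p (x + b i) = ρ p x + b i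

/-- [BijS] A smooth family of symplectic maps at level `j` (`j = N` is allowed) consists of
bijections, and the inverses form a smooth family. Proof: bounded displacement by `TOR.thm_Box`
(as in `TOL.thm_Bij`); a map `f` with injective derivatives and bounded displacement is proper, a
local homeomorphism (`Helper17.exists_open_injOn`, `isOpenMap_of_injective_fderiv`), hence a
covering map (`IsClosedMap.isCoveringMapOn_of_isLocalHomeomorphOn`, finite fibres), surjective as in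
`TOL.bij_bounded`; lift the identity of `ℝ^{2n}` (`IsCoveringMap.existsUnique_continuousMap_lifts`):
`s` with `f ∘ s = id`, `s (f x₀) = x₀`; `s ∘ f` and `id` are lifts of `f` equal at `x₀`, so
`s ∘ f = id` and `f` is injective. `TOR.tor_CF_inverse` for the inverses. -/
def St_BijS : Prop :=
  ∀ {n N : ℕ} (b : Module.Basis (Fin N) ℝ (Phase n)) (j : ℕ) (T : Type) [TopologicalSpace T]
    [CompactSpace T] (S : Set (Phase n)), Cyl b j S → j ≤ N → ∀ F : T → Phase n → Phase n, CF F →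
    (∀ t x u v, omegaStd (fderiv ℝ (F t) x u) (fderiv ℝ (F t) x v) = omegaStd u v) →
    (∀ t, ∀ i : Fin N, (i : ℕ) < j → ∀ x, F t (x + b i) = F t x + b i) →
    (∀ t, ∀ x ∉ S, F t x = x) →
    ∃ G : T → Equiv.Perm (Phase n), LevS b j S G ∧ ∀ t x, G t x = F t x

/-- [SymplS] Making families of admissible maps symplectic. Proof: as `TOL.thm_Sympl` (copy), from
[MoserS] and [BijS]. -/
def St_SymplS : Prop :=
  ∀ {n N : ℕ} (b : Module.Basis (Fin N) ℝ (Phase n)) (j : ℕ) (T : Type) [TopologicalSpace T]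
    [CompactSpace T] (T0 : Set T) (S : Set (Phase n)), Cyl b j S → j ≤ N →
    (∀ Ψ : T → Phase n → Phase n, ALevS b j S Ψ → (∀ t ∈ T0, ∀ x, Ψ t x = x) →
      ∃ Φ : T → Equiv.Perm (Phase n), LevS b j S Φ ∧ (∀ t ∈ T0, Φ t = 1) ∧
        AHS b j S T0 Ψ (fun t x => Φ t x)) ∧
    ∀ g0 g1 : T → Equiv.Perm (Phase n), LevS b j S g0 → LevS b j S g1 →
      AHS b j S T0 (fun t x => g0 t x) (fun t x => g1 t x) → LHS b j S T0 g0 g1

/-- [AHSc] Symmetry, transitivity and composition for `AHS`. Proof: as `TOL.thm_AHc` (copy). -/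
def St_AHSc : Prop :=
  ∀ {n N : ℕ} (b : Module.Basis (Fin N) ℝ (Phase n)) (j : ℕ) (S : Set (Phase n)) (T : Type)
    [TopologicalSpace T] (T0 : Set T) (F0 F1 F2 : T → Phase n → Phase n),
    (AHS b j S T0 F0 F1 → AHS b j S T0 F1 F0) ∧
    (AHS b j S T0 F0 F1 → AHS b j S T0 F1 F2 → AHS b j S T0 F0 F2) ∧
    ∀ g : T → Equiv.Perm (Phase n), LevS b j S g → (∀ t ∈ T0, g t = 1) →
      AHS b j S T0 F0 F1 → AHS b j S T0 (fun t x => F0 t (g t x)) (fun t x => F1 t (g t x))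

/-- [LHSc] Symmetry and transitivity for `LHS`. Proof: `unitInterval.symm`; gluing as in
`TOL.thm_AHc` (both for the maps and for the inverses). -/
def St_LHSc : Prop :=
  ∀ {n N : ℕ} (b : Module.Basis (Fin N) ℝ (Phase n)) (j : ℕ) (S : Set (Phase n)) (T : Type)
    [TopologicalSpace T] (T0 : Set T) (g0 g1 g2 : T → Equiv.Perm (Phase n)),
    (LHS b j S T0 g0 g1 → LHS b j S T0 g1 g0) ∧
    (LHS b j S T0 g0 g1 → LHS b j S T0 g1 g2 → LHS b j S T0 g0 g2)

/-- [GridP] For a fine grid and a slowly varying phase, the derivative of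
`x ↦ grid M (V (t, ·)) (φ (ξ_j x)) x` is close to the derivative of `V (t, φ (ξ_j x))` at `x`.
Proof: as `TOL.thm_Grid`: the derivative of the phase only enters through `φ' (ξ_j x)`
(`gri_hasFDerivAt` with `φ` instead of `ε (ξ + L)`); `gri_tele` with the matrices
`D V (t, m / M) x`, and the index `k` in `gri_tele` may be taken with `|k / M - a| ≤ 1 / M`,
`a = pr (φ (ξ_j x))` (it is `0` if `M a ≤ 0`, `M` if `M a ≥ M`, and otherwise the integral part of
`M a`), so that `D V (t, k / M) x` is close to `D V (t, a) x` by [TameB]. -/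
def St_GridP : Prop :=
  ∀ {n N : ℕ} (b : Module.Basis (Fin N) ℝ (Phase n)) (j : Fin N) (T : Type) [TopologicalSpace T]
    [CompactSpace T] (R : ℝ) (V : T × I → Phase n → Phase n), Tame b R V → ∀ e > 0,
    ∃ M0 : ℕ, ∀ M ≥ M0, ∃ ε0 > 0, ∀ φ : ℝ → ℝ, Differentiable ℝ φ → (∀ ξ, |deriv φ ξ| ≤ ε0) →
      ∀ t x, ‖fderiv ℝ (fun x => grid M (fun a => V (t, a)) (φ (b.repr x j)) x) x -
        fderiv ℝ (V (t, pr (φ (b.repr x j)))) x‖ ≤ e

/-- [GrAdm] Consequence: these maps and their convex combinations (same phase, two grids, or a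
grid and the map `V (t, a)` itself) are admissible. Proof: [GridP] with `e` small, [TameB] for the
bound of the derivative, `TOL.gri_near` (a convex combination of two operators at distance `≤ e`
from `A` is at distance `≤ e` from `A`). -/
def St_GrAdm : Prop :=
  ∀ {n N : ℕ} (b : Module.Basis (Fin N) ℝ (Phase n)) (j : Fin N) (T : Type) [TopologicalSpace T]
    [CompactSpace T] (R : ℝ) (V : T × I → Phase n → Phase n), Tame b R V →
    ∃ M0 : ℕ, 0 < M0 ∧ ∀ M ≥ M0, ∀ M' ≥ M0, ∃ ε0 > 0, ∀ φ : ℝ → ℝ, Differentiable ℝ φ →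
      (∀ ξ, |deriv φ ξ| ≤ ε0) → ∀ t x, ∀ s ∈ Icc (0 : ℝ) 1,
        Admissible ((1 - s) • fderiv ℝ (fun x => grid M (fun a => V (t, a)) (φ (b.repr x j)) x) x +
          s • fderiv ℝ (fun x => grid M' (fun a => V (t, a)) (φ (b.repr x j)) x) x) ∧
        Admissible ((1 - s) • fderiv ℝ (fun x => grid M (fun a => V (t, a)) (φ (b.repr x j)) x) x +
          s • fderiv ℝ (V (t, pr (φ (b.repr x j)))) x)

/-- [PhLin] Homotopies between phases. Proof: take `M0` and `ε0` from [GrAdm] for the family `u`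
(tame by `LevS.tame`). First part: the homotopy is `Gr` with the phase `(1 - s) φ0 + s φ1`
(slow, since the bound on the derivative is convex); outside `p ≤ ξ ≤ q` this phase is `≤ 0` or
`≥ 1` and `grid` is the identity there (`grid_zero`, `grid_one`, `u (t, 0) = u (t, 1) = 1`);
outside `S'` use `grid_const`. Second part: the convex combination of the two grids. -/
def St_PhLin : Prop :=
  ∀ {n N : ℕ} (b : Module.Basis (Fin N) ℝ (Phase n)) (j : Fin N) (T : Type) [TopologicalSpace T]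
    [CompactSpace T] (T0 : Set T) (S' : Set (Phase n)), Cyl b ((j : ℕ) + 1) S' →
    ∀ u : T × I → Equiv.Perm (Phase n), LevS b ((j : ℕ) + 1) S' u → (∀ p ∈ relI T0, u p = 1) →
    ∃ M0 : ℕ, 0 < M0 ∧ ∀ M ≥ M0, ∀ M' ≥ M0, ∃ ε0 > 0,
      (∀ (φ0 φ1 : ℝ → ℝ) (p q : ℝ), ContDiff ℝ ∞ φ0 → ContDiff ℝ ∞ φ1 →
        (∀ ξ, |deriv φ0 ξ| ≤ ε0) → (∀ ξ, |deriv φ1 ξ| ≤ ε0) →
        (∀ ξ, (p ≤ ξ ∧ ξ ≤ q) ∨ (φ0 ξ ≤ 0 ∧ φ1 ξ ≤ 0) ∨ (1 ≤ φ0 ξ ∧ 1 ≤ φ1 ξ)) →
        AHS b (j : ℕ) (cut b j p q S') T0 (Gr b j M (fun p x => u p x) (fun _ => φ0))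
          (Gr b j M (fun p x => u p x) (fun _ => φ1))) ∧
      ∀ (φ : ℝ → ℝ) (p q : ℝ), ContDiff ℝ ∞ φ → (∀ ξ, |deriv φ ξ| ≤ ε0) →
        (∀ ξ, (p ≤ ξ ∧ ξ ≤ q) ∨ φ ξ ≤ 0 ∨ 1 ≤ φ ξ) →
        AHS b (j : ℕ) (cut b j p q S') T0 (Gr b j M (fun p x => u p x) (fun _ => φ))
          (Gr b j M' (fun p x => u p x) (fun _ => φ))

/-! ### The loop detector -/

/-- [DExist] Existence of the value of the loop detector, with control of the supports.
Proof: `M0` from [PhLin]; `z` is the symplectic replacement ([SymplS], level `j < N`) of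
`Gr M0 (upPh ε1)`, `ε1` small; for `M ≥ M0` and `ε` small use [PhLin] twice:
`Gr M (upPh ε) ~ Gr M0 (upPh ε) ~ Gr M0 (upPh ε1)`. -/
def St_DExist : Prop :=
  ∀ {n N : ℕ} (b : Module.Basis (Fin N) ℝ (Phase n)) (j : Fin N) (T : Type) [TopologicalSpace T]
    [CompactSpace T] (T0 : Set T) (S' : Set (Phase n)), Cyl b ((j : ℕ) + 1) S' →
    ∀ u : T × I → Equiv.Perm (Phase n), LevS b ((j : ℕ) + 1) S' u → (∀ p ∈ relI T0, u p = 1) →
    ∃ (R : ℝ) (z : T → Equiv.Perm (Phase n)), LevS b (j : ℕ) (cut b j (-R) R S') z ∧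
      (∀ t ∈ T0, z t = 1) ∧ IsDS b j S' T0 u z

/-- [DInv] The loop detector is homotopy invariant. Proof: as in `TOL.thm_DL`: if `F` is the
homotopy, `V ((t, s), a) = F ((t, a), s)`, then `Gr V (upPh ε)` is an `AH` between
`Gr u (upPh ε)` and `Gr u' (upPh ε)` ([GrAdm] with `φ = upPh ε`, `M' = M`, `s = 0`); [AHSc] or
`TOL.thm_AHc`, and `TOL.thm_Sympl`. -/
def St_DInv : Prop :=
  ∀ {n N : ℕ} (b : Module.Basis (Fin N) ℝ (Phase n)) (j : Fin N) (T : Type) [TopologicalSpace T]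
    [CompactSpace T] (T0 : Set T) (u u' : T × I → Equiv.Perm (Phase n))
    (z z' : T → Equiv.Perm (Phase n)) (R : ℝ), Lev b (j : ℕ) R z → Lev b (j : ℕ) R z' →
    (∀ p ∈ relI T0, u p = 1) → LH b ((j : ℕ) + 1) (relI T0) u u' → IsD b j T0 u z →
    IsD b j T0 u' z' → LH b (j : ℕ) T0 z z'

/-- [DMul] The loop detector is multiplicative. Proof: by [EH] and [DInv]-type arguments replace
`u v` by `w (t, a) = u (t, tau a) * v (t, tau' a)`; `grid (2 M)` of `w` at `a ≤ 1/2` is `grid M` of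
`u` at `2 a`, at `a ≥ 1/2` it is `grid M` of `v` at `2 a - 1`; so
`Gr (2M) w (upPh ε) = G1 + G2 - id` with `G1 = Gr M u (2 ε ξ + 2)` (the identity for
`ξ ≥ -1/(2ε)`) and `G2 = Gr M v (upPh (2 ε))` (the identity for `ξ ≤ -1/(2ε)`). Replace `G2` by a
symplectic `w2` supported in `ξ ≥ -1/(2ε)` ([SymplS]); `G1 + G2_s - id` is an admissible homotopy,
for `s = 1` it is `G1 ∘ w2`; `G1 ~ Gr M u (upPh (2ε)) ~ z` by [PhLin], composed with `w2` on the
right ([AHSc]); `w2 ~ w` because both are homotopic to `G2` ([SymplS], second part). For other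
grids and other small `ε` use [PhLin]. -/
def St_DMul : Prop :=
  ∀ {n N : ℕ} (b : Module.Basis (Fin N) ℝ (Phase n)) (j : Fin N) (T : Type) [TopologicalSpace T]
    [CompactSpace T] (T0 : Set T) (u v : T × I → Equiv.Perm (Phase n))
    (z w : T → Equiv.Perm (Phase n)) (R : ℝ), Lev b ((j : ℕ) + 1) R u →
    Lev b ((j : ℕ) + 1) R v → (∀ p ∈ relI T0, u p = 1) → (∀ p ∈ relI T0, v p = 1) →
    Lev b (j : ℕ) R z → Lev b (j : ℕ) R w → (∀ t ∈ T0, z t = 1) → (∀ t ∈ T0, w t = 1) →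
    IsD b j T0 u z → IsD b j T0 v w → IsD b j T0 (fun p => u p * v p) (fun t => z t * w t)

/-- [DLam] The loop detector on the loops of commutators of a periodization. Proof: `TOL.ah_unit`
with `TOL.thm_Trunc` and `TOL.thm_Grid`: `id ~ A ∘ g` with `A` the `Gr` of the loops (note
`upPh ε ξ = ε * (ξ + ε⁻¹)`); compose with `g⁻¹` on the right (`TOL.thm_AHc`). -/
def St_DLam : Prop :=
  ∀ {n N : ℕ} (b : Module.Basis (Fin N) ℝ (Phase n)) (j : Fin N) (T : Type) [TopologicalSpace T]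
    [CompactSpace T] (T0 : Set T) (δ R : ℝ) (g P : T → Equiv.Perm (Phase n)), 0 < δ →
    δ ≤ 1 / 2 → Per1 b j δ R T0 g P →
    IsD b j T0 (fun p => cm ((p.2 : ℝ) • b j) (P p.1)) (fun t => (g t)⁻¹)

/-- [DPer] The loop detector vanishes on periodizations of loops. Proof: let `V p x` be `P p x`
for `ξ_j x ≤ 0` and `x` for `ξ_j x ≥ 0` (smooth because `P p` is the identity for
`|ξ_j| < δ`, see `TOL.tru_fix`, `TOL.tru_trc`); it is tame; the maps
`Gr V (s ε (ξ + ε⁻¹))`, `s ∈ [0, 1]`, join the identity to `Gr V (upPh ε) = Gr P (upPh ε)`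
([GrAdm] for `V`; for `ξ_j x ≥ 0` both are the identity). -/
def St_DPer : Prop :=
  ∀ {n N : ℕ} (b : Module.Basis (Fin N) ℝ (Phase n)) (j : Fin N) (T : Type) [TopologicalSpace T]
    [CompactSpace T] (T0 : Set T) (δ R : ℝ) (h P : T × I → Equiv.Perm (Phase n)), 0 < δ →
    δ ≤ 1 / 2 → Per1 b j δ R (relI T0) h P → IsD b j T0 P (fun _ => 1)

/-- [DCov] The loop detector is compatible with covers. Proof: `(scal b L).repr x j` is
`b.repr x j / L j`, so `upPh ε ((scal b L).repr x j) = upPh (ε / L j) (b.repr x j)`; a family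
commuting with `b i` commutes with `L i • b i`; `cut b j (-R) R S' ⊆ cut (scal b L) j (-R) R S'`
for `R ≥ 0`. -/
def St_DCov : Prop :=
  ∀ {n N : ℕ} (b : Module.Basis (Fin N) ℝ (Phase n)) (L : Fin N → ℕ+) (j : Fin N) (T : Type)
    [TopologicalSpace T] (T0 : Set T) (S' : Set (Phase n)) (u : T × I → Equiv.Perm (Phase n))
    (z : T → Equiv.Perm (Phase n)),
    (IsD b j T0 u z → IsD (scal b L) j T0 u z) ∧
    (IsDS b j S' T0 u z → IsDS (scal b L) j S' T0 u z)

/-! ### Periodization -/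

/-- [PerS] Periodization in the direction `b j`, with offset `c`, of a family supported in
`δ - c ≤ ξ_j ≤ 1 - δ - c`. Proof: near a point `x` with `ξ_j x + c ∉ ℤ` the map is the conjugate of
`g t` by the translation by `⌊ξ_j x + c⌋ b_j`, near a point with `ξ_j x + c ∈ ℤ` it is the identity
(`CF` is local in `x`: see `TOR.Pers` and `Helper17.CF_of_closed_cover`; or write the map near a
point as `x ↦ g t (x - k b_j) + k b_j + (g t (x - (k+1) b_j) + (k+1) b_j) - x`); the inverse is the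
periodization of the inverse (`LevS.mem_iff`: `g t` preserves the strip). -/
def St_PerS : Prop :=
  ∀ {n N : ℕ} (b : Module.Basis (Fin N) ℝ (Phase n)) (j : Fin N) (T : Type) [TopologicalSpace T]
    (S' : Set (Phase n)), Cyl b ((j : ℕ) + 1) S' → ∀ c δ : ℝ, 0 < δ → δ ≤ 1 / 2 →
    ∀ g : T → Equiv.Perm (Phase n), LevS b (j : ℕ) (cut b j (δ - c) (1 - δ - c) S') g →
    ∃ P : T → Equiv.Perm (Phase n), LevS b ((j : ℕ) + 1) S' P ∧ ∀ t x, P t x = perM b j c (g t) x

/-- [PerA] The same for families of admissible maps. -/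
def St_PerA : Prop :=
  ∀ {n N : ℕ} (b : Module.Basis (Fin N) ℝ (Phase n)) (j : Fin N) (T : Type) [TopologicalSpace T]
    (S' : Set (Phase n)), Cyl b ((j : ℕ) + 1) S' → ∀ c δ : ℝ, 0 < δ → δ ≤ 1 / 2 →
    ∀ g : T → Phase n → Phase n, ALevS b (j : ℕ) (cut b j (δ - c) (1 - δ - c) S') g →
    ALevS b ((j : ℕ) + 1) S' (fun t => perM b j c (g t))

/-! ### The kernel of the loop detector -/

/-- [PhNull] If the loop detector vanishes on `u`, then `Gr u φ` is null homotopic for every slowly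
varying phase `φ` which is `≤ 0` or `≥ 1` near `±∞`. Proof: `M0` from [PhLin] and `IsDS`, `ε0` small.
Cases (ends of `φ` at `-∞`, `+∞`): (`≤ 0`, `≤ 0`): [PhLin] with `φ1 = 0` and `grid_zero`;
(`≥ 1`, `≥ 1`): `φ1 = 1` and `grid_one`; (`≤ 0`, `≥ 1`): [PhLin] with `φ1 = upPh ε`, then `IsDS`;
(`≥ 1`, `≤ 0`): by [PhLin] we may assume that `φ = 1` for `ξ ≤ p` and `φ = 0` for `ξ ≥ q`; let
`ψ` be a slow increasing phase, `0` for `ξ ≤ p' - c`, `1` for `ξ ≥ p'`, `p' ≤ p` an integer, and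
`H` the null homotopy of `Gr u ψ` (case 3; take `ψ = ψ₀ (· - p')`, the conjugate of a null homotopy
of `Gr u ψ₀` by the translation by `p' b_j`, `u` commutes with it; `p'` so small that `H` is the
identity for `ξ_j ≥ p`); then `Gr u φ ~ H_{1 - s} + Gr u φ - id ~ Gr u (ψ + φ - 1) ~ id` (case 1);
at each point one of the two maps `H_s`, `Gr u φ` is the identity nearby. -/
def St_PhNull : Prop :=
  ∀ {n N : ℕ} (b : Module.Basis (Fin N) ℝ (Phase n)) (j : Fin N) (T : Type) [TopologicalSpace T]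
    [CompactSpace T] (T0 : Set T) (S' : Set (Phase n)), Cyl b ((j : ℕ) + 1) S' →
    ∀ u : T × I → Equiv.Perm (Phase n), LevS b ((j : ℕ) + 1) S' u → (∀ p ∈ relI T0, u p = 1) →
    IsDS b j S' T0 u (fun _ => 1) →
    ∃ M0 : ℕ, 0 < M0 ∧ ∀ M ≥ M0, ∃ ε0 > 0, ∀ (φ : ℝ → ℝ) (p q : ℝ), ContDiff ℝ ∞ φ →
      (∀ ξ, |deriv φ ξ| ≤ ε0) → p ≤ q →
      ((∀ ξ ≤ p, φ ξ ≤ 0) ∨ ∀ ξ ≤ p, 1 ≤ φ ξ) → ((∀ ξ ≥ q, φ ξ ≤ 0) ∨ ∀ ξ ≥ q, 1 ≤ φ ξ) →
      ∃ R : ℝ, 0 ≤ R ∧ AHS b (j : ℕ) (cut b j (p - R) (q + R) S') T0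
        (Gr b j M (fun p x => u p x) (fun _ => φ)) (fun _ x => x)

/-- [SeqPh] Let `θ` be a slow function of period `l` with values in `[0, 1]`. In the cover with
`l b_j` instead of `b_j` the loops `u` are homotopic to the loops with the phases
`Φ_a = tau a * θ + tau' a * (1 - θ)`. Proof: [GrAdm] for `u` (twice): first the convex combinations
of `u (t, a) x` and `grid M (u (t, ·)) a x` (constant phase `a`), then `Gr` with the phases
`(1 - s) a + s Φ_a` (slow because `|tau - tau'| ≤ 1`); they are `l`-periodic in `ξ`, and `≤ 0`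
resp. `≥ 1` for `a = 0`, `a = 1`. -/
def St_SeqPh : Prop :=
  ∀ {n N : ℕ} (b : Module.Basis (Fin N) ℝ (Phase n)) (j : Fin N) (T : Type) [TopologicalSpace T]
    [CompactSpace T] (T0 : Set T) (S' : Set (Phase n)), Cyl b ((j : ℕ) + 1) S' →
    ∀ u : T × I → Equiv.Perm (Phase n), LevS b ((j : ℕ) + 1) S' u → (∀ p ∈ relI T0, u p = 1) →
    ∃ M0 : ℕ, 0 < M0 ∧ ∀ M ≥ M0, ∃ ε0 > 0, ∀ (l : ℕ+) (θ : ℝ → ℝ), ContDiff ℝ ∞ θ →
      (∀ ξ, |deriv θ ξ| ≤ ε0) → (∀ ξ, 0 ≤ θ ξ ∧ θ ξ ≤ 1) → (∀ ξ, θ (ξ + ((l : ℕ) : ℝ)) = θ ξ) →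
      AHS (scal b (one1 j l)) ((j : ℕ) + 1) S' (relI T0) (fun p x => u p x)
        (Gr b j M (fun (q : (T × I) × I) x => u (q.1.1, q.2) x)
          (fun p ξ => (tau p.2 : ℝ) * θ ξ + (tau' p.2 : ℝ) * (1 - θ ξ)))

/-- [S1L] If the loop detector vanishes on `u`, then in a large cover `u` is homotopic to the
concatenation of the periodizations of two families `y1`, `y2` of loops of admissible maps; `y2` is
supported in a strip whose width does not depend on the cover. Proof (see also `ec5_BHS.md`, S1):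
fix `M` and a small `ε'` from [PhNull], [SeqPh], [GrAdm]. `up ξ = σ (ε' ξ)`, `dn ξ = σ (- ε' ξ)`
(`σ = Real.smoothTransition`), null homotopies `H⁺` of `Gr u up` in the strip `(-R, 1/ε' + R)`, `H⁻`
of `Gr u dn` in `(-1/ε' - R, R)` ([PhNull]). Let `r ≥ R + 2` be an integer, `l ≥ 4 r + 4/ε'`,
`θ₀ ξ = up (ξ - r) + dn (ξ - (l - r)) - 1`, `θ` its periodic extension (from `[0, l]`), `β ξ = 1 - θ ξ`
for `|ξ| ≤ l / 2`, `0` otherwise. Level `j` families: `A s = Gr u (s θ₀)`,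
`N s = conj_r H⁺_s + conj_{l - r} H⁻_s - id` (`N 0 = Gr u θ₀ = A 1`, `N 1 = id`),
`B s = Gr u (1 - (1 - s) β)`, `N' s = conj_{-r} H⁻_s + conj_r H⁺_s - id` (`N' 0 = B 0`),
`y1 (t, a) = A (tau a) + N (tau' a) - A 1`, `y2 (t, a) = N' (1 - tau a) + B (tau' a) - B 0`.
With `P`, `P'` the periodizations with offsets `0`, `1/2`: `P (A s) = Gr u (s θ)`,
`P' (B s) = Gr u (1 - (1 - s) (1 - θ))`, `P (N s) = P' (N' s)`, `P (A 1) = P' (B 0) =: m`. The
homotopy is [SeqPh], then `P (A ((1-s) tau a + s c₁ a)) + P' (B ((1-s) tau' a + s c₃ a)) - m`, then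
`P (A (c₁ a)) + P (N (s c₂ a)) + P' (B (c₃ a)) - 2 m` with `c₁ a = pr (4 a)`,
`c₂ a = pr (min (4 a - 1) (3 - 4 a))`, `c₃ a = pr (4 a - 3)`: at each `a` at most one of the three
terms differs from `m`; at `s = 1` it is `P (y1 (tau a)) + P' (y2 (tau' a)) - id`. All maps are
admissible because at each point and parameter they are locally equal to one of the maps `Gr`, `H`. -/
def St_S1L : Prop :=
  ∀ {n N : ℕ} (b : Module.Basis (Fin N) ℝ (Phase n)) (j : Fin N) (T : Type) [TopologicalSpace T]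
    [CompactSpace T] (T0 : Set T) (S' : Set (Phase n)), Cyl b ((j : ℕ) + 1) S' →
    ∀ u : T × I → Equiv.Perm (Phase n), LevS b ((j : ℕ) + 1) S' u → (∀ p ∈ relI T0, u p = 1) →
    IsDS b j S' T0 u (fun _ => 1) →
    ∃ (R : ℝ) (l0 : ℕ), 0 ≤ R ∧ ∀ l : ℕ+, l0 ≤ (l : ℕ) →
      2 * R + 2 ≤ ((l : ℕ) : ℝ) ∧ ∃ y1 y2 : T × I → Phase n → Phase n,
      ALevS b (j : ℕ) (cut b j 1 (((l : ℕ) : ℝ) - 1) S') y1 ∧
      ALevS b (j : ℕ) (cut b j (-R) R S') y2 ∧
      (∀ p ∈ relI T0, ∀ x, y1 p x = x ∧ y2 p x = x) ∧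
      AHS (scal b (one1 j l)) ((j : ℕ) + 1) S' (relI T0) (fun p x => u p x)
        (fun p x => perM (scal b (one1 j l)) j 0 (y1 (p.1, tau p.2)) x +
          perM (scal b (one1 j l)) j (1 / 2) (y2 (p.1, tau' p.2)) x - x)

/-- [S1] If the loop detector vanishes on `u`, then in a large cover `u` is homotopic to the
periodization of a family of loops. Proof: [S1L]; `y1 ~ z1`, `y2 ~ z2` with `z1`, `z2` symplectic
([SymplS] at level `j`, with the same supports, relative to `relI T0`); periodize these homotopies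
([PerA]); `P y1 ∘ tau + P' y2 ∘ tau' - id ~ P z1 ∘ tau + P' z2 ∘ tau' - id = P z1 ∘ tau * P' z2 ∘ tau'`
(at each parameter one of the two is the identity); [SymplS] at level `j + 1` gives `LHS`; then
[EH]: `~ P z1 * P' z2`; conjugation by the translations by `s k b_j`, `0 ≤ s ≤ 1`, `k` an integer
with `R + 1 ≤ k ≤ l - R - 1`, gives `P' z2 ~ P (cj (k b_j) z2)`; finally
`y = z1 * cj (k b_j) z2`, `P z1 * P (cj (k b_j) z2) = P y`. -/
def St_S1 : Prop :=
  ∀ {n N : ℕ} (b : Module.Basis (Fin N) ℝ (Phase n)) (j : Fin N) (T : Type) [TopologicalSpace T]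
    [CompactSpace T] (T0 : Set T) (S' : Set (Phase n)), Cyl b ((j : ℕ) + 1) S' →
    ∀ u : T × I → Equiv.Perm (Phase n), LevS b ((j : ℕ) + 1) S' u → (∀ p ∈ relI T0, u p = 1) →
    IsDS b j S' T0 u (fun _ => 1) →
    ∃ l0 : ℕ, ∀ l : ℕ+, l0 ≤ (l : ℕ) → ∃ y P : T × I → Equiv.Perm (Phase n),
      LevS b (j : ℕ) (cut b j 1 (((l : ℕ) : ℝ) - 1) S') y ∧ (∀ p ∈ relI T0, y p = 1) ∧
      LevS (scal b (one1 j l)) ((j : ℕ) + 1) S' P ∧
      (∀ p x, P p x = perM (scal b (one1 j l)) j 0 (y p) x) ∧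
      LHS (scal b (one1 j l)) ((j : ℕ) + 1) S' (relI T0) u P

/-- [Dil0] Null homotopies of compactly supported families can be made inside a box. Proof: `S` is
compact and convex with nonempty interior; conjugate the homotopy with the dilations with centre in
the interior of `S` (as in `TOL.thm_DilRel`, but for families `LevS b 0`, where no topology on
`SympCt` is needed; or deduce it from `TOL.thm_DilRel`, `Lev.continuous_toSymp`,
`Helper17.CF_of_continuous`). -/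
def St_Dil0 : Prop :=
  ∀ {n N : ℕ} (b : Module.Basis (Fin N) ℝ (Phase n)) (p q : Fin N → ℝ), (∀ i, p i < q i) →
    ∀ (T : Type) [TopologicalSpace T] [CompactSpace T] (T0 : Set T)
    (u : T → Equiv.Perm (Phase n)), LevS b 0 (bx b 0 p q) u → (∀ t ∈ T0, u t = 1) →
    LH b 0 T0 u (fun _ => 1) → LHS b 0 (bx b 0 p q) T0 u (fun _ => 1)

/-! ### Products of families and reparametrisations -/

/-- [EH] Families of loops can be multiplied by concatenation. First part: the homotopy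
`u (t, (1 - s) a + s tau a) * v (t, (1 - s) a + s tau' a)`. Second part (for a pair `(T, T0)` with
`EHP T0`): `u v ~ (u ∘ α₁) (v ∘ β₁) = (v ∘ β₁) (u ∘ α₁) ~ v u`, where `α₁ = α (·, 1)`; at each `t` one of
the two factors in the middle is `1` (use [LHSc]). -/
def St_EH : Prop :=
  ∀ {n N : ℕ} (b : Module.Basis (Fin N) ℝ (Phase n)) (j : ℕ) (S : Set (Phase n)) (T : Type)
    [TopologicalSpace T] (T0 : Set T),
    (∀ u v : T × I → Equiv.Perm (Phase n), LevS b j S u → LevS b j S v →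
      (∀ p ∈ relI T0, u p = 1) → (∀ p ∈ relI T0, v p = 1) →
      LHS b j S (relI T0) (fun p => u p * v p)
        (fun p => u (p.1, tau p.2) * v (p.1, tau' p.2))) ∧
    ∀ u v : T → Equiv.Perm (Phase n), EHP T0 → LevS b j S u → LevS b j S v →
      (∀ t ∈ T0, u t = 1) → (∀ t ∈ T0, v t = 1) →
      LHS b j S T0 (fun t => u t * v t) (fun t => v t * u t)

/-- [EHpow] The `l`-fold concatenation of a family of loops is homotopic to its `l`-th power.
Proof: the homotopy `∏_{k < l} u (t, (1 - s) a + s pr (l a - k))` (from the power to the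
concatenation); induction on the length of the list for `LevS`. -/
def St_EHpow : Prop :=
  ∀ {n N : ℕ} (b : Module.Basis (Fin N) ℝ (Phase n)) (j : ℕ) (S : Set (Phase n)) (T : Type)
    [TopologicalSpace T] (T0 : Set T) (u : T × I → Equiv.Perm (Phase n)) (l : ℕ),
    LevS b j S u → (∀ p ∈ relI T0, u p = 1) →
    LHS b j S (relI T0) (fun p => (u p) ^ l)
      (fun p => (List.ofFn fun k : Fin l => u (p.1, pr ((l : ℝ) * p.2 - (k : ℕ)))).prod)

/-- [LamMul] Commutators with translations are multiplicative on families over a pair with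
`EHP T0`. Proof: `cm (a b_i) (u (α (t, s)) * v (β (t, s)))`, `0 ≤ s ≤ 1`; at `s = 1` one of the factors
is `1`, so it is equal to `cm (a b_i) (u (α (t, 1))) * cm (a b_i) (v (β (t, 1)))` (`TOL.cm_one`); then
`cm (a b_i) (u (α (t, s))) * cm (a b_i) (v (β (t, s)))` from `s = 1` to `s = 0` ([LHSc]). -/
def St_LamMul : Prop :=
  ∀ {n N : ℕ} (b : Module.Basis (Fin N) ℝ (Phase n)) (j : ℕ) (S : Set (Phase n)), Cyl b j S →
    ∀ (i : Fin N), (i : ℕ) < j → ∀ (T : Type) [TopologicalSpace T] (T0 : Set T)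
    (u v : T → Equiv.Perm (Phase n)), EHP T0 → LevS b j S u → LevS b j S v →
      (∀ t ∈ T0, u t = 1) → (∀ t ∈ T0, v t = 1) →
      LHS b j S (relI T0) (fun p => cm ((p.2 : ℝ) • b i) (u p.1 * v p.1))
        (fun p => cm ((p.2 : ℝ) • b i) (u p.1) * cm ((p.2 : ℝ) • b i) (v p.1))

/-- [LamPow] Commutators with the translations of a cover. Proof: let `x` commute with `b j`;
for `k ≤ l a ≤ k + 1` one has `cm (l a b_j) x = cm ((l a - k) b_j) x` (the translation by `k b_j`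
commutes with `x`), `cm (pr (l a - i) b_j) x = 1` for `i < k` (`TOL.cm_eq_one`) and for `i > k`
(`TOL.cm_zero`), so `cm (a (l b_j)) x = ∏_{i < l} cm (pr (l a - i) b_j) x`; [EHpow], [LHSc]; a family at
level `j + 1` for `b` is one for `scal b L` (`Cyl` as well). -/
def St_LamPow : Prop :=
  ∀ {n N : ℕ} (b : Module.Basis (Fin N) ℝ (Phase n)) (j : Fin N) (S : Set (Phase n)),
    Cyl b ((j : ℕ) + 1) S → ∀ (l : ℕ+) (T : Type) [TopologicalSpace T] (T0 : Set T)
    (x : T → Equiv.Perm (Phase n)), LevS b ((j : ℕ) + 1) S x → (∀ t ∈ T0, x t = 1) →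
      LHS b ((j : ℕ) + 1) S (relI T0)
        (fun p => cm ((p.2 : ℝ) • scal b (one1 j l) j) (x p.1))
        (fun p => (cm ((p.2 : ℝ) • b j) (x p.1)) ^ (l : ℕ))

/-- [Sep] At a level `j < N` two families can be separated: `v` is homotopic to a family `v'` with
supports disjoint from those of `u`; in particular `u v ~ v u`. Proof: `k = N - 1 ≥ j`;
`v' t = cj (c b_k) (v t)` with `c = 2 R + 1`, homotopy `cj (s c b_k) (v t)`, `0 ≤ s ≤ 1` (`LevS.cj`,
radius `R + |c|`); the points moved by `u` resp. `v` have `|ξ_k| ≤ R`. Last part: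
`u v ~ u v' = v' u ~ v u` (`LHS.mul`, permutations with disjoint supports commute), [LHSc]. -/
def St_Sep : Prop :=
  ∀ {n N : ℕ} (b : Module.Basis (Fin N) ℝ (Phase n)) (j : ℕ), j < N → ∀ (R : ℝ) (T : Type)
    [TopologicalSpace T] (T0 : Set T) (u v : T → Equiv.Perm (Phase n)), Lev b j R u →
    Lev b j R v → (∀ t ∈ T0, u t = 1) → (∀ t ∈ T0, v t = 1) →
    (∃ c : ℝ, ∃ k : Fin N, j ≤ (k : ℕ) ∧ LH b j T0 v (fun t => cj (c • b k) (v t)) ∧
      ∀ t t' x, u t x ≠ x → cj (c • b k) (v t') x = x) ∧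
    LH b j T0 (fun t => u t * v t) (fun t => v t * u t)

end Pool.Agent.BHS
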