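import Mathlib
import Pool.Agent.BHS.Stmts
import Pool.Agent.BHS.Basic
import Pool.Agent.TOL.AHc

/-!
# BHS / AHSc: symmetry, transitivity and composition for `AHS`
-/

set_option maxSynthPendingDepth 3

open scoped ContDiff Distributions Topology unitInterval
open Set Function TopologicalSpace

namespace Pool.Agent.BHS

open Pool.Agent.Helper17 Pool.Agent.TOR Pool.Agent.TOL

section ahsc

variable {n N : ℕ} {b : Module.Basis (Fin N) ℝ (Phase n)}

lemma AHSc_symm {j : ℕ} {S : Set (Phase n)} {T : Type} [TopologicalSpace T] {T0 : Set T}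
    {F0 F1 : T → Phase n → Phase n} (h : AHS b j S T0 F0 F1) : AHS b j S T0 F1 F0 := by
  obtain ⟨F, hF, h0, h1, hr⟩ := h
  have hc : Continuous (fun p : T × I => ((p.1, unitInterval.symm p.2) : T × I)) :=
    continuous_fst.prodMk (unitInterval.continuous_symm.comp continuous_snd)
  refine ⟨fun p => F (p.1, unitInterval.symm p.2), ⟨hF.cf.base hc, fun p => hF.adm _,
    fun p => hF.per _, fun p => hF.supp _⟩, ?_, ?_, ?_⟩
  · intro t x
    change F (t, unitInterval.symm 0) x = _
    rw [unitInterval.symm_zero]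
    exact h1 t x
  · intro t x
    change F (t, unitInterval.symm 1) x = _
    rw [unitInterval.symm_one]
    exact h0 t x
  · intro t ht s x
    exact hr t ht _ x

lemma AHSc_trans {j : ℕ} {S : Set (Phase n)} {T : Type} [TopologicalSpace T] {T0 : Set T}
    {F0 F1 F2 : T → Phase n → Phase n} (h : AHS b j S T0 F0 F1) (h' : AHS b j S T0 F1 F2) :
    AHS b j S T0 F0 F2 := by
  obtain ⟨F, hF, h0, h1, hr⟩ := h
  obtain ⟨G, hG, h0', h1', hr'⟩ := h'
  have hFG : ∀ t, F (t, 1) = G (t, 0) := by
    intro t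
    funext x
    rw [h1, h0']
  refine ⟨fun p => if (p.2 : ℝ) ≤ 1 / 2 then F (p.1, half1 p.2) else
      G (p.1, half2 p.2), ⟨ahc_glue hF.cf hG.cf hFG, ?_, ?_, ?_⟩, ?_, ?_, ?_⟩
  · intro p x
    beta_reduce
    split_ifs
    · exact hF.adm _ x
    · exact hG.adm _ x
  · intro p i hi x
    beta_reduce
    split_ifs
    · exact hF.per _ i hi x
    · exact hG.per _ i hi x
  · intro p x hx
    split_ifs
    · exact hF.supp _ x hx
    · exact hG.supp _ x hx
  · intro t x
    beta_reduce
    rw [if_pos (by norm_num), ← h0]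
    have e : half1 0 = 0 := by
      rw [half1]
      norm_num
    rw [e]
  · intro t x
    beta_reduce
    rw [if_neg (by norm_num), ← h1']
    have e : half2 1 = 1 := by
      rw [half2]
      norm_num
    rw [e]
  · intro t ht s x
    beta_reduce
    split_ifs
    · exact hr t ht _ x
    · exact hr' t ht _ x

lemma AHSc_comp {j : ℕ} {S : Set (Phase n)} {T : Type} [TopologicalSpace T] {T0 : Set T}
    {F0 F1 : T → Phase n → Phase n} {g : T → Equiv.Perm (Phase n)} (hg : LevS b j S g)
    (hg0 : ∀ t ∈ T0, g t = 1) (h : AHS b j S T0 F0 F1) :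
    AHS b j S T0 (fun t x => F0 t (g t x)) (fun t x => F1 t (g t x)) := by
  obtain ⟨F, hF, h0, h1, hr⟩ := h
  refine ⟨fun p x => F p (g p.1 x), ⟨?_, ?_, ?_, ?_⟩, ?_, ?_, ?_⟩
  · exact hF.cf.comp (hg.cf.base continuous_fst)
  · intro p x
    have e : fderiv ℝ (fun x => F p (g p.1 x)) x =
        (fderiv ℝ (F p) (g p.1 x)).comp (fderiv ℝ (g p.1) x) :=
      fderiv_comp x (hF.cf.differentiable p _) (hg.cf.differentiable p.1 x)
    rw [e]
    exact (hF.adm p _).comp_symplectic (hg.symp p.1 x)
  · intro p i hi x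
    beta_reduce
    rw [hg.per p.1 i hi, hF.per p i hi]
  · intro p x hx
    rw [hg.supp p.1 x hx,
      hF.supp p x hx]
  · intro t x
    exact h0 t _
  · intro t x
    exact h1 t _
  · intro t ht s x
    beta_reduce
    rw [hg0 t ht]
    exact hr t ht s x

end ahsc

theorem thm_AHSc : St_AHSc := by
  intro n N b j S T _ T0 F0 F1 F2
  exact ⟨AHSc_symm, AHSc_trans, fun g hg hg0 h => AHSc_comp hg hg0 h⟩

end Pool.Agent.BHS
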