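import Mathlib
import Pool.Agent.BHS.Stmts
import Pool.Agent.BHS.Basic
import Pool.Agent.TOL.Bij

/-!
# BHS / BijS: smooth periodic families of symplectic maps consist of diffeomorphisms
-/

set_option maxSynthPendingDepth 3

open scoped ContDiff Distributions Topology unitInterval
open Set Function TopologicalSpace Filter

namespace Pool.Agent.BHS

open Pool.Agent.Helper17 Pool.Agent.TOR Pool.Agent.TOL

/-- A smooth map with injective derivatives and bounded displacement is bijective. -/
lemma BijS_bij {E : Type*} [NormedAddCommGroup E] [NormedSpace ℝ E] [FiniteDimensional ℝ E]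
    {f : E → E} (hf : ContDiff ℝ ∞ f) (hinj : ∀ x, Injective (fderiv ℝ f x)) {C : ℝ}
    (hC : ∀ x, ‖f x - x‖ ≤ C) : Bijective f := by
  have : ProperSpace E := FiniteDimensional.proper ℝ E
  have hcont : Continuous f := hf.continuous
  have hprop : IsProperMap f := by
    rw [isProperMap_iff_tendsto_cocompact]
    refine ⟨hcont, ?_⟩
    rw [← Metric.cobounded_eq_cocompact, ← tendsto_norm_atTop_iff_cobounded]
    have h1 : Tendsto (fun x : E => ‖x‖ - C) (Bornology.cobounded E) atTop :=
      tendsto_atTop_add_const_right _ _ tendsto_norm_cobounded_atTop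
    refine tendsto_atTop_mono (fun x => ?_) h1
    have h1 := hC x
    have h2 : ‖x‖ ≤ ‖f x‖ + ‖f x - x‖ := by
      have := norm_sub_le (f x) (f x - x)
      rwa [sub_sub_cancel] at this
    linarith
  have hclosed : IsClosedMap f := hprop.isClosedMap
  have hφ : ∀ x : E, ∃ φ : OpenPartialHomeomorph E E, x ∈ φ.source ∧ φ = f := fun x =>
    ⟨(hasStrictFDerivAt_cle hf hinj x).toOpenPartialHomeomorph f,
      (hasStrictFDerivAt_cle hf hinj x).mem_toOpenPartialHomeomorph_source, rfl⟩
  have hcov : IsCoveringMap f := by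
    intro y
    refine hclosed.isEvenlyCovered_of_openPartialHomeomorph ?_ fun e _ => hφ e
    exact (hprop.isCompact_preimage isCompact_singleton).finite
      (.of_openPartialHomeomorph f subset_rfl fun e _ => hφ e)
  obtain ⟨s, ⟨hs0, hs⟩, -⟩ := hcov.existsUnique_continuousMap_lifts (ContinuousMap.id E)
    (f 0) 0 rfl
  have hr : ∀ y, f (s y) = y := fun y => congrFun hs y
  have hl : s ∘ f = id := by
    refine hcov.eq_of_comp_eq (s.continuous.comp hcont) continuous_id ?_ 0 ?_
    · funext x
      exact hr (f x)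
    · exact hs0
  exact ⟨fun a b hab => by
    have h1 := congrFun hl a
    have h2 := congrFun hl b
    simp only [comp_apply, id_eq] at h1 h2
    rw [← h1, ← h2, hab], fun y => ⟨s y, hr y⟩⟩

theorem thm_BijS : St_BijS := by
  intro n N b j T _ _ S hS _ F hF hsymp hper hsupp
  obtain ⟨R, hR⟩ := hS.bdd
  obtain ⟨C, hC⟩ : ∃ C : ℝ, ∀ t x, ‖F t x - x‖ ≤ C := by
    obtain ⟨C, hC⟩ := thm_Box b j R T (Phase n) (fun p => F p.1 p.2 - p.2)
      (hF.continuous.sub continuous_snd) (by
        intro p x i hi
        simp only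
        rw [hper p i hi x]
        abel)
    refine ⟨max C 0, fun t x => ?_⟩
    by_cases hx : x ∈ S
    · exact (hC t x (hR hx)).trans (le_max_left _ _)
    · rw [hsupp t x hx, sub_self, norm_zero]
      exact le_max_right _ _
  have hinj : ∀ t x, Injective (fderiv ℝ (F t) x) := by
    intro t x
    rw [injective_iff_map_eq_zero]
    intro u hu
    apply eq_zero_of_omegaStd
    intro v
    rw [← hsymp t x u v, hu, omegaStd_zero_left]
  have hbij : ∀ t, Bijective (F t) := fun t => BijS_bij (hF.contDiff t) (hinj t) (hC t)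
  refine ⟨fun t => Equiv.ofBijective (F t) (hbij t), ⟨hF, ?_, hsymp, hper, hsupp⟩, fun t x => rfl⟩
  exact tor_CF_inverse hF hC hinj
    (fun t x => (Equiv.ofBijective (F t) (hbij t)).apply_symm_apply x)
    (fun t x => (Equiv.ofBijective (F t) (hbij t)).symm_apply_apply x)

end Pool.Agent.BHS
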