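import Mathlib
import Pool.Agent.Helper17.SympBase

set_option maxSynthPendingDepth 3

open scoped unitInterval ContDiff
open Set TopologicalSpace

namespace Pool.Agent.BHS.Claim

open Pool.Agent.Helper17

/-! ### Groups of homotopy classes of maps to a group -/

/-- Groups with a topology such that the products and the inverses of continuous maps from compact
spaces are continuous (the group `Symp_ct(ℝ^{2n})` with the direct limit topology is of this kind). -/
class KGroup (X : Type) [TopologicalSpace X] [Group X] : Prop where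
  mul : ∀ (T : Type) [TopologicalSpace T] [CompactSpace T] (f g : C(T, X)),
    Continuous fun t => f t * g t
  inv : ∀ (T : Type) [TopologicalSpace T] [CompactSpace T] (f : C(T, X)),
    Continuous fun t => (f t)⁻¹

section classes

variable {T : Type} [TopologicalSpace T] (T0 : Set T) (m : ℕ) (X : Type) [TopologicalSpace X]
  [Group X]

/-- The subset `T0 × I^m ∪ T × ∂I^m` of `T × I^m`. -/
def bdry {T : Type} (T0 : Set T) (m : ℕ) : Set (T × (Fin m → I)) :=
  {p | p.1 ∈ T0 ∨ p.2 ∈ Cube.boundary (Fin m)}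

/-- The continuous maps `T × I^m → X` equal to `1` on `T0 × I^m ∪ T × ∂I^m`. -/
@[ext] structure Fam where
  /-- the map -/
  map : C(T × (Fin m → I), X)
  rel : ∀ p ∈ bdry T0 m, map p = 1

/-- Homotopy relative to `T0 × I^m ∪ T × ∂I^m`. -/
instance Fam.setoid : Setoid (Fam T0 m X) where
  r f g := f.map.HomotopicRel g.map (bdry T0 m)
  iseqv := ⟨fun f => .refl f.map, fun h => h.symm, fun h h' => h.trans h'⟩

/-- The homotopy classes of the maps `T × I^m → X` equal to `1` on `T0 × I^m ∪ T × ∂I^m`, relative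
to this subset. If `T` is a point and `T0` is empty, this is `π_m(X)`. -/
def HG : Type := Quotient (Fam.setoid T0 m X)

variable {T0 m X}

/-- The class of a map. -/
def Fam.cls (f : Fam T0 m X) : HG T0 m X := Quotient.mk _ f

variable [CompactSpace T] [KGroup X]

/-- The product of the maps. -/
def Fam.mul (f g : Fam T0 m X) : Fam T0 m X :=
  ⟨⟨fun p => f.map p * g.map p, KGroup.mul _ f.map g.map⟩, fun p hp => by
    change f.map p * g.map p = 1
    rw [f.rel p hp, g.rel p hp, mul_one]⟩

/-- The inverse of the map. -/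
def Fam.inv (f : Fam T0 m X) : Fam T0 m X :=
  ⟨⟨fun p => (f.map p)⁻¹, KGroup.inv _ f.map⟩, fun p hp => by
    change (f.map p)⁻¹ = 1
    rw [f.rel p hp, inv_one]⟩

/-- The constant map. -/
def Fam.one : Fam T0 m X := ⟨⟨fun _ => 1, continuous_const⟩, fun _ _ => rfl⟩

lemma Fam.mul_hom {f f' g g' : Fam T0 m X} (h : f ≈ f') (k : g ≈ g') : f.mul g ≈ f'.mul g' := by
  obtain ⟨H⟩ := h
  obtain ⟨H'⟩ := k
  refine ⟨⟨⟨⟨fun q => H q * H' q, KGroup.mul _ H.toContinuousMap H'.toContinuousMap⟩,
    fun p => ?_, fun p => ?_⟩, fun s p hp => ?_⟩⟩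
  · change H (0, p) * H' (0, p) = f.map p * g.map p
    rw [H.apply_zero, H'.apply_zero]
  · change H (1, p) * H' (1, p) = f'.map p * g'.map p
    rw [H.apply_one, H'.apply_one]
  · change H (s, p) * H' (s, p) = f.map p * g.map p
    rw [H.eq_fst s hp, H'.eq_fst s hp]

lemma Fam.inv_hom {f f' : Fam T0 m X} (h : f ≈ f') : f.inv ≈ f'.inv := by
  obtain ⟨H⟩ := h
  refine ⟨⟨⟨⟨fun q => (H q)⁻¹, KGroup.inv _ H.toContinuousMap⟩, fun p => ?_, fun p => ?_⟩,
    fun s p hp => ?_⟩⟩
  · change (H (0, p))⁻¹ = (f.map p)⁻¹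
    rw [H.apply_zero]
  · change (H (1, p))⁻¹ = (f'.map p)⁻¹
    rw [H.apply_one]
  · change (H (s, p))⁻¹ = (f.map p)⁻¹
    rw [H.eq_fst s hp]

/-- The product of classes. -/
instance HG.instMul : Mul (HG T0 m X) :=
  ⟨Quotient.map₂ Fam.mul fun _ _ h _ _ k => Fam.mul_hom h k⟩

/-- The class of the constant map. -/
instance HG.instOne : One (HG T0 m X) := ⟨Quotient.mk _ Fam.one⟩

/-- The inverse of a class. -/
instance HG.instInv : Inv (HG T0 m X) := ⟨Quotient.map Fam.inv fun _ _ h => Fam.inv_hom h⟩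

lemma HG.assoc (a b c : HG T0 m X) : a * b * c = a * (b * c) := by
  obtain ⟨f⟩ := a
  obtain ⟨g⟩ := b
  obtain ⟨h⟩ := c
  exact congrArg (Quotient.mk _) (Fam.ext (ContinuousMap.ext fun p => mul_assoc _ _ _))

lemma HG.one_mul' (a : HG T0 m X) : 1 * a = a := by
  obtain ⟨f⟩ := a
  exact congrArg (Quotient.mk _) (Fam.ext (ContinuousMap.ext fun p => one_mul _))

lemma HG.inv_mul' (a : HG T0 m X) : a⁻¹ * a = 1 := by
  obtain ⟨f⟩ := a
  exact congrArg (Quotient.mk _) (Fam.ext (ContinuousMap.ext fun p => inv_mul_cancel _))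

/-- The group structure is given by the products of the maps in `X`. For `m ≥ 1` and `T` a point it
is the usual one of `π_m(X)`. -/
instance instGroupHG : Group (HG T0 m X) :=
  Group.ofLeftAxioms HG.assoc HG.one_mul' HG.inv_mul'

end classes

section comm

variable {n : ℕ}

/-! ### Iterated commutators -/

/-- The commutator of the translation by `v` and `g`. -/
def tcomm (v : Phase n) (g : Equiv.Perm (Phase n)) : Equiv.Perm (Phase n) :=
  Equiv.addRight v * g * (Equiv.addRight v)⁻¹ * g⁻¹

/-- The iterated commutators of `g` with the translations by `v 0`, `v 1`, …, `v (k - 1)`. -/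
def itcomm : (k : ℕ) → (Fin k → Phase n) → Equiv.Perm (Phase n) → Equiv.Perm (Phase n)
  | 0, _, g => g
  | k + 1, v, g => tcomm (v (Fin.last k)) (itcomm k (fun i => v i.castSucc) g)

end comm

end Pool.Agent.BHS.Claim
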