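import Mathlib
import Pool.Agent.TOL.Basic
import Pool.Agent.TOR.TorTop
import Pool.Agent.TOR.Box
import Pool.Agent.Helper42.Susp.GroupOps

set_option maxSynthPendingDepth 3

open scoped ContDiff Topology unitInterval
open Set Function TopologicalSpace

namespace Pool.Agent.BHS

open Pool.Agent.Helper17 Pool.Agent.TOR Pool.Agent.TOL

variable {n N : ℕ}

lemma torus_mul_cont (b : Module.Basis (Fin N) ℝ (Phase n)) {T : Type} [TopologicalSpace T]
    [CompactSpace T] {f g : T → TorusSymp b} (hf : Continuous f) (hg : Continuous g) :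
    Continuous fun t => f t * g t := by
  obtain ⟨h1, h2, -, -⟩ := thm_TorTop thm_Box b
  rw [h1]
  exact ((h2 T f hf 1).mul (h2 T g hg 1)).cf

lemma torus_inv_cont (b : Module.Basis (Fin N) ℝ (Phase n)) {T : Type} [TopologicalSpace T]
    [CompactSpace T] {f : T → TorusSymp b} (hf : Continuous f) :
    Continuous fun t => (f t)⁻¹ := by
  obtain ⟨h1, h2, -, -⟩ := thm_TorTop thm_Box b
  rw [h1]
  exact (h2 T f hf 1).cf'

end Pool.Agent.BHS
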