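import Mathlib
import Pool.Agent.TOR.Base
import Pool.Agent.BHS.KGr
import Pool.Agent.BHS.HG

set_option maxSynthPendingDepth 3

open scoped unitInterval ContDiff
open Set TopologicalSpace

namespace Pool.Agent.BHS.Claim

open Pool.Agent.Helper17 Pool.Agent.TOR

/-! ### Finite covers of the torus -/

section covers

variable {n N : ℕ}

/-- The basis `(L_i b_i)`; it spans a sublattice, of index `∏ L_i`, of the lattice of `b`. -/
noncomputable def scal (b : Module.Basis (Fin N) ℝ (Phase n)) (L : Fin N → ℕ+) :
    Module.Basis (Fin N) ℝ (Phase n) :=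
  b.unitsSMul fun i => Units.mk0 ((L i : ℕ) : ℝ) (Nat.cast_ne_zero.2 (L i).ne_zero)

lemma scal_apply (b : Module.Basis (Fin N) ℝ (Phase n)) (L : Fin N → ℕ+) (i : Fin N) :
    scal b L i = ((L i : ℕ) : ℝ) • b i :=
  b.unitsSMul_apply i

lemma le_scal (b : Module.Basis (Fin N) ℝ (Phase n)) (L : Fin N → ℕ+) :
    TorusSymp b ≤ TorusSymp (scal b L) := by
  intro ψ hψ
  refine ⟨hψ.1, hψ.2.1, hψ.2.2.1, fun i x => ?_⟩
  have h : ∀ (k : ℕ) (x : Phase n), ψ (x + (k : ℝ) • b i) = ψ x + (k : ℝ) • b i := by
    intro k
    induction k with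
    | zero => intro x; simp
    | succ k ih =>
      intro x
      have h1 : x + ((k + 1 : ℕ) : ℝ) • b i = (x + (k : ℝ) • b i) + b i := by
        push_cast
        rw [add_smul, one_smul, add_assoc]
      rw [h1, hψ.2.2.2, ih]
      push_cast
      rw [add_smul, one_smul, add_assoc]
  rw [scal_apply]
  exact h (L i) x

/-- The inclusion of the group of symplectomorphisms of the torus `ℝ^{2n} / Λ` in the group of
symplectomorphisms of the finite cover of the torus defined by the sublattice spanned by the
`L_i b_i` (a symplectomorphism is sent to its lift to the cover). -/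
noncomputable def lift (b : Module.Basis (Fin N) ℝ (Phase n)) (L : Fin N → ℕ+) :
    C(TorusSymp b, TorusSymp (scal b L)) :=
  ⟨Subgroup.inclusion (le_scal b L),
    continuous_iInf_rng.2 fun k => continuous_induced_rng.2
      (continuous_iff_le_induced.2 (iInf_le _ k))⟩

instance (b : Module.Basis (Fin N) ℝ (Phase n)) : KGroup (TorusSymp b) :=
  ⟨fun _ _ _ f g => torus_mul_cont b f.continuous g.continuous,
    fun _ _ _ f => torus_inv_cont b f.continuous⟩

instance (n : ℕ) : KGroup (SympCt n) :=
  ⟨fun _ _ _ f g => Helper42.continuous_mul_family f.continuous g.continuous,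
    fun _ _ _ f => Helper42.continuous_inv_family f.continuous⟩

variable {T : Type} [TopologicalSpace T] [CompactSpace T] {T0 : Set T} {m : ℕ}

/-- The map of the homotopy classes given by the lift to a finite cover. -/
noncomputable def pull (b : Module.Basis (Fin N) ℝ (Phase n)) (L : Fin N → ℕ+) :
    HG T0 m (TorusSymp b) →* HG T0 m (TorusSymp (scal b L)) where
  toFun := Quotient.map
    (fun f => ⟨(lift b L).comp f.map, fun p hp => by
      change lift b L (f.map p) = 1
      rw [f.rel p hp]
      rfl⟩)
    fun _ _ h => h.map fun H => H.compContinuousMap (lift b L)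
  map_one' := rfl
  map_mul' := by
    rintro ⟨f⟩ ⟨g⟩
    rfl

/-- `x` is the class of the family of the iterated commutators of the periodic extensions of the
`g (t, s)` (`t ∈ T`, `s ∈ I^{m-r}`) with the translations by `θ_1 b_{j_1}`, …, `θ_r b_{j_r}`,
`θ ∈ I^r`, where `J = {j_1 < … < j_r}` and `g` is a family of symplectomorphisms supported in a
compact subset of the open fundamental box whose class in `G = Symp_ct(ℝ^{2n})` is `α`. -/
def IsCommClass (b : Module.Basis (Fin N) ℝ (Phase n)) (J : Finset (Fin N)) (hJ : J.card ≤ m)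
    (α : HG T0 (m - J.card) (SympCt n)) (x : HG T0 m (TorusSymp b)) : Prop :=
  ∃ (K : Compacts (Phase n)) (g : C(T × (Fin (m - J.card) → I), SympSupp n K))
    (a : Fam T0 (m - J.card) (SympCt n)) (u : Fam T0 m (TorusSymp b)),
    (K : Set (Phase n)) ⊆ openBox b ∧ (∀ p, a.map p = (g p).1) ∧ a.cls = α ∧ u.cls = x ∧
      ∀ (t : T) (s : Fin (m - J.card) → I) (θ : Fin J.card → I), ∃ ψ : TorusSymp b,
        IsPer b K (g (t, s)).1 ψ ∧
        (u.map (t, fun i => Fin.append s θ (Fin.cast (Nat.sub_add_cancel hJ).symm i)) :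
            Equiv.Perm (Phase n)) =
          itcomm J.card (fun i => (θ i : ℝ) • b (J.orderEmbOfFin rfl i)) ψ

/-- The largest element of the symmetric difference of `J` and `J'` belongs to `J`. -/
def Above (J J' : Finset (Fin N)) : Prop :=
  ∃ j ∈ J, j ∉ J' ∧ ∀ i, j < i → (i ∈ J ↔ i ∈ J')

end covers

end Pool.Agent.BHS.Claim
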