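import Mathlib
import Pool.Agent.BHS.Claim
import Pool.Agent.BHS.Basic
import Pool.Agent.TOL.Main

set_option maxSynthPendingDepth 3

open scoped ContDiff Topology unitInterval
open Set Function TopologicalSpace

namespace Pool.Agent.BHS

open Pool.Agent.Helper17 Pool.Agent.TOR Pool.Agent.TOL

variable {n N : ℕ}

/-- A topological group `A` of permutations of `ℝ^{2n}` whose continuous families over compact
spaces are exactly the families at level `j`. -/
structure Real (b : Module.Basis (Fin N) ℝ (Phase n)) (j : ℕ) {A : Type} [TopologicalSpace A]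
    [Group A] (ι : A →* Equiv.Perm (Phase n)) : Prop where
  inj : Injective ι
  mem : ∀ (X : Type) [TopologicalSpace X] (R : ℝ) (F : X → Equiv.Perm (Phase n)), Lev b j R F →
    ∀ t, ∃ a, ι a = F t
  cont : ∀ (X : Type) [TopologicalSpace X] [CompactSpace X] (F : X → A),
    Continuous F ↔ ∃ R, Lev b j R (fun t => ι (F t))

lemma real_torus (b : Module.Basis (Fin N) ℝ (Phase n)) :
    Real b N (TorusSymp b).subtype := by
  obtain ⟨h1, h2, -, -⟩ := thm_TorTop thm_Box b
  refine ⟨Subtype.val_injective, ?_, ?_⟩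
  · intro X _ R F hF t
    exact ⟨⟨F t, hF.isTorusSymp t⟩, rfl⟩
  · intro X _ _ F
    constructor
    · intro hF
      exact ⟨0, h2 X F hF 0⟩
    · rintro ⟨R, hF⟩
      rw [h1]
      exact hF.cf

lemma exists_slab_of_compact (b : Module.Basis (Fin N) ℝ (Phase n)) (K : Compacts (Phase n)) :
    ∃ R, (K : Set (Phase n)) ⊆ slab b 0 R := by
  have hc : Continuous (fun x : Phase n => ∑ i : Fin N, |b.repr x i|) :=
    continuous_finset_sum _ fun i _ => (continuous_repr b i).abs
  obtain ⟨R, hR⟩ := K.isCompact.bddAbove_image hc.continuousOn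
  refine ⟨R, fun x hx i _ => ?_⟩
  have h1 : ∑ i : Fin N, |b.repr x i| ≤ R := hR ⟨x, hx, rfl⟩
  exact (Finset.single_le_sum (f := fun i => |b.repr x i|) (fun i _ => abs_nonneg _)
    (Finset.mem_univ i)).trans h1

lemma real_symp (b : Module.Basis (Fin N) ℝ (Phase n)) :
    Real b 0 (SympCt n).subtype := by
  refine ⟨Subtype.val_injective, ?_, ?_⟩
  · intro X _ R F hF t
    exact ⟨⟨F t, hF.isSympCt t⟩, rfl⟩
  · intro X _ _ F
    constructor
    · intro hF
      obtain ⟨h1, K, hK⟩ := CF_of_continuous hF
      obtain ⟨h2, -⟩ := CF_of_continuous (Helper42.continuous_inv_family hF)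
      obtain ⟨R, hR⟩ := exists_slab_of_compact b K
      exact ⟨R, h1, h2, fun t => (F t).2.2.2.1, fun t i hi => absurd hi (Nat.not_lt_zero _),
        fun t x hx => hK t x fun h => hx (hR h)⟩
    · rintro ⟨R, hF⟩
      have h1 := hF.continuous_toSymp
      have h2 : (fun t => toSymp ((SympCt n).subtype (F t))) = F := funext fun t => toSymp_coe _
      rwa [h2] at h1

section real

variable {b : Module.Basis (Fin N) ℝ (Phase n)} {j : ℕ} {A : Type} [TopologicalSpace A]
  [Group A] {ι : A →* Equiv.Perm (Phase n)}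

/-- Homotopies of maps to `A` are homotopies of families at level `j`. -/
lemma Real.homotopic_iff (hι : Real b j ι) {X : Type} [TopologicalSpace X] [CompactSpace X]
    {X0 : Set X} {f g : C(X, A)} (hf : ∀ t ∈ X0, f t = 1) :
    f.HomotopicRel g X0 ↔ LH b j X0 (fun t => ι (f t)) (fun t => ι (g t)) := by
  constructor
  · rintro ⟨H⟩
    have h1 : Continuous (fun p : X × I => H (p.2, p.1)) :=
      H.continuous.comp (continuous_snd.prodMk continuous_fst)
    obtain ⟨R, hR⟩ := (hι.cont _ _).1 h1
    refine ⟨R, _, hR, fun t => ?_, fun t => ?_, fun t ht s => ?_⟩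
    · beta_reduce
      rw [H.apply_zero]
    · beta_reduce
      rw [H.apply_one]
    · beta_reduce
      rw [H.eq_fst s ht]
      exact (congrArg ι (hf t ht)).trans (map_one ι)
  · rintro ⟨R, F, hF, h0, h1, hr⟩
    choose G hG using fun p => hι.mem _ R F hF p
    have hGc : Continuous G := by
      rw [hι.cont]
      refine ⟨R, ?_⟩
      have : (fun p => ι (G p)) = F := funext hG
      rwa [this]
    refine ⟨⟨⟨⟨fun q => G (q.2, q.1), hGc.comp (continuous_snd.prodMk continuous_fst)⟩,
      fun t => ?_, fun t => ?_⟩, fun s t ht => ?_⟩⟩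
    · apply hι.inj
      change ι (G (t, 0)) = ι (f t)
      rw [hG, h0]
    · apply hι.inj
      change ι (G (t, 1)) = ι (g t)
      rw [hG, h1]
    · apply hι.inj
      change ι (G (t, s)) = ι (f t)
      rw [hG, hr t ht s, hf t ht, map_one]

end real

end Pool.Agent.BHS
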