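import Mathlib
import Pool.Agent.BHS.Stmts
import Pool.Agent.BHS.Basic

set_option maxSynthPendingDepth 3

open scoped ContDiff Distributions Topology unitInterval
open Set Function TopologicalSpace

namespace Pool.Agent.BHS

open Pool.Agent.Helper17 Pool.Agent.TOR Pool.Agent.TOL

section lhsc

variable {n N : ℕ} {b : Module.Basis (Fin N) ℝ (Phase n)}

lemma LHS.left {j : ℕ} {S : Set (Phase n)} {T : Type} [TopologicalSpace T] {T0 : Set T}
    {g0 g1 : T → Equiv.Perm (Phase n)} (h : LHS b j S T0 g0 g1) :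
    LevS b j S g0 ∧ ∀ t ∈ T0, g0 t = 1 := by
  obtain ⟨F, hF, h0, h1, hr⟩ := h
  refine ⟨?_, fun t ht => (h0 t).symm.trans (hr t ht 0)⟩
  have := hF.reparam (g := fun t : T => (t, (0 : I))) (continuous_id.prodMk continuous_const)
  rwa [funext h0] at this

lemma LHS.right {j : ℕ} {S : Set (Phase n)} {T : Type} [TopologicalSpace T] {T0 : Set T}
    {g0 g1 : T → Equiv.Perm (Phase n)} (h : LHS b j S T0 g0 g1) :
    LevS b j S g1 ∧ ∀ t ∈ T0, g1 t = 1 := by
  obtain ⟨F, hF, h0, h1, hr⟩ := h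
  refine ⟨?_, fun t ht => (h1 t).symm.trans (hr t ht 1)⟩
  have := hF.reparam (g := fun t : T => (t, (1 : I))) (continuous_id.prodMk continuous_const)
  rwa [funext h1] at this

/-- Symmetry: multiply the homotopy of inverses by the two ends. -/
lemma LHS.symm {j : ℕ} {S : Set (Phase n)} {T : Type} [TopologicalSpace T] {T0 : Set T}
    {g0 g1 : T → Equiv.Perm (Phase n)} (h : LHS b j S T0 g0 g1) : LHS b j S T0 g1 g0 := by
  have h2 := ((LHS.refl h.right.1 h.right.2).mul h.inv).mul (LHS.refl h.left.1 h.left.2)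
  have e1 : (fun t => g1 t * (g0 t)⁻¹ * g0 t) = g1 := by
    funext t
    exact inv_mul_cancel_right _ _
  have e2 : (fun t => g1 t * (g1 t)⁻¹ * g0 t) = g0 := by
    funext t
    rw [mul_inv_cancel, one_mul]
  rwa [e1, e2] at h2

/-- Transitivity: multiply the two homotopies. -/
lemma LHS.trans {j : ℕ} {S : Set (Phase n)} {T : Type} [TopologicalSpace T] {T0 : Set T}
    {g0 g1 g2 : T → Equiv.Perm (Phase n)} (h : LHS b j S T0 g0 g1) (h' : LHS b j S T0 g1 g2) :
    LHS b j S T0 g0 g2 := by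
  have h2 := (h.mul (LHS.refl h.right.1 h.right.2).inv).mul h'
  have e1 : (fun t => g0 t * (g1 t)⁻¹ * g1 t) = g0 := by
    funext t
    exact inv_mul_cancel_right _ _
  have e2 : (fun t => g1 t * (g1 t)⁻¹ * g2 t) = g2 := by
    funext t
    rw [mul_inv_cancel, one_mul]
  rwa [e1, e2] at h2

theorem thm_LHSc : St_LHSc := by
  intro n N b j S T _ T0 g0 g1 g2
  exact ⟨fun h => h.symm, fun h h' => h.trans h'⟩

end lhsc

end Pool.Agent.BHS
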