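import Mathlib
import Pool.Agent.BHS.Stmts
import Pool.Agent.BHS.Basic
import Pool.Agent.BHS.LHSc

set_option maxSynthPendingDepth 3

open scoped ContDiff Distributions Topology unitInterval
open Set Function TopologicalSpace

namespace Pool.Agent.BHS

open Pool.Agent.Helper17 Pool.Agent.TOR Pool.Agent.TOL

section cls

variable {n N : ℕ} {b : Module.Basis (Fin N) ℝ (Phase n)}

/-! ### Homotopies at a level, arbitrary supports -/

lemma slab_le {j : ℕ} {R R' : ℝ} (h : R ≤ R') : slab b j R ⊆ slab b j R' :=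
  fun _ hx i hi => (hx i hi).trans h

lemma lh_refl {j : ℕ} {X : Type} [TopologicalSpace X] {X0 : Set X} {R : ℝ}
    {g : X → Equiv.Perm (Phase n)} (h : Lev b j R g) (h0 : ∀ t ∈ X0, g t = 1) :
    LH b j X0 g g :=
  lh_iff.2 ⟨R, LHS.refl (levS_of_lev h) h0⟩

lemma lh_symm {j : ℕ} {X : Type} [TopologicalSpace X] {X0 : Set X}
    {g0 g1 : X → Equiv.Perm (Phase n)} (h : LH b j X0 g0 g1) : LH b j X0 g1 g0 := by
  obtain ⟨R, h⟩ := lh_iff.1 h
  exact lh_iff.2 ⟨R, h.symm⟩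

lemma lh_trans {j : ℕ} {X : Type} [TopologicalSpace X] {X0 : Set X}
    {g0 g1 g2 : X → Equiv.Perm (Phase n)} (h : LH b j X0 g0 g1) (h' : LH b j X0 g1 g2) :
    LH b j X0 g0 g2 := by
  obtain ⟨R, h⟩ := lh_iff.1 h
  obtain ⟨R', h'⟩ := lh_iff.1 h'
  exact lh_iff.2 ⟨max R R', (h.mono (slab_le (le_max_left _ _))).trans
    (h'.mono (slab_le (le_max_right _ _)))⟩

lemma lh_mul {j : ℕ} {X : Type} [TopologicalSpace X] {X0 : Set X}
    {g0 g1 h0 h1 : X → Equiv.Perm (Phase n)} (h : LH b j X0 g0 g1) (h' : LH b j X0 h0 h1) :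
    LH b j X0 (fun t => g0 t * h0 t) (fun t => g1 t * h1 t) := by
  obtain ⟨R, h⟩ := lh_iff.1 h
  obtain ⟨R', h'⟩ := lh_iff.1 h'
  exact lh_iff.2 ⟨max R R', (h.mono (slab_le (le_max_left _ _))).mul
    (h'.mono (slab_le (le_max_right _ _)))⟩

lemma lh_inv {j : ℕ} {X : Type} [TopologicalSpace X] {X0 : Set X}
    {g0 g1 : X → Equiv.Perm (Phase n)} (h : LH b j X0 g0 g1) :
    LH b j X0 (fun t => (g0 t)⁻¹) (fun t => (g1 t)⁻¹) := by
  obtain ⟨R, h⟩ := lh_iff.1 h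
  exact lh_iff.2 ⟨R, h.inv⟩

lemma lh_reparam {j : ℕ} {X Y : Type} [TopologicalSpace X] [TopologicalSpace Y] {X0 : Set X}
    {Y0 : Set Y} {g0 g1 : X → Equiv.Perm (Phase n)} (h : LH b j X0 g0 g1) {f : Y → X}
    (hf : Continuous f) (hf0 : ∀ t ∈ Y0, f t ∈ X0) :
    LH b j Y0 (fun t => g0 (f t)) (fun t => g1 (f t)) := by
  obtain ⟨R, h⟩ := lh_iff.1 h
  exact lh_iff.2 ⟨R, h.reparam hf hf0⟩

/-! ### Groups of homotopy classes of families -/

variable (b) in
/-- The families at level `j` over `X` which are trivial on `X0`. -/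
def Fam (j : ℕ) (X : Type) [TopologicalSpace X] (X0 : Set X) :
    Subgroup (X → Equiv.Perm (Phase n)) where
  carrier := {F | (∃ R, Lev b j R F) ∧ ∀ t ∈ X0, F t = 1}
  mul_mem' := by
    rintro F G ⟨⟨R, hF⟩, hF0⟩ ⟨⟨R', hG⟩, hG0⟩
    refine ⟨⟨max R R', (hF.mono (le_max_left _ _)).mul (hG.mono (le_max_right _ _))⟩, ?_⟩
    intro t ht
    change F t * G t = 1
    rw [hF0 t ht, hG0 t ht, one_mul]
  one_mem' := ⟨⟨0, (LevS.one j (slab b j 0) X).lev subset_rfl⟩, fun _ _ => rfl⟩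
  inv_mem' := by
    rintro F ⟨⟨R, hF⟩, hF0⟩
    refine ⟨⟨R, hF.inv⟩, ?_⟩
    intro t ht
    change (F t)⁻¹ = 1
    rw [hF0 t ht, inv_one]

lemma mem_Fam {j : ℕ} {X : Type} [TopologicalSpace X] {X0 : Set X}
    {F : X → Equiv.Perm (Phase n)} :
    F ∈ Fam b j X X0 ↔ (∃ R, Lev b j R F) ∧ ∀ t ∈ X0, F t = 1 := Iff.rfl

lemma Fam.refl {j : ℕ} {X : Type} [TopologicalSpace X] {X0 : Set X}
    {F : X → Equiv.Perm (Phase n)} (hF : F ∈ Fam b j X X0) : LH b j X0 F F := by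
  obtain ⟨⟨R, h⟩, h0⟩ := hF
  exact lh_refl h h0

lemma mem_Fam_left {j : ℕ} {X : Type} [TopologicalSpace X] {X0 : Set X}
    {F G : X → Equiv.Perm (Phase n)} (h : LH b j X0 F G) : F ∈ Fam b j X X0 := by
  obtain ⟨R, h⟩ := lh_iff.1 h
  exact ⟨⟨R, h.left.1.lev subset_rfl⟩, h.left.2⟩

lemma mem_Fam_right {j : ℕ} {X : Type} [TopologicalSpace X] {X0 : Set X}
    {F G : X → Equiv.Perm (Phase n)} (h : LH b j X0 F G) : G ∈ Fam b j X X0 :=
  mem_Fam_left (lh_symm h)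

variable (b) in
/-- The null homotopic families. -/
def Nul (j : ℕ) (X : Type) [TopologicalSpace X] (X0 : Set X) : Subgroup (Fam b j X X0) where
  carrier := {F | LH b j X0 F.1 (fun _ => 1)}
  mul_mem' := by
    intro F G hF hG
    have := lh_mul hF hG
    simp only [mul_one] at this
    exact this
  one_mem' := by
    exact Fam.refl (Fam b j X X0).one_mem
  inv_mem' := by
    intro F hF
    have := lh_inv hF
    simp only [inv_one] at this
    exact this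

lemma mem_Nul {j : ℕ} {X : Type} [TopologicalSpace X] {X0 : Set X} {F : Fam b j X X0} :
    F ∈ Nul b j X X0 ↔ LH b j X0 F.1 (fun _ => 1) := Iff.rfl

instance Nul.normal (j : ℕ) (X : Type) [TopologicalSpace X] (X0 : Set X) :
    (Nul b j X X0).Normal := by
  constructor
  intro F hF G
  have h := lh_mul (lh_mul (Fam.refl G.2) hF) (lh_inv (Fam.refl G.2))
  have e : (fun t => G.1 t * (fun _ => (1 : Equiv.Perm (Phase n))) t * (G.1 t)⁻¹) =
      fun _ => 1 := by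
    funext t
    simp
  rw [e] at h
  exact h

variable (b) in
/-- The group of homotopy classes. -/
abbrev Cl (j : ℕ) (X : Type) [TopologicalSpace X] (X0 : Set X) : Type :=
  Fam b j X X0 ⧸ Nul b j X X0

/-- The class of a family. -/
def cl {j : ℕ} {X : Type} [TopologicalSpace X] {X0 : Set X} (F : X → Equiv.Perm (Phase n))
    (hF : F ∈ Fam b j X X0) : Cl b j X X0 :=
  QuotientGroup.mk ⟨F, hF⟩

lemma Cl.exists_rep {j : ℕ} {X : Type} [TopologicalSpace X] {X0 : Set X} (x : Cl b j X X0) :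
    ∃ F, ∃ hF : F ∈ Fam b j X X0, x = cl F hF := by
  obtain ⟨⟨F, hF⟩, rfl⟩ := QuotientGroup.mk_surjective x
  exact ⟨F, hF, rfl⟩

lemma cl_eq_iff {j : ℕ} {X : Type} [TopologicalSpace X] {X0 : Set X}
    {F G : X → Equiv.Perm (Phase n)} (hF : F ∈ Fam b j X X0) (hG : G ∈ Fam b j X X0) :
    cl F hF = cl G hG ↔ LH b j X0 F G := by
  unfold cl
  rw [QuotientGroup.eq]
  rw [mem_Nul]
  change LH b j X0 (fun t => (F t)⁻¹ * G t) (fun _ => 1) ↔ _
  constructor
  · intro h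
    have h1 := lh_mul (Fam.refl hF) h
    have e1 : (fun t => F t * ((F t)⁻¹ * G t)) = G := by
      funext t
      rw [mul_inv_cancel_left]
    have e2 : (fun t => F t * (fun _ => (1 : Equiv.Perm (Phase n))) t) = F := by
      funext t
      exact mul_one _
    rw [e1, e2] at h1
    exact lh_symm h1
  · intro h
    have h1 := lh_mul (lh_inv (Fam.refl hF)) (lh_symm h)
    have e2 : (fun t => (F t)⁻¹ * F t) = fun _ => (1 : Equiv.Perm (Phase n)) := by
      funext t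
      exact inv_mul_cancel _
    rw [e2] at h1
    exact h1

lemma cl_eq {j : ℕ} {X : Type} [TopologicalSpace X] {X0 : Set X}
    {F G : X → Equiv.Perm (Phase n)} (h : LH b j X0 F G) :
    cl F (mem_Fam_left h) = cl G (mem_Fam_right h) := (cl_eq_iff _ _).2 h

lemma cl_mul {j : ℕ} {X : Type} [TopologicalSpace X] {X0 : Set X}
    {F G : X → Equiv.Perm (Phase n)} (hF : F ∈ Fam b j X X0) (hG : G ∈ Fam b j X X0) :
    cl F hF * cl G hG = cl (fun t => F t * G t) ((Fam b j X X0).mul_mem hF hG) := rfl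

lemma cl_inv {j : ℕ} {X : Type} [TopologicalSpace X] {X0 : Set X}
    {F : X → Equiv.Perm (Phase n)} (hF : F ∈ Fam b j X X0) :
    (cl F hF)⁻¹ = cl (fun t => (F t)⁻¹) ((Fam b j X X0).inv_mem hF) := rfl

lemma cl_one {j : ℕ} {X : Type} [TopologicalSpace X] {X0 : Set X} :
    (1 : Cl b j X X0) = cl (fun _ => 1) (Fam b j X X0).one_mem := rfl

lemma cl_eq_one_iff {j : ℕ} {X : Type} [TopologicalSpace X] {X0 : Set X}
    {F : X → Equiv.Perm (Phase n)} (hF : F ∈ Fam b j X X0) :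
    cl F hF = 1 ↔ LH b j X0 F (fun _ => 1) := by
  rw [cl_one, cl_eq_iff]

lemma cl_pow {j : ℕ} {X : Type} [TopologicalSpace X] {X0 : Set X}
    {F : X → Equiv.Perm (Phase n)} (hF : F ∈ Fam b j X X0) (l : ℕ) :
    (cl F hF) ^ l = cl (fun t => (F t) ^ l) ((Fam b j X X0).pow_mem hF l) := rfl

/-! ### Functoriality -/

lemma Fam.comp {j : ℕ} {X Y : Type} [TopologicalSpace X] [TopologicalSpace Y] {X0 : Set X}
    {Y0 : Set Y} {F : X → Equiv.Perm (Phase n)} (hF : F ∈ Fam b j X X0) {f : Y → X}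
    (hf : Continuous f) (hf0 : ∀ t ∈ Y0, f t ∈ X0) : (fun t => F (f t)) ∈ Fam b j Y Y0 := by
  obtain ⟨⟨R, h⟩, h0⟩ := hF
  exact ⟨⟨R, h.reparam hf⟩, fun t ht => h0 _ (hf0 t ht)⟩

/-- The pull-back of classes. -/
def Cl.map {j : ℕ} {X Y : Type} [TopologicalSpace X] [TopologicalSpace Y] {X0 : Set X}
    {Y0 : Set Y} (f : Y → X) (hf : Continuous f) (hf0 : ∀ t ∈ Y0, f t ∈ X0) :
    Cl b j X X0 →* Cl b j Y Y0 :=
  QuotientGroup.lift (Nul b j X X0)
    { toFun := fun F => cl (fun t => F.1 (f t)) (Fam.comp F.2 hf hf0)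
      map_one' := rfl
      map_mul' := fun _ _ => rfl }
    (fun _ hF => (cl_eq_one_iff _).2 (lh_reparam hF hf hf0))

lemma Cl.map_cl {j : ℕ} {X Y : Type} [TopologicalSpace X] [TopologicalSpace Y] {X0 : Set X}
    {Y0 : Set Y} {f : Y → X} (hf : Continuous f) (hf0 : ∀ t ∈ Y0, f t ∈ X0)
    {F : X → Equiv.Perm (Phase n)} (hF : F ∈ Fam b j X X0) :
    Cl.map f hf hf0 (cl F hF) = cl (fun t => F (f t)) (Fam.comp hF hf hf0) := rfl

end cls

end Pool.Agent.BHS
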