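import Mathlib
import Pool.Agent.BHS.BridgeA
import Pool.Agent.BHS.Class

set_option maxSynthPendingDepth 3

open scoped ContDiff Topology unitInterval
open Set Function TopologicalSpace

namespace Pool.Agent.BHS

open Pool.Agent.Helper17 Pool.Agent.TOR Pool.Agent.TOL

section real

variable {n N : ℕ} {b : Module.Basis (Fin N) ℝ (Phase n)} {j : ℕ} {A : Type}
  [TopologicalSpace A] [Group A] {ι : A →* Equiv.Perm (Phase n)}

lemma Real.mem_Fam (hι : Real b j ι) {X : Type} [TopologicalSpace X] [CompactSpace X]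
    {X0 : Set X} {f : X → A} (hf : Continuous f) (hf0 : ∀ t ∈ X0, f t = 1) :
    (fun t => ι (f t)) ∈ Fam b j X X0 := by
  refine ⟨(hι.cont _ _).1 hf, fun t ht => ?_⟩
  beta_reduce
  rw [hf0 t ht, map_one]

/-- Every family comes from a continuous map to `A`. -/
lemma Real.exists_map (hι : Real b j ι) {X : Type} [TopologicalSpace X] [CompactSpace X]
    {X0 : Set X} {F : X → Equiv.Perm (Phase n)} (hF : F ∈ Fam b j X X0) :
    ∃ f : C(X, A), (∀ t, ι (f t) = F t) ∧ ∀ t ∈ X0, f t = 1 := by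
  obtain ⟨⟨R, hR⟩, h0⟩ := hF
  choose G hG using fun p => hι.mem _ R F hR p
  have hGc : Continuous G := by
    rw [hι.cont]
    refine ⟨R, ?_⟩
    have : (fun p => ι (G p)) = F := funext hG
    rwa [this]
  refine ⟨⟨G, hGc⟩, hG, fun t ht => hι.inj ?_⟩
  change ι (G t) = ι 1
  rw [hG, h0 t ht, map_one]

variable {T : Type} [TopologicalSpace T] [CompactSpace T] {T0 : Set T} {m : ℕ}
  [Claim.KGroup A]

/-- The classes of maps to `A` are the classes of families at level `j`. -/
noncomputable def Real.toCl (hι : Real b j ι) :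
    Claim.HG T0 m A →* Cl b j (T × (Fin m → I)) (Claim.bdry T0 m) where
  toFun := Quotient.lift (fun f => cl (fun p => ι (f.map p)) (hι.mem_Fam f.map.continuous f.rel))
    fun f _ h => cl_eq ((hι.homotopic_iff f.rel).1 h)
  map_one' := by
    refine (cl_eq_one_iff (hι.mem_Fam (Claim.Fam.one (T0 := T0) (m := m) (X := A)).map.continuous
      (Claim.Fam.one (T0 := T0) (m := m) (X := A)).rel)).2 ?_
    have h : (fun _ : T × (Fin m → I) => ι 1) = fun _ => 1 := funext fun _ => map_one ι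
    change LH b j _ (fun _ => ι 1) _
    rw [h]
    exact Fam.refl (Fam b j _ _).one_mem
  map_mul' := by
    rintro ⟨f⟩ ⟨g⟩
    change cl (fun p => ι (f.map p * g.map p)) _ = cl (fun p => ι (f.map p) * ι (g.map p)) _
    congr 1
    funext p
    exact map_mul ι _ _

lemma Real.toCl_cls (hι : Real b j ι) (f : Claim.Fam T0 m A) :
    hι.toCl f.cls = cl (fun p => ι (f.map p)) (hι.mem_Fam f.map.continuous f.rel) := rfl

lemma Real.toCl_injective (hι : Real b j ι) :
    Injective (hι.toCl : Claim.HG T0 m A →* Cl b j (T × (Fin m → I)) (Claim.bdry T0 m)) := by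
  rintro ⟨f⟩ ⟨g⟩ h
  exact Quotient.sound ((hι.homotopic_iff f.rel).2 ((cl_eq_iff _ _).1 h))

lemma Real.toCl_surjective (hι : Real b j ι) :
    Surjective (hι.toCl : Claim.HG T0 m A →* Cl b j (T × (Fin m → I)) (Claim.bdry T0 m)) := by
  intro x
  obtain ⟨F, hF, rfl⟩ := x.exists_rep
  obtain ⟨f, hf, hf0⟩ := hι.exists_map hF
  refine ⟨(⟨f, hf0⟩ : Claim.Fam T0 m A).cls, ?_⟩
  rw [hι.toCl_cls]
  congr 1
  funext p
  exact hf p

/-- The isomorphism. -/
noncomputable def Real.equiv (hι : Real b j ι) :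
    Claim.HG T0 m A ≃* Cl b j (T × (Fin m → I)) (Claim.bdry T0 m) :=
  MulEquiv.ofBijective hι.toCl ⟨hι.toCl_injective, hι.toCl_surjective⟩

lemma Real.equiv_cls (hι : Real b j ι) (f : Claim.Fam T0 m A) :
    hι.equiv f.cls = cl (fun p => ι (f.map p)) (hι.mem_Fam f.map.continuous f.rel) := rfl

/-- If `f` represents the family `F`, then the class of `f` corresponds to the class of `F`. -/
lemma Real.equiv_symm_cl (hι : Real b j ι) {f : Claim.Fam T0 m A}
    {F : T × (Fin m → I) → Equiv.Perm (Phase n)} (hF : F ∈ Fam b j _ (Claim.bdry T0 m))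
    (h : ∀ p, ι (f.map p) = F p) : hι.equiv.symm (cl F hF) = f.cls := by
  rw [MulEquiv.symm_apply_eq, hι.equiv_cls]
  congr 1
  funext p
  exact (h p).symm

end real

section lift

variable {n N : ℕ} {T : Type} [TopologicalSpace T] [CompactSpace T] {T0 : Set T} {m : ℕ}

/-- A family at level `N` for `b` is one for `scal b L`. -/
lemma lev_scal {b : Module.Basis (Fin N) ℝ (Phase n)} (L : Fin N → ℕ+) {X : Type}
    [TopologicalSpace X] [CompactSpace X] {R : ℝ} {F : X → Equiv.Perm (Phase n)}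
    (hF : Lev b N R F) : ∃ R', Lev (scal b L) N R' F := by
  refine ⟨0, hF.cf, hF.cf', hF.symp, fun t i _ x => ?_, fun t x hx => ?_⟩
  · exact ((Claim.le_scal b L) (hF.isTorusSymp t)).2.2.2 i x
  · exact absurd (fun i hi => absurd i.2 (not_lt.2 hi)) hx

lemma fam_scal {b : Module.Basis (Fin N) ℝ (Phase n)} (L : Fin N → ℕ+)
    {X : Type} [TopologicalSpace X] [CompactSpace X] {X0 : Set X}
    {F : X → Equiv.Perm (Phase n)} (hF : F ∈ Fam b N X X0) : F ∈ Fam (scal b L) N X X0 := by
  obtain ⟨⟨R, h⟩, h0⟩ := hF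
  exact ⟨lev_scal L h, h0⟩

/-- The lift to a finite cover on classes of families. -/
lemma equiv_pull (b : Module.Basis (Fin N) ℝ (Phase n)) (L : Fin N → ℕ+)
    {F : T × (Fin m → I) → Equiv.Perm (Phase n)} (hF : F ∈ Fam b N _ (Claim.bdry T0 m))
    (x : Claim.HG T0 m (TorusSymp b)) (hx : (real_torus b).equiv x = cl F hF) :
    (real_torus (scal b L)).equiv (Claim.pull b L x) = cl F (fam_scal L hF) := by
  obtain ⟨f, hf, hf0⟩ := (real_torus b).exists_map hF
  have h1 : x = (⟨f, hf0⟩ : Claim.Fam T0 m (TorusSymp b)).cls := by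
    rw [← (real_torus b).equiv_symm_cl (f := ⟨f, hf0⟩) hF hf, ← hx, MulEquiv.symm_apply_apply]
  rw [h1]
  change cl (fun p => ((Claim.lift b L) (f p) : Equiv.Perm (Phase n))) _ = _
  congr 1
  funext p
  exact hf p

end lift

end Pool.Agent.BHS
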