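import Mathlib
import Pool.Agent.BHS.Stmts
import Pool.Agent.BHS.Basic

/-!
# BHS / DCov: the loop detector and covers
-/

set_option maxSynthPendingDepth 3

open scoped ContDiff Distributions Topology unitInterval
open Set Function TopologicalSpace

namespace Pool.Agent.BHS

open Pool.Agent.Helper17 Pool.Agent.TOR Pool.Agent.TOL

section dcov

variable {n N : ℕ} {b : Module.Basis (Fin N) ℝ (Phase n)}

lemma DCov_nat {f : Phase n → Phase n} {v : Phase n} (h : ∀ x, f (x + v) = f x + v) (k : ℕ)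
    (x : Phase n) : f (x + (k : ℝ) • v) = f x + (k : ℝ) • v := by
  induction k with
  | zero => simp
  | succ k ih =>
    have e : ∀ y : Phase n, y + ((k + 1 : ℕ) : ℝ) • v = (y + (k : ℝ) • v) + v := by
      intro y
      push_cast
      rw [add_smul, one_smul, add_assoc]
    rw [e, h, ih, e]

lemma DCov_per {j : ℕ} {T : Type} {F : T → Phase n → Phase n}
    (h : ∀ t, ∀ i : Fin N, (i : ℕ) < j → ∀ x, F t (x + b i) = F t x + b i) (L : Fin N → ℕ+) :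
    ∀ t, ∀ i : Fin N, (i : ℕ) < j → ∀ x, F t (x + scal b L i) = F t x + scal b L i := by
  intro t i hi x
  rw [scal_apply]
  exact DCov_nat (h t i hi) _ x

lemma DCov_abs (y : ℝ) (l : ℕ+) : |y / ((l : ℕ) : ℝ)| ≤ |y| := by
  have h1 : (1 : ℝ) ≤ ((l : ℕ) : ℝ) := by exact_mod_cast l.pos
  rw [abs_div, abs_of_pos (show (0 : ℝ) < ((l : ℕ) : ℝ) by linarith)]
  exact div_le_self (abs_nonneg y) h1

lemma DCov_slab (L : Fin N → ℕ+) (j : ℕ) (R : ℝ) : slab b j R ⊆ slab (scal b L) j R := by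
  intro x hx i hi
  rw [scal_repr]
  exact (DCov_abs _ _).trans (hx i hi)

lemma DCov_cut (L : Fin N → ℕ+) (j : Fin N) (R : ℝ) (S : Set (Phase n)) :
    cut b j (-R) R S ⊆ cut (scal b L) j (-R) R S := by
  intro x hx
  refine ⟨hx.1, ?_⟩
  change -R ≤ (scal b L).repr x j ∧ (scal b L).repr x j ≤ R
  rw [scal_repr, ← abs_le]
  exact (DCov_abs _ _).trans (abs_le.2 hx.2)

lemma DCov_AHS {j : ℕ} {S : Set (Phase n)} {T : Type} [TopologicalSpace T] {T0 : Set T}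
    {F0 F1 : T → Phase n → Phase n} (h : AHS b j S T0 F0 F1) (L : Fin N → ℕ+) :
    AHS (scal b L) j S T0 F0 F1 := by
  obtain ⟨F, hF, h0, h1, hr⟩ := h
  exact ⟨F, ⟨hF.cf, hF.adm, DCov_per hF.per L, hF.supp⟩, h0, h1, hr⟩

lemma DCov_AH {j : ℕ} {T : Type} [TopologicalSpace T] {T0 : Set T}
    {F0 F1 : T → Phase n → Phase n} (h : AH b j T0 F0 F1) (L : Fin N → ℕ+) :
    AH (scal b L) j T0 F0 F1 := by
  obtain ⟨R, h⟩ := ah_iff.1 h
  exact ah_iff.2 ⟨R, (DCov_AHS h L).mono (DCov_slab L j R)⟩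

lemma DCov_up {ε : ℝ} (hε : 0 < ε) (ξ : ℝ) (l : ℕ+) :
    upPh ε (ξ / ((l : ℕ) : ℝ)) = upPh (ε / ((l : ℕ) : ℝ)) ξ := by
  have h1 : (0 : ℝ) < ((l : ℕ) : ℝ) := by exact_mod_cast l.pos
  unfold upPh
  rw [mul_add, mul_add, mul_inv_cancel₀ hε.ne', mul_inv_cancel₀ (div_pos hε h1).ne']
  ring

lemma DCov_Gr (L : Fin N → ℕ+) (j : Fin N) (M : ℕ) {T : Type} (V : T × I → Phase n → Phase n)
    {ε : ℝ} (hε : 0 < ε) : Gr (scal b L) j M V (fun _ => upPh ε) =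
      Gr b j M V (fun _ => upPh (ε / ((L j : ℕ) : ℝ))) := by
  funext t x
  unfold Gr
  beta_reduce
  rw [scal_repr, DCov_up hε]

end dcov

theorem thm_DCov : St_DCov := by
  intro n N b L j T _ T0 S' u z
  have h1 : (1 : ℝ) ≤ ((L j : ℕ) : ℝ) := by exact_mod_cast (L j).pos
  constructor
  · rintro ⟨M0, h⟩
    refine ⟨M0, fun M hM => ?_⟩
    obtain ⟨ε0, hε0, h⟩ := h M hM
    refine ⟨ε0, hε0, fun ε hε hε' => ?_⟩
    rw [DCov_Gr L j M _ hε]
    exact DCov_AH (h _ (div_pos hε (by linarith)) ((div_le_self hε.le h1).trans hε')) L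
  · rintro ⟨M0, h⟩
    refine ⟨M0, fun M hM => ?_⟩
    obtain ⟨ε0, hε0, h⟩ := h M hM
    refine ⟨ε0, hε0, fun ε hε hε' => ?_⟩
    obtain ⟨R, h⟩ := h _ (div_pos hε (by linarith)) ((div_le_self hε.le h1).trans hε')
    refine ⟨R, ?_⟩
    rw [DCov_Gr L j M _ hε]
    exact (DCov_AHS h L).mono (DCov_cut L j R S')

end Pool.Agent.BHS
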