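import Mathlib
import Pool.Agent.BHS.Basic
import Pool.Agent.BHS.Stmts

/-!
# BHS, module DExist: existence of the value of the loop detector
-/

set_option maxSynthPendingDepth 3

open scoped ContDiff Distributions Topology unitInterval
open Set Function TopologicalSpace

namespace Pool.Agent.BHS

open Pool.Agent.Helper17 Pool.Agent.TOR Pool.Agent.TOL

lemma DExist_contDiff (ε : ℝ) : ContDiff ℝ ∞ (upPh ε) := by
  unfold upPh
  exact contDiff_const.mul (contDiff_id.add contDiff_const)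

lemma DExist_deriv (ε ξ : ℝ) : deriv (upPh ε) ξ = ε := by
  have h : HasDerivAt (upPh ε) (ε * 1) ξ := ((hasDerivAt_id ξ).add_const _).const_mul ε
  rw [h.deriv, mul_one]

lemma DExist_le {ε : ℝ} (hε : 0 < ε) {ξ : ℝ} (h : ξ ≤ -ε⁻¹) : upPh ε ξ ≤ 0 := by
  unfold upPh
  exact mul_nonpos_of_nonneg_of_nonpos hε.le (by linarith)

lemma DExist_ge {ε : ℝ} (hε : 0 < ε) {ξ : ℝ} (h : 0 ≤ ξ) : 1 ≤ upPh ε ξ := by
  unfold upPh
  rw [mul_add, mul_inv_cancel₀ hε.ne']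
  have := mul_nonneg hε.le h
  linarith

/-- Two standard phases satisfy the condition of [PhLin]. -/
lemma DExist_cases {ε ε' R : ℝ} (hε : 0 < ε) (hε' : 0 < ε') (h : ε⁻¹ ≤ R) (h' : ε'⁻¹ ≤ R)
    (hR : 0 ≤ R) (ξ : ℝ) : (-R ≤ ξ ∧ ξ ≤ R) ∨ (upPh ε ξ ≤ 0 ∧ upPh ε' ξ ≤ 0) ∨
      (1 ≤ upPh ε ξ ∧ 1 ≤ upPh ε' ξ) := by
  rcases le_total ξ (-R) with h1 | h1
  · exact Or.inr (Or.inl ⟨DExist_le hε (by linarith), DExist_le hε' (by linarith)⟩)
  · rcases le_total ξ R with h2 | h2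
    · exact Or.inl ⟨h1, h2⟩
    · exact Or.inr (Or.inr ⟨DExist_ge hε (hR.trans h2), DExist_ge hε' (hR.trans h2)⟩)

theorem thm_DExist (hP : St_PhLin) (hS : St_SymplS) (hA : St_AHSc) : St_DExist := by
  intro n N b j T _ _ T0 S' hS' u hu hu0
  obtain ⟨M0, hM0, hPM⟩ := hP b j T T0 S' hS' u hu hu0
  obtain ⟨e1, he1, hL1, -⟩ := hPM M0 le_rfl M0 le_rfl
  have hd : ∀ {ε e : ℝ}, 0 < ε → ε ≤ e → ∀ ξ, |deriv (upPh ε) ξ| ≤ e := by
    intro ε e h0 h1 ξ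
    rw [DExist_deriv, abs_of_pos h0]
    exact h1
  set R1 : ℝ := e1⁻¹ with hR1
  have hR1p : 0 < R1 := inv_pos.2 he1
  -- the family for the grid `M0` and the phase `upPh e1`
  have h11 := hL1 (upPh e1) (upPh e1) (-R1) R1 (DExist_contDiff e1) (DExist_contDiff e1)
    (hd he1 le_rfl) (hd he1 le_rfl) (DExist_cases he1 he1 le_rfl le_rfl hR1p.le)
  obtain ⟨F, hF, hF0, -, hFr⟩ := h11
  have hΨ : ALevS b (j : ℕ) (cut b j (-R1) R1 S')
      (Gr b j M0 (fun p x => u p x) (fun _ : T => upPh e1)) := by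
    have h1 := hF.reparam (g := fun t : T => ((t, (0 : I)) : T × I))
      (continuous_id.prodMk continuous_const)
    have e : (fun t x => F (t, 0) x) = Gr b j M0 (fun p x => u p x) (fun _ : T => upPh e1) := by
      funext t x
      exact hF0 t x
    rw [e] at h1
    exact h1
  have hΨ0 : ∀ t ∈ T0, ∀ x, Gr b j M0 (fun p x => u p x) (fun _ : T => upPh e1) t x = x := by
    intro t ht x
    rw [← hF0 t x]
    exact hFr t ht 0 x
  obtain ⟨z, hz, hz0, hzA⟩ := (hS b j T T0 (cut b j (-R1) R1 S') (hS'.cut (-R1) R1)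
    j.2.le).1 _ hΨ hΨ0
  refine ⟨R1, z, hz, hz0, M0, fun M hM => ?_⟩
  obtain ⟨e2, he2, -, hL2⟩ := hPM M hM M0 le_rfl
  refine ⟨min e1 e2, lt_min he1 he2, fun ε hε hεe => ?_⟩
  have hε1 : ε ≤ e1 := hεe.trans (min_le_left _ _)
  have hε2 : ε ≤ e2 := hεe.trans (min_le_right _ _)
  have hεp : 0 < ε⁻¹ := inv_pos.2 hε
  have hR1ε : R1 ≤ ε⁻¹ := inv_anti₀ hε hε1
  refine ⟨ε⁻¹, ?_⟩
  -- change the grid
  have a1 := hL2 (upPh ε) (-ε⁻¹) ε⁻¹ (DExist_contDiff ε) (hd hε hε2) (fun ξ => by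
    rcases DExist_cases hε hε le_rfl le_rfl hεp.le ξ with h | h | h
    · exact Or.inl h
    · exact Or.inr (Or.inl h.1)
    · exact Or.inr (Or.inr h.1))
  -- change the phase
  have a2 := hL1 (upPh ε) (upPh e1) (-ε⁻¹) ε⁻¹ (DExist_contDiff ε) (DExist_contDiff e1)
    (hd hε hε1) (hd he1 le_rfl) (DExist_cases hε he1 le_rfl hR1ε hεp.le)
  have a3 := hzA.mono (cut_mono (b := b) (j := j) (subset_refl S') (neg_le_neg hR1ε) hR1ε)
  have a12 := (hA b (j : ℕ) (cut b j (-ε⁻¹) ε⁻¹ S') T T0 _ _ _).2.1 a1 a2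
  exact (hA b (j : ℕ) (cut b j (-ε⁻¹) ε⁻¹ S') T T0 _ _ _).2.1 a12 a3

end Pool.Agent.BHS
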