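import Mathlib
import Pool.Agent.BHS.Stmts
import Pool.Agent.BHS.Basic

set_option maxSynthPendingDepth 3

open scoped ContDiff Distributions Topology unitInterval
open Set Function TopologicalSpace

namespace Pool.Agent.BHS

open Pool.Agent.Helper17 Pool.Agent.TOR Pool.Agent.TOL

section

variable {n N : ℕ} {b : Module.Basis (Fin N) ℝ (Phase n)}

/-- Grids with general smooth phases are smooth families. -/
lemma PhLin_cf {T T' : Type} [TopologicalSpace T] [TopologicalSpace T'] (M : ℕ)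
    {V : T × I → Phase n → Phase n} (hV : CF V) {f : T' → T} (hf : Continuous f)
    {Φ : T' → Phase n → ℝ} (hΦ : CF Φ) :
    CF (fun t x => grid M (fun a => V (f t, a)) (Φ t x) x) := by
  have hc : ∀ a : I, CF (fun t x => V (f t, a) x) := fun a =>
    hV.base (hf.prodMk continuous_const)
  unfold grid
  refine (hc 0).add (CF_sum _ fun m => ?_)
  refine CF.smul ?_ ((hc _).sub (hc _))
  have h1 : CF (fun (t : T') (x : Phase n) => (M : ℝ) * Φ t x - m) :=
    hΦ.comp_smooth (g := fun y : ℝ => (M : ℝ) * y - m) fun _ _ =>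
      ((contDiff_const.mul contDiff_id).sub contDiff_const).contDiffAt
  exact h1.comp_smooth (g := Real.smoothTransition) fun _ _ =>
    Real.smoothTransition.contDiff.contDiffAt

lemma PhLin_phase {T : Type} [TopologicalSpace T] (b : Module.Basis (Fin N) ℝ (Phase n))
    (j : Fin N) {φ : ℝ → ℝ} (hφ : ContDiff ℝ ∞ φ) :
    CF (fun (_ : T) (x : Phase n) => φ (b.repr x j)) :=
  (CF_coord b j).comp_smooth (g := φ) fun _ _ => hφ.contDiffAt

/-- Supports of the grids. -/
lemma PhLin_supp {j : Fin N} {T : Type} [TopologicalSpace T] {T0 : Set T}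
    {S' : Set (Phase n)} {u : T × I → Equiv.Perm (Phase n)} (hu : LevS b ((j : ℕ) + 1) S' u)
    (h0 : ∀ p ∈ relI T0, u p = 1) {M : ℕ} (hM : 0 < M) {p q : ℝ} (t : T) {a : ℝ} {x : Phase n}
    (hx : x ∉ cut b j p q S')
    (ha : (p ≤ b.repr x j ∧ b.repr x j ≤ q) ∨ a ≤ 0 ∨ 1 ≤ a) :
    grid M (fun a x => u (t, a) x) a x = x := by
  by_cases hS : x ∈ S'
  · rcases ha with ha | ha | ha
    · exact absurd (mem_cut.2 ⟨hS, ha⟩) hx
    · rw [grid_zero M _ ha, h0 (t, 0) (Or.inr (Or.inl rfl))]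
      rfl
    · rw [grid_one hM _ ha, h0 (t, 1) (Or.inr (Or.inr rfl))]
      rfl
  · exact grid_const M (fun a => hu.supp (t, a) x hS) a

lemma PhLin_rel {T : Type} {T0 : Set T} {u : T × I → Equiv.Perm (Phase n)}
    (h0 : ∀ p ∈ relI T0, u p = 1) (M : ℕ) {t : T} (ht : t ∈ T0) (a : ℝ) (x : Phase n) :
    grid M (fun a x => u (t, a) x) a x = x :=
  grid_const M (fun a => by rw [h0 (t, a) (Or.inl ht)]; rfl) a

lemma PhLin_per {j : Fin N} {T : Type} [TopologicalSpace T]
    {S' : Set (Phase n)} {u : T × I → Equiv.Perm (Phase n)} (hu : LevS b ((j : ℕ) + 1) S' u)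
    (M : ℕ) (t : T) {i : Fin N} (hi : (i : ℕ) < j) (a : ℝ) (x : Phase n) :
    grid M (fun a x => u (t, a) x) a (x + b i) = grid M (fun a x => u (t, a) x) a x + b i :=
  grid_per M (fun a => hu.per (t, a) i (by omega) x) a

lemma PhLin_coord {j i : Fin N} (hi : (i : ℕ) < j) (x : Phase n) :
    b.repr (x + b i) j = b.repr x j := by
  have hne : i ≠ j := by
    intro h; rw [h] at hi; exact lt_irrefl _ hi
  have := repr_add_smul_ne (b := b) x 1 hne
  rwa [one_smul] at this

lemma PhLin_deriv {φ0 φ1 : ℝ → ℝ} {ε : ℝ} (h0 : ContDiff ℝ ∞ φ0) (h1 : ContDiff ℝ ∞ φ1)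
    (d0 : ∀ ξ, |deriv φ0 ξ| ≤ ε) (d1 : ∀ ξ, |deriv φ1 ξ| ≤ ε) {s : ℝ} (hs : s ∈ Icc (0 : ℝ) 1)
    (ξ : ℝ) : |deriv (fun ξ => (1 - s) * φ0 ξ + s * φ1 ξ) ξ| ≤ ε := by
  have a0 : DifferentiableAt ℝ φ0 ξ := h0.differentiable (by simp) ξ
  have a1 : DifferentiableAt ℝ φ1 ξ := h1.differentiable (by simp) ξ
  have e1 : deriv (fun ξ => (1 - s) * φ0 ξ + s * φ1 ξ) ξ =
      (1 - s) * deriv φ0 ξ + s * deriv φ1 ξ :=
    ((a0.hasDerivAt.const_mul (1 - s)).add (a1.hasDerivAt.const_mul s)).deriv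
  rw [e1]
  refine (abs_add_le _ _).trans ?_
  rw [abs_mul, abs_mul, abs_of_nonneg hs.1, abs_of_nonneg (by linarith [hs.2] : (0 : ℝ) ≤ 1 - s)]
  have b1 := mul_le_mul_of_nonneg_left (d0 ξ) (by linarith [hs.2] : (0 : ℝ) ≤ 1 - s)
  have b2 := mul_le_mul_of_nonneg_left (d1 ξ) hs.1
  linarith

end

theorem thm_PhLin (hG : St_GrAdm) : St_PhLin := by
  intro n N b j T _ _ T0 S' hS' u hu h0
  obtain ⟨R, hR⟩ := hu.tame hS'
  obtain ⟨M0, hM0, hM⟩ := hG b j T R (fun p x => u p x) hR
  refine ⟨M0, hM0, fun M hMM M' hMM' => ?_⟩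
  obtain ⟨ε1, hε1, H1⟩ := hM M hMM M hMM
  obtain ⟨ε2, hε2, H2⟩ := hM M hMM M' hMM'
  have hMp : 0 < M := lt_of_lt_of_le hM0 hMM
  have hMp' : 0 < M' := lt_of_lt_of_le hM0 hMM'
  refine ⟨min ε1 ε2, lt_min hε1 hε2, ?_, ?_⟩
  · intro φ0 φ1 p q c0 c1 d0 d1 hpq
    -- the phase of the homotopy
    have hcv : ∀ s : I, Differentiable ℝ (fun ξ => (1 - (s : ℝ)) * φ0 ξ + (s : ℝ) * φ1 ξ) :=
      fun s => ((c0.differentiable (by simp)).const_mul _).add
        ((c1.differentiable (by simp)).const_mul _)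
    refine ⟨fun r x => grid M (fun a x => u (r.1, a) x)
      ((1 - (r.2 : ℝ)) * φ0 (b.repr x j) + (r.2 : ℝ) * φ1 (b.repr x j)) x,
      ⟨?_, ?_, ?_, ?_⟩, ?_, ?_, ?_⟩
    · refine PhLin_cf (T' := T × I) M (V := fun p x => u p x) hu.cf (f := fun r => r.1)
        continuous_fst ?_
      refine CF.add ?_ ?_
      · refine CF.smul (CF.param ?_) (PhLin_phase b j c0)
        exact continuous_const.sub (continuous_subtype_val.comp continuous_snd)
      · refine CF.smul (CF.param ?_) (PhLin_phase b j c1)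
        exact continuous_subtype_val.comp continuous_snd
    · rintro ⟨t, s⟩ x
      have h1 := (H1 (fun ξ => (1 - (s : ℝ)) * φ0 ξ + (s : ℝ) * φ1 ξ) (hcv s)
        (PhLin_deriv c0 c1 (fun ξ => (d0 ξ).trans (min_le_left _ _))
          (fun ξ => (d1 ξ).trans (min_le_left _ _)) s.2) t x 0 ⟨le_rfl, zero_le_one⟩).1
      rw [sub_zero, one_smul, zero_smul, add_zero] at h1
      exact h1
    · rintro ⟨t, s⟩ i hi x
      beta_reduce
      rw [PhLin_coord hi]
      exact PhLin_per hu M t hi _ x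
    · rintro ⟨t, s⟩ x hx
      beta_reduce
      refine PhLin_supp hu h0 hMp t hx ?_
      rcases hpq (b.repr x j) with h | h | h
      · exact Or.inl h
      · refine Or.inr (Or.inl ?_)
        have a1 := mul_nonneg (by linarith [s.2.2] : (0 : ℝ) ≤ 1 - (s : ℝ))
          (by linarith [h.1] : (0 : ℝ) ≤ - φ0 (b.repr x j))
        have a2 := mul_nonneg s.2.1 (by linarith [h.2] : (0 : ℝ) ≤ - φ1 (b.repr x j))
        nlinarith
      · refine Or.inr (Or.inr ?_)
        have a1 := mul_nonneg (by linarith [s.2.2] : (0 : ℝ) ≤ 1 - (s : ℝ))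
          (by linarith [h.1] : (0 : ℝ) ≤ φ0 (b.repr x j) - 1)
        have a2 := mul_nonneg s.2.1 (by linarith [h.2] : (0 : ℝ) ≤ φ1 (b.repr x j) - 1)
        nlinarith
    · intro t x
      beta_reduce
      unfold Gr
      rw [Icc.coe_zero, sub_zero, one_mul, zero_mul, add_zero]
    · intro t x
      beta_reduce
      unfold Gr
      rw [Icc.coe_one, sub_self, one_mul, zero_mul, zero_add]
    · intro t ht s x
      exact PhLin_rel h0 M ht _ x
  · intro φ p q c d hpq
    have hcf : ∀ K : ℕ, CF (fun (r : T × I) x =>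
        grid K (fun a x => u (r.1, a) x) (φ (b.repr x j)) x) := fun K =>
      PhLin_cf (T' := T × I) K (V := fun p x => u p x) hu.cf (f := fun r => r.1)
        continuous_fst (PhLin_phase b j c)
    refine ⟨fun r x => (1 - (r.2 : ℝ)) • grid M (fun a x => u (r.1, a) x) (φ (b.repr x j)) x +
      (r.2 : ℝ) • grid M' (fun a x => u (r.1, a) x) (φ (b.repr x j)) x,
      ⟨?_, ?_, ?_, ?_⟩, ?_, ?_, ?_⟩
    · refine CF.add (CF.smul (CF.param ?_) (hcf M)) (CF.smul (CF.param ?_) (hcf M'))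
      · exact continuous_const.sub (continuous_subtype_val.comp continuous_snd)
      · exact continuous_subtype_val.comp continuous_snd
    · rintro ⟨t, s⟩ x
      have h1 := (H2 φ (c.differentiable (by simp)) (fun ξ => (d ξ).trans (min_le_right _ _))
        t x s s.2).1
      have e1 := ((hcf M).differentiable (t, s) x).hasFDerivAt.const_smul (1 - (s : ℝ))
      have e2 := ((hcf M').differentiable (t, s) x).hasFDerivAt.const_smul (s : ℝ)
      have e3 := (e1.add e2).fderiv
      beta_reduce at e3 ⊢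
      have e4 : fderiv ℝ (fun x => (1 - (s : ℝ)) • grid M (fun a x => u (t, a) x)
          (φ (b.repr x j)) x + (s : ℝ) • grid M' (fun a x => u (t, a) x) (φ (b.repr x j)) x) x =
          (1 - (s : ℝ)) • fderiv ℝ (fun x => grid M (fun a x => u (t, a) x)
            (φ (b.repr x j)) x) x +
          (s : ℝ) • fderiv ℝ (fun x => grid M' (fun a x => u (t, a) x)
            (φ (b.repr x j)) x) x := e3
      rw [e4]
      exact h1
    · rintro ⟨t, s⟩ i hi x
      beta_reduce
      rw [PhLin_coord hi, PhLin_per hu M t hi, PhLin_per hu M' t hi, smul_add, smul_add]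
      have e1 : (1 - (s : ℝ)) • b i + (s : ℝ) • b i = b i := by
        rw [← add_smul, sub_add_cancel, one_smul]
      have e2 : ∀ (A B C D : Phase n), A + B + (C + D) = A + C + (B + D) := by
        intro A B C D; abel
      rw [e2, e1]
    · rintro ⟨t, s⟩ x hx
      beta_reduce
      rw [PhLin_supp hu h0 hMp t hx (hpq _), PhLin_supp hu h0 hMp' t hx (hpq _), ← add_smul,
        sub_add_cancel, one_smul]
    · intro t x
      beta_reduce
      unfold Gr
      rw [Icc.coe_zero, sub_zero, one_smul, zero_smul, add_zero]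
    · intro t x
      beta_reduce
      unfold Gr
      rw [Icc.coe_one, sub_self, one_smul, zero_smul, zero_add]
    · intro t ht s x
      beta_reduce
      rw [PhLin_rel h0 M ht, PhLin_rel h0 M' ht, ← add_smul, sub_add_cancel, one_smul]

end Pool.Agent.BHS
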