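import Mathlib
import Pool.Agent.BHS.Stmts
import Pool.Agent.BHS.Basic
import Pool.Agent.BHS.PhLin
import Pool.Agent.TOL.AHc
import Pool.Agent.TOL.MoserLev
import Pool.Agent.TOL.Bij

set_option maxSynthPendingDepth 3

open scoped ContDiff Distributions Topology unitInterval
open Set Function TopologicalSpace

namespace Pool.Agent.BHS

open Pool.Agent.Helper17 Pool.Agent.TOR Pool.Agent.TOL

section

variable {n N : ℕ} {b : Module.Basis (Fin N) ℝ (Phase n)}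

/-- The grids of a homotopy of families of loops: a homotopy through admissible families, with
control of the supports. -/
lemma DInv_grid (hG : St_GrAdm) {j : Fin N} {T : Type} [TopologicalSpace T] [CompactSpace T]
    {T0 : Set T} {S' : Set (Phase n)} (hS' : Cyl b ((j : ℕ) + 1) S')
    {V : (T × I) × I → Equiv.Perm (Phase n)} (hV : LevS b ((j : ℕ) + 1) S' V)
    (h0 : ∀ t s a, (t ∈ T0 ∨ a = 0 ∨ a = 1) → V ((t, s), a) = 1) :
    ∃ M0 : ℕ, 0 < M0 ∧ ∀ M ≥ M0, ∃ ε0 > 0, ∀ (φ : ℝ → ℝ) (p q : ℝ), ContDiff ℝ ∞ φ →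
      (∀ ξ, |deriv φ ξ| ≤ ε0) → (∀ ξ, (p ≤ ξ ∧ ξ ≤ q) ∨ φ ξ ≤ 0 ∨ 1 ≤ φ ξ) →
      AHS b (j : ℕ) (cut b j p q S') T0
        (Gr b j M (fun (r : T × I) x => V ((r.1, 0), r.2) x) (fun _ => φ))
        (Gr b j M (fun (r : T × I) x => V ((r.1, 1), r.2) x) (fun _ => φ)) := by
  obtain ⟨R, hR⟩ := hV.tame hS'
  obtain ⟨M0, hM0, hM⟩ := hG b j (T × I) R (fun p x => V p x) hR
  refine ⟨M0, hM0, fun M hMM => ?_⟩
  obtain ⟨ε1, hε1, H1⟩ := hM M hMM M hMM
  have hMp : 0 < M := lt_of_lt_of_le hM0 hMM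
  have h0' : ∀ r ∈ relI {t : T × I | t.1 ∈ T0}, V r = 1 := by
    rintro ⟨⟨t, s⟩, a⟩ hr
    exact h0 t s a hr
  refine ⟨ε1, hε1, fun φ p q c d hpq => ?_⟩
  refine ⟨fun r x => grid M (fun a x => V (r, a) x) (φ (b.repr x j)) x,
    ⟨?_, ?_, ?_, ?_⟩, ?_, ?_, ?_⟩
  · exact PhLin_cf (T' := T × I) M (V := fun p x => V p x) hV.cf (f := fun r => r)
      continuous_id (PhLin_phase b j c)
  · intro r x
    have h1 := (H1 φ (c.differentiable (by simp)) d r x 0 ⟨le_rfl, zero_le_one⟩).1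
    rw [sub_zero, one_smul, zero_smul, add_zero] at h1
    exact h1
  · intro r i hi x
    beta_reduce
    rw [PhLin_coord hi]
    exact PhLin_per hV M r hi _ x
  · intro r x hx
    exact PhLin_supp hV h0' hMp r hx (hpq _)
  · intro t x
    rfl
  · intro t x
    rfl
  · intro t ht s x
    exact PhLin_rel h0' M (t := (t, s)) ht _ x

lemma DInv_upPh_contDiff (ε : ℝ) : ContDiff ℝ ∞ (upPh ε) :=
  contDiff_const.mul (contDiff_id.add contDiff_const)

lemma DInv_upPh_deriv (ε ξ : ℝ) : deriv (upPh ε) ξ = ε := by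
  have h1 : HasDerivAt (upPh ε) (ε * 1) ξ := ((hasDerivAt_id ξ).add_const ε⁻¹).const_mul ε
  rw [h1.deriv, mul_one]

lemma DInv_upPh_cases {ε : ℝ} (hε : 0 < ε) (ξ : ℝ) :
    (-(ε⁻¹) ≤ ξ ∧ ξ ≤ 0) ∨ upPh ε ξ ≤ 0 ∨ 1 ≤ upPh ε ξ := by
  unfold upPh
  rcases lt_or_ge ξ (-(ε⁻¹)) with h | h
  · right; left
    exact mul_nonpos_of_nonneg_of_nonpos hε.le (by linarith)
  · rcases le_or_gt ξ 0 with h' | h'
    · exact Or.inl ⟨h, h'⟩
    · right; right
      rw [mul_add, mul_inv_cancel₀ hε.ne']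
      have := mul_nonneg hε.le h'.le
      linarith

end

theorem thm_DInv (hG : St_GrAdm) (_hA : St_AHSc) (_hS : St_SymplS) : St_DInv := by
  intro n N b j T _ _ T0 u u' z z' R hz hz' _ hH hD hD'
  obtain ⟨RH, F, hF, F0, F1, Fr⟩ := hH
  have hc : Continuous (fun q : (T × I) × I => (((q.1.1, q.2), q.1.2) : (T × I) × I)) :=
    ((continuous_fst.comp continuous_fst).prodMk continuous_snd).prodMk
      (continuous_snd.comp continuous_fst)
  have hS' : Cyl b ((j : ℕ) + 1) (slab b ((j : ℕ) + 1) RH) := cyl_slab b _ RH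
  have hV : LevS b ((j : ℕ) + 1) (slab b ((j : ℕ) + 1) RH)
      (fun q : (T × I) × I => F ((q.1.1, q.2), q.1.2)) := (levS_of_lev hF).reparam hc
  obtain ⟨M0, hM0, hM⟩ := DInv_grid (T0 := T0) hG hS' hV (fun t s a h => Fr (t, a) h s)
  obtain ⟨M1, hM1⟩ := hD
  obtain ⟨M2, hM2⟩ := hD'
  set M := max M0 (max M1 M2) with hMdef
  obtain ⟨ε0, hε0, H0⟩ := hM M (le_max_left _ _)
  obtain ⟨ε1, hε1, H1⟩ := hM1 M ((le_max_left _ _).trans (le_max_right _ _))
  obtain ⟨ε2, hε2, H2⟩ := hM2 M ((le_max_right _ _).trans (le_max_right _ _))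
  set ε := min ε0 (min ε1 ε2) with hεdef
  have hε : 0 < ε := lt_min hε0 (lt_min hε1 hε2)
  have a1 := H1 ε hε ((min_le_right _ _).trans (min_le_left _ _))
  have a2 := H2 ε hε ((min_le_right _ _).trans (min_le_right _ _))
  have a0 := H0 (upPh ε) (-(ε⁻¹)) 0 (DInv_upPh_contDiff ε)
    (fun ξ => by rw [DInv_upPh_deriv, abs_of_pos hε]; exact min_le_left _ _)
    (DInv_upPh_cases hε)
  have e0 : (fun (r : T × I) (x : Phase n) => F ((r.1, r.2), (0 : I)) x) = fun r x => u r x := by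
    funext r x
    exact congrArg (fun g : Equiv.Perm (Phase n) => g x) (F0 r)
  have e1 : (fun (r : T × I) (x : Phase n) => F ((r.1, r.2), (1 : I)) x) =
      fun r x => u' r x := by
    funext r x
    exact congrArg (fun g : Equiv.Perm (Phase n) => g x) (F1 r)
  have a0' : AHS b (j : ℕ) (cut b j (-(ε⁻¹)) 0 (slab b ((j : ℕ) + 1) RH)) T0
      (Gr b j M (fun (r : T × I) (x : Phase n) => F ((r.1, r.2), (0 : I)) x) (fun _ => upPh ε))
      (Gr b j M (fun (r : T × I) (x : Phase n) => F ((r.1, r.2), (1 : I)) x) (fun _ => upPh ε)) :=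
    a0
  rw [e0, e1] at a0'
  obtain ⟨R3, hR3⟩ := (hS'.cut (-(ε⁻¹)) 0).bdd
  have a3 : AH b (j : ℕ) T0 (Gr b j M (fun p x => u p x) (fun _ => upPh ε))
      (Gr b j M (fun p x => u' p x) (fun _ => upPh ε)) := a0'.ah hR3
  have hAH : AH b (j : ℕ) T0 (fun t x => z t x) (fun t x => z' t x) :=
    ahc_trans (ahc_symm a1) (ahc_trans a3 a2)
  exact (thm_Sympl thm_MoserLev thm_Bij b (j : ℕ) T T0 j.2).2 R z z' hz hz' hAH

end Pool.Agent.BHS
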