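import Mathlib
import Pool.Agent.BHS.Stmts
import Pool.Agent.BHS.Basic
import Pool.Agent.TOL.DL
import Pool.Agent.TOL.AHc
import Pool.Agent.TOL.Grid
import Pool.Agent.TOL.TameB
import Pool.Agent.TOL.Trunc

set_option maxSynthPendingDepth 3

open scoped ContDiff Distributions Topology unitInterval
open Set Function TopologicalSpace

namespace Pool.Agent.BHS

open Pool.Agent.Helper17 Pool.Agent.TOR Pool.Agent.TOL

/-- The loop detector on the loops of commutators of a periodization. -/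
theorem thm_DLam : St_DLam := by
  intro n N b j T _ _ T0 δ R g P hδ hδ' H
  obtain ⟨R', V, hV⟩ := thm_Trunc b j T T0 δ R g P hδ hδ' H
  obtain ⟨M0, hM0⟩ := thm_Grid thm_TameB b j T _ V hV.tame
  refine ⟨M0 + 1, fun M hM => ?_⟩
  obtain ⟨ε0, hε0, hadm⟩ := hM0 M (by omega)
  refine ⟨ε0, hε0, fun ε hε hεε0 => ?_⟩
  have h1 := ah_unit hδ H hV (show 0 < M by omega) hε (hadm ε hε hεε0)
  have hrel : ∀ t ∈ T0, (g t)⁻¹ = 1 := fun t ht => by rw [H.rel t ht, inv_one]
  have h2 := (thm_AHc b (j : ℕ) T T0 _ _ (fun _ x => x)).2.2 R (fun t => (g t)⁻¹) H.lev.inv hrel h1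
  have h3 := (thm_AHc b (j : ℕ) T T0 _ _ (fun _ x => x)).1 h2
  have h4 : (fun t x => grid M (fun a x => cm ((a : ℝ) • b j) (P t) x)
      (ε * (b.repr (g t ((g t)⁻¹ x)) j + ε⁻¹)) (g t ((g t)⁻¹ x))) =
      Gr b j M (fun (p : T × I) x => cm ((p.2 : ℝ) • b j) (P p.1) x) (fun _ => upPh ε) := by
    funext t x
    have h5 : g t ((g t)⁻¹ x) = x := (g t).apply_symm_apply x
    rw [h5]
    rfl
  rw [h4] at h3
  exact h3

end Pool.Agent.BHS
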