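import Mathlib
import Pool.Agent.BHS.Stmts
import Pool.Agent.BHS.Basic
import Pool.Agent.TOL.AHc

set_option maxSynthPendingDepth 3

open scoped ContDiff Distributions Topology unitInterval
open Set Function TopologicalSpace

namespace Pool.Agent.BHS

open Pool.Agent.Helper17 Pool.Agent.TOR Pool.Agent.TOL

section dmul

variable {n N : ℕ} {b : Module.Basis (Fin N) ℝ (Phase n)}

/-! ### The grid of a concatenation -/

lemma DMul_left {U V : I → Equiv.Perm (Phase n)} (hV0 : V 0 = 1) {y : ℝ} (h0 : 0 ≤ y)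
    (h1 : 2 * y ≤ 1) (x : Phase n) :
    (U (tau (pr y)) * V (tau' (pr y))) x = U (pr (2 * y)) x := by
  have h2 : ((pr y : I) : ℝ) = y := pr_of_mem ⟨h0, by linarith⟩
  have h3 : tau' (pr y) = 0 := by
    unfold tau'
    rw [h2]
    exact pr_nonpos (by linarith)
  have h4 : tau (pr y) = pr (2 * y) := by
    unfold tau
    rw [h2]
  rw [h3, h4, hV0, mul_one]

lemma DMul_right {U V : I → Equiv.Perm (Phase n)} (hU1 : U 1 = 1) {y : ℝ} (h0 : 1 ≤ 2 * y)
    (h1 : y ≤ 1) (x : Phase n) :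
    (U (tau (pr y)) * V (tau' (pr y))) x = V (pr (2 * y - 1)) x := by
  have h2 : ((pr y : I) : ℝ) = y := pr_of_mem ⟨by linarith, h1⟩
  have h3 : tau (pr y) = 1 := by
    unfold tau
    rw [h2]
    exact pr_one_le h0
  have h4 : tau' (pr y) = pr (2 * y - 1) := by
    unfold tau'
    rw [h2]
  rw [h3, h4, hU1, one_mul]

lemma DMul_grid (M : ℕ) {U V : I → Equiv.Perm (Phase n)} (hU0 : U 0 = 1) (hU1 : U 1 = 1)
    (hV0 : V 0 = 1) (a : ℝ) (x : Phase n) :
    grid (M + M) (fun c x => (U (tau c) * V (tau' c)) x) a x =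
      grid M (fun c x => U c x) (2 * a) x + (grid M (fun c x => V c x) (2 * a - 1) x - x) := by
  have e0 : (U (tau 0) * V (tau' 0)) x = x := by
    rw [tau_zero, tau'_zero, hU0, hV0]
    rfl
  have e1 : U 0 x = x := by rw [hU0]; rfl
  have e2 : V 0 x = x := by rw [hV0]; rfl
  unfold grid
  rw [Finset.sum_range_add]
  beta_reduce
  rw [e0, e1, e2]
  have h1 : ∀ m ∈ Finset.range M,
      Real.smoothTransition (((M + M : ℕ) : ℝ) * a - (m : ℝ)) •
        ((U (tau (pr (((m : ℝ) + 1) / ((M + M : ℕ) : ℝ)))) *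
          V (tau' (pr (((m : ℝ) + 1) / ((M + M : ℕ) : ℝ))))) x -
        (U (tau (pr ((m : ℝ) / ((M + M : ℕ) : ℝ)))) *
          V (tau' (pr ((m : ℝ) / ((M + M : ℕ) : ℝ))))) x) =
      Real.smoothTransition ((M : ℝ) * (2 * a) - (m : ℝ)) •
        (U (pr (((m : ℝ) + 1) / (M : ℝ))) x - U (pr ((m : ℝ) / (M : ℝ))) x) := by
    intro m hm
    have hm' : (m : ℝ) + 1 ≤ M := by exact_mod_cast Finset.mem_range.1 hm
    have hm0 : (0 : ℝ) ≤ m := Nat.cast_nonneg m
    have hM : (0 : ℝ) < M := by linarith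
    have hc : ((M + M : ℕ) : ℝ) = M + M := by push_cast; ring
    rw [hc, DMul_left hV0 (by positivity) (by
        rw [← mul_div_assoc, div_le_one (by positivity)]; linarith),
      DMul_left hV0 (by positivity) (by
        rw [← mul_div_assoc, div_le_one (by positivity)]; linarith)]
    have e3 : 2 * (((m : ℝ) + 1) / ((M : ℝ) + M)) = ((m : ℝ) + 1) / M := by
      field_simp
      ring
    have e4 : 2 * ((m : ℝ) / ((M : ℝ) + M)) = (m : ℝ) / M := by
      field_simp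
      ring
    have e5 : ((M : ℝ) + M) * a - m = (M : ℝ) * (2 * a) - m := by ring
    rw [e3, e4, e5]
  have h2 : ∀ m ∈ Finset.range M,
      Real.smoothTransition (((M + M : ℕ) : ℝ) * a - ((M + m : ℕ) : ℝ)) •
        ((U (tau (pr ((((M + m : ℕ) : ℝ) + 1) / ((M + M : ℕ) : ℝ)))) *
          V (tau' (pr ((((M + m : ℕ) : ℝ) + 1) / ((M + M : ℕ) : ℝ))))) x -
        (U (tau (pr (((M + m : ℕ) : ℝ) / ((M + M : ℕ) : ℝ)))) *
          V (tau' (pr (((M + m : ℕ) : ℝ) / ((M + M : ℕ) : ℝ))))) x) =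
      Real.smoothTransition ((M : ℝ) * (2 * a - 1) - (m : ℝ)) •
        (V (pr (((m : ℝ) + 1) / (M : ℝ))) x - V (pr ((m : ℝ) / (M : ℝ))) x) := by
    intro m hm
    have hm' : (m : ℝ) + 1 ≤ M := by exact_mod_cast Finset.mem_range.1 hm
    have hm0 : (0 : ℝ) ≤ m := Nat.cast_nonneg m
    have hM : (0 : ℝ) < M := by linarith
    have hc : ((M + M : ℕ) : ℝ) = M + M := by push_cast; ring
    have hc' : ((M + m : ℕ) : ℝ) = M + m := by push_cast; ring
    rw [hc, hc', DMul_right hU1 (by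
        rw [← mul_div_assoc, le_div_iff₀ (by positivity)]; linarith) (by
        rw [div_le_one (by positivity)]; linarith),
      DMul_right hU1 (by
        rw [← mul_div_assoc, le_div_iff₀ (by positivity)]; linarith) (by
        rw [div_le_one (by positivity)]; linarith)]
    have e3 : 2 * (((M : ℝ) + m + 1) / ((M : ℝ) + M)) - 1 = ((m : ℝ) + 1) / M := by
      field_simp
      ring
    have e4 : 2 * (((M : ℝ) + m) / ((M : ℝ) + M)) - 1 = (m : ℝ) / M := by
      field_simp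
      ring
    have e5 : ((M : ℝ) + M) * a - (M + m) = (M : ℝ) * (2 * a - 1) - m := by ring
    rw [e3, e4, e5]
  rw [Finset.sum_congr rfl h1, Finset.sum_congr rfl h2]
  abel

/-! ### Derivatives of maps which are the identity in a half space -/

lemma DMul_fderiv_id (j : Fin N) {f : Phase n → Phase n} (hf : ContDiff ℝ ∞ f) {c : ℝ}
    (h : ∀ x, c ≤ b.repr x j → f x = x) {x : Phase n} (hx : c ≤ b.repr x j) :
    fderiv ℝ f x = ContinuousLinearMap.id ℝ _ := by
  have hopen : ∀ y : Phase n, c < b.repr y j → fderiv ℝ f y = ContinuousLinearMap.id ℝ _ := by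
    intro y hy
    have h1 : f =ᶠ[𝓝 y] fun y => y := by
      filter_upwards [(isOpen_lt continuous_const (continuous_repr b j)).mem_nhds hy] with z hz
      exact h z (le_of_lt hz)
    rw [h1.fderiv_eq]
    exact fderiv_fun_id
  have hcl : IsClosed {y : Phase n | fderiv ℝ f y = ContinuousLinearMap.id ℝ _} :=
    isClosed_eq (hf.continuous_fderiv (by simp)) continuous_const
  have hmem : x ∈ closure {y : Phase n | fderiv ℝ f y = ContinuousLinearMap.id ℝ _} := by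
    have ht : Filter.Tendsto (fun s : ℝ => x + s • b j) (𝓝[>] 0) (𝓝 x) := by
      have h2 : Continuous (fun s : ℝ => x + s • b j) := by fun_prop
      have h3 := h2.tendsto 0
      rw [zero_smul, add_zero] at h3
      exact h3.mono_left nhdsWithin_le_nhds
    refine mem_closure_of_tendsto ht ?_
    filter_upwards [self_mem_nhdsWithin] with s hs
    apply hopen
    rw [repr_add_smul_self]
    have : (0 : ℝ) < s := hs
    linarith
  rwa [hcl.closure_eq] at hmem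

lemma DMul_fderiv_id' (j : Fin N) {f : Phase n → Phase n} {c : ℝ}
    (h : ∀ x, b.repr x j < c → f x = x) {x : Phase n} (hx : b.repr x j < c) :
    fderiv ℝ f x = ContinuousLinearMap.id ℝ _ := by
  have h1 : f =ᶠ[𝓝 x] fun y => y := by
    filter_upwards [(isOpen_lt (continuous_repr b j) continuous_const).mem_nhds hx] with z hz
    exact h z hz
  rw [h1.fderiv_eq]
  exact fderiv_fun_id

/-! ### Families obtained from loops -/

lemma DMul_slope (e L : ℝ) (ξ : ℝ) : deriv (fun ξ : ℝ => e * (ξ + L)) ξ = e := by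
  have h1 : HasDerivAt (fun ξ : ℝ => e * (ξ + L)) (e * 1) ξ :=
    ((hasDerivAt_id ξ).add_const L).const_mul e
  rw [h1.deriv, mul_one]

/-- The maps `Gr` of a family of loops of symplectomorphisms, with an affine phase. -/
lemma DMul_alevS {j : Fin N} {S : Set (Phase n)} {T : Type} [TopologicalSpace T]
    {u : T × I → Equiv.Perm (Phase n)} (hu : LevS b ((j : ℕ) + 1) S u)
    (h0 : ∀ t, u (t, 0) = 1) (h1 : ∀ t, u (t, 1) = 1) {M : ℕ} (hM : 0 < M) {e L p q : ℝ}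
    (hadm : ∀ t x, Admissible (fderiv ℝ
      (fun x => grid M (fun a x => u (t, a) x) (e * (b.repr x j + L)) x) x))
    (hpq : ∀ ξ, (p ≤ ξ ∧ ξ ≤ q) ∨ e * (ξ + L) ≤ 0 ∨ 1 ≤ e * (ξ + L)) :
    ALevS b (j : ℕ) (cut b j p q S)
      (Gr b j M (fun p x => u p x) (fun _ ξ => e * (ξ + L))) := by
  refine ⟨?_, ?_, ?_, ?_⟩
  · exact CF_grid j M e hu.cf continuous_id continuous_const
  · intro t x
    exact hadm t x
  · intro t i hi x
    have hij : i ≠ j := by
      intro h; rw [h] at hi; exact lt_irrefl _ hi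
    have h2 := grid_per M (W := fun a x => u (t, a) x) (x := x) (v := b i)
      (fun a => hu.per _ i (Nat.lt_succ_of_lt hi) x) (e * (b.repr x j + L))
    unfold Gr
    rw [repr_add_ne hij]
    exact h2
  · intro t x hx
    unfold Gr
    by_cases hxS : x ∈ S
    · rcases hpq (b.repr x j) with h | h | h
      · exact absurd (mem_cut.2 ⟨hxS, h⟩) hx
      · rw [grid_zero M _ h]
        beta_reduce
        rw [h0]
        rfl
      · rw [grid_one hM _ h]
        beta_reduce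
        rw [h1]
        rfl
    · exact grid_const M (fun a => hu.supp _ x hxS) _

lemma DMul_fix {j : Fin N} {T : Type} {u : T × I → Equiv.Perm (Phase n)}
    {t : T} (h : ∀ a, u (t, a) = 1) (M : ℕ) (φ : T → ℝ → ℝ) (x : Phase n) :
    Gr b j M (fun p x => u p x) φ t x = x := by
  unfold Gr
  exact grid_const M (fun a => by beta_reduce; rw [h]; rfl) _

/-- Splitting: `G1 + G2 - id` is homotopic to the composition of `G1` with a family of
symplectomorphisms homotopic to `G2`, if `G1` is the identity for `ξ_j ≥ c` and `G2` is the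
identity for `ξ_j ≤ c`. -/
lemma DMul_split (hS : St_SymplS) {j : Fin N} {T : Type} [TopologicalSpace T] [CompactSpace T]
    {T0 : Set T} {S : Set (Phase n)} (hSc : Cyl b ((j : ℕ) + 1) S) {p c q : ℝ} (hpc : p ≤ c)
    (hcq : c ≤ q) {G1 G2 : T → Phase n → Phase n} (hG1 : ALevS b (j : ℕ) (cut b j p c S) G1)
    (hG1c : ∀ t x, c ≤ b.repr x j → G1 t x = x)
    (hG2 : ALevS b (j : ℕ) (cut b j c q S) G2) (h1 : ∀ t ∈ T0, ∀ x, G1 t x = x)
    (h2 : ∀ t ∈ T0, ∀ x, G2 t x = x) :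
    ∃ w : T → Equiv.Perm (Phase n), LevS b (j : ℕ) (cut b j c q S) w ∧ (∀ t ∈ T0, w t = 1) ∧
      AHS b (j : ℕ) (cut b j c q S) T0 G2 (fun t x => w t x) ∧
      AHS b (j : ℕ) (cut b j p q S) T0 (fun t x => G1 t x + (G2 t x - x))
        (fun t x => G1 t (w t x)) := by
  obtain ⟨w, hw, hw0, hKw⟩ := (hS b (j : ℕ) T T0 (cut b j c q S) (hSc.cut c q) j.2.le).1 G2 hG2 h2
  refine ⟨w, hw, hw0, hKw, ?_⟩
  obtain ⟨K, hK, hK0, hK1, hKr⟩ := hKw
  have hKc : ∀ t x, b.repr x j < c → K t x = x := by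
    intro t x hx
    apply hK.supp t x
    intro h
    have := h.2.1
    linarith
  refine ⟨fun r x => G1 r.1 x + (K r x - x), ⟨?_, ?_, ?_, ?_⟩, ?_, ?_, ?_⟩
  · exact (hG1.cf.base continuous_fst).add (hK.cf.sub (CF.const contDiff_id))
  · intro r x
    have e : fderiv ℝ (fun x => G1 r.1 x + (K r x - x)) x =
        fderiv ℝ (G1 r.1) x + (fderiv ℝ (K r) x - ContinuousLinearMap.id ℝ _) := by
      have d1 := (hG1.cf.differentiable r.1 x).hasFDerivAt
      have d2 := (hK.cf.differentiable r x).hasFDerivAt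
      exact (d1.add (d2.sub (hasFDerivAt_id x))).fderiv
    beta_reduce
    rw [e]
    rcases lt_or_ge (b.repr x j) c with h | h
    · rw [DMul_fderiv_id' j (hKc r) h, sub_self, add_zero]
      exact hG1.adm r.1 x
    · rw [DMul_fderiv_id j (hG1.cf.contDiff r.1) (hG1c r.1) h, add_sub_cancel]
      exact hK.adm r x
  · intro r i hi x
    beta_reduce
    rw [hG1.per r.1 i hi, hK.per r i hi]
    abel
  · intro r x hx
    beta_reduce
    rw [hG1.supp r.1 x fun h => hx (cut_mono subset_rfl le_rfl hcq h),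
      hK.supp r x fun h => hx (cut_mono subset_rfl hpc le_rfl h)]
    abel
  · intro t x
    beta_reduce
    rw [hK0]
  · intro t x
    beta_reduce
    rw [hK1]
    beta_reduce
    by_cases hx : x ∈ cut b j c q S
    · have hwx : w t x ∈ cut b j c q S := (hw.mem_iff t x).2 hx
      rw [hG1c t x hx.2.1, hG1c t _ hwx.2.1]
      abel
    · rw [hw.supp t x hx, sub_self, add_zero]
  · intro t ht s x
    beta_reduce
    rw [h1 t ht, hKr t ht]
    abel

/-- Homotopies of families on the left. -/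
lemma DMul_lcomp (hS : St_SymplS) {j : Fin N} {T : Type} [TopologicalSpace T] [CompactSpace T]
    {T0 : Set T} {R : ℝ} {z w w' : T → Equiv.Perm (Phase n)} (hz : Lev b (j : ℕ) R z)
    (hw : Lev b (j : ℕ) R w) (hw' : Lev b (j : ℕ) R w') (hz0 : ∀ t ∈ T0, z t = 1)
    (h : AH b (j : ℕ) T0 (fun t x => w t x) (fun t x => w' t x)) :
    AH b (j : ℕ) T0 (fun t x => z t (w t x)) (fun t x => z t (w' t x)) := by
  obtain ⟨R', hR'⟩ := ah_iff.1 h
  have hle1 : slab b (j : ℕ) R ⊆ slab b (j : ℕ) (max R R') := slab_mono (le_max_left _ _)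
  have hle2 : slab b (j : ℕ) R' ⊆ slab b (j : ℕ) (max R R') := slab_mono (le_max_right _ _)
  have h1 := (hS b (j : ℕ) T T0 _ (cyl_slab b (j : ℕ) (max R R')) j.2.le).2 w w'
    ((levS_of_lev hw).mono hle1) ((levS_of_lev hw').mono hle1) (hR'.mono hle2)
  have h2 := (LHS.refl ((levS_of_lev hz).mono hle1) hz0).mul h1
  obtain ⟨F, hF, F0, F1, Fr⟩ := h2
  refine ah_iff.2 ⟨_, fun p x => F p x, hF.alevS, ?_, ?_, ?_⟩
  · intro t x
    beta_reduce
    rw [F0]
    rfl
  · intro t x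
    beta_reduce
    rw [F1]
    rfl
  · intro t ht s x
    beta_reduce
    rw [Fr t ht s]
    rfl

/-- [GrAdm] for affine phases. -/
lemma DMul_adm (hG : St_GrAdm) {j : Fin N} {k : ℕ} {T : Type} [TopologicalSpace T] [CompactSpace T]
    {S : Set (Phase n)} (hSc : Cyl b k S) {u : T × I → Equiv.Perm (Phase n)}
    (hu : LevS b k S u) :
    ∃ M0 : ℕ, 0 < M0 ∧ ∀ M ≥ M0, ∃ ε0 > 0, ∀ e L : ℝ, 0 < e → e ≤ ε0 → ∀ t x,
      Admissible (fderiv ℝ (fun x => grid M (fun a x => u (t, a) x) (e * (b.repr x j + L)) x) x) := by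
  obtain ⟨R, hT⟩ := hu.tame hSc
  obtain ⟨M0, hM0, h⟩ := hG b j T R _ hT
  refine ⟨M0, hM0, fun M hM => ?_⟩
  obtain ⟨ε0, hε0, h'⟩ := h M hM M hM
  refine ⟨ε0, hε0, fun e L he hle t x => ?_⟩
  have h1 := (h' (fun ξ => e * (ξ + L)) (by fun_prop) (fun ξ => by
    rw [DMul_slope, abs_of_pos he]; exact hle) t x 0 ⟨le_rfl, zero_le_one⟩).1
  rw [sub_zero, one_smul, zero_smul, add_zero] at h1
  exact h1

end dmul

theorem thm_DMul (hP : St_PhLin) (hG : St_GrAdm) (hS : St_SymplS) (_hA : St_AHSc) (hE : St_EH)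
    (_hI : St_DInv) : St_DMul := by
  intro n N b j T _ _ T0 u v z w R hu hv hur hvr hz hw hz0 hw0 hDu hDv
  obtain ⟨S, hSc, huS, hvS⟩ : ∃ S : Set (Phase n), Cyl b ((j : ℕ) + 1) S ∧
      LevS b ((j : ℕ) + 1) S u ∧ LevS b ((j : ℕ) + 1) S v :=
    ⟨_, cyl_slab b _ R, levS_of_lev hu, levS_of_lev hv⟩
  have hsymm : ∀ F0 F1 : T → Phase n → Phase n, AH b (j : ℕ) T0 F0 F1 → AH b (j : ℕ) T0 F1 F0 :=
    fun F0 F1 => (thm_AHc b (j : ℕ) T T0 F0 F1 F1).1
  have htrans : ∀ F0 F1 F2 : T → Phase n → Phase n, AH b (j : ℕ) T0 F0 F1 →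
      AH b (j : ℕ) T0 F1 F2 → AH b (j : ℕ) T0 F0 F2 :=
    fun F0 F1 F2 => (thm_AHc b (j : ℕ) T T0 F0 F1 F2).2.1
  -- the concatenation of the loops
  obtain ⟨W, hWdef⟩ : ∃ W : T × I → Equiv.Perm (Phase n),
      ∀ p, W p = u (p.1, tau p.2) * v (p.1, tau' p.2) := ⟨_, fun _ => rfl⟩
  have hWeq : W = fun p => u (p.1, tau p.2) * v (p.1, tau' p.2) := funext hWdef
  have hWS : LevS b ((j : ℕ) + 1) S W := by
    rw [hWeq]
    exact (huS.reparam (continuous_fst.prodMk (continuous_tau.comp continuous_snd))).mul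
      (hvS.reparam (continuous_fst.prodMk (continuous_tau'.comp continuous_snd)))
  have hWr : ∀ p ∈ relI T0, W p = 1 := by
    rintro ⟨t, a⟩ hp
    rw [hWdef]
    rcases hp with hp | hp | hp
    · rw [hur (t, tau a) (Or.inl hp), hvr (t, tau' a) (Or.inl hp), mul_one]
    · have ha : a = 0 := hp
      subst ha
      rw [hur (t, tau 0) (Or.inr (Or.inl tau_zero)),
        hvr (t, tau' 0) (Or.inr (Or.inl tau'_zero)), mul_one]
    · have ha : a = 1 := hp
      subst ha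
      rw [hur (t, tau 1) (Or.inr (Or.inr tau_one)),
        hvr (t, tau' 1) (Or.inr (Or.inr tau'_one)), mul_one]
  obtain ⟨F, hF, hF0, hF1, hFr⟩ := (hE b ((j : ℕ) + 1) S T T0).1 u v huS hvS hur hvr
  -- the homotopy as a family of loops over `T × I`
  obtain ⟨U, hUdef⟩ : ∃ U : (T × I) × I → Equiv.Perm (Phase n),
      ∀ q, U q = F ((q.1.1, q.2), q.1.2) := ⟨_, fun _ => rfl⟩
  have hUS : LevS b ((j : ℕ) + 1) S U := by
    have h1 : U = fun q => F ((q.1.1, q.2), q.1.2) := funext hUdef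
    rw [h1]
    exact hF.reparam (((continuous_fst.comp continuous_fst).prodMk continuous_snd).prodMk
      (continuous_snd.comp continuous_fst))
  obtain ⟨MH, hMH0, hMH⟩ := DMul_adm (j := j) hG hSc hUS
  obtain ⟨Mu, hMu0, hMu⟩ := DMul_adm (j := j) hG hSc huS
  obtain ⟨Mv, hMv0, hMv⟩ := DMul_adm (j := j) hG hSc hvS
  obtain ⟨Pu, hPu0, hPu⟩ := hP b j T T0 S hSc u huS hur
  obtain ⟨PW, hPW0, hPW⟩ := hP b j T T0 S hSc W hWS hWr
  obtain ⟨Dz, hDz⟩ := hDu
  obtain ⟨Dw, hDw⟩ := hDv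
  obtain ⟨M1, m1, m2, m3, m4, m5, m6⟩ : ∃ M1 : ℕ, Mu ≤ M1 ∧ Mv ≤ M1 ∧ Pu ≤ M1 ∧ PW ≤ M1 ∧
      Dz ≤ M1 ∧ Dw ≤ M1 :=
    ⟨Mu + Mv + Pu + PW + Dz + Dw, by omega, by omega, by omega, by omega, by omega, by omega⟩
  obtain ⟨e1, he1, k1⟩ := hMu M1 m1
  obtain ⟨e2, he2, k2⟩ := hMv M1 m2
  obtain ⟨e3, he3, k3, -⟩ := hPu M1 m3 M1 m3
  obtain ⟨e4, he4, k4, -⟩ := hPW (M1 + M1) (by omega) (M1 + M1) (by omega)
  obtain ⟨e5, he5, k5⟩ := hDz M1 m5
  obtain ⟨e6, he6, k6⟩ := hDw M1 m6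
  obtain ⟨ε, hε, l1, l2, l3, l4, l5, l6⟩ : ∃ ε : ℝ, 0 < ε ∧ 2 * ε ≤ e1 ∧ 2 * ε ≤ e2 ∧
      2 * ε ≤ e3 ∧ ε ≤ e4 ∧ 2 * ε ≤ e5 ∧ 2 * ε ≤ e6 := by
    obtain ⟨m, hm, h1⟩ : ∃ m : ℝ, 0 < m ∧ m ≤ e1 ∧ m ≤ e2 ∧ m ≤ e3 ∧ m ≤ e4 ∧ m ≤ e5 ∧
        m ≤ e6 := by
      refine ⟨min e1 (min e2 (min e3 (min e4 (min e5 e6)))), ?_, ?_⟩
      · exact lt_min he1 (lt_min he2 (lt_min he3 (lt_min he4 (lt_min he5 he6))))
      · simp only [le_refl, min_le_iff, true_or, or_true, and_self]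
    exact ⟨m / 2, by linarith, by linarith, by linarith, by linarith, by linarith, by linarith,
      by linarith⟩
  obtain ⟨δ, hδ⟩ : ∃ δ : ℝ, δ = ε⁻¹ := ⟨_, rfl⟩
  have hεδ : ε * δ = 1 := by rw [hδ, mul_inv_cancel₀ hε.ne']
  have hδ0 : 0 < δ := by rw [hδ]; exact inv_pos.2 hε
  have hδ2 : (2 * ε)⁻¹ = δ / 2 := by
    rw [hδ, mul_inv]; ring
  have hup : ∀ ξ, upPh ε ξ = ε * (ξ + δ) := by
    intro ξ
    unfold upPh
    rw [hδ]
  have hup2 : upPh (2 * ε) = fun ξ => 2 * ε * (ξ + δ / 2) := by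
    funext ξ
    unfold upPh
    rw [hδ2]
  obtain ⟨G1, hG1def⟩ : ∃ G1 : T → Phase n → Phase n,
      G1 = Gr b j M1 (fun p x => u p x) (fun _ ξ => 2 * ε * (ξ + δ)) := ⟨_, rfl⟩
  obtain ⟨G2, hG2def⟩ : ∃ G2 : T → Phase n → Phase n,
      G2 = Gr b j M1 (fun p x => v p x) (fun _ ξ => 2 * ε * (ξ + δ / 2)) := ⟨_, rfl⟩
  have hu0 : ∀ t, u (t, 0) = 1 := fun t => hur _ (Or.inr (Or.inl rfl))
  have hu1 : ∀ t, u (t, 1) = 1 := fun t => hur _ (Or.inr (Or.inr rfl))
  have hv0 : ∀ t, v (t, 0) = 1 := fun t => hvr _ (Or.inr (Or.inl rfl))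
  have hv1 : ∀ t, v (t, 1) = 1 := fun t => hvr _ (Or.inr (Or.inr rfl))
  have hM1 : 0 < M1 := by omega
  have p1 : ∀ ξ : ℝ, -(δ / 2) ≤ ξ → 1 ≤ 2 * ε * (ξ + δ) := by
    intro ξ hξ
    nlinarith
  have hG1l : ALevS b (j : ℕ) (cut b j (-δ) (-(δ / 2)) S) G1 := by
    rw [hG1def]
    refine DMul_alevS huS hu0 hu1 hM1 (k1 (2 * ε) δ (by linarith) l1) ?_
    intro ξ
    rcases lt_or_ge ξ (-δ) with h | h
    · right; left
      nlinarith
    · rcases le_or_gt ξ (-(δ / 2)) with h' | h'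
      · exact Or.inl ⟨h, h'⟩
      · exact Or.inr (Or.inr (p1 ξ h'.le))
  have hG1c : ∀ t x, -(δ / 2) ≤ b.repr x j → G1 t x = x := by
    intro t x hx
    rw [hG1def]
    unfold Gr
    rw [grid_one hM1 _ (p1 _ hx)]
    beta_reduce
    rw [hu1]
    rfl
  have hG2l : ALevS b (j : ℕ) (cut b j (-(δ / 2)) 0 S) G2 := by
    rw [hG2def]
    refine DMul_alevS hvS hv0 hv1 hM1 (k2 (2 * ε) (δ / 2) (by linarith) l2) ?_
    intro ξ
    rcases lt_or_ge ξ (-(δ / 2)) with h | h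
    · right; left
      nlinarith
    · rcases le_or_gt ξ 0 with h' | h'
      · exact Or.inl ⟨h, h'⟩
      · right; right
        nlinarith
  have hG1r : ∀ t ∈ T0, ∀ x, G1 t x = x := by
    intro t ht x
    rw [hG1def]
    exact DMul_fix (fun a => hur _ (Or.inl ht)) _ _ _
  have hG2r : ∀ t ∈ T0, ∀ x, G2 t x = x := by
    intro t ht x
    rw [hG2def]
    exact DMul_fix (fun a => hvr _ (Or.inl ht)) _ _ _
  obtain ⟨w2, hw2, hw20, hw2a, hw2b⟩ := DMul_split hS hSc (by linarith : -δ ≤ -(δ / 2))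
    (by linarith : -(δ / 2) ≤ 0) hG1l hG1c hG2l hG1r hG2r
  have hgrid : (fun t x => G1 t x + (G2 t x - x)) =
      Gr b j (M1 + M1) (fun p x => W p x) (fun _ => upPh ε) := by
    funext t x
    rw [hG1def, hG2def, hWeq]
    have h1 := DMul_grid M1 (U := fun a => u (t, a)) (V := fun a => v (t, a)) (hu0 t) (hu1 t)
      (hv0 t) (upPh ε (b.repr x j)) x
    have h2 : 2 * upPh ε (b.repr x j) = 2 * ε * (b.repr x j + δ) := by
      rw [hup]; ring
    have h3 : 2 * upPh ε (b.repr x j) - 1 = 2 * ε * (b.repr x j + δ / 2) := by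
      rw [hup]
      linear_combination (2 - 1 : ℝ) * hεδ
    rw [h3, h2] at h1
    exact h1.symm
  have hA1 : AH b (j : ℕ) T0 (Gr b j (M1 + M1) (fun p x => W p x) (fun _ => upPh ε))
      (fun t x => G1 t (w2 t x)) := by
    rw [← hgrid]
    obtain ⟨R', hR'⟩ := (hSc.cut (-δ) 0).bdd
    exact hw2b.ah hR'
  have hε2 : (0 : ℝ) < 2 * ε := by linarith
  -- `G1 ~ z`
  have hA2 : AH b (j : ℕ) T0 G1 (fun t x => z t x) := by
    have h1 : AHS b (j : ℕ) (cut b j (-δ) 0 S) T0 G1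
        (Gr b j M1 (fun p x => u p x) (fun _ => upPh (2 * ε))) := by
      rw [hG1def, hup2]
      refine k3 (fun ξ => 2 * ε * (ξ + δ)) (fun ξ => 2 * ε * (ξ + δ / 2)) (-δ) 0 (by fun_prop)
        (by fun_prop) ?_ ?_ ?_
      · intro ξ
        rw [DMul_slope, abs_of_pos hε2]
        exact l3
      · intro ξ
        rw [DMul_slope, abs_of_pos hε2]
        exact l3
      · intro ξ
        rcases lt_or_ge ξ (-δ) with h | h
        · right; left
          constructor <;> nlinarith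
        · rcases le_or_gt ξ 0 with h' | h'
          · exact Or.inl ⟨h, h'⟩
          · right; right
            constructor <;> nlinarith
    obtain ⟨R', hR'⟩ := (hSc.cut (-δ) 0).bdd
    exact htrans _ _ _ (h1.ah hR') (k5 (2 * ε) hε2 l5)
  obtain ⟨R2, hR2⟩ := hw2.lev' (hSc.cut (-(δ / 2)) 0)
  have hA3 : AH b (j : ℕ) T0 (fun t x => G1 t (w2 t x)) (fun t x => z t (w2 t x)) :=
    (thm_AHc b (j : ℕ) T T0 G1 (fun t x => z t x) G1).2.2 R2 w2 hR2 hw20 hA2
  -- `w2 ~ w`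
  have hA4 : AH b (j : ℕ) T0 (fun t x => w2 t x) (fun t x => w t x) := by
    obtain ⟨R', hR'⟩ := (hSc.cut (-(δ / 2)) 0).bdd
    have h1 := k6 (2 * ε) hε2 l6
    rw [hup2] at h1
    have h2 := hw2a.ah hR'
    rw [hG2def] at h2
    exact htrans _ _ _ (hsymm _ _ h2) h1
  have hA5 : AH b (j : ℕ) T0 (fun t x => z t (w2 t x)) (fun t x => z t (w t x)) :=
    DMul_lcomp hS (hz.mono (le_max_left R R2)) (hR2.mono (le_max_right R R2))
      (hw.mono (le_max_left R R2)) hz0 hA4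
  have hA : AH b (j : ℕ) T0 (Gr b j (M1 + M1) (fun p x => W p x) (fun _ => upPh ε))
      (fun t x => z t (w t x)) :=
    htrans _ _ _ hA1 (htrans _ _ _ hA3 hA5)
  -- all grids
  refine ⟨max MH PW, fun M hM => ?_⟩
  have hMH' : MH ≤ M := (le_max_left _ _).trans hM
  have hPW' : PW ≤ M := (le_max_right _ _).trans hM
  obtain ⟨e7, he7, k7⟩ := hMH M hMH'
  obtain ⟨e8, he8, -, k8⟩ := hPW M hPW' (M1 + M1) (by omega)
  refine ⟨min e7 (min e8 e4), lt_min he7 (lt_min he8 he4), fun ε' hε' hle => ?_⟩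
  have q7 : ε' ≤ e7 := hle.trans (min_le_left _ _)
  have q8 : ε' ≤ e8 := hle.trans ((min_le_right _ _).trans (min_le_left _ _))
  have q4 : ε' ≤ e4 := hle.trans ((min_le_right _ _).trans (min_le_right _ _))
  obtain ⟨δ', hδ'⟩ : ∃ δ' : ℝ, δ' = ε'⁻¹ := ⟨_, rfl⟩
  have hεδ' : ε' * δ' = 1 := by rw [hδ', mul_inv_cancel₀ hε'.ne']
  have hδ0' : 0 < δ' := by rw [hδ']; exact inv_pos.2 hε'
  have hupe : upPh ε = fun ξ => ε * (ξ + δ) := funext hup
  have hupe' : upPh ε' = fun ξ => ε' * (ξ + δ') := by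
    funext ξ
    unfold upPh
    rw [hδ']
  have hph' : ∀ ξ : ℝ, (-δ' ≤ ξ ∧ ξ ≤ 0) ∨ ε' * (ξ + δ') ≤ 0 ∨ 1 ≤ ε' * (ξ + δ') := by
    intro ξ
    rcases lt_or_ge ξ (-δ') with h | h
    · right; left
      nlinarith
    · rcases le_or_gt ξ 0 with h' | h'
      · exact Or.inl ⟨h, h'⟩
      · right; right
        nlinarith
  have hMpos : 0 < M := by omega
  have hB1 : AH b (j : ℕ) T0 (Gr b j M (fun p x => (u p * v p) x) (fun _ => upPh ε'))
      (Gr b j M (fun p x => W p x) (fun _ => upPh ε')) := by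
    have h1 : ALevS b (j : ℕ) (cut b j (-δ') 0 S)
        (Gr b j M (fun p x => U p x) (fun _ ξ => ε' * (ξ + δ'))) := by
      refine DMul_alevS hUS ?_ ?_ hMpos (k7 ε' δ' hε' q7) hph'
      · intro t
        rw [hUdef]
        exact hFr (t.1, 0) (Or.inr (Or.inl rfl)) t.2
      · intro t
        rw [hUdef]
        exact hFr (t.1, 1) (Or.inr (Or.inr rfl)) t.2
    obtain ⟨R', hR'⟩ := (hSc.cut (-δ') 0).bdd
    refine AHS.ah ⟨_, h1, ?_, ?_, ?_⟩ hR'
    · intro t x
      rw [hupe']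
      unfold Gr
      apply grid_congr
      intro a
      beta_reduce
      rw [hUdef]
      beta_reduce
      rw [hF0]
    · intro t x
      rw [hupe']
      unfold Gr
      apply grid_congr
      intro a
      beta_reduce
      rw [hUdef]
      beta_reduce
      rw [hF1, hWdef]
    · intro t ht s x
      refine DMul_fix (fun a => ?_) _ _ _
      rw [hUdef]
      exact hFr (t, a) (Or.inl ht) s
  have hB2 : AH b (j : ℕ) T0 (Gr b j M (fun p x => W p x) (fun _ => upPh ε'))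
      (Gr b j (M1 + M1) (fun p x => W p x) (fun _ => upPh ε')) := by
    obtain ⟨R', hR'⟩ := (hSc.cut (-δ') 0).bdd
    refine AHS.ah ?_ hR'
    rw [hupe']
    refine k8 (fun ξ => ε' * (ξ + δ')) (-δ') 0 (by fun_prop) ?_ hph'
    intro ξ
    rw [DMul_slope, abs_of_pos hε']
    exact q8
  have hB3 : AH b (j : ℕ) T0 (Gr b j (M1 + M1) (fun p x => W p x) (fun _ => upPh ε'))
      (Gr b j (M1 + M1) (fun p x => W p x) (fun _ => upPh ε)) := by
    obtain ⟨R', hR'⟩ := (hSc.cut (-(δ + δ')) 0).bdd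
    refine AHS.ah ?_ hR'
    rw [hupe', hupe]
    refine k4 (fun ξ => ε' * (ξ + δ')) (fun ξ => ε * (ξ + δ)) (-(δ + δ')) 0 (by fun_prop)
      (by fun_prop) ?_ ?_ ?_
    · intro ξ
      rw [DMul_slope, abs_of_pos hε']
      exact q4
    · intro ξ
      rw [DMul_slope, abs_of_pos hε]
      exact l4
    · intro ξ
      rcases lt_or_ge ξ (-(δ + δ')) with h | h
      · right; left
        constructor <;> nlinarith
      · rcases le_or_gt ξ 0 with h' | h'
        · exact Or.inl ⟨h, h'⟩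
        · right; right
          constructor <;> nlinarith
  exact htrans _ _ _ hB1 (htrans _ _ _ hB2 (htrans _ _ _ hB3 hA))

end Pool.Agent.BHS
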