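import Mathlib
import Pool.Agent.BHS.Stmts
import Pool.Agent.BHS.Basic
import Pool.Agent.TOL.DL
import Pool.Agent.TOL.Grid
import Pool.Agent.TOL.TameB
import Pool.Agent.TOL.Trunc

set_option maxSynthPendingDepth 3

open scoped ContDiff Distributions Topology unitInterval
open Set Function TopologicalSpace

namespace Pool.Agent.BHS

open Pool.Agent.Helper17 Pool.Agent.TOR Pool.Agent.TOL

section dper

variable {n N : ℕ} {b : Module.Basis (Fin N) ℝ (Phase n)} {j : Fin N}

lemma DPer_htr0 {δ : ℝ} {F : Phase n → Phase n} {x : Phase n} (h : F x = x) :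
    tru_trc b j δ F x = x := by
  unfold tru_trc
  rw [h, sub_self, smul_zero, add_zero]

lemma DPer_per {δ : ℝ} {i : Fin N} (hij : i ≠ j) {F : Phase n → Phase n}
    (h : ∀ x, F (x + b i) = F x + b i) (x : Phase n) :
    tru_trc b j δ F (x + b i) = tru_trc b j δ F x + b i := by
  unfold tru_trc
  rw [repr_add_ne hij, h]
  have : F x + b i - (x + b i) = F x - x := by abel
  rw [this]
  abel

/-- The truncation of a periodic family is tame. -/
lemma DPer_tame {T : Type} [TopologicalSpace T] {T0 : Set T} {δ R : ℝ}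
    {h P : T → Equiv.Perm (Phase n)} (hδ : 0 < δ) (hδ' : δ ≤ 1 / 2) (H : Per1 b j δ R T0 h P) :
    Tame b (|R| + 1) (fun p => tru_trc b j δ (P p)) := by
  have hfix := tru_fix hδ hδ' H
  have hR := le_abs_self R
  have hR0 := abs_nonneg R
  have hadd : ∀ (x : Phase n) (i : Fin N), b.repr (x + b i) i = b.repr x i + 1 := by
    intro x i
    have := repr_add_smul_self (b := b) x 1 i
    rwa [one_smul] at this
  have hsub : ∀ (x : Phase n) (i : Fin N), b.repr (x - b i) i = b.repr x i - 1 := by
    intro x i
    have := repr_sub_smul_self (b := b) x 1 i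
    rwa [one_smul] at this
  have hsupp : ∀ t (i : Fin N), (j : ℕ) < (i : ℕ) → ∀ x, R < |b.repr x i| → P t x = x :=
    fun t i hi x hx => H.levP.supp t x (not_mem_slab_of hi hx)
  refine ⟨tru_CF H.levP.cf, fun t x u v => tru_symp hδ (hfix t) (H.levP.symp t) x u v, ?_, ?_⟩
  · intro i t x hx
    have hx' : |R| + 1 ≤ b.repr x i := hx
    beta_reduce
    rcases lt_trichotomy (i : ℕ) (j : ℕ) with hij | hij | hij
    · have hne : i ≠ j := by
        intro he; rw [he] at hij; exact lt_irrefl _ hij
      rw [DPer_per hne (H.levP.per t i (by omega))]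
      abel
    · have hij' : i = j := Fin.ext hij
      subst hij'
      have e1 := tru_right hδ (hfix t) (x := x) (by linarith)
      have e2 := tru_right hδ (hfix t) (x := x + b i) (by rw [hadd]; linarith)
      rw [e1, e2, sub_self, sub_self]
    · rw [DPer_htr0 (hsupp t i hij x (by rw [lt_abs]; left; linarith)),
        DPer_htr0 (hsupp t i hij (x + b i) (by rw [hadd, lt_abs]; left; linarith)), sub_self,
        sub_self]
  · intro i t x hx
    have hx' : b.repr x i ≤ -(|R| + 1) := hx
    beta_reduce
    rcases lt_trichotomy (i : ℕ) (j : ℕ) with hij | hij | hij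
    · have hne : i ≠ j := by
        intro he; rw [he] at hij; exact lt_irrefl _ hij
      have h1 := DPer_per (δ := δ) hne (H.levP.per t i (by omega)) (x - b i)
      rw [sub_add_cancel] at h1
      rw [h1]
      abel
    · have hij' : i = j := Fin.ext hij
      subst hij'
      have h1 := H.levP.per t i (Nat.lt_succ_self _) (x - b i)
      rw [sub_add_cancel] at h1
      have e1 := tru_left hδ (hfix t) (x := x) (by linarith)
      have e2 := tru_left hδ (hfix t) (x := x - b i) (by rw [hsub]; linarith)
      rw [e1, e2, h1]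
      abel
    · rw [DPer_htr0 (hsupp t i hij x (by rw [lt_abs]; right; linarith)),
        DPer_htr0 (hsupp t i hij (x - b i) (by rw [hsub, lt_abs]; right; linarith)), sub_self,
        sub_self]

end dper

/-- The loop detector vanishes on periodizations of loops. -/
theorem thm_DPer' : St_DPer := by
  intro n N b j T _ _ T0 δ R h P hδ hδ' H
  have hfix := tru_fix hδ hδ' H
  have htame := DPer_tame hδ hδ' H
  obtain ⟨M0, hM0⟩ := thm_Grid thm_TameB b j T _ _ htame
  refine ⟨M0 + 1, fun M hM => ?_⟩
  obtain ⟨ε0, hε0, hadm⟩ := hM0 M (by omega)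
  refine ⟨ε0, hε0, fun ε hε hεε0 => ?_⟩
  have hadm' := hadm ε hε hεε0
  have hMpos : 0 < M := by omega
  have hεi : 0 < ε⁻¹ := inv_pos.2 hε
  set Ls : I → ℝ := fun s => (1 - (s : ℝ)) * ε⁻¹ with hLs
  have hLsc : Continuous Ls := (continuous_const.sub continuous_subtype_val).mul continuous_const
  have hLs0 : ∀ s, 0 ≤ Ls s := fun s => mul_nonneg (by linarith [s.2.2]) hεi.le
  have hLs1 : ∀ s, Ls s ≤ ε⁻¹ := by
    intro s
    have h0 := s.2.1
    simp only [hLs]
    nlinarith
  set V : T × I → Phase n → Phase n := fun p => tru_trc b j δ (P p) with hV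
  have hVright : ∀ p x, 0 ≤ b.repr x j → V p x = x := fun p x hx =>
    tru_right hδ (hfix p) (by linarith)
  have hVleft : ∀ p x, b.repr x j ≤ 0 → V p x = P p x := fun p x hx =>
    tru_left hδ (hfix p) (by linarith)
  have hV0 : ∀ t x, V (t, 0) x = x := by
    intro t x
    have h1 : P (t, 0) = 1 := by
      have h2 : h (t, 0) = 1 := H.rel (t, 0) (Or.inr (Or.inl rfl))
      ext1 x
      rw [tru_strip H (t, 0) x, h2]
      simp
    simp only [hV]
    apply DPer_htr0
    rw [h1]
    rfl
  have hPone : ∀ p ∈ relI T0, P p = 1 := by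
    intro p hp
    have h2 : h p = 1 := H.rel p hp
    ext1 x
    rw [tru_strip H p x, h2]
    simp
  have hVsupp : ∀ p (i : Fin N), (j : ℕ) < (i : ℕ) → ∀ x, R < |b.repr x i| → V p x = x :=
    fun p i hi x hx => DPer_htr0 (H.levP.supp p x (not_mem_slab_of hi hx))
  set R3 : ℝ := max |R| ε⁻¹ with hR3
  refine ⟨R3, fun p x => grid M (fun a => V (p.1, a)) (ε * (b.repr x j + Ls p.2)) x,
    ⟨?_, ?_, ?_, ?_⟩, ?_, ?_, ?_⟩
  · exact CF_grid j M ε htame.cf continuous_fst (hLsc.comp continuous_snd)
  · intro p x
    exact hadm' p.1 (Ls p.2) x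
  · intro p i hi x
    have hij : i ≠ j := by
      intro h; rw [h] at hi; exact lt_irrefl _ hi
    have h1 := grid_per M (W := fun a => V (p.1, a)) (x := x) (v := b i)
      (fun a => DPer_per hij (H.levP.per (p.1, a) i (by omega)) x) (ε * (b.repr x j + Ls p.2))
    simp only [repr_add_ne hij]
    exact h1
  · intro p x hx
    obtain ⟨i, hi, hxi⟩ := not_mem_slab hx
    have e1 : |R| ≤ R3 := le_max_left _ _
    have e2 : ε⁻¹ ≤ R3 := le_max_right _ _
    rcases Nat.eq_or_lt_of_le hi with h | h
    · have hij : i = j := Fin.ext h.symm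
      subst hij
      rcases le_or_gt 0 (b.repr x i) with h0 | h0
      · exact grid_const M (fun a => hVright (p.1, a) x h0) _
      · rw [abs_of_neg h0] at hxi
        have h2 := hLs1 p.2
        have h3 : ε * (b.repr x i + Ls p.2) ≤ 0 :=
          mul_nonpos_of_nonneg_of_nonpos hε.le (by linarith)
        beta_reduce
        rw [grid_zero M _ h3]
        exact hV0 p.1 x
    · have h2 := le_abs_self R
      exact grid_const M (fun a => hVsupp (p.1, a) i h x (by linarith)) _
  · -- the start
    intro t x
    have hL : Ls 0 = ε⁻¹ := by simp [hLs]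
    beta_reduce
    simp only [hL]
    unfold Gr
    rcases le_or_gt (b.repr x j) 0 with h | h
    · exact grid_congr M (fun a => hVleft (t, a) x h) _
    · have h3 : 1 ≤ ε * (b.repr x j + ε⁻¹) := by
        rw [mul_add, mul_inv_cancel₀ hε.ne']
        have := mul_nonneg hε.le h.le
        linarith
      rw [grid_one hMpos _ h3, grid_one hMpos _ (show 1 ≤ upPh ε (b.repr x j) from h3),
        hVright _ _ h.le]
      have h4 : P (t, 1) = 1 := hPone (t, 1) (Or.inr (Or.inr rfl))
      change x = P (t, 1) x
      rw [h4]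
      rfl
  · -- the end
    intro t x
    have hL : Ls 1 = 0 := by simp [hLs]
    beta_reduce
    simp only [hL]
    rcases le_or_gt 0 (b.repr x j) with h | h
    · exact grid_const M (fun a => hVright (t, a) x h) _
    · have h3 : ε * (b.repr x j + 0) ≤ 0 :=
        mul_nonpos_of_nonneg_of_nonpos hε.le (by linarith)
      rw [grid_zero M _ h3]
      exact hV0 t x
  · intro t ht s x
    refine grid_const M (fun a => ?_) _
    simp only [hV]
    apply DPer_htr0
    rw [hPone (t, a) (Or.inl ht)]
    rfl

theorem thm_DPer (_ : St_GrAdm) : St_DPer := thm_DPer'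

end Pool.Agent.BHS
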