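import Mathlib
import Pool.Agent.BHS.Basic
import Pool.Agent.BHS.Stmts

/-!
# BHS, module Dil0: null homotopies inside a box
-/

set_option maxSynthPendingDepth 3

open scoped ContDiff Distributions Topology unitInterval
open Set Function TopologicalSpace

namespace Pool.Agent.BHS

open Pool.Agent.Helper17 Pool.Agent.TOR Pool.Agent.TOL

section dil0

variable {n N : ℕ} {b : Module.Basis (Fin N) ℝ (Phase n)}

lemma Dil0_inv1 (c : Phase n) {s : ℝ} (hs : s ≠ 0) (x : Phase n) :
    s • (s⁻¹ • (x - c) + c - c) + c = x := by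
  rw [add_sub_cancel_right, smul_smul, mul_inv_cancel₀ hs, one_smul, sub_add_cancel]

lemma Dil0_inv2 (c : Phase n) {s : ℝ} (hs : s ≠ 0) (x : Phase n) :
    s⁻¹ • (s • (x - c) + c - c) + c = x := by
  rw [add_sub_cancel_right, smul_smul, inv_mul_cancel₀ hs, one_smul, sub_add_cancel]

/-- Conjugation with the dilation with centre `c` and factor `s`. -/
noncomputable def Dil0_dl (c : Phase n) (s : ℝ) (hs : s ≠ 0) (g : Equiv.Perm (Phase n)) :
    Equiv.Perm (Phase n) where
  toFun x := s • (g (s⁻¹ • (x - c) + c) - c) + c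
  invFun x := s • (g.symm (s⁻¹ • (x - c) + c) - c) + c
  left_inv x := by
    beta_reduce
    rw [Dil0_inv2 c hs, Equiv.symm_apply_apply, Dil0_inv1 c hs]
  right_inv x := by
    beta_reduce
    rw [Dil0_inv2 c hs, Equiv.apply_symm_apply, Dil0_inv1 c hs]

lemma Dil0_apply (c : Phase n) (s : ℝ) (hs : s ≠ 0) (g : Equiv.Perm (Phase n)) (x : Phase n) :
    Dil0_dl c s hs g x = s • (g (s⁻¹ • (x - c) + c) - c) + c := rfl

lemma Dil0_symm_apply (c : Phase n) (s : ℝ) (hs : s ≠ 0) (g : Equiv.Perm (Phase n))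
    (x : Phase n) :
    (Dil0_dl c s hs g).symm x = s • (g.symm (s⁻¹ • (x - c) + c) - c) + c := rfl

lemma Dil0_one (c : Phase n) (s : ℝ) (hs : s ≠ 0) :
    Dil0_dl c s hs (1 : Equiv.Perm (Phase n)) = 1 := by
  ext1 x
  rw [Dil0_apply]
  exact Dil0_inv1 c hs x

lemma Dil0_fix (c : Phase n) (s : ℝ) (hs : s ≠ 0) (g : Equiv.Perm (Phase n)) (x : Phase n)
    (h : g (s⁻¹ • (x - c) + c) = s⁻¹ • (x - c) + c) : Dil0_dl c s hs g x = x := by
  rw [Dil0_apply, h]
  exact Dil0_inv1 c hs x

lemma Dil0_cf {T : Type} [TopologicalSpace T] (c : Phase n) {s : T → ℝ} (hs : Continuous s)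
    (hs0 : ∀ t, s t ≠ 0) {F : T → Phase n → Phase n} (hF : CF F) :
    CF (fun t x => s t • (F t ((s t)⁻¹ • (x - c) + c) - c) + c) := by
  have h1 : CF (fun (t : T) (x : Phase n) => (s t)⁻¹ • (x - c) + c) :=
    ((CF.param (hs.inv₀ hs0)).smul ((CF.const contDiff_id).sub (CF.const contDiff_const))).add
      (CF.const contDiff_const)
  have h2 : CF (fun (t : T) (x : Phase n) => F t ((s t)⁻¹ • (x - c) + c)) := CF.comp hF h1
  exact ((CF.param hs).smul (h2.sub (CF.const contDiff_const))).add (CF.const contDiff_const)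

lemma Dil0_symp (c : Phase n) {s : ℝ} (hs : s ≠ 0) {f : Phase n → Phase n}
    (hf : Differentiable ℝ f)
    (h : ∀ p u v, omegaStd (fderiv ℝ f p u) (fderiv ℝ f p v) = omegaStd u v) (p u v : Phase n) :
    omegaStd (fderiv ℝ (fun x => s • (f (s⁻¹ • (x - c) + c) - c) + c) p u)
      (fderiv ℝ (fun x => s • (f (s⁻¹ • (x - c) + c) - c) + c) p v) = omegaStd u v := by
  have h1 : HasFDerivAt (fun x : Phase n => s⁻¹ • (x - c) + c)
      (s⁻¹ • ContinuousLinearMap.id ℝ (Phase n)) p :=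
    (((hasFDerivAt_id p).sub_const c).const_smul s⁻¹).add_const c
  have h2 := (hf (s⁻¹ • (p - c) + c)).hasFDerivAt.comp p h1
  have h3 := ((h2.sub_const c).const_smul s).add_const c
  have h4 : ∀ w, fderiv ℝ (fun x => s • (f (s⁻¹ • (x - c) + c) - c) + c) p w =
      fderiv ℝ f (s⁻¹ • (p - c) + c) w := by
    intro w
    have h5 : fderiv ℝ (fun x => s • (f (s⁻¹ • (x - c) + c) - c) + c) p = _ := h3.fderiv
    rw [h5]
    simp only [_root_.smul_apply, ContinuousLinearMap.comp_apply,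
      ContinuousLinearMap.id_apply, map_smul, smul_smul, mul_inv_cancel₀ hs, one_smul]
  rw [h4, h4, h]

lemma Dil0_repr (c : Phase n) {s : ℝ} (hs : s ≠ 0) (x : Phase n) (i : Fin N) :
    b.repr x i = s * (b.repr (s⁻¹ • (x - c) + c) i - b.repr c i) + b.repr c i := by
  conv_lhs => rw [← Dil0_inv1 c hs x]
  simp only [map_add, map_sub, map_smul, Finsupp.add_apply, Finsupp.sub_apply,
    Finsupp.smul_apply, smul_eq_mul]

/-- A small factor. -/
lemma Dil0_fac (p q : Fin N → ℝ) (hpq : ∀ i, p i < q i) (R : ℝ) :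
    ∃ s : ℝ, 0 < s ∧ s ≤ 1 ∧ ∀ i, s * (|R| + |(p i + q i) / 2|) ≤ (q i - p i) / 2 := by
  set D : ℝ := ∑ i, (|R| + |(p i + q i) / 2|) / ((q i - p i) / 2) with hD
  have hpos : ∀ i, 0 ≤ (|R| + |(p i + q i) / 2|) / ((q i - p i) / 2) := fun i =>
    div_nonneg (add_nonneg (abs_nonneg _) (abs_nonneg _)) (by linarith [hpq i])
  have hD0 : 0 ≤ D := Finset.sum_nonneg fun i _ => hpos i
  refine ⟨(D + 1)⁻¹, inv_pos.2 (by linarith), inv_le_one_of_one_le₀ (by linarith), fun i => ?_⟩
  have h1 : (|R| + |(p i + q i) / 2|) / ((q i - p i) / 2) ≤ D + 1 :=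
    (Finset.single_le_sum (fun i _ => hpos i) (Finset.mem_univ i)).trans (by linarith)
  have h2 : 0 < (q i - p i) / 2 := by linarith [hpq i]
  rw [div_le_iff₀ h2] at h1
  rw [inv_mul_le_iff₀ (by linarith)]
  exact h1

lemma Dil0_pos {s : ℝ} (hs : 0 < s) (hs1 : s ≤ 1) (u : I) : 0 < 1 - (u : ℝ) * (1 - s) := by
  have h0 := u.2.1
  have h1 := u.2.2
  nlinarith

lemma Dil0_le {s : ℝ} (hs1 : s ≤ 1) (u : I) : 1 - (u : ℝ) * (1 - s) ≤ 1 := by
  have h0 := u.2.1
  nlinarith [sub_nonneg.2 hs1]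

end dil0

theorem thm_Dil0 : St_Dil0 := by
  intro n N b p q hpq T _ _ T0 u hu hu0 hH
  obtain ⟨R, F, hF, hF0, hF1, hFr⟩ := hH
  obtain ⟨s₀, hs₀, hs₁, hsR⟩ := Dil0_fac p q hpq R
  obtain ⟨c, hc⟩ : ∃ c : Phase n, ∀ i, b.repr c i = (p i + q i) / 2 := by
    refine ⟨b.equivFun.symm (fun i => (p i + q i) / 2), fun i => ?_⟩
    rw [← Module.Basis.equivFun_apply, LinearEquiv.apply_symm_apply]
  set s : T × I → ℝ := fun z => 1 - (tau z.2 : ℝ) * (1 - s₀) with hs
  have hsc : Continuous s := continuous_const.sub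
    ((continuous_subtype_val.comp (continuous_tau.comp continuous_snd)).mul continuous_const)
  have hsp : ∀ z, 0 < s z := fun z => Dil0_pos hs₀ hs₁ (tau z.2)
  have hsl : ∀ z, s z ≤ 1 := fun z => Dil0_le hs₁ (tau z.2)
  have hg : Continuous (fun z : T × I => ((z.1, tau' z.2) : T × I)) :=
    continuous_fst.prodMk (continuous_tau'.comp continuous_snd)
  refine ⟨fun z => Dil0_dl c (s z) (hsp z).ne' (F (z.1, tau' z.2)), ⟨?_, ?_, ?_, ?_, ?_⟩,
    ?_, ?_, ?_⟩
  · exact Dil0_cf c hsc (fun z => (hsp z).ne') (hF.cf.base hg)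
  · exact Dil0_cf c hsc (fun z => (hsp z).ne') (hF.cf'.base hg)
  · intro z x v w
    exact Dil0_symp c (hsp z).ne' (hF.cf.differentiable _) (hF.symp _) x v w
  · intro z i hi
    exact absurd hi (Nat.not_lt_zero _)
  · intro z x hx
    apply Dil0_fix
    have hr := fun i => Dil0_repr (b := b) c (hsp z).ne' x i
    set y : Phase n := (s z)⁻¹ • (x - c) + c with hy
    -- `y` is not moved, otherwise `x` would be in the box
    have key : (∀ i, |s z * (b.repr y i - b.repr c i)| ≤ (q i - p i) / 2) → False := by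
      intro h
      apply hx
      intro i _
      have h1 := abs_le.1 (h i)
      rw [hr i, hc i] at *
      constructor <;> linarith [h1.1, h1.2]
    rcases tau_cases z.2 with h | h
    · rw [h, hF0]
      apply hu.supp
      intro hyb
      apply key
      intro i
      have h1 := hyb i (Nat.zero_le _)
      rw [abs_mul, abs_of_pos (hsp z), hc i]
      have h2 : |b.repr y i - (p i + q i) / 2| ≤ (q i - p i) / 2 := by
        rw [abs_le]
        constructor <;> linarith [h1.1, h1.2]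
      calc s z * |b.repr y i - (p i + q i) / 2| ≤ 1 * |b.repr y i - (p i + q i) / 2| :=
            mul_le_mul_of_nonneg_right (hsl z) (abs_nonneg _)
        _ ≤ _ := by rw [one_mul]; exact h2
    · apply hF.supp
      intro hyb
      apply key
      intro i
      have h1 : |b.repr y i| ≤ R := hyb i (Nat.zero_le _)
      have h2 : s z = s₀ := by
        simp only [hs, h]
        rw [Icc.coe_one]
        ring
      rw [abs_mul, abs_of_pos (hsp z), hc i, h2]
      refine le_trans (mul_le_mul_of_nonneg_left ?_ hs₀.le) (hsR i)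
      calc |b.repr y i - (p i + q i) / 2| ≤ |b.repr y i| + |(p i + q i) / 2| := abs_sub _ _
        _ ≤ |R| + |(p i + q i) / 2| := by linarith [h1.trans (le_abs_self R)]
  · intro t
    ext1 x
    have h1 : s (t, 0) = 1 := by
      simp only [hs, tau_zero]
      rw [Icc.coe_zero]
      ring
    change s (t, 0) • (F (t, tau' 0) ((s (t, 0))⁻¹ • (x - c) + c) - c) + c = u t x
    rw [h1, tau'_zero, hF0, inv_one, one_smul, one_smul, sub_add_cancel, sub_add_cancel]
  · intro t
    beta_reduce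
    rw [tau'_one, hF1]
    exact Dil0_one c _ _
  · intro t ht a
    beta_reduce
    rw [hFr t ht]
    exact Dil0_one c _ _

end Pool.Agent.BHS
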