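import Mathlib
import Pool.Agent.BHS.Stmts
import Pool.Agent.BHS.Basic

set_option maxSynthPendingDepth 3

open scoped ContDiff Distributions Topology unitInterval
open Set Function TopologicalSpace

namespace Pool.Agent.BHS

open Pool.Agent.Helper17 Pool.Agent.TOR Pool.Agent.TOL

section

lemma EH_cont {T : Type} [TopologicalSpace T] {f : I → I} (hf : Continuous f) :
    Continuous (fun p : (T × I) × I =>
      ((p.1.1, pr ((1 - (p.2 : ℝ)) * (p.1.2 : ℝ) + (p.2 : ℝ) * (f p.1.2 : ℝ))) : T × I)) := by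
  refine (continuous_fst.comp continuous_fst).prodMk (continuous_pr.comp ?_)
  refine Continuous.add (Continuous.mul ?_ ?_) (Continuous.mul ?_ ?_)
  · exact continuous_const.sub (continuous_subtype_val.comp continuous_snd)
  · exact continuous_subtype_val.comp (continuous_snd.comp continuous_fst)
  · exact continuous_subtype_val.comp continuous_snd
  · exact continuous_subtype_val.comp (hf.comp (continuous_snd.comp continuous_fst))

lemma EH_rel {T : Type} {T0 : Set T} {f : I → I} (f0 : f 0 = 0) (f1 : f 1 = 1) {p : T × I}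
    (hp : p ∈ relI T0) (s : I) :
    ((p.1, pr ((1 - (s : ℝ)) * (p.2 : ℝ) + (s : ℝ) * (f p.2 : ℝ))) : T × I) ∈ relI T0 := by
  rcases hp with hp | hp | hp
  · exact Or.inl hp
  · refine Or.inr (Or.inl ?_)
    change pr ((1 - (s : ℝ)) * (p.2 : ℝ) + (s : ℝ) * (f p.2 : ℝ)) = 0
    rw [hp, f0]
    apply pr_nonpos
    rw [Icc.coe_zero]; simp
  · refine Or.inr (Or.inr ?_)
    change pr ((1 - (s : ℝ)) * (p.2 : ℝ) + (s : ℝ) * (f p.2 : ℝ)) = 1
    rw [hp, f1]
    apply pr_one_le
    rw [Icc.coe_one]; simp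

lemma EH_zero {T : Type} (f : I → I) (p : T × I) :
    ((p.1, pr ((1 - ((0 : I) : ℝ)) * (p.2 : ℝ) + ((0 : I) : ℝ) * (f p.2 : ℝ))) : T × I) = p := by
  refine Prod.ext rfl ?_
  change pr ((1 - ((0 : I) : ℝ)) * (p.2 : ℝ) + ((0 : I) : ℝ) * (f p.2 : ℝ)) = p.2
  rw [Icc.coe_zero, sub_zero, one_mul, zero_mul, add_zero, pr_coe]

lemma EH_one {T : Type} (f : I → I) (p : T × I) :
    ((p.1, pr ((1 - ((1 : I) : ℝ)) * (p.2 : ℝ) + ((1 : I) : ℝ) * (f p.2 : ℝ))) : T × I) =
      (p.1, f p.2) := by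
  refine Prod.ext rfl ?_
  change pr ((1 - ((1 : I) : ℝ)) * (p.2 : ℝ) + ((1 : I) : ℝ) * (f p.2 : ℝ)) = f p.2
  rw [Icc.coe_one, sub_self, zero_mul, one_mul, zero_add, pr_coe]

end

theorem thm_EH (hL : St_LHSc) : St_EH := by
  intro n N b j S T _ T0
  refine ⟨fun u v hu hv hu0 hv0 => ?_, fun u v hT hu hv hu0 hv0 => ?_⟩
  · refine ⟨fun p => u (p.1.1, pr ((1 - (p.2 : ℝ)) * (p.1.2 : ℝ) + (p.2 : ℝ) * (tau p.1.2 : ℝ))) *
      v (p.1.1, pr ((1 - (p.2 : ℝ)) * (p.1.2 : ℝ) + (p.2 : ℝ) * (tau' p.1.2 : ℝ))),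
      (hu.reparam (EH_cont continuous_tau)).mul (hv.reparam (EH_cont continuous_tau')),
      ?_, ?_, ?_⟩
    · intro p
      beta_reduce
      rw [EH_zero, EH_zero]
    · intro p
      beta_reduce
      rw [EH_one, EH_one]
    · intro p hp s
      beta_reduce
      rw [hu0 _ (EH_rel tau_zero tau_one hp s), hv0 _ (EH_rel tau'_zero tau'_one hp s), mul_one]
  · obtain ⟨α, β, hα, hβ, α0, β0, hrel, hsep⟩ := hT
    have s1 : LHS b j S T0 (fun t => u t * v t) (fun t => u (α (t, 1)) * v (β (t, 1))) := by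
      refine ⟨fun p => u (α p) * v (β p), (hu.reparam hα).mul (hv.reparam hβ), ?_, ?_, ?_⟩
      · intro t
        beta_reduce
        rw [α0, β0]
      · intro t
        rfl
      · intro t ht s
        beta_reduce
        rw [hu0 _ (hrel t ht s).1, hv0 _ (hrel t ht s).2, mul_one]
    have s2 : LHS b j S T0 (fun t => v t * u t) (fun t => u (α (t, 1)) * v (β (t, 1))) := by
      refine ⟨fun p => v (β p) * u (α p), (hv.reparam hβ).mul (hu.reparam hα), ?_, ?_, ?_⟩
      · intro t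
        beta_reduce
        rw [α0, β0]
      · intro t
        beta_reduce
        rcases hsep t with h | h
        · rw [hu0 _ h, mul_one, one_mul]
        · rw [hv0 _ h, mul_one, one_mul]
      · intro t ht s
        beta_reduce
        rw [hu0 _ (hrel t ht s).1, hv0 _ (hrel t ht s).2, mul_one]
    have s3 := (hL b j S T T0 _ _ (fun _ => 1)).1 s2
    exact (hL b j S T T0 _ _ _).2 s1 s3

end Pool.Agent.BHS
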