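import Pool.Agent.BHS.Stmts
import Pool.Agent.BHS.Basic

/-!
BHS, module EHpow: the concatenation of `l` copies of a family of loops is homotopic to its `l`-th power
(helper75).
-/

set_option maxSynthPendingDepth 3

open scoped ContDiff Distributions Topology unitInterval
open Set Function TopologicalSpace

namespace Pool.Agent.BHS

open Pool.Agent.Helper17 Pool.Agent.TOR Pool.Agent.TOL

section ehpow

variable {n N : ℕ} {b : Module.Basis (Fin N) ℝ (Phase n)}

lemma EHpow_list {j : ℕ} {S : Set (Phase n)} {T : Type} [TopologicalSpace T] :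
    ∀ (l : ℕ) (F : Fin l → T → Equiv.Perm (Phase n)), (∀ k, LevS b j S (F k)) →
      LevS b j S (fun t => (List.ofFn fun k : Fin l => F k t).prod) := by
  intro l
  induction l with
  | zero =>
    intro F _
    have e : (fun t : T => (List.ofFn fun k : Fin 0 => F k t).prod) =
        fun _ => (1 : Equiv.Perm (Phase n)) := by
      funext t
      rw [List.ofFn_zero, List.prod_nil]
    rw [e]
    exact LevS.one j S T
  | succ l ih =>
    intro F hF
    have e : (fun t : T => (List.ofFn fun k : Fin (l + 1) => F k t).prod) =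
        fun t => F 0 t * (List.ofFn fun k : Fin l => F k.succ t).prod := by
      funext t
      rw [List.ofFn_succ, List.prod_cons]
    rw [e]
    exact (hF 0).mul (ih (fun k => F k.succ) fun k => hF k.succ)

/-- the parameter of the `k`-th factor -/
noncomputable def EHpow_g (l : ℕ) (k : Fin l) (q : I × I) : I :=
  pr ((1 - (q.2 : ℝ)) * (q.1 : ℝ) + (q.2 : ℝ) * (pr ((l : ℝ) * (q.1 : ℝ) - (k : ℕ)) : ℝ))

lemma EHpow_cont (l : ℕ) (k : Fin l) : Continuous (EHpow_g l k) := by
  refine continuous_pr.comp (Continuous.add (Continuous.mul ?_ ?_) (Continuous.mul ?_ ?_))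
  · exact continuous_const.sub (continuous_subtype_val.comp continuous_snd)
  · exact continuous_subtype_val.comp continuous_fst
  · exact continuous_subtype_val.comp continuous_snd
  · exact continuous_subtype_val.comp (continuous_pr.comp
      ((continuous_const.mul (continuous_subtype_val.comp continuous_fst)).sub continuous_const))

lemma EHpow_pr (a : I) : pr (a : ℝ) = a := projIcc_val zero_le_one a

lemma EHpow_left (l : ℕ) (k : Fin l) (a : I) : EHpow_g l k (a, 0) = a := by
  unfold EHpow_g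
  change pr ((1 - ((0 : I) : ℝ)) * (a : ℝ) +
    ((0 : I) : ℝ) * (pr ((l : ℝ) * (a : ℝ) - (k : ℕ)) : ℝ)) = a
  rw [Icc.coe_zero, sub_zero, one_mul, zero_mul, add_zero, EHpow_pr]

lemma EHpow_right (l : ℕ) (k : Fin l) (a : I) :
    EHpow_g l k (a, 1) = pr ((l : ℝ) * (a : ℝ) - (k : ℕ)) := by
  unfold EHpow_g
  change pr ((1 - ((1 : I) : ℝ)) * (a : ℝ) +
    ((1 : I) : ℝ) * (pr ((l : ℝ) * (a : ℝ) - (k : ℕ)) : ℝ)) = _
  rw [Icc.coe_one, sub_self, zero_mul, one_mul, zero_add, EHpow_pr]

lemma EHpow_zero (l : ℕ) (k : Fin l) (s : I) : EHpow_g l k (0, s) = 0 := by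
  unfold EHpow_g
  have h1 : pr ((l : ℝ) * (((0 : I), s).1 : ℝ) - (k : ℕ)) = 0 := by
    apply pr_nonpos
    change (l : ℝ) * ((0 : I) : ℝ) - (k : ℕ) ≤ 0
    rw [Icc.coe_zero, mul_zero, zero_sub]
    exact neg_nonpos.2 (Nat.cast_nonneg _)
  rw [h1]
  apply pr_nonpos
  change (1 - (s : ℝ)) * ((0 : I) : ℝ) + (s : ℝ) * ((0 : I) : ℝ) ≤ 0
  rw [Icc.coe_zero, mul_zero, mul_zero, add_zero]

lemma EHpow_one (l : ℕ) (k : Fin l) (s : I) : EHpow_g l k (1, s) = 1 := by
  unfold EHpow_g
  have h1 : pr ((l : ℝ) * (((1 : I), s).1 : ℝ) - (k : ℕ)) = 1 := by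
    apply pr_one_le
    change 1 ≤ (l : ℝ) * ((1 : I) : ℝ) - (k : ℕ)
    rw [Icc.coe_one, mul_one]
    have h2 : ((k : ℕ) : ℝ) + 1 ≤ (l : ℝ) := by
      exact_mod_cast k.2
    linarith
  rw [h1]
  apply pr_one_le
  change 1 ≤ (1 - (s : ℝ)) * ((1 : I) : ℝ) + (s : ℝ) * ((1 : I) : ℝ)
  rw [Icc.coe_one, mul_one, mul_one, sub_add_cancel]

theorem thm_EHpow : St_EHpow := by
  intro n N b j S T _ T0 u l hu h0
  refine ⟨fun q => (List.ofFn fun k : Fin l => u (q.1.1, EHpow_g l k (q.1.2, q.2))).prod,
    ?_, ?_, ?_, ?_⟩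
  · refine EHpow_list l (fun k (q : (T × I) × I) => u (q.1.1, EHpow_g l k (q.1.2, q.2))) fun k => ?_
    exact hu.reparam ((continuous_fst.comp continuous_fst).prodMk ((EHpow_cont l k).comp
      ((continuous_snd.comp continuous_fst).prodMk continuous_snd)))
  · intro t
    have e : (fun k : Fin l => u (t.1, EHpow_g l k (t.2, 0))) = fun _ => u t := by
      funext k
      rw [EHpow_left]
    change (List.ofFn fun k : Fin l => u (t.1, EHpow_g l k (t.2, 0))).prod = _
    rw [e, List.ofFn_const, List.prod_replicate]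
  · intro t
    have e : (fun k : Fin l => u (t.1, EHpow_g l k (t.2, 1))) =
        fun k : Fin l => u (t.1, pr ((l : ℝ) * t.2 - (k : ℕ))) := by
      funext k
      rw [EHpow_right]
    change (List.ofFn fun k : Fin l => u (t.1, EHpow_g l k (t.2, 1))).prod = _
    rw [e]
  · intro t ht s
    have e : (fun k : Fin l => u (t.1, EHpow_g l k (t.2, s))) = fun _ => 1 := by
      funext k
      apply h0
      rcases ht with ht | ht | ht
      · exact Or.inl ht
      · refine Or.inr (Or.inl ?_)
        change EHpow_g l k (t.2, s) = 0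
        rw [ht, EHpow_zero]
      · refine Or.inr (Or.inr ?_)
        change EHpow_g l k (t.2, s) = 1
        rw [ht, EHpow_one]
    change (List.ofFn fun k : Fin l => u (t.1, EHpow_g l k (t.2, s))).prod = _
    rw [e, List.ofFn_const, List.prod_replicate, one_pow]

end ehpow

end Pool.Agent.BHS
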