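import Mathlib
import Pool.Agent.BHS.Stmts
import Pool.Agent.BHS.Basic
import Pool.Agent.TOL.Grid
import Pool.Agent.TOL.TameB

set_option maxSynthPendingDepth 3

open scoped ContDiff Distributions Topology unitInterval
open Set Function TopologicalSpace

namespace Pool.Agent.BHS

open Pool.Agent.Helper17 Pool.Agent.TOR Pool.Agent.TOL

lemma GrAdm_conv {n : ℕ} {A D D' : Phase n →L[ℝ] Phase n} {C e : ℝ}
    (hA : ∀ u v, omegaStd (A u) (A v) = omegaStd u v) (hC : ‖A‖ ≤ C) (he : ‖D - A‖ ≤ e)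
    (he' : ‖D' - A‖ ≤ e) (hs : 2 * C * e + e ^ 2 < 1) {s : ℝ} (h : s ∈ Icc (0 : ℝ) 1) :
    Admissible ((1 - s) • D + s • D') := by
  refine gri_near hA hC ?_ hs
  have e1 : (1 - s) • D + s • D' - A = (1 - s) • (D - A) + s • (D' - A) := by
    rw [smul_sub, smul_sub, sub_smul, sub_smul, one_smul, one_smul]
    abel
  rw [e1]
  refine (norm_add_le _ _).trans ?_
  rw [norm_smul, norm_smul, Real.norm_of_nonneg h.1,
    Real.norm_of_nonneg (by linarith [h.2] : (0 : ℝ) ≤ 1 - s)]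
  have h1 : (1 - s) * ‖D - A‖ ≤ (1 - s) * e :=
    mul_le_mul_of_nonneg_left he (by linarith [h.2])
  have h2 : s * ‖D' - A‖ ≤ s * e := mul_le_mul_of_nonneg_left he' h.1
  linarith

theorem thm_GrAdm (hG : St_GridP) : St_GrAdm := by
  intro n N b j T _ _ R V hV
  obtain ⟨-, ⟨C₂, hC₂⟩, -⟩ := thm_TameB b T R V hV
  set C : ℝ := max C₂ 0 + 1 with hC
  have hC1 : 1 ≤ C := by have := le_max_right C₂ 0; linarith
  set e : ℝ := 1 / (4 * C) with he
  have he0 : 0 < e := by positivity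
  have he1 : e ≤ 1 / 4 := by
    rw [he, div_le_div_iff₀ (by positivity) (by norm_num)]
    linarith
  have hCe : 2 * C * e = 1 / 2 := by
    rw [he]; field_simp; norm_num
  have hsmall : 2 * C * e + e ^ 2 < 1 := by
    rw [hCe]; nlinarith
  obtain ⟨M0, hM0⟩ := hG b j T R V hV e he0
  refine ⟨max M0 1, lt_of_lt_of_le one_pos (le_max_right _ _), fun M hM M' hM' => ?_⟩
  obtain ⟨ε1, hε1, h1⟩ := hM0 M ((le_max_left _ _).trans hM)
  obtain ⟨ε2, hε2, h2⟩ := hM0 M' ((le_max_left _ _).trans hM')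
  refine ⟨min ε1 ε2, lt_min hε1 hε2, fun φ hφ hd t x s hs => ?_⟩
  have a1 := h1 φ hφ (fun ξ => (hd ξ).trans (min_le_left _ _)) t x
  have a2 := h2 φ hφ (fun ξ => (hd ξ).trans (min_le_right _ _)) t x
  have hn : ‖fderiv ℝ (V (t, pr (φ (b.repr x j)))) x‖ ≤ C :=
    (hC₂ _ _).trans ((le_max_left _ _).trans (by linarith))
  refine ⟨GrAdm_conv (fun u v => hV.symp _ x u v) hn a1 a2 hsmall hs,
    GrAdm_conv (fun u v => hV.symp _ x u v) hn a1 ?_ hsmall hs⟩
  rw [sub_self, norm_zero]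
  exact he0.le

end Pool.Agent.BHS
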