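import Mathlib
import Pool.Agent.BHS.Stmts
import Pool.Agent.BHS.Basic
import Pool.Agent.TOL.Grid
import Pool.Agent.TOL.TameB

set_option maxSynthPendingDepth 3

open scoped ContDiff Distributions Topology unitInterval
open Set Function TopologicalSpace

namespace Pool.Agent.BHS

open Pool.Agent.Helper17 Pool.Agent.TOR Pool.Agent.TOL

/-- The weighted telescoping sum is near the term whose index is near the clamped value of `s`. -/
lemma GridP_tele {F : Type*} [NormedAddCommGroup F] [NormedSpace ℝ F] (A : ℕ → F) (η s : ℝ)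
    (hη : 0 ≤ η) (M : ℕ) (h : ∀ m < M, ‖A (m + 1) - A m‖ ≤ η) :
    ∃ k ≤ M, ‖A 0 + ∑ m ∈ Finset.range M, Real.smoothTransition (s - m) • (A (m + 1) - A m)
      - A k‖ ≤ η ∧ |max 0 (min (M : ℝ) s) - k| ≤ 1 := by
  induction M with
  | zero =>
    refine ⟨0, le_rfl, by simpa using hη, ?_⟩
    rw [Nat.cast_zero, max_eq_left (min_le_left _ _), sub_zero, abs_zero]
    exact zero_le_one
  | succ M ih =>
    rcases le_or_gt s M with hs | hs
    · obtain ⟨k, hk, hk', hk2⟩ := ih fun m hm => h m (by omega)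
      refine ⟨k, by omega, ?_, ?_⟩
      · rw [Finset.sum_range_succ, Real.smoothTransition.zero_of_nonpos (by linarith), zero_smul,
          add_zero]
        exact hk'
      · rw [min_eq_right hs] at hk2
        rw [min_eq_right (by push_cast; linarith)]
        exact hk2
    · refine ⟨M, by omega, ?_, ?_⟩
      · have h1 : ∑ m ∈ Finset.range M, Real.smoothTransition (s - m) • (A (m + 1) - A m) =
            A M - A 0 := by
          rw [← Finset.sum_range_sub A M]
          refine Finset.sum_congr rfl fun m hm => ?_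
          rw [Finset.mem_range] at hm
          have : (m : ℝ) + 1 ≤ M := by exact_mod_cast hm
          rw [Real.smoothTransition.one_of_one_le (by linarith), one_smul]
        rw [Finset.sum_range_succ, h1]
        have h2 : A 0 + (A M - A 0 + Real.smoothTransition (s - M) • (A (M + 1) - A M)) - A M =
            Real.smoothTransition (s - M) • (A (M + 1) - A M) := by abel
        rw [h2, norm_smul, Real.norm_of_nonneg (Real.smoothTransition.nonneg _)]
        calc Real.smoothTransition (s - M) * ‖A (M + 1) - A M‖ ≤ 1 * η :=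
              mul_le_mul (Real.smoothTransition.le_one _) (h M (by omega)) (norm_nonneg _)
                zero_le_one
          _ = η := one_mul _
      · have h0 : (0 : ℝ) ≤ M := Nat.cast_nonneg M
        have h1 : (M : ℝ) ≤ max 0 (min ((M + 1 : ℕ) : ℝ) s) :=
          le_trans (le_min (by push_cast; linarith) hs.le) (le_max_right _ _)
        have h2 : max 0 (min ((M + 1 : ℕ) : ℝ) s) ≤ M + 1 := by
          refine max_le (by linarith) ((min_le_left _ _).trans ?_)
          push_cast
          exact le_rfl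
        rw [abs_le]
        constructor <;> linarith

/-- Derivative of the grid map with a general phase. -/
lemma GridP_hasFDerivAt {n N : ℕ} (b : Module.Basis (Fin N) ℝ (Phase n)) (j : Fin N) (M : ℕ)
    (W : I → Phase n → Phase n) (hW : ∀ a, Differentiable ℝ (W a)) (l : Phase n →L[ℝ] ℝ)
    (hl : ∀ x, l x = b.repr x j) (φ : ℝ → ℝ) (hφ : Differentiable ℝ φ) (x : Phase n) :
    HasFDerivAt (fun x => grid M W (φ (b.repr x j)) x)
      (fderiv ℝ (W 0) x + ∑ m ∈ Finset.range M,
        (Real.smoothTransition (M * φ (b.repr x j) - m) •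
          (fderiv ℝ (W (pr ((m + 1) / M))) x - fderiv ℝ (W (pr (m / M))) x) +
        ((deriv Real.smoothTransition (M * φ (b.repr x j) - m) *
          (M * deriv φ (b.repr x j))) • l).smulRight
          (W (pr ((m + 1) / M)) x - W (pr (m / M)) x))) x := by
  unfold grid
  refine (hW 0 x).hasFDerivAt.add ?_
  refine HasFDerivAt.fun_sum fun m _ => ?_
  refine HasFDerivAt.smul (c := fun x => Real.smoothTransition (M * φ (b.repr x j) - m))
    (f := fun x => W (pr ((m + 1) / M)) x - W (pr (m / M)) x) ?_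
    ((hW _ x).hasFDerivAt.sub (hW _ x).hasFDerivAt)
  have h0 : HasFDerivAt (fun x : Phase n => φ (b.repr x j)) (deriv φ (b.repr x j) • l) x := by
    have h2 : HasFDerivAt (fun x : Phase n => b.repr x j) l x :=
      l.hasFDerivAt.congr_of_eventuallyEq (Filter.Eventually.of_forall fun y => (hl y).symm)
    exact (hφ (b.repr x j)).hasDerivAt.comp_hasFDerivAt x h2
  have h1 : HasFDerivAt (fun x : Phase n => (M : ℝ) * φ (b.repr x j) - m)
      ((M : ℝ) • (deriv φ (b.repr x j) • l)) x := (h0.const_mul (M : ℝ)).sub_const _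
  have hS : ContDiff ℝ ∞ Real.smoothTransition := Real.smoothTransition.contDiff
  have h4 : HasDerivAt Real.smoothTransition
      (deriv Real.smoothTransition (M * φ (b.repr x j) - m))
      (M * φ (b.repr x j) - m) :=
    (hS.differentiable (by simp) _).hasDerivAt
  have h5 := h4.comp_hasFDerivAt x h1
  rw [smul_smul, smul_smul, mul_assoc] at h5
  exact h5

/-- [GridP] Derivative of a fine grid with a slowly varying phase. -/
theorem thm_GridP : St_GridP := by
  intro n N b j T _ _ R V hV e he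
  obtain ⟨⟨C₁, hC₁⟩, -, hunif⟩ := thm_TameB b T R V hV
  obtain ⟨CS, hCS0, hCS⟩ := gri_deriv_bound
  have : FiniteDimensional ℝ (Phase n) := Module.Basis.finiteDimensional_of_finite b
  obtain ⟨l, hl⟩ : ∃ l : Phase n →L[ℝ] ℝ, ∀ x, l x = b.repr x j :=
    ⟨LinearMap.toContinuousLinearMap (b.coord j), fun x => rfl⟩
  obtain ⟨d, hd, hd'⟩ := hunif (e / 3) (by positivity)
  obtain ⟨M0, hM0⟩ := exists_nat_ge (1 / d)
  refine ⟨max M0 1, fun M hM => ?_⟩
  have hM1 : 1 ≤ M := (le_max_right _ _).trans hM
  have hM0M : M0 ≤ M := (le_max_left _ _).trans hM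
  have hMR : (1 : ℝ) ≤ M := by exact_mod_cast hM1
  have hMpos : (0 : ℝ) < M := by linarith
  have hMd : 1 / (M : ℝ) ≤ d := by
    have h1 : 1 / d ≤ M := hM0.trans (by exact_mod_cast hM0M)
    rw [div_le_iff₀ hd] at h1
    rw [div_le_iff₀ (by linarith)]
    linarith
  set C₁' : ℝ := max C₁ 0 with hC₁'
  have hC₁0 : 0 ≤ C₁' := le_max_right _ _
  set Q : ℝ := M * (CS * M * ‖l‖ * (2 * C₁')) + 1 with hQ
  have hQ0 : 0 ≤ (M : ℝ) * (CS * M * ‖l‖ * (2 * C₁')) := by positivity
  have hQ1 : 1 ≤ Q := by linarith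
  refine ⟨e / 3 / Q, by positivity, fun φ hφ hφ' t x => ?_⟩
  have hder := GridP_hasFDerivAt b j M (fun a => V (t, a))
    (fun a => hV.cf.differentiable (t, a)) l hl φ hφ x
  rw [hder.fderiv]
  set a : ℝ := φ (b.repr x j) with ha
  set ε : ℝ := deriv φ (b.repr x j) with hε
  have hε' : |ε| ≤ e / 3 / Q := hφ' _
  set s : ℝ := M * a with hs
  -- the values of the derivatives on the grid
  have hprv : ∀ k : ℕ, k ≤ M → ((pr ((k : ℝ) / M) : I) : ℝ) = (k : ℝ) / M := by
    intro k hk
    have h1 : (k : ℝ) ≤ M := by exact_mod_cast hk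
    unfold pr
    rw [projIcc_of_mem zero_le_one ⟨by positivity, by rw [div_le_one hMpos]; exact h1⟩]
  have hstep : ∀ m < M, ‖fderiv ℝ (V (t, pr ((m + 1 : ℕ) / M))) x -
      fderiv ℝ (V (t, pr (m / M))) x‖ ≤ e / 3 := by
    intro m hm
    refine hd' t _ _ x ?_
    rw [hprv (m + 1) hm, hprv m hm.le, ← sub_div]
    have e3 : (((m + 1 : ℕ) : ℝ) - m) / M = 1 / M := by push_cast; congr 1; ring
    rw [e3, abs_of_nonneg (by positivity)]
    exact hMd
  obtain ⟨k, hk, hk', hk2⟩ := GridP_tele (fun m : ℕ => fderiv ℝ (V (t, pr (m / M))) x) (e / 3) s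
    (by positivity) M hstep
  beta_reduce at hk'
  have hpr0 : pr (((0 : ℕ) : ℝ) / M) = (0 : I) := by
    rw [Nat.cast_zero, zero_div]
    unfold pr
    exact projIcc_left (α := ℝ) (a := 0) (b := 1) (h := zero_le_one)
  rw [hpr0] at hk'
  -- the index is near the value of the phase
  have hka : ‖fderiv ℝ (V (t, pr (k / M))) x - fderiv ℝ (V (t, pr a)) x‖ ≤ e / 3 := by
    refine hd' t _ _ x ?_
    rw [hprv k hk]
    have h1 : ((pr a : I) : ℝ) = max 0 (min 1 a) := rfl
    have h2 : max 0 (min (M : ℝ) s) = M * max 0 (min 1 a) := by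
      rw [mul_max_of_nonneg _ _ hMpos.le, mul_min_of_nonneg _ _ hMpos.le, mul_zero, mul_one]
    rw [h1]
    rw [h2] at hk2
    have h3 : (k : ℝ) / M - max 0 (min 1 a) = -((M * max 0 (min 1 a) - k) / M) := by
      field_simp
      ring
    rw [h3, abs_neg, abs_div, abs_of_pos hMpos]
    exact (div_le_div_of_nonneg_right hk2 hMpos.le).trans hMd
  rw [Finset.sum_add_distrib]
  have e4 : ∀ m ∈ Finset.range M, Real.smoothTransition (s - m) •
      (fderiv ℝ (V (t, pr ((m + 1) / M))) x - fderiv ℝ (V (t, pr (m / M))) x) =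
      Real.smoothTransition (s - m) •
      (fderiv ℝ (V (t, pr (((m + 1 : ℕ) : ℝ) / M))) x - fderiv ℝ (V (t, pr (m / M))) x) := by
    intro m _
    push_cast
    rfl
  rw [Finset.sum_congr rfl e4]
  have hrest : ‖∑ m ∈ Finset.range M,
      ((deriv Real.smoothTransition (s - m) * (M * ε)) • l).smulRight
        (V (t, pr ((m + 1) / M)) x - V (t, pr (m / M)) x)‖ ≤ e / 3 := by
    have hterm : ∀ m ∈ Finset.range M,
        ‖((deriv Real.smoothTransition (s - m) * (M * ε)) • l).smulRight
        (V (t, pr ((m + 1) / M)) x - V (t, pr (m / M)) x)‖ ≤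
        (CS * M * ‖l‖ * (2 * C₁')) * |ε| := by
      intro m _
      rw [ContinuousLinearMap.norm_smulRight_apply, norm_smul]
      have h1 : ‖deriv Real.smoothTransition (s - m) * (M * ε)‖ ≤ CS * (M * |ε|) := by
        rw [norm_mul, norm_mul, Real.norm_of_nonneg hMpos.le, Real.norm_eq_abs ε]
        exact mul_le_mul_of_nonneg_right (hCS _) (by positivity)
      have h2 : ‖V (t, pr ((m + 1) / M)) x - V (t, pr (m / M)) x‖ ≤ 2 * C₁' := by
        have e5 : V (t, pr ((m + 1) / M)) x - V (t, pr (m / M)) x =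
            (V (t, pr ((m + 1) / M)) x - x) - (V (t, pr (m / M)) x - x) := by abel
        rw [e5]
        refine (norm_sub_le _ _).trans ?_
        have a1 := (hC₁ (t, pr ((m + 1) / M)) x).trans (le_max_left C₁ 0)
        have a2 := (hC₁ (t, pr (m / M)) x).trans (le_max_left C₁ 0)
        linarith
      calc ‖deriv Real.smoothTransition (s - m) * (M * ε)‖ * ‖l‖ *
            ‖V (t, pr ((m + 1) / M)) x - V (t, pr (m / M)) x‖
          ≤ (CS * (M * |ε|)) * ‖l‖ * (2 * C₁') := by
            refine mul_le_mul (mul_le_mul_of_nonneg_right h1 (norm_nonneg _)) h2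
              (norm_nonneg _) (by positivity)
        _ = (CS * M * ‖l‖ * (2 * C₁')) * |ε| := by ring
    refine (norm_sum_le _ _).trans ((Finset.sum_le_sum hterm).trans ?_)
    rw [Finset.sum_const, Finset.card_range, nsmul_eq_mul]
    have h3 : (M : ℝ) * ((CS * M * ‖l‖ * (2 * C₁')) * |ε|) ≤ Q * |ε| := by
      rw [hQ]
      have := abs_nonneg ε
      nlinarith
    refine h3.trans ?_
    calc Q * |ε| ≤ Q * (e / 3 / Q) := mul_le_mul_of_nonneg_left hε' (by linarith)
      _ = e / 3 := by field_simp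
  have e6 : ∀ (a p q c d : Phase n →L[ℝ] Phase n),
      a + (p + q) - d = (a + p - c) + (c - d) + q := by
    intro a p q c d; abel
  rw [e6 _ _ _ (fderiv ℝ (V (t, pr (k / M))) x) _]
  refine (norm_add_le _ _).trans ?_
  have h7 := norm_add_le (fderiv ℝ (V (t, 0)) x + ∑ m ∈ Finset.range M,
    Real.smoothTransition (s - m) •
      (fderiv ℝ (V (t, pr (((m + 1 : ℕ) : ℝ) / M))) x - fderiv ℝ (V (t, pr (m / M))) x) -
      fderiv ℝ (V (t, pr (k / M))) x)
    (fderiv ℝ (V (t, pr (k / M))) x - fderiv ℝ (V (t, pr a)) x)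
  linarith

end Pool.Agent.BHS
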