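import Mathlib
import Pool.Agent.BHS.Class

set_option maxSynthPendingDepth 3

open scoped ContDiff Distributions Topology unitInterval
open Set Function TopologicalSpace

namespace Pool.Agent.BHS

open Pool.Agent.Helper17 Pool.Agent.TOR Pool.Agent.TOL

/-- The results on families used at the level of classes. -/
structure Core : Prop where
  dExist : St_DExist
  dInv : St_DInv
  dMul : St_DMul
  dLam : St_DLam
  dPer : St_DPer
  dCov : St_DCov
  perS : St_PerS
  s1 : St_S1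
  dil0 : St_Dil0
  eh : St_EH
  lamMul : St_LamMul
  lamPow : St_LamPow
  ahsC : St_AHSc

section detect

variable {n N : ℕ} {b : Module.Basis (Fin N) ℝ (Phase n)}

/-! ### Separation by translations -/

lemma lh_cj {j : ℕ} {X : Type} [TopologicalSpace X] {X0 : Set X}
    {G : X → Equiv.Perm (Phase n)} (hG : G ∈ Fam b j X X0) (v : Phase n) :
    LH b j X0 G (fun t => cj v (G t)) := by
  obtain ⟨⟨R, h⟩, h0⟩ := hG
  have hR : ∃ R' : ℝ, ∀ (s : I) (x : Phase n), x ∈ slab b j R →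
      x + (s : ℝ) • v ∈ slab b j R' := by
    obtain ⟨C, hC⟩ : ∃ C : ℝ, ∀ i : Fin N, |b.repr v i| ≤ C := by
      refine ⟨∑ i, |b.repr v i|, fun i => ?_⟩
      exact Finset.single_le_sum (f := fun i => |b.repr v i|) (fun i _ => abs_nonneg _)
        (Finset.mem_univ i)
    refine ⟨R + C, fun s x hx i hi => ?_⟩
    rw [map_add, Finsupp.add_apply, map_smul, Finsupp.smul_apply, smul_eq_mul]
    have h1 := hx i hi
    have h2 := hC i
    have h3 : |(s : ℝ) * b.repr v i| ≤ C := by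
      rw [abs_mul, abs_of_nonneg s.2.1]
      calc (s : ℝ) * |b.repr v i| ≤ 1 * |b.repr v i| :=
            mul_le_mul_of_nonneg_right s.2.2 (abs_nonneg _)
        _ ≤ C := by rw [one_mul]; exact h2
    exact (abs_add_le _ _).trans (add_le_add h1 h3)
  obtain ⟨R', hR'⟩ := hR
  have hF : LevS b j (slab b j R') (fun p : X × I => cj ((p.2 : ℝ) • v) (G p.1)) := by
    refine LevS.cj ((levS_of_lev h).reparam continuous_fst)
      ((continuous_subtype_val.comp continuous_snd).smul continuous_const) ?_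
    intro t x hx
    exact hR' t.2 x hx
  refine ⟨R', fun p : X × I => cj ((p.2 : ℝ) • v) (G p.1), hF.lev subset_rfl, ?_, ?_, ?_⟩
  · intro t
    change cj (((0 : I) : ℝ) • v) (G t) = G t
    rw [Icc.coe_zero, zero_smul, cj_zero]
  · intro t
    change cj (((1 : I) : ℝ) • v) (G t) = _
    rw [Icc.coe_one, one_smul]
  · intro t ht s
    change cj ((s : ℝ) • v) (G t) = 1
    rw [h0 t ht, cj_one]

/-- Permutations with disjoint supports commute. -/
lemma commute_of_disjoint {f g : Equiv.Perm (Phase n)} (h : ∀ x, f x = x ∨ g x = x) :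
    f * g = g * f := by
  have hd : f.Disjoint g := h
  exact hd.commute

/-! ### Loops of commutators -/

/-- The loops of the commutators with the translations by `a b_i`, `0 ≤ a ≤ 1`. -/
noncomputable def lamF (b : Module.Basis (Fin N) ℝ (Phase n)) (i : Fin N) {X : Type}
    (F : X → Equiv.Perm (Phase n)) (p : X × I) : Equiv.Perm (Phase n) :=
  cm ((p.2 : ℝ) • b i) (F p.1)

lemma lamF_rel {X : Type} {X0 : Set X} {i : Fin N} {F : X → Equiv.Perm (Phase n)}
    (hper : ∀ t x, F t (x + b i) = F t x + b i) (h0 : ∀ t ∈ X0, F t = 1) {p : X × I}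
    (hp : p ∈ relI X0) : lamF b i F p = 1 := by
  unfold lamF
  rcases hp with hp | hp | hp
  · rw [h0 _ hp, cm_one]
  · rw [hp, Icc.coe_zero, zero_smul, cm_zero]
  · rw [hp, Icc.coe_one, one_smul]
    exact cm_eq_one (hper _)

lemma lamF_lev {j : ℕ} {X : Type} [TopologicalSpace X] {i : Fin N} (hi : (i : ℕ) < j) {R : ℝ}
    {F : X → Equiv.Perm (Phase n)} (hF : Lev b j R F) : Lev b j R (lamF b i F) := by
  have h := ((levS_of_lev hF).reparam (g := fun p : X × I => p.1) continuous_fst).cm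
    (cyl_slab b j R) hi (c := fun p : X × I => (p.2 : ℝ))
    (continuous_subtype_val.comp continuous_snd)
  exact h.lev subset_rfl

lemma lamF_mem {j : ℕ} {X : Type} [TopologicalSpace X] {X0 : Set X} {i : Fin N}
    (hi : (i : ℕ) < j) {F : X → Equiv.Perm (Phase n)} (hF : F ∈ Fam b j X X0) :
    lamF b i F ∈ Fam b j (X × I) (relI X0) := by
  obtain ⟨⟨R, h⟩, h0⟩ := hF
  exact ⟨⟨R, lamF_lev hi h⟩, fun p hp => lamF_rel (fun t x => h.per t i hi x) h0 hp⟩

lemma lamF_lh {j : ℕ} {X : Type} [TopologicalSpace X] {X0 : Set X} {i : Fin N}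
    (hi : (i : ℕ) < j) {F G : X → Equiv.Perm (Phase n)} (h : LH b j X0 F G) :
    LH b j (relI X0) (lamF b i F) (lamF b i G) := by
  obtain ⟨R, H, hH, H0, H1, Hr⟩ := h
  have h1 := lamF_lev (i := i) hi hH
  refine ⟨R, fun p : (X × I) × I => lamF b i H ((p.1.1, p.2), p.1.2),
    h1.reparam (g := fun p : (X × I) × I => ((p.1.1, p.2), p.1.2))
      (((continuous_fst.comp continuous_fst).prodMk continuous_snd).prodMk
        (continuous_snd.comp continuous_fst)), ?_, ?_, ?_⟩
  · intro t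
    simp only [lamF, H0]
  · intro t
    simp only [lamF, H1]
  · intro t ht s
    simp only [lamF]
    rcases ht with ht | ht | ht
    · rw [Hr _ ht, cm_one]
    · rw [ht, Icc.coe_zero, zero_smul, cm_zero]
    · rw [ht, Icc.coe_one, one_smul]
      exact cm_eq_one (fun x => hH.per _ i hi x)

lemma cl_lamF_mul_of_comm {j : ℕ} {X : Type} [TopologicalSpace X] {X0 : Set X} {i : Fin N}
    (hi : (i : ℕ) < j) {F G G' : X → Equiv.Perm (Phase n)} (hF : F ∈ Fam b j X X0)
    (hG : LH b j X0 G G') (hc : ∀ t (a : I), F t * cm ((a : ℝ) • b i) (G' t) =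
      cm ((a : ℝ) • b i) (G' t) * F t) :
    cl (lamF b i fun t => F t * G t)
      (lamF_mem hi ((Fam b j X X0).mul_mem hF (mem_Fam_left hG))) =
    cl (lamF b i F) (lamF_mem hi hF) * cl (lamF b i G) (lamF_mem hi (mem_Fam_left hG)) := by
  have h1 : LH b j (relI X0) (lamF b i fun t => F t * G t) (lamF b i fun t => F t * G' t) :=
    lamF_lh hi (lh_mul (Fam.refl hF) hG)
  have h2 : (lamF b i fun t => F t * G' t) = fun p => lamF b i F p * lamF b i G' p := by
    funext p
    have h3 : ∀ v : Phase n, cm v (F p.1 * G' p.1) =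
        cm v (F p.1) * (F p.1 * cm v (G' p.1) * (F p.1)⁻¹) := by
      intro v
      simp only [cm]
      group
    simp only [lamF]
    rw [h3, hc p.1 p.2, mul_inv_cancel_right]
  rw [h2] at h1
  rw [cl_mul, cl_eq_iff]
  exact lh_trans h1 (lh_mul (Fam.refl (lamF_mem hi hF)) (lamF_lh hi (lh_symm hG)))

/-- At a level below `N` commutators with translations are multiplicative. -/
lemma cl_lamF_mul_sep {j : ℕ} (hjN : j < N) {X : Type} [TopologicalSpace X] {X0 : Set X}
    {i : Fin N} (hi : (i : ℕ) < j) {F G : X → Equiv.Perm (Phase n)} (hF : F ∈ Fam b j X X0)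
    (hG : G ∈ Fam b j X X0) :
    cl (lamF b i fun t => F t * G t) (lamF_mem hi ((Fam b j X X0).mul_mem hF hG)) =
    cl (lamF b i F) (lamF_mem hi hF) * cl (lamF b i G) (lamF_mem hi hG) := by
  obtain ⟨⟨R, hR⟩, hF0⟩ := hF
  obtain ⟨⟨R', hR'⟩, hG0⟩ := hG
  set k : Fin N := ⟨j, hjN⟩ with hk
  set c : ℝ := |R| + |R'| + 1 with hc
  have hik : i ≠ k := by
    intro h
    rw [h] at hi
    exact lt_irrefl _ hi
  refine cl_lamF_mul_of_comm hi ⟨⟨R, hR⟩, hF0⟩ (G' := fun t => cj (c • b k) (G t))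
    (lh_cj ⟨⟨R', hR'⟩, hG0⟩ _) ?_
  intro t a
  apply commute_of_disjoint
  intro x
  by_cases hx : |b.repr x k| ≤ R
  · right
    -- the other map is trivial at `x`
    have h1 : ∀ y : Phase n, b.repr y k = b.repr x k → G t (y - c • b k) = y - c • b k := by
      intro y hy
      apply hR'.supp
      intro hs
      have h2 := hs k le_rfl
      rw [repr_sub_smul_self, hy] at h2
      have h3 := abs_le.1 hx
      have h4 := abs_le.1 h2
      have h5 := le_abs_self R
      have h6 := le_abs_self R'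
      linarith
    have h2 : ∀ y : Phase n, b.repr y k = b.repr x k → cj (c • b k) (G t) y = y := by
      intro y hy
      rw [cj_apply, h1 y hy, sub_add_cancel]
    have h3 : (cj (c • b k) (G t)).symm x = x := by
      rw [Equiv.symm_apply_eq]
      exact (h2 x rfl).symm
    rw [cm_apply, h3, h2 _ (repr_sub_smul_ne x _ hik), sub_add_cancel]
  · left
    apply hR.supp
    intro hs
    exact hx (hs k le_rfl)

/-- Commutators with translations are multiplicative for families over a pair with `EHP`. -/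
lemma cl_lamF_mul_ehp (H : Core) {j : ℕ} {X : Type} [TopologicalSpace X] {X0 : Set X}
    (hX : EHP X0) {i : Fin N} (hi : (i : ℕ) < j) {F G : X → Equiv.Perm (Phase n)}
    (hF : F ∈ Fam b j X X0) (hG : G ∈ Fam b j X X0) :
    cl (lamF b i fun t => F t * G t) (lamF_mem hi ((Fam b j X X0).mul_mem hF hG)) =
    cl (lamF b i F) (lamF_mem hi hF) * cl (lamF b i G) (lamF_mem hi hG) := by
  obtain ⟨⟨R, hR⟩, hF0⟩ := hF
  obtain ⟨⟨R', hR'⟩, hG0⟩ := hG
  rw [cl_mul, cl_eq_iff]
  exact (H.lamMul b j (slab b j (max R R')) (cyl_slab b j _) i hi X X0 F G hX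
    ((levS_of_lev hR).mono (slab_le (le_max_left _ _)))
    ((levS_of_lev hR').mono (slab_le (le_max_right _ _))) hF0 hG0).lh (cyl_slab b j _)

/-- At a level below `N` the group of classes is commutative. -/
lemma Cl.comm_of_lt {j : ℕ} (hjN : j < N) {X : Type} [TopologicalSpace X] {X0 : Set X}
    (x y : Cl b j X X0) : x * y = y * x := by
  obtain ⟨F, hF, rfl⟩ := x.exists_rep
  obtain ⟨G, hG, rfl⟩ := y.exists_rep
  obtain ⟨⟨R, hR⟩, hF0⟩ := hF
  obtain ⟨⟨R', hR'⟩, hG0⟩ := hG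
  set k : Fin N := ⟨j, hjN⟩ with hk
  set c : ℝ := |R| + |R'| + 1 with hc
  have h1 : LH b j X0 G (fun t => cj (c • b k) (G t)) := lh_cj ⟨⟨R', hR'⟩, hG0⟩ _
  have h2 : (fun t => F t * cj (c • b k) (G t)) = fun t => cj (c • b k) (G t) * F t := by
    funext t
    apply commute_of_disjoint
    intro x
    by_cases hx : |b.repr x k| ≤ R
    · right
      have h1 : G t (x - c • b k) = x - c • b k := by
        apply hR'.supp
        intro hs
        have h2 := hs k le_rfl
        rw [repr_sub_smul_self] at h2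
        have h3 := abs_le.1 hx
        have h4 := abs_le.1 h2
        have h5 := le_abs_self R
        have h6 := le_abs_self R'
        linarith
      rw [cj_apply, h1, sub_add_cancel]
    · left
      apply hR.supp
      intro hs
      exact hx (hs k le_rfl)
  have h3 := cl_eq (lh_mul (Fam.refl (b := b) (j := j) (X0 := X0) ⟨⟨R, hR⟩, hF0⟩) h1)
  have h4 := cl_eq (lh_mul h1 (Fam.refl (b := b) (j := j) (X0 := X0) ⟨⟨R, hR⟩, hF0⟩))
  rw [cl_mul, cl_mul]
  refine h3.trans ?_
  rw [h4]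
  congr 1

/-! ### The loop detector on classes -/

lemma isD_one (j : Fin N) {X : Type} [TopologicalSpace X] (X0 : Set X) :
    IsD b j X0 (fun _ => 1) (fun _ => 1) := by
  refine ⟨0, fun M _ => ⟨1, one_pos, fun ε _ _ => ?_⟩⟩
  refine ⟨0, fun _ x => x, (alev_iff.2 (LevS.one (j : ℕ) _ _).alevS), ?_, fun _ _ => rfl,
    fun _ _ _ _ => rfl⟩
  intro t x
  unfold Gr
  rw [grid_const]
  intro a
  rfl

lemma IsD.unique (H : Core) {j : Fin N} {X : Type} [TopologicalSpace X] [CompactSpace X]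
    {X0 : Set X} {u u' : X × I → Equiv.Perm (Phase n)} {z z' : X → Equiv.Perm (Phase n)}
    (h : LH b ((j : ℕ) + 1) (relI X0) u u') (hz : IsD b j X0 u z) (hz' : IsD b j X0 u' z')
    (hzF : z ∈ Fam b (j : ℕ) X X0) (hzF' : z' ∈ Fam b (j : ℕ) X X0) : LH b (j : ℕ) X0 z z' := by
  obtain ⟨⟨R, hR⟩, -⟩ := hzF
  obtain ⟨⟨R', hR'⟩, -⟩ := hzF'
  exact H.dInv b j X X0 u u' z z' (max R R') (hR.mono (le_max_left _ _))
    (hR'.mono (le_max_right _ _)) (mem_Fam_left h).2 h hz hz'

lemma exists_isD (H : Core) {j : Fin N} {X : Type} [TopologicalSpace X] [CompactSpace X]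
    {X0 : Set X} {u : X × I → Equiv.Perm (Phase n)}
    (hu : u ∈ Fam b ((j : ℕ) + 1) (X × I) (relI X0)) :
    ∃ z ∈ Fam b (j : ℕ) X X0, IsD b j X0 u z := by
  obtain ⟨⟨R, hR⟩, h0⟩ := hu
  obtain ⟨R', z, hz, hz0, hD⟩ := H.dExist b j X X0 _ (cyl_slab b ((j : ℕ) + 1) R) u
    (levS_of_lev hR) h0
  obtain ⟨R2, hR2⟩ := hz.lev' ((cyl_slab b ((j : ℕ) + 1) R).cut _ _)
  refine ⟨z, ⟨⟨R2, hR2⟩, hz0⟩, ?_⟩
  obtain ⟨M0, hM0⟩ := hD
  refine ⟨M0, fun M hM => ?_⟩
  obtain ⟨ε0, hε0, hε⟩ := hM0 M hM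
  refine ⟨ε0, hε0, fun ε h1 h2 => ?_⟩
  obtain ⟨R3, h3⟩ := hε ε h1 h2
  obtain ⟨R4, hR4⟩ := ((cyl_slab b ((j : ℕ) + 1) R).cut (-R3) R3).bdd
  exact h3.ah hR4

/-- A value of the loop detector. -/
noncomputable def zD (H : Core) {j : Fin N} {X : Type} [TopologicalSpace X] [CompactSpace X]
    {X0 : Set X} {u : X × I → Equiv.Perm (Phase n)}
    (hu : u ∈ Fam b ((j : ℕ) + 1) (X × I) (relI X0)) : X → Equiv.Perm (Phase n) :=
  (exists_isD H hu).choose

lemma zD_mem (H : Core) {j : Fin N} {X : Type} [TopologicalSpace X] [CompactSpace X]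
    {X0 : Set X} {u : X × I → Equiv.Perm (Phase n)}
    (hu : u ∈ Fam b ((j : ℕ) + 1) (X × I) (relI X0)) : zD H hu ∈ Fam b (j : ℕ) X X0 :=
  (exists_isD H hu).choose_spec.1

lemma zD_isD (H : Core) {j : Fin N} {X : Type} [TopologicalSpace X] [CompactSpace X]
    {X0 : Set X} {u : X × I → Equiv.Perm (Phase n)}
    (hu : u ∈ Fam b ((j : ℕ) + 1) (X × I) (relI X0)) : IsD b j X0 u (zD H hu) :=
  (exists_isD H hu).choose_spec.2

/-- The inverse of the value of the loop detector, on families. -/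
noncomputable def Dmf (H : Core) (b : Module.Basis (Fin N) ℝ (Phase n)) (j : Fin N) {X : Type}
    [TopologicalSpace X] [CompactSpace X] (X0 : Set X)
    (u : Fam b ((j : ℕ) + 1) (X × I) (relI X0)) : Cl b (j : ℕ) X X0 :=
  (cl (zD H u.2) (zD_mem H u.2))⁻¹

lemma Dmf_eq (H : Core) {j : Fin N} {X : Type} [TopologicalSpace X] [CompactSpace X]
    {X0 : Set X} {u : Fam b ((j : ℕ) + 1) (X × I) (relI X0)}
    {u' : X × I → Equiv.Perm (Phase n)} (hu : LH b ((j : ℕ) + 1) (relI X0) u.1 u')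
    {z : X → Equiv.Perm (Phase n)} (hz : z ∈ Fam b (j : ℕ) X X0) (hD : IsD b j X0 u' z) :
    Dmf H b j X0 u = (cl z hz)⁻¹ := by
  unfold Dmf
  rw [inv_inj, cl_eq_iff]
  exact IsD.unique H (j := j) hu (zD_isD H u.2) hD (zD_mem H u.2) hz

/-- The inverse of the value of the loop detector, on classes: `[u] ↦ [z]⁻¹` if `z` represents
the value of the loop detector on `u`. -/
noncomputable def Dm (H : Core) (b : Module.Basis (Fin N) ℝ (Phase n)) (j : Fin N) {X : Type}
    [TopologicalSpace X] [CompactSpace X] (X0 : Set X) :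
    Cl b ((j : ℕ) + 1) (X × I) (relI X0) →* Cl b (j : ℕ) X X0 :=
  QuotientGroup.lift (Nul b ((j : ℕ) + 1) (X × I) (relI X0))
    { toFun := Dmf H b j X0
      map_one' := by
        rw [Dmf_eq H (Fam.refl (Fam b ((j : ℕ) + 1) (X × I) (relI X0)).one_mem)
          (Fam b (j : ℕ) X X0).one_mem (isD_one j X0)]
        exact inv_one
      map_mul' := by
        intro u v
        obtain ⟨⟨R1, h1⟩, h10⟩ := u.2
        obtain ⟨⟨R2, h2⟩, h20⟩ := v.2
        obtain ⟨⟨R3, h3⟩, h30⟩ := zD_mem H u.2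
        obtain ⟨⟨R4, h4⟩, h40⟩ := zD_mem H v.2
        have hm := H.dMul b j X X0 u.1 v.1 _ _ (max (max R1 R2) (max R3 R4))
          (h1.mono ((le_max_left _ _).trans (le_max_left _ _)))
          (h2.mono ((le_max_right _ _).trans (le_max_left _ _))) h10 h20
          (h3.mono ((le_max_left _ _).trans (le_max_right _ _)))
          (h4.mono ((le_max_right _ _).trans (le_max_right _ _))) h30 h40
          (zD_isD H u.2) (zD_isD H v.2)
        rw [Dmf_eq H (Fam.refl (u * v).2)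
          ((Fam b (j : ℕ) X X0).mul_mem (zD_mem H u.2) (zD_mem H v.2)) hm]
        unfold Dmf
        rw [← mul_inv_rev, inv_inj, Cl.comm_of_lt j.2 (cl (zD H v.2) _)]
        rfl }
    (by
      intro u hu
      change Dmf H b j X0 u = 1
      rw [Dmf_eq H hu (Fam b (j : ℕ) X X0).one_mem (isD_one j X0)]
      exact inv_one)

lemma Dm_cl (H : Core) {j : Fin N} {X : Type} [TopologicalSpace X] [CompactSpace X]
    {X0 : Set X} {u : X × I → Equiv.Perm (Phase n)}
    (hu : u ∈ Fam b ((j : ℕ) + 1) (X × I) (relI X0)) {z : X → Equiv.Perm (Phase n)}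
    (hz : z ∈ Fam b (j : ℕ) X X0) (hD : IsD b j X0 u z) :
    Dm H b j X0 (cl u hu) = (cl z hz)⁻¹ :=
  Dmf_eq H (u := ⟨u, hu⟩) (Fam.refl hu) hz hD

/-- The loops of commutators, on classes. -/
noncomputable def Lam (b : Module.Basis (Fin N) ℝ (Phase n)) {j : ℕ} {i : Fin N}
    (hi : (i : ℕ) < j) {X : Type} [TopologicalSpace X] (X0 : Set X) :
    Cl b j X X0 → Cl b j (X × I) (relI X0) :=
  Quotient.lift (fun F : Fam b j X X0 => cl (lamF b i F.1) (lamF_mem hi F.2)) (by
    rintro F G h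
    have h' : cl F.1 F.2 = cl G.1 G.2 := Quotient.sound h
    exact (cl_eq_iff _ _).2 (lamF_lh hi ((cl_eq_iff _ _).1 h')))

lemma Lam_cl {j : ℕ} {i : Fin N} (hi : (i : ℕ) < j) {X : Type} [TopologicalSpace X]
    {X0 : Set X} {F : X → Equiv.Perm (Phase n)} (hF : F ∈ Fam b j X X0) :
    Lam b hi X0 (cl F hF) = cl (lamF b i F) (lamF_mem hi hF) := rfl

lemma Lam_mul (H : Core) {j : ℕ} {i : Fin N} (hi : (i : ℕ) < j) {X : Type}
    [TopologicalSpace X] {X0 : Set X} (h : EHP X0 ∨ j < N) (x y : Cl b j X X0) :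
    Lam b hi X0 (x * y) = Lam b hi X0 x * Lam b hi X0 y := by
  obtain ⟨F, hF, rfl⟩ := x.exists_rep
  obtain ⟨G, hG, rfl⟩ := y.exists_rep
  rcases h with h | h
  · exact cl_lamF_mul_ehp H h hi hF hG
  · exact cl_lamF_mul_sep h hi hF hG

/-- The unwrapping map, on classes. -/
noncomputable def Wm (H : Core) (b : Module.Basis (Fin N) ℝ (Phase n)) (j : Fin N) {X : Type}
    [TopologicalSpace X] [CompactSpace X] (X0 : Set X) (x : Cl b ((j : ℕ) + 1) X X0) :
    Cl b (j : ℕ) X X0 :=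
  Dm H b j X0 (Lam b (Nat.lt_succ_self _) X0 x)

lemma Wm_mul (H : Core) {j : Fin N} {X : Type} [TopologicalSpace X] [CompactSpace X]
    {X0 : Set X} (h : EHP X0 ∨ (j : ℕ) + 1 < N) (x y : Cl b ((j : ℕ) + 1) X X0) :
    Wm H b j X0 (x * y) = Wm H b j X0 x * Wm H b j X0 y := by
  unfold Wm
  rw [Lam_mul H _ h, map_mul]

lemma Wm_one (H : Core) {j : Fin N} {X : Type} [TopologicalSpace X] [CompactSpace X]
    {X0 : Set X} : Wm H b j X0 1 = 1 := by
  have h1 : Lam b (Nat.lt_succ_self (j : ℕ)) X0 1 = 1 := by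
    rw [cl_one, Lam_cl, cl_one, cl_eq_iff]
    have e : lamF b j (fun _ : X => (1 : Equiv.Perm (Phase n))) = fun _ => 1 := by
      funext p
      exact cm_one _
    rw [e]
    exact Fam.refl (Fam b ((j : ℕ) + 1) (X × I) (relI X0)).one_mem
  unfold Wm
  rw [h1, map_one]

/-- The unwrapping map on a periodization. -/
lemma Wm_per (H : Core) {j : Fin N} {X : Type} [TopologicalSpace X] [CompactSpace X]
    {X0 : Set X} {δ R : ℝ} (hδ : 0 < δ) (hδ' : δ ≤ 1 / 2) {g P : X → Equiv.Perm (Phase n)}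
    (h : Per1 b j δ R X0 g P) (hg : g ∈ Fam b (j : ℕ) X X0)
    (hP : P ∈ Fam b ((j : ℕ) + 1) X X0) : Wm H b j X0 (cl P hP) = cl g hg := by
  have h1 := Dm_cl H (lamF_mem (Nat.lt_succ_self (j : ℕ)) hP)
    ((Fam b (j : ℕ) X X0).inv_mem hg) (H.dLam b j X X0 δ R g P hδ hδ' h)
  unfold Wm
  rw [Lam_cl, h1]
  exact inv_inv (cl g hg)

/-- The loop detector on the loops of commutators of a periodization. -/
lemma Dm_lam (H : Core) {j : Fin N} {X : Type} [TopologicalSpace X] [CompactSpace X]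
    {X0 : Set X} {δ R : ℝ} (hδ : 0 < δ) (hδ' : δ ≤ 1 / 2) {g P : X → Equiv.Perm (Phase n)}
    (h : Per1 b j δ R X0 g P) (hg : g ∈ Fam b (j : ℕ) X X0)
    (hP : lamF b j P ∈ Fam b ((j : ℕ) + 1) (X × I) (relI X0)) :
    Dm H b j X0 (cl (lamF b j P) hP) = cl g hg := by
  have h1 := Dm_cl H hP ((Fam b (j : ℕ) X X0).inv_mem hg) (H.dLam b j X X0 δ R g P hδ hδ' h)
  rw [h1]
  exact inv_inv (cl g hg)

/-- The loop detector on a periodization of loops. -/
lemma Dm_per (H : Core) {j : Fin N} {X : Type} [TopologicalSpace X] [CompactSpace X]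
    {X0 : Set X} {δ R : ℝ} (hδ : 0 < δ) (hδ' : δ ≤ 1 / 2)
    {g P : X × I → Equiv.Perm (Phase n)} (h : Per1 b j δ R (relI X0) g P)
    (hP : P ∈ Fam b ((j : ℕ) + 1) (X × I) (relI X0)) : Dm H b j X0 (cl P hP) = 1 := by
  rw [Dm_cl H _ (Fam b (j : ℕ) X X0).one_mem (H.dPer b j X X0 δ R g P hδ hδ' h)]
  exact inv_one

end detect

end Pool.Agent.BHS
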