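import Mathlib
import Pool.Agent.BHS.Detect

set_option maxSynthPendingDepth 3

open scoped ContDiff Distributions Topology unitInterval
open Set Function TopologicalSpace

namespace Pool.Agent.BHS

open Pool.Agent.Helper17 Pool.Agent.TOR Pool.Agent.TOL

section rho

variable {n N : ℕ} {b : Module.Basis (Fin N) ℝ (Phase n)} {T : Type}

/-! ### Cubes -/

/-- Adding a last coordinate. -/
def snocM {m : ℕ} (p : (T × (Fin m → I)) × I) : T × (Fin (m + 1) → I) :=
  (p.1.1, Fin.snoc (α := fun _ => I) p.1.2 p.2)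

/-- Splitting off the last coordinate. -/
def unsnoc {m : ℕ} (q : T × (Fin (m + 1) → I)) : (T × (Fin m → I)) × I :=
  ((q.1, fun i => q.2 i.castSucc), q.2 (Fin.last m))

lemma snocM_unsnoc {m : ℕ} (q : T × (Fin (m + 1) → I)) : snocM (unsnoc q) = q := by
  refine Prod.ext rfl ?_
  funext i
  change Fin.snoc (α := fun _ => I) (fun i => q.2 i.castSucc) (q.2 (Fin.last m)) i = q.2 i
  induction i using Fin.lastCases with
  | last => rw [Fin.snoc_last]
  | cast i => rw [Fin.snoc_castSucc]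

lemma unsnoc_snocM {m : ℕ} (p : (T × (Fin m → I)) × I) : unsnoc (snocM p) = p := by
  refine Prod.ext (Prod.ext rfl ?_) ?_
  · funext i
    change Fin.snoc (α := fun _ => I) p.1.2 p.2 i.castSucc = p.1.2 i
    rw [Fin.snoc_castSucc]
  · change Fin.snoc (α := fun _ => I) p.1.2 p.2 (Fin.last m) = p.2
    rw [Fin.snoc_last]

lemma snocM_mem {m : ℕ} {T0 : Set T} {p : (T × (Fin m → I)) × I} (hp : p ∈ relI (SS m T0)) :
    snocM p ∈ SS (m + 1) T0 := by
  rcases hp with (hp | ⟨i, hi⟩) | hp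
  · exact Or.inl hp
  · refine Or.inr ⟨i.castSucc, ?_⟩
    change Fin.snoc (α := fun _ => I) p.1.2 p.2 i.castSucc = 0 ∨
      Fin.snoc (α := fun _ => I) p.1.2 p.2 i.castSucc = 1
    rw [Fin.snoc_castSucc]
    exact hi
  · refine Or.inr ⟨Fin.last m, ?_⟩
    change Fin.snoc (α := fun _ => I) p.1.2 p.2 (Fin.last m) = 0 ∨
      Fin.snoc (α := fun _ => I) p.1.2 p.2 (Fin.last m) = 1
    rw [Fin.snoc_last]
    exact hp

lemma unsnoc_mem {m : ℕ} {T0 : Set T} {q : T × (Fin (m + 1) → I)} (hq : q ∈ SS (m + 1) T0) :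
    unsnoc q ∈ relI (SS m T0) := by
  rcases hq with hq | ⟨i, hi⟩
  · exact Or.inl (Or.inl hq)
  · induction i using Fin.lastCases with
    | last => exact Or.inr hi
    | cast i => exact Or.inl (Or.inr ⟨i, hi⟩)

variable [TopologicalSpace T]

lemma continuous_snocM {m : ℕ} : Continuous (snocM (T := T) (m := m)) := by
  refine (continuous_fst.comp continuous_fst).prodMk ?_
  exact Continuous.finSnoc (continuous_snd.comp continuous_fst) continuous_snd

lemma continuous_unsnoc {m : ℕ} : Continuous (unsnoc (T := T) (m := m)) := by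
  refine (continuous_fst.prodMk (continuous_pi fun i => ?_)).prodMk ?_
  · exact (continuous_apply _).comp continuous_snd
  · exact (continuous_apply _).comp continuous_snd

lemma ehp_SS {m : ℕ} (hm : 0 < m) (T0 : Set T) : EHP (SS m T0) := by
  obtain ⟨m, rfl⟩ := Nat.exists_eq_succ_of_ne_zero hm.ne'
  obtain ⟨α, β, hα, hβ, hα0, hβ0, hr, h1⟩ := ehp_relI (SS m T0)
  have hc : Continuous (fun p : (T × (Fin (m + 1) → I)) × I => (unsnoc p.1, p.2)) :=
    (continuous_unsnoc.comp continuous_fst).prodMk continuous_snd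
  refine ⟨fun p => snocM (α (unsnoc p.1, p.2)), fun p => snocM (β (unsnoc p.1, p.2)),
    continuous_snocM.comp (hα.comp hc), continuous_snocM.comp (hβ.comp hc), ?_, ?_, ?_, ?_⟩
  · intro t
    change snocM (α (unsnoc t, 0)) = t
    rw [hα0, snocM_unsnoc]
  · intro t
    change snocM (β (unsnoc t, 0)) = t
    rw [hβ0, snocM_unsnoc]
  · intro t ht s
    have := hr _ (unsnoc_mem ht) s
    exact ⟨snocM_mem this.1, snocM_mem this.2⟩
  · intro t
    rcases h1 (unsnoc t) with h | h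
    · exact Or.inl (snocM_mem h)
    · exact Or.inr (snocM_mem h)

variable [CompactSpace T]

/-- The loop detector for the last coordinate of a cube. -/
noncomputable def Dc (H : Core) (b : Module.Basis (Fin N) ℝ (Phase n)) (j : Fin N) (T0 : Set T)
    (m : ℕ) : Cl b ((j : ℕ) + 1) (T × (Fin (m + 1) → I)) (SS (m + 1) T0) →*
      Cl b (j : ℕ) (T × (Fin m → I)) (SS m T0) :=
  (Dm H b j (SS m T0)).comp (Cl.map snocM continuous_snocM fun _ hp => snocM_mem hp)

lemma Dc_cl (H : Core) {j : Fin N} {T0 : Set T} {m : ℕ}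
    {F : T × (Fin (m + 1) → I) → Equiv.Perm (Phase n)}
    (hF : F ∈ Fam b ((j : ℕ) + 1) (T × (Fin (m + 1) → I)) (SS (m + 1) T0)) :
    Dc H b j T0 m (cl F hF) = Dm H b j (SS m T0)
      (cl (fun p => F (snocM p)) (Fam.comp hF continuous_snocM fun _ hp => snocM_mem hp)) := rfl

/-- The homomorphism `ρ_J` at level `j`. -/
noncomputable def rho (H : Core) (b : Module.Basis (Fin N) ℝ (Phase n)) (J : Finset (Fin N))
    (T0 : Set T) : (j : ℕ) → (m k : ℕ) → Cl b j (T × (Fin m → I)) (SS m T0) →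
      Cl b 0 (T × (Fin k → I)) (SS k T0)
  | 0, m, k, x => if h : m = k then h ▸ x else 1
  | j + 1, m, k, x =>
    if hj : j < N then
      if (⟨j, hj⟩ : Fin N) ∈ J then
        match m, x with
        | 0, _ => 1
        | m + 1, x => rho H b J T0 j m k (Dc H b ⟨j, hj⟩ T0 m x)
      else rho H b J T0 j m k (Wm H b ⟨j, hj⟩ (SS m T0) x)
    else 1

lemma rho_zero (H : Core) (J : Finset (Fin N)) (T0 : Set T) (m : ℕ)
    (x : Cl b 0 (T × (Fin m → I)) (SS m T0)) : rho H b J T0 0 m m x = x := by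
  simp only [rho, dif_pos]

lemma rho_zero_ne (H : Core) (J : Finset (Fin N)) (T0 : Set T) {m k : ℕ} (h : m ≠ k)
    (x : Cl b 0 (T × (Fin m → I)) (SS m T0)) : rho H b J T0 0 m k x = 1 := by
  simp only [rho, dif_neg h]

lemma rho_mem (H : Core) {J : Finset (Fin N)} (T0 : Set T) {j : ℕ} (hj : j < N)
    (h : (⟨j, hj⟩ : Fin N) ∈ J) (m k : ℕ)
    (x : Cl b (j + 1) (T × (Fin (m + 1) → I)) (SS (m + 1) T0)) :
    rho H b J T0 (j + 1) (m + 1) k x = rho H b J T0 j m k (Dc H b ⟨j, hj⟩ T0 m x) := by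
  simp only [rho, dif_pos hj, if_pos h]

lemma rho_mem_zero (H : Core) {J : Finset (Fin N)} (T0 : Set T) {j : ℕ} (hj : j < N)
    (h : (⟨j, hj⟩ : Fin N) ∈ J) (k : ℕ)
    (x : Cl b (j + 1) (T × (Fin 0 → I)) (SS 0 T0)) :
    rho H b J T0 (j + 1) 0 k x = 1 := by
  simp only [rho, dif_pos hj, if_pos h]

lemma rho_not_mem (H : Core) {J : Finset (Fin N)} (T0 : Set T) {j : ℕ} (hj : j < N)
    (h : (⟨j, hj⟩ : Fin N) ∉ J) (m k : ℕ)
    (x : Cl b (j + 1) (T × (Fin m → I)) (SS m T0)) :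
    rho H b J T0 (j + 1) m k x = rho H b J T0 j m k (Wm H b ⟨j, hj⟩ (SS m T0) x) := by
  rw [rho, dif_pos hj, if_neg h]

lemma rho_ge (H : Core) {J : Finset (Fin N)} (T0 : Set T) {j : ℕ} (hj : ¬ j < N)
    (m k : ℕ) (x : Cl b (j + 1) (T × (Fin m → I)) (SS m T0)) :
    rho H b J T0 (j + 1) m k x = 1 := by
  rw [rho, dif_neg hj]

lemma rho_one (H : Core) (J : Finset (Fin N)) (T0 : Set T) : ∀ (j m k : ℕ),
    rho H b J T0 j m k 1 = 1 := by
  intro j
  induction j with
  | zero =>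
    intro m k
    by_cases h : m = k
    · subst h
      rw [rho_zero]
    · rw [rho_zero_ne H J T0 h]
  | succ j ih =>
    intro m k
    by_cases hj : j < N
    · by_cases h : (⟨j, hj⟩ : Fin N) ∈ J
      · cases m with
        | zero => rw [rho_mem_zero H T0 hj h]
        | succ m => rw [rho_mem H T0 hj h, map_one, ih]
      · rw [rho_not_mem H T0 hj h, Wm_one, ih]
    · rw [rho_ge H T0 hj]

lemma rho_mul (H : Core) (J : Finset (Fin N)) (T0 : Set T) : ∀ (j m k : ℕ),
    (0 < m ∨ j < N) → ∀ x y : Cl b j (T × (Fin m → I)) (SS m T0),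
    rho H b J T0 j m k (x * y) = rho H b J T0 j m k x * rho H b J T0 j m k y := by
  intro j
  induction j with
  | zero =>
    intro m k _ x y
    by_cases h : m = k
    · subst h
      rw [rho_zero, rho_zero, rho_zero]
    · rw [rho_zero_ne H J T0 h, rho_zero_ne H J T0 h, rho_zero_ne H J T0 h, mul_one]
  | succ j ih =>
    intro m k hm x y
    by_cases hj : j < N
    · by_cases h : (⟨j, hj⟩ : Fin N) ∈ J
      · cases m with
        | zero =>
          rw [rho_mem_zero H T0 hj h, rho_mem_zero H T0 hj h, rho_mem_zero H T0 hj h, mul_one]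
        | succ m =>
          rw [rho_mem H T0 hj h, rho_mem H T0 hj h, rho_mem H T0 hj h, map_mul,
            ih m k (Or.inr hj)]
      · have hW : EHP (SS m T0) ∨ ((⟨j, hj⟩ : Fin N) : ℕ) + 1 < N := by
          rcases hm with hm | hm
          · exact Or.inl (ehp_SS hm T0)
          · exact Or.inr hm
        rw [rho_not_mem H T0 hj h, rho_not_mem H T0 hj h, rho_not_mem H T0 hj h,
          Wm_mul H hW, ih m k (Or.inr hj)]
    · rw [rho_ge H T0 hj, rho_ge H T0 hj, rho_ge H T0 hj, mul_one]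

/-- `ρ_J` as a homomorphism. -/
noncomputable def rhoH (H : Core) (b : Module.Basis (Fin N) ℝ (Phase n)) (J : Finset (Fin N))
    (T0 : Set T) (j m k : ℕ) (h : 0 < m ∨ j < N) : Cl b j (T × (Fin m → I)) (SS m T0) →*
      Cl b 0 (T × (Fin k → I)) (SS k T0) where
  toFun := rho H b J T0 j m k
  map_one' := rho_one H J T0 j m k
  map_mul' := rho_mul H J T0 j m k h

lemma rho_pow (H : Core) (J : Finset (Fin N)) (T0 : Set T) (j m k : ℕ) (h : 0 < m ∨ j < N)
    (x : Cl b j (T × (Fin m → I)) (SS m T0)) (l : ℕ) :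
    rho H b J T0 j m k (x ^ l) = (rho H b J T0 j m k x) ^ l :=
  map_pow (rhoH H b J T0 j m k h) x l

lemma rho_inv (H : Core) (J : Finset (Fin N)) (T0 : Set T) (j m k : ℕ) (h : 0 < m ∨ j < N)
    (x : Cl b j (T × (Fin m → I)) (SS m T0)) :
    rho H b J T0 j m k x⁻¹ = (rho H b J T0 j m k x)⁻¹ :=
  map_inv (rhoH H b J T0 j m k h) x

/-- `ρ_J` at level `j` only depends on the elements of `J` which are `< j`. -/
lemma rho_congr (H : Core) {J J' : Finset (Fin N)} (T0 : Set T) : ∀ (j m k : ℕ),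
    (∀ i : Fin N, (i : ℕ) < j → (i ∈ J ↔ i ∈ J')) →
    ∀ x : Cl b j (T × (Fin m → I)) (SS m T0), rho H b J T0 j m k x = rho H b J' T0 j m k x := by
  intro j
  induction j with
  | zero =>
    intro m k _ x
    by_cases h : m = k
    · subst h
      rw [rho_zero, rho_zero]
    · rw [rho_zero_ne H J T0 h, rho_zero_ne H J' T0 h]
  | succ j ih =>
    intro m k hJ x
    have hJ' : ∀ i : Fin N, (i : ℕ) < j → (i ∈ J ↔ i ∈ J') := fun i hi =>
      hJ i (Nat.lt_succ_of_lt hi)
    by_cases hj : j < N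
    · have h0 := hJ ⟨j, hj⟩ (Nat.lt_succ_self j)
      by_cases h : (⟨j, hj⟩ : Fin N) ∈ J
      · cases m with
        | zero => rw [rho_mem_zero H T0 hj h, rho_mem_zero H T0 hj (h0.1 h)]
        | succ m => rw [rho_mem H T0 hj h, rho_mem H T0 hj (h0.1 h), ih m k hJ']
      · rw [rho_not_mem H T0 hj h, rho_not_mem H T0 hj (fun h' => h (h0.2 h')), ih m k hJ']
    · rw [rho_ge H T0 hj, rho_ge H T0 hj]

end rho

end Pool.Agent.BHS
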