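import Mathlib
import Pool.Agent.BHS.Rho

set_option maxSynthPendingDepth 3

open scoped ContDiff Distributions Topology unitInterval
open Set Function TopologicalSpace

namespace Pool.Agent.BHS

open Pool.Agent.Helper17 Pool.Agent.TOR Pool.Agent.TOL

section cov

variable {n N : ℕ} {b : Module.Basis (Fin N) ℝ (Phase n)}

/-! ### Families in finite covers -/

lemma per_nat {f : Phase n → Phase n} {v : Phase n} (h : ∀ x, f (x + v) = f x + v) (l : ℕ) :
    ∀ x, f (x + (l : ℝ) • v) = f x + (l : ℝ) • v := by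
  induction l with
  | zero => intro x; simp
  | succ l ih =>
    intro x
    have h1 : x + ((l + 1 : ℕ) : ℝ) • v = (x + (l : ℝ) • v) + v := by
      push_cast
      rw [add_smul, one_smul, add_assoc]
    rw [h1, h, ih]
    push_cast
    rw [add_smul, one_smul, add_assoc]

lemma LevS.scal {j : ℕ} {S : Set (Phase n)} {X : Type} [TopologicalSpace X]
    {F : X → Equiv.Perm (Phase n)} (h : LevS b j S F) (L : Fin N → ℕ+) :
    LevS (BHS.scal b L) j S F := by
  refine ⟨h.cf, h.cf', h.symp, ?_, h.supp⟩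
  intro t i hi x
  rw [scal_apply]
  exact per_nat (h.per t i hi) _ x

lemma LHS.scal {j : ℕ} {S : Set (Phase n)} {X : Type} [TopologicalSpace X] {X0 : Set X}
    {F G : X → Equiv.Perm (Phase n)} (h : LHS b j S X0 F G) (L : Fin N → ℕ+) :
    LHS (BHS.scal b L) j S X0 F G := by
  obtain ⟨H, hH, h0, h1, hr⟩ := h
  exact ⟨H, hH.scal L, h0, h1, hr⟩

lemma slab_scal (b : Module.Basis (Fin N) ℝ (Phase n)) (L : Fin N → ℕ+) (j : ℕ) (R : ℝ) :
    slab b j R ⊆ slab (scal b L) j R := by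
  intro x hx i hi
  rw [scal_repr, abs_div]
  have h1 : (1 : ℝ) ≤ |((L i : ℕ) : ℝ)| := by
    rw [abs_of_nonneg (Nat.cast_nonneg _)]
    exact Nat.one_le_cast.2 (L i).2
  exact (div_le_self (abs_nonneg _) h1).trans (hx i hi)

lemma levCov {j : ℕ} {R : ℝ} {X : Type} [TopologicalSpace X]
    {F : X → Equiv.Perm (Phase n)} (h : Lev b j R F) (L : Fin N → ℕ+) :
    Lev (scal b L) j R F :=
  ((levS_of_lev h).scal L).lev (slab_scal b L j R)

lemma lhCov {j : ℕ} {X : Type} [TopologicalSpace X] {X0 : Set X}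
    {F G : X → Equiv.Perm (Phase n)} (h : LH b j X0 F G) (L : Fin N → ℕ+) :
    LH (scal b L) j X0 F G := by
  obtain ⟨R, h⟩ := lh_iff.1 h
  exact lh_iff.2 ⟨R, (h.scal L).mono (slab_scal b L j R)⟩

lemma famCov {j : ℕ} {X : Type} [TopologicalSpace X] {X0 : Set X}
    {F : X → Equiv.Perm (Phase n)} (h : F ∈ Fam b j X X0) (L : Fin N → ℕ+) :
    F ∈ Fam (scal b L) j X X0 := by
  obtain ⟨⟨R, h⟩, h0⟩ := h
  exact ⟨⟨R, levCov h L⟩, h0⟩

/-- The map of the classes given by a finite cover. -/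
noncomputable def Cl.cov {j : ℕ} {X : Type} [TopologicalSpace X] {X0 : Set X} (L : Fin N → ℕ+) :
    Cl b j X X0 →* Cl (scal b L) j X X0 :=
  QuotientGroup.lift (Nul b j X X0)
    { toFun := fun F => cl F.1 (famCov F.2 L)
      map_one' := rfl
      map_mul' := fun _ _ => rfl }
    (fun _ hF => (cl_eq_one_iff _).2 (lhCov hF L))

lemma Cl.cov_cl {j : ℕ} {X : Type} [TopologicalSpace X] {X0 : Set X} (L : Fin N → ℕ+)
    {F : X → Equiv.Perm (Phase n)} (hF : F ∈ Fam b j X X0) :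
    Cl.cov L (cl F hF) = cl F (famCov hF L) := rfl

lemma Dm_cov (H : Core) {j : Fin N} {X : Type} [TopologicalSpace X] [CompactSpace X]
    {X0 : Set X} (L : Fin N → ℕ+) (x : Cl b ((j : ℕ) + 1) (X × I) (relI X0)) :
    Dm H (scal b L) j X0 (Cl.cov L x) = Cl.cov L (Dm H b j X0 x) := by
  obtain ⟨u, hu, rfl⟩ := x.exists_rep
  obtain ⟨z, hz, hD⟩ := exists_isD H hu
  rw [Dm_cl H hu hz hD, Cl.cov_cl, map_inv, Cl.cov_cl]
  exact Dm_cl H _ _ ((H.dCov b L j X X0 univ u z).1 hD)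

lemma Lam_cov (H : Core) {j : Fin N} {X : Type} [TopologicalSpace X]
    {X0 : Set X} (L : Fin N → ℕ+) (x : Cl b ((j : ℕ) + 1) X X0) :
    Lam (scal b L) (Nat.lt_succ_self (j : ℕ)) X0 (Cl.cov L x) =
      Cl.cov L (Lam b (Nat.lt_succ_self (j : ℕ)) X0 x) ^ (L j : ℕ) := by
  obtain ⟨F, hF, rfl⟩ := x.exists_rep
  obtain ⟨⟨R, hR⟩, h0⟩ := id hF
  have h1 := (H.lamPow b j (slab b ((j : ℕ) + 1) R) (cyl_slab b _ R) (L j) X X0 F
    (levS_of_lev hR) h0).lh (cyl_slab b _ R)
  have e1 : (scal b (one1 j (L j))) j = scal b L j := by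
    rw [scal_apply, scal_apply, one1_self]
  rw [e1] at h1
  rw [Cl.cov_cl, Lam_cl, Lam_cl, Cl.cov_cl, cl_pow, cl_eq_iff]
  exact lhCov h1 L

lemma Wm_cov (H : Core) {j : Fin N} {X : Type} [TopologicalSpace X] [CompactSpace X]
    {X0 : Set X} (L : Fin N → ℕ+) (x : Cl b ((j : ℕ) + 1) X X0) :
    Wm H (scal b L) j X0 (Cl.cov L x) = Cl.cov L (Wm H b j X0 x) ^ (L j : ℕ) := by
  unfold Wm
  rw [Lam_cov H, map_pow, Dm_cov H]

variable {T : Type} [TopologicalSpace T] [CompactSpace T]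

lemma Dc_cov (H : Core) {j : Fin N} {T0 : Set T} {m : ℕ} (L : Fin N → ℕ+)
    (x : Cl b ((j : ℕ) + 1) (T × (Fin (m + 1) → I)) (SS (m + 1) T0)) :
    Dc H (scal b L) j T0 m (Cl.cov L x) = Cl.cov L (Dc H b j T0 m x) := by
  obtain ⟨F, hF, rfl⟩ := x.exists_rep
  rw [Cl.cov_cl, Dc_cl, Dc_cl, ← Dm_cov H, Cl.cov_cl]

/-- Behaviour of `ρ_J` under finite covers. -/
theorem rho_cov (H : Core) (J : Finset (Fin N)) (T0 : Set T) (L : Fin N → ℕ+) :
    ∀ (j : ℕ), j ≤ N → ∀ (m k : ℕ) (x : Cl b j (T × (Fin m → I)) (SS m T0)),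
    rho H (scal b L) J T0 j m k (Cl.cov L x) = Cl.cov L (rho H b J T0 j m k x) ^
      (∏ i ∈ (Jᶜ).filter fun i : Fin N => (i : ℕ) < j, (L i : ℕ)) := by
  intro j
  induction j with
  | zero =>
    intro _ m k x
    have h0 : ((Jᶜ).filter fun i : Fin N => (i : ℕ) < 0) = ∅ := by
      ext i; simp
    rw [h0, Finset.prod_empty, pow_one]
    by_cases h : m = k
    · subst h
      rw [rho_zero, rho_zero]
    · rw [rho_zero_ne H J T0 h, rho_zero_ne H J T0 h, map_one]
  | succ j ih =>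
    intro hj m k x
    have hjN : j < N := hj
    by_cases hJ : (⟨j, hjN⟩ : Fin N) ∈ J
    · have hc : ((Jᶜ).filter fun i : Fin N => (i : ℕ) < j + 1) =
          (Jᶜ).filter fun i : Fin N => (i : ℕ) < j := by
        ext i
        simp only [Finset.mem_filter, Finset.mem_compl]
        constructor
        · rintro ⟨h1, h2⟩
          refine ⟨h1, ?_⟩
          by_contra h3
          have : i = ⟨j, hjN⟩ := Fin.ext (by simp only; omega)
          rw [this] at h1
          exact h1 hJ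
        · rintro ⟨h1, h2⟩
          exact ⟨h1, by omega⟩
      rw [hc]
      cases m with
      | zero => rw [rho_mem_zero H T0 hjN hJ, rho_mem_zero H T0 hjN hJ, map_one, one_pow]
      | succ m =>
        rw [rho_mem H T0 hjN hJ, rho_mem H T0 hjN hJ, Dc_cov H, ih hjN.le]
    · have hc : ((Jᶜ).filter fun i : Fin N => (i : ℕ) < j + 1) =
          insert (⟨j, hjN⟩ : Fin N) ((Jᶜ).filter fun i : Fin N => (i : ℕ) < j) := by
        ext i
        simp only [Finset.mem_filter, Finset.mem_insert, Finset.mem_compl]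
        constructor
        · rintro ⟨h1, h2⟩
          by_cases h3 : (i : ℕ) = j
          · exact Or.inl (Fin.ext h3)
          · exact Or.inr ⟨h1, by omega⟩
        · rintro (h1 | ⟨h1, h2⟩)
          · subst h1
            exact ⟨hJ, Nat.lt_succ_self _⟩
          · exact ⟨h1, by omega⟩
      rw [hc, Finset.prod_insert (by simp), rho_not_mem H T0 hjN hJ, rho_not_mem H T0 hjN hJ,
        Wm_cov H, rho_pow H J T0 j m k (Or.inr hjN), ih hjN.le, ← pow_mul, mul_comm]

/-! ### Iterated covers -/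

lemma scal_scal (b : Module.Basis (Fin N) ℝ (Phase n)) (L L' : Fin N → ℕ+) :
    scal (scal b L) L' = scal b (fun i => L' i * L i) := by
  apply Module.Basis.eq_of_apply_eq
  intro i
  rw [scal_apply, scal_apply, scal_apply, smul_smul]
  congr 1
  rw [PNat.mul_coe, Nat.cast_mul]

end cov

end Pool.Agent.BHS
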