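import Mathlib
import Pool.Agent.BHS.Cov

set_option maxSynthPendingDepth 3

open scoped ContDiff Distributions Topology unitInterval
open Set Function TopologicalSpace

namespace Pool.Agent.BHS

open Pool.Agent.Helper17 Pool.Agent.TOR Pool.Agent.TOL

section kind

variable {n N : ℕ}

/-! ### Boxes -/

lemma mem_bx {b : Module.Basis (Fin N) ℝ (Phase n)} {j : ℕ} {P Q : Fin N → ℝ} {x : Phase n} :
    x ∈ bx b j P Q ↔ ∀ i : Fin N, j ≤ (i : ℕ) → P i ≤ b.repr x i ∧ b.repr x i ≤ Q i := Iff.rfl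

lemma cyl_bx (b : Module.Basis (Fin N) ℝ (Phase n)) (j : ℕ) (P Q : Fin N → ℝ) :
    Cyl b j (bx b j P Q) := by
  refine ⟨?_, ?_, ∑ i, (|P i| + |Q i|), ?_⟩
  · have : bx b j P Q = ⋂ i : Fin N, ⋂ _ : j ≤ (i : ℕ),
        {x | P i ≤ b.repr x i ∧ b.repr x i ≤ Q i} := by
      ext x
      simp [bx]
    rw [this]
    exact isClosed_iInter fun i => isClosed_iInter fun _ =>
      (isClosed_le continuous_const (continuous_repr b i)).inter
        (isClosed_le (continuous_repr b i) continuous_const)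
  · intro i hi s x hx k hk
    have hne : i ≠ k := by
      intro h; rw [h] at hi; omega
    rw [repr_add_smul_ne x s hne]
    exact hx k hk
  · intro x hx i hi
    have h1 := hx i hi
    have h2 : |P i| + |Q i| ≤ ∑ i, (|P i| + |Q i|) :=
      Finset.single_le_sum (f := fun i => |P i| + |Q i|)
        (fun i _ => add_nonneg (abs_nonneg _) (abs_nonneg _)) (Finset.mem_univ i)
    refine le_trans ?_ h2
    rw [abs_le]
    have h3 := neg_abs_le (P i)
    have h4 := le_abs_self (Q i)
    have h5 := abs_nonneg (P i)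
    have h6 := abs_nonneg (Q i)
    constructor <;> linarith [h1.1, h1.2]

lemma cut_bx (b : Module.Basis (Fin N) ℝ (Phase n)) (j : Fin N) (P Q : Fin N → ℝ) (p q : ℝ) :
    cut b j p q (bx b ((j : ℕ) + 1) P Q) =
      bx b (j : ℕ) (Function.update P j p) (Function.update Q j q) := by
  ext x
  rw [mem_cut, mem_bx, mem_bx]
  constructor
  · rintro ⟨h1, h2⟩ i hi
    by_cases hij : i = j
    · subst hij
      rw [Function.update_self, Function.update_self]
      exact h2
    · rw [Function.update_of_ne hij, Function.update_of_ne hij]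
      exact h1 i (Nat.succ_le_of_lt (lt_of_le_of_ne hi fun h => hij (Fin.ext h.symm)))
  · intro h
    refine ⟨fun i hi => ?_, ?_⟩
    · have hij : i ≠ j := by
        intro h'
        rw [h'] at hi
        exact absurd hi (Nat.not_succ_le_self _)
      have := h i (Nat.le_of_succ_le hi)
      rwa [Function.update_of_ne hij, Function.update_of_ne hij] at this
    · have := h j le_rfl
      rwa [Function.update_self, Function.update_self] at this

lemma scal_repr_one (b : Module.Basis (Fin N) ℝ (Phase n)) {L : Fin N → ℕ+} {i : Fin N}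
    (h : L i = 1) (x : Phase n) : (scal b L).repr x i = b.repr x i := by
  rw [scal_repr, h, PNat.one_coe, Nat.cast_one, div_one]

lemma cut_scal (b : Module.Basis (Fin N) ℝ (Phase n)) {L : Fin N → ℕ+} {j : Fin N}
    (h : L j = 1) (p q : ℝ) (S : Set (Phase n)) : cut (scal b L) j p q S = cut b j p q S := by
  ext x
  rw [mem_cut, mem_cut, scal_repr_one b h]

lemma bx_scal (b : Module.Basis (Fin N) ℝ (Phase n)) {L : Fin N → ℕ+} {j : ℕ}
    (h : ∀ i : Fin N, j ≤ (i : ℕ) → L i = 1) (P Q : Fin N → ℝ) :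
    bx (scal b L) j P Q = bx b j P Q := by
  ext x
  rw [mem_bx, mem_bx]
  constructor
  · intro hx i hi
    have := hx i hi
    rwa [scal_repr_one b (h i hi)] at this
  · intro hx i hi
    rw [scal_repr_one b (h i hi)]
    exact hx i hi

lemma perM_scal (b : Module.Basis (Fin N) ℝ (Phase n)) {L : Fin N → ℕ+} {j : Fin N}
    (h : L j = 1) (c : ℝ) (g : Phase n → Phase n) : perM (scal b L) j c g = perM b j c g := by
  funext x
  unfold perM
  have e : scal b L j = b j := by
    rw [scal_apply, h, PNat.one_coe, Nat.cast_one, one_smul]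
  rw [scal_repr_one b h, e]

lemma Cyl.scal {b : Module.Basis (Fin N) ℝ (Phase n)} {j : ℕ} {S : Set (Phase n)}
    (h : Cyl b j S) (L : Fin N → ℕ+) : Cyl (BHS.scal b L) j S := by
  refine ⟨h.closed, ?_, ?_⟩
  · intro i hi s x hx
    rw [scal_apply, smul_smul]
    exact h.inv i hi _ x hx
  · obtain ⟨R, hR⟩ := h.bdd
    exact ⟨R, hR.trans (slab_scal b L j R)⟩

lemma LHS.ahs {b : Module.Basis (Fin N) ℝ (Phase n)} {j : ℕ} {S : Set (Phase n)} {X : Type}
    [TopologicalSpace X] {X0 : Set X} {g0 g1 : X → Equiv.Perm (Phase n)}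
    (h : LHS b j S X0 g0 g1) : AHS b j S X0 (fun t x => g0 t x) (fun t x => g1 t x) := by
  obtain ⟨F, hF, h0, h1, hr⟩ := h
  refine ⟨fun p x => F p x, hF.alevS, ?_, ?_, ?_⟩
  · intro t x
    simp only [h0]
  · intro t x
    simp only [h1]
  · intro t ht s x
    simp only [hr t ht s]
    rfl

lemma IsDS.isD {b : Module.Basis (Fin N) ℝ (Phase n)} {j : Fin N} {S' : Set (Phase n)}
    (hS' : Cyl b ((j : ℕ) + 1) S') {X : Type} [TopologicalSpace X] {X0 : Set X}
    {u : X × I → Equiv.Perm (Phase n)} {z : X → Equiv.Perm (Phase n)}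
    (h : IsDS b j S' X0 u z) : IsD b j X0 u z := by
  obtain ⟨M0, hM0⟩ := h
  refine ⟨M0, fun M hM => ?_⟩
  obtain ⟨ε0, hε0, hε⟩ := hM0 M hM
  refine ⟨ε0, hε0, fun ε h1 h2 => ?_⟩
  obtain ⟨R3, h3⟩ := hε ε h1 h2
  obtain ⟨R4, hR4⟩ := (hS'.cut (-R3) R3).bdd
  exact h3.ah hR4

lemma levS_fam {b : Module.Basis (Fin N) ℝ (Phase n)} {j : ℕ} {S : Set (Phase n)}
    (hS : Cyl b j S) {X : Type} [TopologicalSpace X] {X0 : Set X}
    {F : X → Equiv.Perm (Phase n)} (hF : LevS b j S F) (h0 : ∀ t ∈ X0, F t = 1) :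
    F ∈ Fam b j X X0 :=
  ⟨hF.lev' hS, h0⟩

/-- A family supported in the strip `δ ≤ ξ_j ≤ 1 - δ` and its periodization. -/
lemma per1_of_perM {b : Module.Basis (Fin N) ℝ (Phase n)} {j : Fin N} {S' : Set (Phase n)}
    (hS' : Cyl b ((j : ℕ) + 1) S') {δ : ℝ} (hδ : 0 < δ) {X : Type} [TopologicalSpace X]
    {X0 : Set X} {g P : X → Equiv.Perm (Phase n)}
    (hg : LevS b (j : ℕ) (cut b j δ (1 - δ) S') g) (hP : LevS b ((j : ℕ) + 1) S' P)
    (he : ∀ t x, P t x = perM b j 0 (g t) x) (h0 : ∀ t ∈ X0, g t = 1) :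
    ∃ R, Per1 b j δ R X0 g P := by
  obtain ⟨R1, h1⟩ := hg.lev' (hS'.cut δ (1 - δ))
  obtain ⟨R2, h2⟩ := hP.lev' hS'
  refine ⟨max R1 R2, h1.mono (le_max_left _ _), h2.mono (le_max_right _ _), ?_, ?_, h0⟩
  · intro t x hx
    by_contra hcon
    exact hx (hg.supp t x fun h => hcon h.2)
  · intro t x hx0 hx1
    rw [he]
    unfold perM
    rcases lt_or_eq_of_le hx1 with h | h
    · have hf : ⌊b.repr x j + 0⌋ = 0 := by
        rw [add_zero, Int.floor_eq_zero_iff]
        exact ⟨hx0, h⟩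
      rw [hf, Int.cast_zero, zero_smul, sub_zero, add_zero]
    · have hf : ⌊b.repr x j + 0⌋ = 1 := by
        rw [add_zero, h]
        exact Int.floor_one
      rw [hf, Int.cast_one]
      have e1 : g t x = x := by
        apply hg.supp
        intro hs
        have := hs.2.2
        rw [h] at this
        linarith
      have e2 : g t (x - (1 : ℝ) • b j) = x - (1 : ℝ) • b j := by
        apply hg.supp
        intro hs
        have := hs.2.1
        rw [repr_sub_smul_self, h] at this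
        linarith
      rw [e1, e2, sub_add_cancel]

lemma perM_one (b : Module.Basis (Fin N) ℝ (Phase n)) (j : Fin N) (c : ℝ) (x : Phase n) :
    perM b j c (1 : Equiv.Perm (Phase n)) x = x := by
  unfold perM
  change x - _ + _ = x
  abel

variable {T : Type} [TopologicalSpace T] [CompactSpace T]

/-- The induction for the completeness of the `ρ_J`. -/
theorem kind (H : Core) (T0 : Set T) : ∀ (j : ℕ), j ≤ N →
    ∀ (b : Module.Basis (Fin N) ℝ (Phase n)) (P Q : Fin N → ℝ),
    (∀ i : Fin N, j ≤ (i : ℕ) → P i < Q i) → ∀ m : ℕ, j ≤ m →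
    ∀ F : T × (Fin m → I) → Equiv.Perm (Phase n), LevS b j (bx b j P Q) F →
    (∀ t ∈ SS m T0, F t = 1) → ∀ hmem : F ∈ Fam b j (T × (Fin m → I)) (SS m T0),
    (∀ J : Finset (Fin N), (∀ i ∈ J, (i : ℕ) < j) → ∀ k, k + J.card = m →
      rho H b J T0 j m k (cl F hmem) = 1) →
    ∃ L : Fin N → ℕ+, (∀ i : Fin N, j ≤ (i : ℕ) → L i = 1) ∧
      LHS (scal b L) j (bx b j P Q) (SS m T0) F (fun _ => 1) := by
  intro j
  induction j with
  | zero =>
    intro _ b P Q hPQ m _ F hF h0 hmem hρ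
    have h1 := hρ ∅ (by simp) m (by simp)
    rw [rho_zero, cl_eq_one_iff] at h1
    exact ⟨fun _ => 1, fun _ _ => rfl,
      (H.dil0 b P Q (fun i => hPQ i (Nat.zero_le _)) _ _ F hF h0 h1).scal _⟩
  | succ j ih =>
    intro hj b P Q hPQ m hjm F hF h0 hmem hρ
    have hjN : j < N := hj
    obtain ⟨m', rfl⟩ : ∃ m', m = m' + 1 := ⟨m - 1, by omega⟩
    have hjm' : j ≤ m' := Nat.le_of_succ_le_succ hjm
    have ejj : ((⟨j, hjN⟩ : Fin N) : ℕ) = j := rfl
    generalize hjj : (⟨j, hjN⟩ : Fin N) = jj at ejj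
    have hP1 : ∀ (p q : ℝ), p < q → ∀ i : Fin N, j ≤ (i : ℕ) →
        Function.update P jj p i < Function.update Q jj q i := by
      intro p q hpq i hi
      by_cases hij : i = jj
      · subst hij
        rw [Function.update_self, Function.update_self]
        exact hpq
      · rw [Function.update_of_ne hij, Function.update_of_ne hij]
        apply hPQ
        have : (i : ℕ) ≠ j := fun h => hij (Fin.ext (by rw [ejj, h]))
        omega
    have hnot : ∀ J : Finset (Fin N), (∀ i ∈ J, (i : ℕ) < j) → jj ∉ J := by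
      intro J hJ h
      have := hJ jj h
      omega
    -- the family of loops
    have hS' : Cyl b (j + 1) (bx b (j + 1) P Q) := cyl_bx b (j + 1) P Q
    generalize hSdef : bx b (j + 1) P Q = S' at hS' hF ⊢
    have hcut : ∀ (b' : Module.Basis (Fin N) ℝ (Phase n)), bx b' (j + 1) P Q = S' →
        ∀ p q, cut b' jj p q S' =
          bx b' j (Function.update P jj p) (Function.update Q jj q) := by
      intro b' hb' p q
      have := cut_bx b' jj P Q p q
      rw [ejj, hb'] at this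
      exact this
    have hu : LevS b (j + 1) S' (fun p => F (snocM p)) := hF.reparam continuous_snocM
    have hu0 : ∀ p ∈ relI (SS m' T0), F (snocM p) = 1 := fun p hp => h0 _ (snocM_mem hp)
    obtain ⟨R, z, hz, hz0, hD⟩ := H.dExist b jj _ (SS m' T0) S' (by rw [ejj]; exact hS')
      (fun p => F (snocM p)) (by rw [ejj]; exact hu) hu0
    rw [ejj] at hz
    set R' := max R 1 with hR'
    have hR'1 : (0 : ℝ) < R' := lt_of_lt_of_le one_pos (le_max_right _ _)
    have hz' : LevS b j (bx b j (Function.update P jj (-R')) (Function.update Q jj R')) z := by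
      rw [← hcut b hSdef]
      exact hz.mono (cut_mono subset_rfl (neg_le_neg (le_max_left _ _)) (le_max_left _ _))
    have hzmem : z ∈ Fam b j (T × (Fin m' → I)) (SS m' T0) :=
      levS_fam (cyl_bx b j _ _) hz' hz0
    have hzρ : ∀ J : Finset (Fin N), (∀ i ∈ J, (i : ℕ) < j) → ∀ k, k + J.card = m' →
        rho H b J T0 j m' k (cl z hzmem) = 1 := by
      intro J hJ k hk
      have h1 := hρ (insert jj J) ?_ k ?_
      · rw [rho_mem H T0 hjN (by rw [hjj]; exact Finset.mem_insert_self _ _), Dc_cl] at h1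
        have h2 : Dm H b ⟨j, hjN⟩ (SS m' T0) (cl (fun p => F (snocM p))
            (Fam.comp hmem continuous_snocM fun _ hp => snocM_mem hp)) = (cl z hzmem)⁻¹ :=
          Dm_cl H (j := ⟨j, hjN⟩) _ hzmem (by
            rw [hjj]
            exact IsDS.isD (by rw [ejj]; exact hS') hD)
        rw [h2, rho_inv H _ T0 j m' k (Or.inr hjN), inv_eq_one] at h1
        rw [← h1]
        apply rho_congr
        intro i hi
        rw [Finset.mem_insert]
        constructor
        · exact Or.inr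
        · rintro (h | h)
          · rw [h, ejj] at hi
            exact absurd hi (lt_irrefl _)
          · exact h
      · intro i hi
        rcases Finset.mem_insert.1 hi with h | h
        · rw [h, ejj]
          exact Nat.lt_succ_self j
        · exact Nat.lt_succ_of_lt (hJ i h)
      · rw [Finset.card_insert_of_notMem (hnot J hJ)]
        omega
    obtain ⟨L1, hL1, hLH1⟩ := ih hjN.le b _ _ (hP1 (-R') R' (by linarith)) m' hjm' z hz' hz0
      hzmem hzρ
    -- in a cover the loop detector vanishes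
    have hL1j : L1 jj = 1 := hL1 jj ejj.ge
    have hS1 : bx (scal b L1) (j + 1) P Q = S' := by
      rw [bx_scal b (fun i hi => hL1 i (Nat.le_of_succ_le hi)), hSdef]
    have hD1 : IsDS (scal b L1) jj S' (SS m' T0) (fun p => F (snocM p)) (fun _ => 1) := by
      obtain ⟨M0, hM0⟩ := (H.dCov b L1 jj _ (SS m' T0) S' (fun p => F (snocM p)) z).2 hD
      refine ⟨M0, fun M hM => ?_⟩
      obtain ⟨ε0, hε0, hε⟩ := hM0 M hM
      refine ⟨ε0, hε0, fun ε h1 h2 => ?_⟩
      obtain ⟨R2, hR2⟩ := hε ε h1 h2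
      refine ⟨max R2 R', ?_⟩
      have h3 := hLH1.ahs
      rw [← hcut b hSdef, ← cut_scal b hL1j] at h3
      rw [ejj] at hR2 ⊢
      exact (H.ahsC (scal b L1) j (cut (scal b L1) jj (-max R2 R') (max R2 R') S') _
        (SS m' T0) _ _ _).2.1
        (hR2.mono (cut_mono subset_rfl (neg_le_neg (le_max_left _ _)) (le_max_left _ _)))
        (h3.mono (cut_mono subset_rfl (neg_le_neg (le_max_right _ _)) (le_max_right _ _)))
    obtain ⟨l0, hl0⟩ := H.s1 (scal b L1) jj _ (SS m' T0) S' (by rw [ejj]; exact hS'.scal L1)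
      (fun p => F (snocM p)) (by rw [ejj]; exact hu.scal L1) hu0 hD1
    set l : ℕ+ := ⟨max l0 3, by omega⟩ with hl
    have hl3 : (3 : ℝ) ≤ ((l : ℕ) : ℝ) := by
      have : 3 ≤ (l : ℕ) := le_max_right _ _
      exact_mod_cast this
    obtain ⟨y, PP, hy, hy0, hPP, hPe, hLH2⟩ := hl0 l (le_max_left _ _)
    rw [ejj] at hy hPP hLH2
    set b2 := scal (scal b L1) (one1 jj l) with hb2
    have hS2 : bx b2 (j + 1) P Q = S' := by
      rw [hb2, bx_scal (scal b L1) (fun i hi => ?_), hS1]
      apply one1_ne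
      intro h
      rw [h, ejj] at hi
      exact absurd hi (Nat.not_succ_le_self _)
    have hcyl2 : Cyl b2 (j + 1) S' := (hS'.scal L1).scal _
    -- the supports in the coordinates of the cover
    have hlpos : (0 : ℝ) < ((l : ℕ) : ℝ) := by linarith
    have hcut2 : cut (scal b L1) jj 1 (((l : ℕ) : ℝ) - 1) S' ⊆
        cut b2 jj (1 / ((l : ℕ) : ℝ)) (1 - 1 / ((l : ℕ) : ℝ)) S' := by
      intro x hx
      refine ⟨hx.1, ?_⟩
      change 1 / ((l : ℕ) : ℝ) ≤ b2.repr x jj ∧ b2.repr x jj ≤ 1 - 1 / ((l : ℕ) : ℝ)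
      rw [hb2, scal_repr, one1_self]
      constructor
      · exact div_le_div_of_nonneg_right hx.2.1 hlpos.le
      · rw [div_le_iff₀ hlpos, sub_mul, one_mul, one_div, inv_mul_cancel₀ hlpos.ne']
        exact hx.2.2
    have hyt : LevS b2 j (cut b2 jj (1 / ((l : ℕ) : ℝ)) (1 - 1 / ((l : ℕ) : ℝ)) S')
        (fun q => y (unsnoc q)) :=
      ((hy.scal (one1 jj l)).mono hcut2).reparam continuous_unsnoc
    have hyt0 : ∀ q ∈ SS (m' + 1) T0, y (unsnoc q) = 1 := fun q hq => hy0 _ (unsnoc_mem hq)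
    have hPt : LevS b2 (j + 1) S' (fun q => PP (unsnoc q)) := hPP.reparam continuous_unsnoc
    have hFP : LHS b2 (j + 1) S' (SS (m' + 1) T0) F (fun q => PP (unsnoc q)) := by
      have h1 := hLH2.reparam (T0' := SS (m' + 1) T0) continuous_unsnoc
        (fun q hq => unsnoc_mem hq)
      have e : (fun q : T × (Fin (m' + 1) → I) => F (snocM (unsnoc q))) = F := by
        funext q
        rw [snocM_unsnoc]
      rwa [e] at h1
    have hδ : (0 : ℝ) < 1 / ((l : ℕ) : ℝ) := one_div_pos.2 hlpos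
    have hδ' : 1 / ((l : ℕ) : ℝ) ≤ 1 / 2 := by
      apply one_div_le_one_div_of_le two_pos
      linarith
    have hδ3 : 1 / ((l : ℕ) : ℝ) ≤ 1 / 3 := by
      apply one_div_le_one_div_of_le three_pos
      linarith
    obtain ⟨R4, hPer⟩ := per1_of_perM (j := jj) (X0 := SS (m' + 1) T0) (by rw [ejj]; exact hcyl2)
      hδ (by rw [ejj]; exact hyt) (by rw [ejj]; exact hPt) (fun t x => hPe (unsnoc t) x) hyt0
    have hymem : (fun q => y (unsnoc q)) ∈ Fam b2 j (T × (Fin (m' + 1) → I))
        (SS (m' + 1) T0) := by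
      have hc : Cyl b2 (jj : ℕ)
          (cut b2 jj (1 / ((l : ℕ) : ℝ)) (1 - 1 / ((l : ℕ) : ℝ)) S') :=
        Cyl.cut (by rw [ejj]; exact hcyl2) _ _
      rw [ejj] at hc
      exact levS_fam hc hyt hyt0
    have hyρ : ∀ J : Finset (Fin N), (∀ i ∈ J, (i : ℕ) < j) → ∀ k, k + J.card = m' + 1 →
        rho H b2 J T0 j (m' + 1) k (cl (fun q => y (unsnoc q)) hymem) = 1 := by
      intro J hJ k hk
      have hJj : (⟨j, hjN⟩ : Fin N) ∉ J := by
        rw [hjj]
        exact hnot J hJ
      have h1 := hρ J (fun i hi => Nat.lt_succ_of_lt (hJ i hi)) k hk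
      have h2 : rho H b2 J T0 (j + 1) (m' + 1) k (cl F (famCov (famCov hmem L1) _)) = 1 := by
        have h3 := rho_cov H J T0 (one1 jj l) (j + 1) hj (m' + 1) k
          (Cl.cov L1 (cl F hmem))
        rw [rho_cov H J T0 L1 (j + 1) hj, h1, map_one, one_pow, map_one, one_pow] at h3
        exact h3
      have hPmem : (fun q => PP (unsnoc q)) ∈ Fam b2 (j + 1) (T × (Fin (m' + 1) → I))
          (SS (m' + 1) T0) := mem_Fam_right (hFP.lh hcyl2)
      have h4 : cl F (famCov (famCov hmem L1) _) = cl (fun q => PP (unsnoc q)) hPmem :=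
        (cl_eq_iff _ _).2 (hFP.lh hcyl2)
      rw [h4, rho_not_mem H T0 hjN hJj] at h2
      have h5 : Wm H b2 ⟨j, hjN⟩ (SS (m' + 1) T0) (cl (fun q => PP (unsnoc q)) hPmem) =
          cl (fun q => y (unsnoc q)) hymem :=
        Wm_per H (j := ⟨j, hjN⟩) hδ hδ' (by rw [hjj]; exact hPer) hymem hPmem
      rw [h5] at h2
      exact h2
    have hyt' : LevS b2 j (bx b2 j (Function.update P jj (1 / ((l : ℕ) : ℝ)))
        (Function.update Q jj (1 - 1 / ((l : ℕ) : ℝ)))) (fun q => y (unsnoc q)) := by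
      rw [← hcut b2 hS2]
      exact hyt
    obtain ⟨L3, hL3, hLH3⟩ := ih hjN.le b2 _ _ (hP1 (1 / ((l : ℕ) : ℝ))
      (1 - 1 / ((l : ℕ) : ℝ)) (by linarith)) (m' + 1) (by omega) _ hyt' hyt0 hymem hyρ
    have hL3j : L3 jj = 1 := hL3 jj ejj.ge
    -- periodize the null homotopy
    have hLH4 : LHS (scal b2 L3) (j + 1) S' (SS (m' + 1) T0) (fun q => PP (unsnoc q))
        (fun _ => 1) := by
      rw [← hcut b2 hS2, ← cut_scal b2 hL3j] at hLH3
      obtain ⟨G, hG, hG0, hG1, hGr⟩ := hLH3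
      obtain ⟨PG, hPG, hPGe⟩ := H.perS (scal b2 L3) jj _ S' (by rw [ejj]; exact hcyl2.scal L3) 0
        (1 / ((l : ℕ) : ℝ)) hδ hδ' G (by rw [ejj, sub_zero, sub_zero]; exact hG)
      rw [ejj] at hPG
      refine ⟨PG, hPG, ?_, ?_, ?_⟩
      · intro t
        ext1 x
        rw [hPGe, hG0, perM_scal b2 hL3j]
        exact (hPe _ x).symm
      · intro t
        ext1 x
        rw [hPGe, hG1, perM_one]
        rfl
      · intro t ht s
        ext1 x
        rw [hPGe, hGr t ht s, perM_one]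
        rfl
    have hfin := (hFP.scal L3).trans hLH4
    refine ⟨fun i => L3 i * one1 jj l i * L1 i, ?_, ?_⟩
    · intro i hi
      have hi1 : i ≠ jj := by
        intro h
        rw [h, ejj] at hi
        exact absurd hi (Nat.not_succ_le_self _)
      change L3 i * one1 jj l i * L1 i = 1
      rw [hL3 i (Nat.le_of_succ_le hi), one1_ne hi1, hL1 i (Nat.le_of_succ_le hi)]
      rfl
    · rw [hb2, scal_scal, scal_scal] at hfin
      exact hfin

/-- Completeness of the `ρ_J` up to finite covers. -/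
theorem complete (H : Core) (T0 : Set T) (b : Module.Basis (Fin N) ℝ (Phase n)) {m : ℕ}
    (hm : N ≤ m) (x : Cl b N (T × (Fin m → I)) (SS m T0))
    (hx : ∀ J : Finset (Fin N), ∀ k, k + J.card = m → rho H b J T0 N m k x = 1) :
    ∃ L : Fin N → ℕ+, Cl.cov L x = 1 := by
  obtain ⟨F, hF, rfl⟩ := x.exists_rep
  obtain ⟨⟨R, hR⟩, h0⟩ := id hF
  have hbx : slab b N R ⊆ bx b N (fun _ => 0) (fun _ => 1) :=
    fun _ _ i hi => absurd i.2 (not_lt.2 hi)
  obtain ⟨L, -, hL⟩ := kind H T0 N le_rfl b (fun _ => 0) (fun _ => 1) (fun _ _ => one_pos) m hm F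
    ((levS_of_lev hR).mono hbx) h0 hF (fun J _ k hk => hx J k hk)
  refine ⟨L, ?_⟩
  rw [Cl.cov_cl, cl_eq_one_iff]
  exact hL.lh ((cyl_bx b N _ _).scal L)

end kind

end Pool.Agent.BHS
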