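import Mathlib
import Pool.Agent.BHS.Stmts
import Pool.Agent.BHS.Basic

/-!
# BHS / LamMul: commutators with translations are multiplicative up to homotopy
-/

set_option maxSynthPendingDepth 3

open scoped ContDiff Distributions Topology unitInterval
open Set Function TopologicalSpace

namespace Pool.Agent.BHS

open Pool.Agent.Helper17 Pool.Agent.TOR Pool.Agent.TOL

section lammul

variable {n N : ℕ} {b : Module.Basis (Fin N) ℝ (Phase n)}

/-- The commutator with `a b_i` of a family which is trivial on `T0` is trivial on `relI T0`. -/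
lemma LamMul_rel {i : Fin N} {T : Type} {T0 : Set T} {p : T × I}
    (hp : p ∈ relI T0) {g : Equiv.Perm (Phase n)} (h0 : p.1 ∈ T0 → g = 1)
    (hper : ∀ x, g (x + b i) = g x + b i) : cm ((p.2 : ℝ) • b i) g = 1 := by
  rcases hp with hp | hp | hp
  · rw [h0 hp, cm_one]
  · rw [hp, Icc.coe_zero, zero_smul, cm_zero]
  · rw [hp, Icc.coe_one, one_smul]
    exact cm_eq_one hper

end lammul

theorem thm_LamMul (hL : St_LHSc) : St_LamMul := by
  intro n N b j S hS i hi T _ T0 u v hE hu hv hu0 hv0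
  obtain ⟨α, β, hα, hβ, hα0, hβ0, hrel, hend⟩ := hE
  have hpar : ∀ {γ : T × I → T}, Continuous γ →
      Continuous (fun q : (T × I) × I => γ (q.1.1, q.2)) := fun hγ =>
    hγ.comp ((continuous_fst.comp continuous_fst).prodMk continuous_snd)
  have hc : Continuous (fun q : (T × I) × I => (q.1.2 : ℝ)) :=
    continuous_subtype_val.comp (continuous_snd.comp continuous_fst)
  have hU : LevS b j S (fun q : (T × I) × I => u (α (q.1.1, q.2))) := hu.reparam (hpar hα)
  have hV : LevS b j S (fun q : (T × I) × I => v (β (q.1.1, q.2))) := hv.reparam (hpar hβ)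
  have h1 : LHS b j S (relI T0) (fun p => cm ((p.2 : ℝ) • b i) (u p.1 * v p.1))
      (fun p => cm ((p.2 : ℝ) • b i) (u (α (p.1, 1)) * v (β (p.1, 1)))) := by
    refine ⟨fun q => cm ((q.1.2 : ℝ) • b i) (u (α (q.1.1, q.2)) * v (β (q.1.1, q.2))),
      (hU.mul hV).cm hS hi hc, ?_, fun _ => rfl, ?_⟩
    · intro p
      simp only [hα0, hβ0]
    · intro p hp s
      refine LamMul_rel hp (fun ht => ?_) ((hU.mul hV).per (p, s) i hi)
      have h := hrel p.1 ht s
      simp only
      rw [hu0 _ h.1, hv0 _ h.2, mul_one]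
  have h2 : LHS b j S (relI T0)
      (fun p => cm ((p.2 : ℝ) • b i) (u p.1) * cm ((p.2 : ℝ) • b i) (v p.1))
      (fun p => cm ((p.2 : ℝ) • b i) (u (α (p.1, 1))) *
        cm ((p.2 : ℝ) • b i) (v (β (p.1, 1)))) := by
    refine ⟨fun q => cm ((q.1.2 : ℝ) • b i) (u (α (q.1.1, q.2))) *
      cm ((q.1.2 : ℝ) • b i) (v (β (q.1.1, q.2))),
      (hU.cm hS hi hc).mul (hV.cm hS hi hc), ?_, fun _ => rfl, ?_⟩
    · intro p
      simp only [hα0, hβ0]
    · intro p hp s
      simp only
      rw [LamMul_rel hp (fun ht => hu0 _ (hrel p.1 ht s).1) (hU.per (p, s) i hi),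
        LamMul_rel hp (fun ht => hv0 _ (hrel p.1 ht s).2) (hV.per (p, s) i hi), mul_one]
  have h3 : (fun p : T × I => cm ((p.2 : ℝ) • b i) (u (α (p.1, 1)) * v (β (p.1, 1)))) =
      fun p => cm ((p.2 : ℝ) • b i) (u (α (p.1, 1))) * cm ((p.2 : ℝ) • b i) (v (β (p.1, 1))) := by
    funext p
    rcases hend p.1 with h | h
    · rw [hu0 _ h, one_mul, cm_one, one_mul]
    · rw [hv0 _ h, mul_one, cm_one, mul_one]
  rw [h3] at h1
  exact (hL b j S (T × I) (relI T0) _ _ _).2 h1
    ((hL b j S (T × I) (relI T0) _ _ (fun _ => 1)).1 h2)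

end Pool.Agent.BHS
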