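import Mathlib
import Pool.Agent.BHS.Stmts
import Pool.Agent.BHS.Basic

/-!
# BHS, module LamPow: commutators with the translations of a cover are powers
-/

set_option maxSynthPendingDepth 3

open scoped ContDiff Distributions Topology unitInterval
open Set Function TopologicalSpace

namespace Pool.Agent.BHS

open Pool.Agent.Helper17 Pool.Agent.TOR Pool.Agent.TOL

private lemma LamPow_add {n : ℕ} {w : Phase n} {g : Equiv.Perm (Phase n)}
    (hg : ∀ y, g (y + w) = g y + w) (v : Phase n) : cm (v + w) g = cm v g := by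
  ext1 y
  rw [cm_apply, cm_apply]
  have h1 : g.symm y - v = g.symm y - (v + w) + w := by abel
  rw [h1, hg]
  abel

private lemma LamPow_prod {n : ℕ} {v : Phase n} {g : Equiv.Perm (Phase n)}
    (hg : ∀ y, g (y + v) = g y + v) (l : ℕ) : ∀ s : ℝ, 0 ≤ s → s ≤ l →
    (List.ofFn fun k : Fin l => cm (((pr (s - ((k : ℕ) : ℝ)) : I) : ℝ) • v) g).prod =
      cm (s • v) g := by
  induction l with
  | zero =>
    intro s h0 h1
    rw [Nat.cast_zero] at h1
    have h2 : s = 0 := le_antisymm h1 h0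
    rw [List.ofFn_zero, List.prod_nil, h2, zero_smul, cm_zero]
  | succ l ih =>
    intro s h0 h1
    rw [List.ofFn_succ, List.prod_cons]
    have e0 : s - (((0 : Fin (l + 1)) : ℕ) : ℝ) = s := by simp
    have e1 : ∀ k : Fin l, s - (((Fin.succ k : Fin (l + 1)) : ℕ) : ℝ) =
        s - 1 - ((k : ℕ) : ℝ) := by
      intro k
      rw [Fin.val_succ, Nat.cast_succ]
      ring
    simp only [e1]
    rw [e0]
    rcases le_or_gt s 1 with h | h
    · have h2 : (List.ofFn fun k : Fin l =>
          cm (((pr (s - 1 - ((k : ℕ) : ℝ)) : I) : ℝ) • v) g).prod = 1 := by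
        apply List.prod_eq_one
        intro y hy
        obtain ⟨k, rfl⟩ := (List.mem_ofFn' _ _).1 hy
        have h3 : (0 : ℝ) ≤ ((k : ℕ) : ℝ) := Nat.cast_nonneg _
        change cm (((pr (s - 1 - ((k : ℕ) : ℝ)) : I) : ℝ) • v) g = 1
        rw [pr_nonpos (by linarith), Icc.coe_zero, zero_smul, cm_zero]
      have h3 : ((pr s : I) : ℝ) = s := by
        unfold pr
        rw [projIcc_of_mem zero_le_one ⟨h0, h⟩]
      rw [h2, mul_one, h3]
    · have h2 := ih (s - 1) (by linarith) (by push_cast at h1; linarith)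
      rw [h2, pr_one_le h.le, Icc.coe_one, one_smul, cm_eq_one hg, one_mul]
      have h3 : s • v = (s - 1) • v + v := by
        rw [sub_smul, one_smul, sub_add_cancel]
      rw [h3, LamPow_add hg]

/-- [LamPow] -/
theorem thm_LamPow (hE : St_EHpow) (hL : St_LHSc) : St_LamPow := by
  intro n N b j S hS l T _ T0 x hx hx0
  have hper : ∀ t y, x t (y + b j) = x t y + b j := fun t y => hx.per t j (Nat.lt_succ_self _) y
  have hu : LevS b ((j : ℕ) + 1) S (fun p : T × I => cm ((p.2 : ℝ) • b j) (x p.1)) :=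
    (hx.reparam (g := fun p : T × I => p.1) continuous_fst).cm hS (Nat.lt_succ_self _)
      (continuous_subtype_val.comp continuous_snd)
  have hu1 : ∀ p ∈ relI T0, cm ((p.2 : ℝ) • b j) (x p.1) = 1 := by
    intro p hp
    rcases hp with hp | hp | hp
    · rw [hx0 _ hp, cm_one]
    · rw [hp, Icc.coe_zero, zero_smul, cm_zero]
    · rw [hp, Icc.coe_one, one_smul]
      exact cm_eq_one (hper p.1)
  have h1 := hE b ((j : ℕ) + 1) S T T0 (fun p : T × I => cm ((p.2 : ℝ) • b j) (x p.1)) (l : ℕ)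
    hu hu1
  have h2 := (hL b ((j : ℕ) + 1) S (T × I) (relI T0) _ _ (fun _ => 1)).1 h1
  have h3 : (fun p : T × I => (List.ofFn fun k : Fin (l : ℕ) =>
      (fun p : T × I => cm ((p.2 : ℝ) • b j) (x p.1))
        (p.1, pr (((l : ℕ) : ℝ) * (p.2 : ℝ) - ((k : ℕ) : ℝ)))).prod) =
      fun p : T × I => cm ((p.2 : ℝ) • scal b (one1 j l) j) (x p.1) := by
    funext p
    have h4 : (p.2 : ℝ) • scal b (one1 j l) j = (((l : ℕ) : ℝ) * (p.2 : ℝ)) • b j := by
      rw [scal_apply, one1_self, smul_smul, mul_comm]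
    rw [h4]
    have hl : (0 : ℝ) ≤ ((l : ℕ) : ℝ) := Nat.cast_nonneg _
    exact LamPow_prod (hper p.1) (l : ℕ) (((l : ℕ) : ℝ) * (p.2 : ℝ)) (mul_nonneg hl p.2.2.1)
      (mul_le_of_le_one_right hl p.2.2.2)
  rw [← h3]
  exact h2

end Pool.Agent.BHS
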