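import Mathlib
import Pool.Agent.BHS.Stmts
import Pool.Agent.BHS.Basic
import Pool.Agent.TOL.MoserLev

set_option maxSynthPendingDepth 3

open scoped ContDiff Distributions Topology unitInterval NNReal
open Set Function TopologicalSpace

namespace Pool.Agent.BHS

open Pool.Agent.Helper17 Pool.Agent.TOR Pool.Agent.TOL

/-- Moser's method for families at level `j` with support in `S`. -/
theorem thm_MoserS : St_MoserS := by
  intro n N b j T _ _ S hS Ψ hΨ
  obtain ⟨R, hR⟩ := hS.bdd
  set X := moserField Ψ with hX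
  have hXCF : CF X := CF_moserField hΨ.cf hΨ.adm
  have hX0 : ∀ x ∉ S, ∀ p, X p x = 0 := fun x hx p =>
    moserField_eq_zero (hΨ.supp p.1 x hx)
  have hXper : ∀ p, ∀ i : Fin N, (i : ℕ) < j → ∀ x, X p (x + b i) = X p x := fun p i hi x =>
    mol_per_field p (hΨ.per p.1 i hi) x
  obtain ⟨C, hC⟩ : ∃ C, ∀ (p : T × Icc (0 : ℝ) 1) (x : Phase n), ‖fderiv ℝ (X p) x‖ ≤ C := by
    obtain ⟨C, hC⟩ := thm_Box b j R (T × Icc (0 : ℝ) 1) (Phase n →L[ℝ] Phase n)
      (fun q => fderiv ℝ (X q.1) q.2) hXCF.fderiv.continuous (by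
        intro p x i hi
        beta_reduce
        rw [← fderiv_comp_add_right]
        have h1 : (fun y => X p (y + b i)) = X p := funext (hXper p i hi)
        rw [h1])
    refine ⟨max C 0, fun p x => ?_⟩
    by_cases hx : x ∈ S
    · exact (hC p x (hR hx)).trans (le_max_left _ _)
    · have h1 : X p =ᶠ[𝓝 x] fun _ => 0 := by
        filter_upwards [hS.closed.isOpen_compl.mem_nhds hx] with y hy
        exact hX0 y hy p
      rw [h1.fderiv_eq, (hasFDerivAt_const (0 : Phase n) x).fderiv, norm_zero]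
      exact le_max_right _ _
  obtain ⟨ρ, hρ, heq, hfix⟩ := exists_flow X hXCF hC
  refine ⟨ρ, hρ, ?_, fun p x hx => hfix x (hX0 x hx) p, ?_, ?_, ?_⟩
  · intro t s x v w
    obtain ⟨r, A, hr, hA, hrd, hAd, hr0, hA0⟩ := flow_ode hXCF hρ heq t x
    have h1 := moser_conservation (hΨ.cf.contDiff t) (X := fun s => X (t, s))
      (fun s => hXCF.differentiable (t, s))
      (fun s y w => moserField_spec hΨ.adm (t, s) y w) hrd hAd hA0 v w s
    rw [hr, hA] at h1
    exact h1
  · intro t x
    rw [heq]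
    simp
  · intro t ht s x
    rw [heq]
    have h1 : ∀ (s : Icc (0 : ℝ) 1) y, X (t, s) y = 0 := fun s y => moserField_eq_zero (ht y)
    simp [h1]
  · rintro ⟨t, s⟩ i hi x
    obtain ⟨r, A, hr, -, hrd, -, hr0, -⟩ := flow_ode hXCF hρ heq t x
    obtain ⟨r', A', hr', -, hrd', -, hr0', -⟩ := flow_ode hXCF hρ heq t (x + b i)
    have h1 := mol_unique hXCF hC t (r := r') (r' := fun s => r s + b i) hrd' (by
      intro s
      have h2 := (hrd s).add_const (b i)
      have h3 : X (t, s) (r s + b i) = X (t, s) (r s) := hXper (t, s) i hi (r s)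
      rw [← h3] at h2
      exact h2) (by rw [hr0', hr0]) s
    rw [← hr' s, h1, hr s]

end Pool.Agent.BHS
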