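import Mathlib
import Pool.Agent.BHS.Stmts
import Pool.Agent.BHS.Basic
import Pool.Agent.TOR.Pers

set_option maxSynthPendingDepth 3

open scoped ContDiff Distributions Topology unitInterval
open Set Function TopologicalSpace Filter

namespace Pool.Agent.BHS

open Pool.Agent.Helper17 Pool.Agent.TOR Pool.Agent.TOL

variable {n N : ℕ} {b : Module.Basis (Fin N) ℝ (Phase n)}

/-- Locally the periodization is a conjugate by a translation or the identity. -/
lemma PerA_local {j : Fin N} {S' : Set (Phase n)} {c δ : ℝ} (hδ : 0 < δ) (hδ' : δ ≤ 1 / 2)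
    {T : Type} {g : T → Phase n → Phase n}
    (hg : ∀ t, ∀ x ∉ cut b j (δ - c) (1 - δ - c) S', g t x = x) (x₀ : Phase n) :
    ∃ U : Set (Phase n), IsOpen U ∧ x₀ ∈ U ∧
      ((∃ v : Phase n, ∀ t, ∀ x ∈ U, perM b j c (g t) x = g t (x - v) + v) ∨
        ∀ t, ∀ x ∈ U, perM b j c (g t) x = x) := by
  have hcont : Continuous (fun x : Phase n => b.repr x j + c) :=
    (continuous_repr b j).add continuous_const
  by_cases hint : (⌊b.repr x₀ j + c⌋ : ℝ) = b.repr x₀ j + c
  · refine ⟨{x | (⌊b.repr x₀ j + c⌋ : ℝ) - δ < b.repr x j + c} ∩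
      {x | b.repr x j + c < (⌊b.repr x₀ j + c⌋ : ℝ) + δ},
      (isOpen_lt continuous_const hcont).inter (isOpen_lt hcont continuous_const), ?_,
      Or.inr ?_⟩
    · constructor
      · change (⌊b.repr x₀ j + c⌋ : ℝ) - δ < b.repr x₀ j + c
        linarith
      · change b.repr x₀ j + c < (⌊b.repr x₀ j + c⌋ : ℝ) + δ
        linarith
    · rintro t x ⟨h1, h2⟩
      replace h1 : (⌊b.repr x₀ j + c⌋ : ℝ) - δ < b.repr x j + c := h1
      replace h2 : b.repr x j + c < (⌊b.repr x₀ j + c⌋ : ℝ) + δ := h2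
      have h3 : x - (⌊b.repr x j + c⌋ : ℝ) • b j ∉ cut b j (δ - c) (1 - δ - c) S' := by
        rintro ⟨-, h4, h5⟩
        rw [repr_sub_smul_self] at h4 h5
        rcases le_or_gt (⌊b.repr x₀ j + c⌋ : ℝ) (b.repr x j + c) with h6 | h6
        · have h7 : ⌊b.repr x j + c⌋ = ⌊b.repr x₀ j + c⌋ := by
            rw [Int.floor_eq_iff]
            constructor
            · exact h6
            · linarith
          rw [h7] at h4
          linarith
        · have h7 : ⌊b.repr x j + c⌋ = ⌊b.repr x₀ j + c⌋ - 1 := by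
            rw [Int.floor_eq_iff]
            push_cast
            constructor
            · linarith
            · linarith
          rw [h7] at h5
          push_cast at h5
          linarith
      unfold perM
      rw [hg t _ h3, sub_add_cancel]
  · have hlt : (⌊b.repr x₀ j + c⌋ : ℝ) < b.repr x₀ j + c :=
      lt_of_le_of_ne (Int.floor_le _) hint
    refine ⟨{x | (⌊b.repr x₀ j + c⌋ : ℝ) < b.repr x j + c} ∩
      {x | b.repr x j + c < (⌊b.repr x₀ j + c⌋ : ℝ) + 1},
      (isOpen_lt continuous_const hcont).inter (isOpen_lt hcont continuous_const),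
      ⟨hlt, (Int.lt_floor_add_one (b.repr x₀ j + c) : b.repr x₀ j + c < _)⟩, Or.inl ⟨(⌊b.repr x₀ j + c⌋ : ℝ) • b j, ?_⟩⟩
    rintro t x ⟨h1, h2⟩
    replace h1 : (⌊b.repr x₀ j + c⌋ : ℝ) < b.repr x j + c := h1
    have h7 : ⌊b.repr x j + c⌋ = ⌊b.repr x₀ j + c⌋ := by
      rw [Int.floor_eq_iff]
      exact ⟨h1.le, h2⟩
    unfold perM
    rw [h7]

/-- Smoothness of the periodization. -/
lemma PerA_CF {j : Fin N} {S' : Set (Phase n)} {c δ : ℝ} (hδ : 0 < δ) (hδ' : δ ≤ 1 / 2)
    {T : Type} [TopologicalSpace T] {g : T → Phase n → Phase n} (hcf : CF g)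
    (hg : ∀ t, ∀ x ∉ cut b j (δ - c) (1 - δ - c) S', g t x = x) :
    CF (fun t => perM b j c (g t)) := by
  apply per_CF_local
  intro x₀
  obtain ⟨U, hU, hx₀, h⟩ := PerA_local hδ hδ' hg x₀
  rcases h with ⟨v, h⟩ | h
  · refine ⟨U, fun t x => g t (x - v) + v, hU, hx₀, ?_, h⟩
    exact (CF.comp hcf ((CF.const contDiff_id).sub (CF.const contDiff_const))).add
      (CF.const contDiff_const)
  · exact ⟨U, fun _ x => x, hU, hx₀, CF.const contDiff_id, h⟩

/-- Periodicity of the periodization. -/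
lemma PerA_per {j : Fin N} {c : ℝ} {g : Phase n → Phase n}
    (hg : ∀ i : Fin N, (i : ℕ) < (j : ℕ) → ∀ x, g (x + b i) = g x + b i) (i : Fin N)
    (hi : (i : ℕ) < (j : ℕ) + 1) (x : Phase n) :
    perM b j c g (x + b i) = perM b j c g x + b i := by
  unfold perM
  rcases Nat.lt_succ_iff_lt_or_eq.1 hi with h | h
  · have hne : i ≠ j := by
      intro h1
      rw [h1] at h
      exact lt_irrefl _ h
    have h1 : b.repr (x + b i) j = b.repr x j := by
      have := repr_add_smul_ne (b := b) x 1 hne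
      rwa [one_smul] at this
    have h2 : x + b i - (⌊b.repr x j + c⌋ : ℝ) • b j =
        (x - (⌊b.repr x j + c⌋ : ℝ) • b j) + b i := by abel
    rw [h1, h2, hg i h]
    abel
  · have hij : i = j := Fin.ext h
    subst hij
    have h1 : b.repr (x + b i) i = b.repr x i + 1 := by
      have := repr_add_smul_self (b := b) x 1 i
      rwa [one_smul] at this
    have h2 : ⌊b.repr x i + 1 + c⌋ = ⌊b.repr x i + c⌋ + 1 := by
      have : b.repr x i + 1 + c = b.repr x i + c + 1 := by ring
      rw [this, Int.floor_add_one]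
    rw [h1, h2]
    push_cast
    have h3 : x + b i - ((⌊b.repr x i + c⌋ : ℝ) + 1) • b i =
        x - (⌊b.repr x i + c⌋ : ℝ) • b i := by
      rw [add_smul, one_smul]
      abel
    rw [h3, add_smul, one_smul, add_assoc]

/-- Support of the periodization. -/
lemma PerA_supp {j : Fin N} {S' : Set (Phase n)} (hS : Cyl b ((j : ℕ) + 1) S') {c δ : ℝ}
    {g : Phase n → Phase n}
    (hg : ∀ x ∉ cut b j (δ - c) (1 - δ - c) S', g x = x) (x : Phase n) (hx : x ∉ S') :
    perM b j c g x = x := by
  unfold perM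
  rw [hg, sub_add_cancel]
  intro h
  exact hx ((hS.sub_mem_iff (Nat.lt_succ_self _) _).1 h.1)

theorem thm_PerA : St_PerA := by
  intro n N b j T _ S' hS c δ hδ hδ' g hg
  refine ⟨PerA_CF hδ hδ' hg.cf hg.supp, ?_, ?_, ?_⟩
  · intro t x
    obtain ⟨U, hU, hx, h⟩ := PerA_local hδ hδ' hg.supp x
    rcases h with ⟨v, h⟩ | h
    · have h1 : perM b j c (g t) =ᶠ[𝓝 x] fun x => g t (x - v) + v := by
        filter_upwards [hU.mem_nhds hx] with y hy
        exact h t y hy
      have h2 : HasFDerivAt (fun x => g t (x - v) + v) (fderiv ℝ (g t) (x - v)) x := by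
        have h3 : HasFDerivAt (fun x : Phase n => x - v)
            (ContinuousLinearMap.id ℝ (Phase n)) x := (hasFDerivAt_id x).sub_const _
        have h4 := ((hg.cf.differentiable t (x - v)).hasFDerivAt.comp x h3).add_const v
        simpa using h4
      rw [h1.fderiv_eq, h2.fderiv]
      exact hg.adm t _
    · have h1 : perM b j c (g t) =ᶠ[𝓝 x] id := by
        filter_upwards [hU.mem_nhds hx] with y hy
        exact h t y hy
      rw [h1.fderiv_eq, fderiv_id]
      exact admissible_of_symp fun u v => rfl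
  · intro t i hi x
    exact PerA_per (hg.per t) i hi x
  · intro t x hx
    exact PerA_supp hS (hg.supp t) x hx

end Pool.Agent.BHS
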