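import Mathlib
import Pool.Agent.BHS.Stmts
import Pool.Agent.BHS.Basic
import Pool.Agent.TOL.Grid

/-!
# BHS, module PhNull: if the loop detector vanishes, all grids with slow phases are null homotopic
-/

set_option maxSynthPendingDepth 3

open scoped ContDiff Distributions Topology unitInterval
open Set Function TopologicalSpace

namespace Pool.Agent.BHS

open Pool.Agent.Helper17 Pool.Agent.TOR Pool.Agent.TOL

section PhNull

/-! ### The standard phases -/

/-- The standard phase. -/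
private noncomputable def PhNull_s (e c ξ : ℝ) : ℝ := Real.smoothTransition (e * (ξ + c))

private lemma PhNull_contDiff (e c : ℝ) : ContDiff ℝ ∞ (PhNull_s e c) :=
  Real.smoothTransition.contDiff.comp (contDiff_const.mul (contDiff_id.add contDiff_const))

private lemma PhNull_deriv {C : ℝ} (hC : ∀ x, |deriv Real.smoothTransition x| ≤ C) {e : ℝ}
    (he : 0 ≤ e) (c ξ : ℝ) : |deriv (PhNull_s e c) ξ| ≤ C * e := by
  have h1 : HasDerivAt (fun ξ : ℝ => e * (ξ + c)) e ξ := by
    have := ((hasDerivAt_id ξ).add_const c).const_mul e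
    simpa using this
  have h2 : DifferentiableAt ℝ Real.smoothTransition (e * (ξ + c)) :=
    (Real.smoothTransition.contDiff (n := 1)).differentiable (by norm_num) _
  have h3 : HasDerivAt (PhNull_s e c) (deriv Real.smoothTransition (e * (ξ + c)) * e) ξ :=
    HasDerivAt.comp ξ h2.hasDerivAt h1
  rw [h3.deriv, abs_mul, abs_of_nonneg he]
  exact mul_le_mul_of_nonneg_right (hC _) he

private lemma PhNull_zero {e c ξ : ℝ} (he : 0 ≤ e) (h : ξ + c ≤ 0) : PhNull_s e c ξ = 0 :=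
  Real.smoothTransition.zero_of_nonpos (mul_nonpos_of_nonneg_of_nonpos he h)

private lemma PhNull_one {e c ξ : ℝ} (he : 0 < e) (h : e⁻¹ ≤ ξ + c) : PhNull_s e c ξ = 1 := by
  apply Real.smoothTransition.one_of_one_le
  have := mul_le_mul_of_nonneg_left h he.le
  rwa [mul_inv_cancel₀ he.ne'] at this

variable {n N : ℕ} {b : Module.Basis (Fin N) ℝ (Phase n)}

/-! ### General facts -/

private lemma PhNull_left {j : ℕ} {S : Set (Phase n)} {T : Type} [TopologicalSpace T] {T0 : Set T}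
    {F0 F1 : T → Phase n → Phase n} (h : AHS b j S T0 F0 F1) : ALevS b j S F0 := by
  obtain ⟨F, hF, h0, -, -⟩ := h
  have h1 := hF.reparam (g := fun t : T => (t, (0 : I))) (continuous_id.prodMk continuous_const)
  have h2 : (fun (t : T) (x : Phase n) => F (t, 0) x) = F0 := by
    funext t x
    exact h0 t x
  rw [h2] at h1
  exact h1

private lemma PhNull_per {j : ℕ} {S : Set (Phase n)} {T : Type} [TopologicalSpace T]
    {u : T → Equiv.Perm (Phase n)} (hu : LevS b j S u) (i : Fin N) (hi : (i : ℕ) < j) (t : T)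
    (c : ℕ) (x : Phase n) : u t (x + (c : ℝ) • b i) = u t x + (c : ℝ) • b i := by
  induction c with
  | zero => rw [Nat.cast_zero, zero_smul, add_zero, add_zero]
  | succ c ih =>
    rw [Nat.cast_succ, add_smul, one_smul, ← add_assoc, hu.per t i hi, ih, add_assoc]

/-- The conjugate of a family by a translation. -/
private lemma PhNull_conj {j : ℕ} {S S1 : Set (Phase n)} {T : Type} [TopologicalSpace T]
    {F : T → Phase n → Phase n} (hF : ALevS b j S F) (v : Phase n)
    (hS : ∀ x, x + v ∈ S → x ∈ S1) : ALevS b j S1 (fun t x => F t (x + v) - v) := by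
  refine ⟨?_, ?_, ?_, ?_⟩
  · exact (hF.cf.comp ((CF.const contDiff_id).add (CF.const contDiff_const))).sub
      (CF.const contDiff_const)
  · intro t x
    have h1 : HasFDerivAt (fun y : Phase n => y + v) (ContinuousLinearMap.id ℝ (Phase n)) x :=
      (hasFDerivAt_id x).add_const v
    have h2 : HasFDerivAt (F t) (fderiv ℝ (F t) (x + v)) (x + v) :=
      (hF.cf.differentiable t (x + v)).hasFDerivAt
    have h3 : HasFDerivAt (fun y : Phase n => F t (y + v) - v)
        ((fderiv ℝ (F t) (x + v)).comp (ContinuousLinearMap.id ℝ (Phase n))) x :=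
      (HasFDerivAt.comp x h2 h1).sub_const v
    rw [h3.fderiv, ContinuousLinearMap.comp_id]
    exact hF.adm t (x + v)
  · intro t i hi x
    have h1 : x + b i + v = x + v + b i := by abel
    rw [h1, hF.per t i hi]
    abel
  · intro t x hx
    rw [hF.supp t (x + v) fun h => hx (hS x h), add_sub_cancel_right]

variable {j : Fin N} {T : Type} [TopologicalSpace T] {T0 : Set T} {S' : Set (Phase n)}
  {u : T × I → Equiv.Perm (Phase n)}

private lemma PhNull_Gr_zero (M : ℕ) (h1 : ∀ p ∈ relI T0, u p = 1) {φ : ℝ → ℝ} {t : T}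
    {x : Phase n} (h : φ (b.repr x j) ≤ 0) :
    Gr b j M (fun p x => u p x) (fun _ => φ) t x = x := by
  unfold Gr
  rw [grid_zero M _ h]
  change u (t, 0) x = x
  rw [h1 (t, 0) (Or.inr (Or.inl rfl))]
  rfl

private lemma PhNull_Gr_one {M : ℕ} (hM : 0 < M) (h1 : ∀ p ∈ relI T0, u p = 1) {φ : ℝ → ℝ} {t : T}
    {x : Phase n} (h : 1 ≤ φ (b.repr x j)) :
    Gr b j M (fun p x => u p x) (fun _ => φ) t x = x := by
  unfold Gr
  rw [grid_one hM _ h]
  change u (t, 1) x = x
  rw [h1 (t, 1) (Or.inr (Or.inr rfl))]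
  rfl

private lemma PhNull_Gr_rel (M : ℕ) (h1 : ∀ p ∈ relI T0, u p = 1) {φ : ℝ → ℝ} {t : T}
    (ht : t ∈ T0) (x : Phase n) :
    Gr b j M (fun p x => u p x) (fun _ => φ) t x = x := by
  unfold Gr
  refine grid_const M (fun a => ?_) _
  change u (t, a) x = x
  rw [h1 (t, a) (Or.inl ht)]
  rfl

/-- the value of a grid depends only on the value of the phase -/
private lemma PhNull_Gr_congr (M : ℕ) {φ ψ : ℝ → ℝ} {t : T} {x : Phase n}
    (h : φ (b.repr x j) = ψ (b.repr x j)) :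
    Gr b j M (fun p x => u p x) (fun _ => φ) t x = Gr b j M (fun p x => u p x) (fun _ => ψ) t x := by
  change grid M (fun a x => u (t, a) x) (φ (b.repr x j)) x =
    grid M (fun a x => u (t, a) x) (ψ (b.repr x j)) x
  rw [h]

end PhNull

/-- [PhNull] -/
theorem thm_PhNull (hP : St_PhLin) (_hG : St_GrAdm) (hA : St_AHSc) : St_PhNull := by
  intro n N b j T _ _ T0 S' hS' u hu hrel hD
  obtain ⟨M1, hM1, h1⟩ := hP b j T T0 S' hS' u hu hrel
  obtain ⟨M2, h2⟩ := hD
  refine ⟨max M1 M2, lt_of_lt_of_le hM1 (le_max_left _ _), fun M hM => ?_⟩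
  have hM0 : 0 < M := lt_of_lt_of_le hM1 ((le_max_left _ _).trans hM)
  obtain ⟨ε1, hε1, h3, -⟩ := h1 M ((le_max_left _ _).trans hM) M ((le_max_left _ _).trans hM)
  obtain ⟨ε2, hε2, h4⟩ := h2 M ((le_max_right _ _).trans hM)
  obtain ⟨ε0, hε0⟩ : ∃ ε0, ε0 = min ε1 ε2 := ⟨_, rfl⟩
  have hε0p : 0 < ε0 := by rw [hε0]; exact lt_min hε1 hε2
  have hε01 : ε0 ≤ ε1 := by rw [hε0]; exact min_le_left _ _
  have hε02 : ε0 ≤ ε2 := by rw [hε0]; exact min_le_right _ _
  -- the cases without a descent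
  obtain ⟨G, hG⟩ : ∃ G : (ℝ → ℝ) → T → Phase n → Phase n,
    ∀ φ, G φ = Gr b j M (fun p x => u p x) (fun _ => φ) := ⟨_, fun _ => rfl⟩
  have hmono : ∀ {p q p' q' : ℝ} {F0 F1 : T → Phase n → Phase n}, p' ≤ p → q ≤ q' →
      AHS b (j : ℕ) (cut b j p q S') T0 F0 F1 → AHS b (j : ℕ) (cut b j p' q' S') T0 F0 F1 :=
    fun hp hq h => h.mono (cut_mono subset_rfl hp hq)
  have htrans : ∀ {p q : ℝ} {F0 F1 F2 : T → Phase n → Phase n},
      AHS b (j : ℕ) (cut b j p q S') T0 F0 F1 → AHS b (j : ℕ) (cut b j p q S') T0 F1 F2 →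
      AHS b (j : ℕ) (cut b j p q S') T0 F0 F2 :=
    fun {p q F0 F1 F2} ha hb => (hA b (j : ℕ) (cut b j p q S') T T0 F0 F1 F2).2.1 ha hb
  have hlin : ∀ (φ0 φ1 : ℝ → ℝ) (p q : ℝ), ContDiff ℝ ∞ φ0 → ContDiff ℝ ∞ φ1 →
      (∀ ξ, |deriv φ0 ξ| ≤ ε0) → (∀ ξ, |deriv φ1 ξ| ≤ ε0) →
      (∀ ξ, (p ≤ ξ ∧ ξ ≤ q) ∨ (φ0 ξ ≤ 0 ∧ φ1 ξ ≤ 0) ∨ (1 ≤ φ0 ξ ∧ 1 ≤ φ1 ξ)) →
      AHS b (j : ℕ) (cut b j p q S') T0 (G φ0) (G φ1) := by
    intro φ0 φ1 p q hc0 hc1 hd0 hd1 he
    rw [hG, hG]
    exact h3 φ0 φ1 p q hc0 hc1 (fun ξ => (hd0 ξ).trans hε01) (fun ξ => (hd1 ξ).trans hε01) he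
  have hG0 : G (fun _ => 0) = fun _ x => x := by
    funext t x
    rw [hG]
    exact PhNull_Gr_zero M hrel le_rfl
  have hG1 : G (fun _ => 1) = fun _ x => x := by
    funext t x
    rw [hG]
    exact PhNull_Gr_one hM0 hrel le_rfl
  -- the first case
  have case1 : ∀ (φ : ℝ → ℝ) (p q : ℝ), ContDiff ℝ ∞ φ → (∀ ξ, |deriv φ ξ| ≤ ε0) →
      (∀ ξ ≤ p, φ ξ ≤ 0) → (∀ ξ ≥ q, φ ξ ≤ 0) →
      AHS b (j : ℕ) (cut b j p q S') T0 (G φ) (fun _ x => x) := by
    intro φ p q hc hd hp hq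
    rw [← hG0]
    refine hlin φ _ p q hc contDiff_const hd (fun ξ => ?_) (fun ξ => ?_)
    · rw [deriv_const, abs_zero]
      exact hε0p.le
    · rcases le_or_gt ξ p with h | h
      · exact Or.inr (Or.inl ⟨hp ξ h, le_rfl⟩)
      · rcases le_or_gt q ξ with h' | h'
        · exact Or.inr (Or.inl ⟨hq ξ h', le_rfl⟩)
        · exact Or.inl ⟨h.le, h'.le⟩
  -- the second case
  have case2 : ∀ (φ : ℝ → ℝ) (p q : ℝ), ContDiff ℝ ∞ φ → (∀ ξ, |deriv φ ξ| ≤ ε0) →
      (∀ ξ ≤ p, 1 ≤ φ ξ) → (∀ ξ ≥ q, 1 ≤ φ ξ) →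
      AHS b (j : ℕ) (cut b j p q S') T0 (G φ) (fun _ x => x) := by
    intro φ p q hc hd hp hq
    rw [← hG1]
    refine hlin φ _ p q hc contDiff_const hd (fun ξ => ?_) (fun ξ => ?_)
    · rw [deriv_const, abs_zero]
      exact hε0p.le
    · rcases le_or_gt ξ p with h | h
      · exact Or.inr (Or.inr ⟨hp ξ h, le_rfl⟩)
      · rcases le_or_gt q ξ with h' | h'
        · exact Or.inr (Or.inr ⟨hq ξ h', le_rfl⟩)
        · exact Or.inl ⟨h.le, h'.le⟩
  -- the third case
  have case3 : ∀ (φ : ℝ → ℝ) (p q : ℝ), ContDiff ℝ ∞ φ → (∀ ξ, |deriv φ ξ| ≤ ε0) →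
      (∀ ξ ≤ p, φ ξ ≤ 0) → (∀ ξ ≥ q, 1 ≤ φ ξ) → ∃ R : ℝ, 0 ≤ R ∧
      AHS b (j : ℕ) (cut b j (p - R) (q + R) S') T0 (G φ) (fun _ x => x) := by
    intro φ p q hc hd hp hq
    obtain ⟨R1, hR1⟩ := h4 ε0 hε0p hε02
    have hcu : ContDiff ℝ ∞ (upPh ε0) := by
      unfold upPh
      exact contDiff_const.mul (contDiff_id.add contDiff_const)
    have hdu : ∀ ξ, |deriv (upPh ε0) ξ| ≤ ε0 := by
      intro ξ
      have h5 : HasDerivAt (fun ξ => ε0 * (ξ + ε0⁻¹)) ε0 ξ := by
        have := ((hasDerivAt_id ξ).add_const ε0⁻¹).const_mul ε0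
        simpa using this
      change |deriv (fun ξ => ε0 * (ξ + ε0⁻¹)) ξ| ≤ ε0
      rw [h5.deriv, abs_of_pos hε0p]
    have hu0 : ∀ ξ ≤ -ε0⁻¹, upPh ε0 ξ ≤ 0 := by
      intro ξ hξ
      unfold upPh
      exact mul_nonpos_of_nonneg_of_nonpos hε0p.le (by linarith)
    have hu1 : ∀ ξ, 0 ≤ ξ → 1 ≤ upPh ε0 ξ := by
      intro ξ hξ
      unfold upPh
      rw [mul_add, mul_inv_cancel₀ hε0p.ne']
      have := mul_nonneg hε0p.le hξ
      linarith
    have h6 : AHS b (j : ℕ) (cut b j (min p (-ε0⁻¹)) (max q 0) S') T0 (G φ) (G (upPh ε0)) := by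
      refine hlin φ _ _ _ hc hcu hd hdu (fun ξ => ?_)
      rcases le_or_gt (min p (-ε0⁻¹)) ξ with h | h
      · rcases le_or_gt ξ (max q 0) with h' | h'
        · exact Or.inl ⟨h, h'⟩
        · exact Or.inr (Or.inr ⟨hq ξ ((le_max_left _ _).trans h'.le),
            hu1 ξ ((le_max_right _ _).trans h'.le)⟩)
      · exact Or.inr (Or.inl ⟨hp ξ (h.le.trans (min_le_left _ _)),
          hu0 ξ (h.le.trans (min_le_right _ _))⟩)
    have h7 : AHS b (j : ℕ) (cut b j (-R1) R1 S') T0 (G (upPh ε0)) (fun _ x => x) := by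
      rw [hG]
      exact hR1
    refine ⟨max 0 (max (max (p - min p (-ε0⁻¹)) (max q 0 - q)) (max (p + R1) (R1 - q))),
      le_max_left _ _, ?_⟩
    obtain ⟨R, hR⟩ : ∃ R, R = max 0 (max (max (p - min p (-ε0⁻¹)) (max q 0 - q))
      (max (p + R1) (R1 - q))) := ⟨_, rfl⟩
    rw [← hR]
    have r1 : p - min p (-ε0⁻¹) ≤ R := by
      rw [hR]
      exact ((le_max_left _ _).trans (le_max_left _ _)).trans (le_max_right _ _)
    have r2 : max q 0 - q ≤ R := by
      rw [hR]
      exact ((le_max_right _ _).trans (le_max_left _ _)).trans (le_max_right _ _)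
    have r3 : p + R1 ≤ R := by
      rw [hR]
      exact ((le_max_left _ _).trans (le_max_right _ _)).trans (le_max_right _ _)
    have r4 : R1 - q ≤ R := by
      rw [hR]
      exact ((le_max_right _ _).trans (le_max_right _ _)).trans (le_max_right _ _)
    exact htrans (hmono (by linarith) (by linarith) h6) (hmono (by linarith) (by linarith) h7)
  refine ⟨ε0, hε0p, fun φ p q hc hd hpq hl hr => ?_⟩
  rw [← hG]
  rcases hl with hl | hl
  · rcases hr with hr | hr
    · exact ⟨0, le_rfl, hmono (by linarith) (by linarith) (case1 φ p q hc hd hl hr)⟩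
    · exact case3 φ p q hc hd hl hr
  rcases hr with hr | hr
  swap
  · exact ⟨0, le_rfl, hmono (by linarith) (by linarith) (case2 φ p q hc hd hl hr)⟩
  -- the fourth case
  obtain ⟨C, hC0, hC⟩ := gri_deriv_bound
  obtain ⟨e, he⟩ : ∃ e, e = ε0 / (2 * (C + 1)) := ⟨_, rfl⟩
  have hep : 0 < e := by rw [he]; positivity
  have hCe : 2 * (C * e) ≤ ε0 := by
    rw [he]
    have h5 : 2 * (C * (ε0 / (2 * (C + 1)))) = ε0 * (C / (C + 1)) := by
      field_simp
    rw [h5]
    have h6 : C / (C + 1) ≤ 1 := by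
      rw [div_le_one (by linarith)]
      linarith
    nlinarith
  have hCe0 : 0 ≤ C * e := mul_nonneg hC0 hep.le
  obtain ⟨R0, hR0, hH⟩ := case3 (PhNull_s e 0) 0 e⁻¹ (PhNull_contDiff e 0)
    (fun ξ => (PhNull_deriv hC hep.le 0 ξ).trans (by linarith))
    (fun ξ hξ => (PhNull_zero hep.le (by linarith)).le)
    (fun ξ hξ => (PhNull_one hep (by linarith)).ge)
  obtain ⟨c, hc'⟩ := exists_nat_ge (e⁻¹ + R0 + 1)
  -- the decreasing phase
  have hφ1c : ContDiff ℝ ∞ (fun ξ => 1 - PhNull_s e 0 ξ) := contDiff_const.sub (PhNull_contDiff e 0)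
  have hφ1d : ∀ ξ, |deriv (fun ξ => 1 - PhNull_s e 0 ξ) ξ| ≤ ε0 := by
    intro ξ
    rw [deriv_const_sub, abs_neg]
    exact (PhNull_deriv hC hep.le 0 ξ).trans (by linarith)
  have h5 : AHS b (j : ℕ) (cut b j (min p 0) (max q e⁻¹) S') T0 (G φ)
      (G (fun ξ => 1 - PhNull_s e 0 ξ)) := by
    refine hlin φ _ _ _ hc hφ1c hd hφ1d (fun ξ => ?_)
    rcases le_or_gt (min p 0) ξ with h | h
    · rcases le_or_gt ξ (max q e⁻¹) with h' | h'
      · exact Or.inl ⟨h, h'⟩
      · refine Or.inr (Or.inl ⟨hr ξ ((le_max_left _ _).trans h'.le), ?_⟩)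
        rw [PhNull_one hep (by linarith [(le_max_right q e⁻¹).trans h'.le]), sub_self]
    · refine Or.inr (Or.inr ⟨hl ξ (h.le.trans (min_le_left _ _)), ?_⟩)
      rw [PhNull_zero hep.le (by linarith [h.le.trans (min_le_right p 0)]), sub_zero]
  -- the last phase
  have hχc : ContDiff ℝ ∞ (fun ξ => PhNull_s e c ξ - PhNull_s e 0 ξ) :=
    (PhNull_contDiff e c).sub (PhNull_contDiff e 0)
  have hχd : ∀ ξ, |deriv (fun ξ => PhNull_s e c ξ - PhNull_s e 0 ξ) ξ| ≤ ε0 := by
    intro ξ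
    have h6 : deriv (fun ξ => PhNull_s e c ξ - PhNull_s e 0 ξ) ξ =
        deriv (PhNull_s e c) ξ - deriv (PhNull_s e 0) ξ :=
      deriv_fun_sub ((PhNull_contDiff e c).differentiable (by norm_num) ξ)
        ((PhNull_contDiff e 0).differentiable (by norm_num) ξ)
    rw [h6]
    have h7 := PhNull_deriv hC hep.le c ξ
    have h8 := PhNull_deriv hC hep.le 0 ξ
    have h9 := abs_sub (deriv (PhNull_s e c) ξ) (deriv (PhNull_s e 0) ξ)
    linarith
  have hcp : (0 : ℝ) ≤ c := Nat.cast_nonneg c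
  have heinv : 0 < e⁻¹ := inv_pos.2 hep
  have h6 : AHS b (j : ℕ) (cut b j (-(c : ℝ)) e⁻¹ S') T0
      (G (fun ξ => PhNull_s e c ξ - PhNull_s e 0 ξ)) (fun _ x => x) := by
    refine case1 _ _ _ hχc hχd (fun ξ hξ => ?_) (fun ξ hξ => ?_)
    · rw [PhNull_zero hep.le (by linarith), PhNull_zero hep.le (by linarith), sub_self]
    · rw [PhNull_one hep (by linarith), PhNull_one hep (by linarith), sub_self]
  -- the null homotopy on the left
  obtain ⟨H0, hH0, hH00, hH01, hH0r⟩ := hH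
  obtain ⟨v, hv⟩ : ∃ v : Phase n, v = (c : ℝ) • b j := ⟨_, rfl⟩
  have hrv : ∀ x, b.repr (x + v) j = b.repr x j + c := by
    intro x
    rw [hv, repr_add_smul_self]
  have hH1 : ALevS b (j : ℕ) (cut b j (-R0 - c) (-1) S') (fun p x => H0 p (x + v) - v) := by
    refine PhNull_conj hH0 v fun x hx => ?_
    obtain ⟨hx1, hx2, hx3⟩ := hx
    rw [hrv] at hx2 hx3
    refine ⟨?_, by linarith, by linarith⟩
    rw [hv] at hx1
    exact (hS'.add_mem_iff (Nat.lt_succ_self _) _).1 hx1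
  obtain ⟨H, hHdef⟩ : ∃ H : T × I → Phase n → Phase n, H = fun p x => H0 p (x + v) - v := ⟨_, rfl⟩
  rw [← hHdef] at hH1
  have hH10 : ∀ t x, H (t, 0) x = G (PhNull_s e c) t x := by
    intro t x
    rw [hHdef]
    change H0 (t, 0) (x + v) - v = _
    rw [hH00, hG, hG]
    change grid M (fun a x => u (t, a) x) (PhNull_s e 0 (b.repr (x + v) j)) (x + v) - v =
      grid M (fun a x => u (t, a) x) (PhNull_s e c (b.repr x j)) x
    rw [hrv]
    have h7 : PhNull_s e 0 (b.repr x j + c) = PhNull_s e c (b.repr x j) := by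
      unfold PhNull_s
      rw [add_zero]
    rw [h7, grid_per M (fun a => ?_), add_sub_cancel_right]
    rw [hv]
    exact PhNull_per hu j (Nat.lt_succ_self _) (t, a) c x
  have hH11 : ∀ t x, H (t, 1) x = x := by
    intro t x
    rw [hHdef]
    change H0 (t, 1) (x + v) - v = _
    rw [hH01, add_sub_cancel_right]
  have hH1r : ∀ t ∈ T0, ∀ s x, H (t, s) x = x := by
    intro t ht s x
    rw [hHdef]
    change H0 (t, s) (x + v) - v = _
    rw [hH0r t ht, add_sub_cancel_right]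
  have hHid : ∀ p x, -1 < b.repr x j → H p x = x := by
    intro p x hx
    refine hH1.supp p x fun h => ?_
    have := h.2.2
    linarith
  -- the grid on the right
  obtain ⟨A, hA1⟩ : ∃ A, A = G (fun ξ => 1 - PhNull_s e 0 ξ) := ⟨_, rfl⟩
  have hAlev : ALevS b (j : ℕ) (cut b j 0 e⁻¹ S') A := by
    have h7 : AHS b (j : ℕ) (cut b j 0 e⁻¹ S') T0 (G (fun ξ => 1 - PhNull_s e 0 ξ))
        (G (fun ξ => 1 - PhNull_s e 0 ξ)) := by
      refine hlin _ _ _ _ hφ1c hφ1c hφ1d hφ1d (fun ξ => ?_)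
      rcases le_or_gt 0 ξ with h | h
      · rcases le_or_gt ξ e⁻¹ with h' | h'
        · exact Or.inl ⟨h, h'⟩
        · have h8 : 1 - PhNull_s e 0 ξ ≤ 0 := by
            rw [PhNull_one hep (by linarith), sub_self]
          exact Or.inr (Or.inl ⟨h8, h8⟩)
      · have h8 : 1 ≤ 1 - PhNull_s e 0 ξ := by
          rw [PhNull_zero hep.le (by linarith), sub_zero]
        exact Or.inr (Or.inr ⟨h8, h8⟩)
    rw [hA1]
    exact PhNull_left h7
  have hAid : ∀ t x, b.repr x j ≤ 0 → A t x = x := by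
    intro t x hx
    rw [hA1, hG]
    refine PhNull_Gr_one hM0 hrel ?_
    rw [PhNull_zero hep.le (by linarith), sub_zero]
  have hArel : ∀ t ∈ T0, ∀ x, A t x = x := by
    intro t ht x
    rw [hA1, hG]
    exact PhNull_Gr_rel M hrel ht x
  have hsum0 : ∀ t x, G (PhNull_s e c) t x + A t x - x =
      G (fun ξ => PhNull_s e c ξ - PhNull_s e 0 ξ) t x := by
    intro t x
    rcases le_or_gt (b.repr x j) 0 with h | h
    · rw [hAid t x h, add_sub_cancel_right, hG, hG]
      refine PhNull_Gr_congr M ?_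
      rw [PhNull_zero (c := 0) hep.le (by linarith), sub_zero]
    · have h7 : G (PhNull_s e c) t x = x := by
        rw [hG]
        refine PhNull_Gr_one hM0 hrel ?_
        rw [PhNull_one hep (by linarith)]
      rw [h7, hA1, add_sub_cancel_left, hG, hG]
      refine PhNull_Gr_congr M ?_
      rw [PhNull_one (c := (c : ℝ)) hep (by linarith)]
  -- the sum
  have h7 : AHS b (j : ℕ) (cut b j (-R0 - c) e⁻¹ S') T0 (G (fun ξ => 1 - PhNull_s e 0 ξ))
      (G (fun ξ => PhNull_s e c ξ - PhNull_s e 0 ξ)) := by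
    have hcσ : Continuous (fun p : T × I => (p.1, unitInterval.symm p.2)) :=
      continuous_fst.prodMk (unitInterval.continuous_symm.comp continuous_snd)
    refine ⟨fun p x => H (p.1, unitInterval.symm p.2) x + A p.1 x - x, ⟨?_, ?_, ?_, ?_⟩,
      ?_, ?_, ?_⟩
    · exact ((hH1.cf.base hcσ).add (hAlev.cf.base continuous_fst)).sub (CF.const contDiff_id)
    · intro p x
      rcases lt_or_ge (b.repr x j) 0 with h | h
      · have h8 : (fun x => H (p.1, unitInterval.symm p.2) x + A p.1 x - x) =ᶠ[𝓝 x]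
            H (p.1, unitInterval.symm p.2) := by
          have h9 : {y : Phase n | b.repr y j < 0} ∈ 𝓝 x :=
            (isOpen_lt (continuous_repr b j) continuous_const).mem_nhds h
          filter_upwards [h9] with y hy
          rw [hAid p.1 y (le_of_lt hy), add_sub_cancel_right]
        rw [h8.fderiv_eq]
        exact hH1.adm _ x
      · have h8 : (fun x => H (p.1, unitInterval.symm p.2) x + A p.1 x - x) =ᶠ[𝓝 x] A p.1 := by
          have h9 : {y : Phase n | -1 < b.repr y j} ∈ 𝓝 x :=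
            (isOpen_lt continuous_const (continuous_repr b j)).mem_nhds
              (show (-1 : ℝ) < b.repr x j by linarith)
          filter_upwards [h9] with y hy
          rw [hHid _ y hy, add_sub_cancel_left]
        rw [h8.fderiv_eq]
        exact hAlev.adm _ x
    · intro p i hi x
      rw [hH1.per _ i hi, hAlev.per _ i hi]
      abel
    · intro p x hx
      rw [hH1.supp _ x fun h => hx (cut_mono subset_rfl le_rfl (by linarith) h),
        hAlev.supp _ x fun h => hx (cut_mono subset_rfl (by linarith) le_rfl h),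
        add_sub_cancel_right]
    · intro t x
      change H (t, unitInterval.symm 0) x + A t x - x = _
      rw [unitInterval.symm_zero, hH11, add_sub_cancel_left, hA1]
    · intro t x
      change H (t, unitInterval.symm 1) x + A t x - x = _
      rw [unitInterval.symm_one, hH10, hsum0]
    · intro t ht s x
      change H (t, unitInterval.symm s) x + A t x - x = x
      rw [hH1r t ht, hArel t ht, add_sub_cancel_right]
  -- assembly
  obtain ⟨R, hR⟩ : ∃ R, R = max 0 (max (max (p - min p 0) (max q e⁻¹ - q))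
    (max (p + R0 + c) (e⁻¹ - q))) := ⟨_, rfl⟩
  have r0 : 0 ≤ R := by
    rw [hR]
    exact le_max_left _ _
  have r1 : p - min p 0 ≤ R := by
    rw [hR]
    exact ((le_max_left _ _).trans (le_max_left _ _)).trans (le_max_right _ _)
  have r2 : max q e⁻¹ - q ≤ R := by
    rw [hR]
    exact ((le_max_right _ _).trans (le_max_left _ _)).trans (le_max_right _ _)
  have r3 : p + R0 + c ≤ R := by
    rw [hR]
    exact ((le_max_left _ _).trans (le_max_right _ _)).trans (le_max_right _ _)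
  have r4 : e⁻¹ - q ≤ R := by
    rw [hR]
    exact ((le_max_right _ _).trans (le_max_right _ _)).trans (le_max_right _ _)
  refine ⟨R, r0, ?_⟩
  exact htrans (hmono (by linarith) (by linarith) h5)
    (htrans (hmono (by linarith) (by linarith) h7) (hmono (by linarith) (by linarith) h6))

end Pool.Agent.BHS
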