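import Mathlib
import Pool.Agent.BHS.Stmts
import Pool.Agent.BHS.Basic

/-!
# BHS, module S1: from S1L to the periodization of one symplectic family
-/

set_option maxSynthPendingDepth 3

open scoped ContDiff Distributions Topology unitInterval
open Set Function TopologicalSpace

namespace Pool.Agent.BHS

open Pool.Agent.Helper17 Pool.Agent.TOR Pool.Agent.TOL

section S1

variable {n N : ℕ} {b : Module.Basis (Fin N) ℝ (Phase n)}

lemma S1_scal_self (j : Fin N) (l : ℕ+) : scal b (one1 j l) j = ((l : ℕ) : ℝ) • b j := by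
  rw [scal_apply, one1_self]

lemma S1_scal_ne {i j : Fin N} (h : i ≠ j) (l : ℕ+) : scal b (one1 j l) i = b i := by
  rw [scal_apply, one1_ne h, PNat.one_coe, Nat.cast_one, one_smul]

lemma S1_repr_self (j : Fin N) (l : ℕ+) (x : Phase n) :
    (scal b (one1 j l)).repr x j = b.repr x j / ((l : ℕ) : ℝ) := by
  rw [scal_repr, one1_self]

lemma S1_pos (l : ℕ+) : (0 : ℝ) < ((l : ℕ) : ℝ) := Nat.cast_pos.2 l.pos

lemma S1_levS {j : Fin N} {l : ℕ+} {S : Set (Phase n)} {T : Type} [TopologicalSpace T]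
    {F : T → Equiv.Perm (Phase n)} (h : LevS b (j : ℕ) S F) :
    LevS (scal b (one1 j l)) (j : ℕ) S F := by
  refine ⟨h.cf, h.cf', h.symp, fun t i hi x => ?_, h.supp⟩
  have hne : i ≠ j := by
    rintro rfl
    exact lt_irrefl _ hi
  rw [S1_scal_ne hne]
  exact h.per t i hi x

lemma S1_alevS {j : Fin N} {l : ℕ+} {S : Set (Phase n)} {T : Type} [TopologicalSpace T]
    {F : T → Phase n → Phase n} (h : ALevS b (j : ℕ) S F) :
    ALevS (scal b (one1 j l)) (j : ℕ) S F := by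
  refine ⟨h.cf, h.adm, fun t i hi x => ?_, h.supp⟩
  have hne : i ≠ j := by
    rintro rfl
    exact lt_irrefl _ hi
  rw [S1_scal_ne hne]
  exact h.per t i hi x

lemma S1_cut {j : Fin N} {l : ℕ+} {p q p' q' : ℝ} {S : Set (Phase n)}
    (hp : p' * ((l : ℕ) : ℝ) ≤ p) (hq : q ≤ q' * ((l : ℕ) : ℝ)) :
    cut b j p q S ⊆ cut (scal b (one1 j l)) j p' q' S := by
  intro x hx
  refine ⟨hx.1, ?_, ?_⟩
  · rw [S1_repr_self, le_div_iff₀ (S1_pos l)]
    exact hp.trans hx.2.1
  · rw [S1_repr_self, div_le_iff₀ (S1_pos l)]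
    exact hx.2.2.trans hq

lemma S1_cyl {j : Fin N} {l : ℕ+} {m : ℕ} {S : Set (Phase n)} (h : Cyl b m S) :
    Cyl (scal b (one1 j l)) m S := by
  obtain ⟨R, hR⟩ := h.bdd
  refine ⟨h.closed, fun i hi s x hx => ?_, R, fun x hx i hi => ?_⟩
  · rw [scal_apply, smul_smul]
    exact h.inv i hi _ x hx
  · rw [scal_repr, abs_div, Nat.abs_cast]
    refine le_trans (div_le_self (abs_nonneg _) ?_) (hR hx i hi)
    exact_mod_cast (one1 j l i).pos

lemma S1_nat {f : Phase n → Phase n} {v : Phase n} (h : ∀ x, f (x + v) = f x + v) (m : ℕ)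
    (x : Phase n) : f (x + (m : ℝ) • v) = f x + (m : ℝ) • v := by
  induction m generalizing x with
  | zero => rw [Nat.cast_zero, zero_smul, add_zero, add_zero]
  | succ m ih =>
    have e : (((m + 1 : ℕ) : ℝ)) • v = v + (m : ℝ) • v := by
      rw [Nat.cast_succ, add_smul, one_smul, add_comm]
    rw [e, ← add_assoc, ih, h, add_assoc]

lemma S1_levS_scal {j : Fin N} {l : ℕ+} {m : ℕ} {S : Set (Phase n)} {T : Type}
    [TopologicalSpace T] {F : T → Equiv.Perm (Phase n)} (h : LevS b m S F) :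
    LevS (scal b (one1 j l)) m S F := by
  refine ⟨h.cf, h.cf', h.symp, fun t i hi x => ?_, h.supp⟩
  rw [scal_apply]
  exact S1_nat (h.per t i hi) _ x

/-! ### periodizations -/

lemma S1_perM_id (j : Fin N) (c : ℝ) {g : Phase n → Phase n} (hg : ∀ x, g x = x) (x : Phase n) :
    perM b j c g x = x := by
  unfold perM
  rw [hg, sub_add_cancel]

/-- periodization is multiplicative -/
lemma S1_perM_mul {j : Fin N} {g h : Phase n → Phase n} {δ : ℝ} (hδ : 0 < δ)
    (hh : ∀ x, h x = x ∨ (δ ≤ b.repr (h x) j ∧ b.repr (h x) j ≤ 1 - δ)) (x : Phase n) :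
    perM b j 0 g (perM b j 0 h x) = perM b j 0 (fun y => g (h y)) x := by
  unfold perM
  set m : ℤ := ⌊b.repr x j + 0⌋ with hm
  set y : Phase n := x - (m : ℝ) • b j with hy
  have hf : ⌊b.repr (h y + (m : ℝ) • b j) j + 0⌋ = m := by
    rcases hh y with h1 | h1
    · rw [h1, hy, sub_add_cancel]
    · rw [repr_add_smul_self, add_zero, Int.floor_eq_iff]
      constructor <;> linarith [h1.1, h1.2]
  rw [hf, add_sub_cancel_right]

/-- change of the offset -/
lemma S1_perM_cj {j : Fin N} {z : Phase n → Phase n} {r κ : ℝ} (_hr : r < 1 / 2) (h0 : 0 < κ - r)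
    (h1 : κ + r < 1) (hz : ∀ x, r < |b.repr x j| → z x = x) (x : Phase n) :
    perM b j 0 (fun y => z (y - κ • b j) + κ • b j) x =
      perM b j (1 / 2) z (x - κ • b j) + κ • b j := by
  unfold perM
  set m1 : ℤ := ⌊b.repr x j + 0⌋ with hm1
  set m2 : ℤ := ⌊b.repr (x - κ • b j) j + 1 / 2⌋ with hm2
  rw [repr_sub_smul_self] at hm2
  rw [add_zero] at hm1
  have e1 : x - (m1 : ℝ) • b j - κ • b j = x - κ • b j - (m1 : ℝ) • b j := by abel
  change z (x - (m1 : ℝ) • b j - κ • b j) + κ • b j + (m1 : ℝ) • b j = _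
  by_cases hm : m1 = m2
  · rw [← hm, e1]
    abel
  · have a1 : z (x - (m1 : ℝ) • b j - κ • b j) = x - (m1 : ℝ) • b j - κ • b j := by
      apply hz
      by_contra hcon
      push Not at hcon
      rw [repr_sub_smul_self, repr_sub_smul_self, abs_le] at hcon
      apply hm
      rw [hm2]
      symm
      rw [Int.floor_eq_iff]
      constructor <;> linarith [hcon.1, hcon.2]
    have a2 : z (x - κ • b j - (m2 : ℝ) • b j) = x - κ • b j - (m2 : ℝ) • b j := by
      apply hz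
      by_contra hcon
      push Not at hcon
      rw [repr_sub_smul_self, repr_sub_smul_self, abs_le] at hcon
      apply hm
      rw [hm1, Int.floor_eq_iff]
      constructor <;> linarith [hcon.1, hcon.2]
    rw [a1, a2]
    abel

/-! ### homotopies -/

lemma S1_mem_tau {T : Type} {T0 : Set T} {p : T × I} (hp : p ∈ relI T0) :
    ((p.1, tau p.2) : T × I) ∈ relI T0 ∧ ((p.1, tau' p.2) : T × I) ∈ relI T0 := by
  rcases hp with hp | hp | hp
  · exact ⟨Or.inl hp, Or.inl hp⟩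
  · refine ⟨Or.inr (Or.inl ?_), Or.inr (Or.inl ?_)⟩
    · change tau p.2 = 0
      rw [hp, tau_zero]
    · change tau' p.2 = 0
      rw [hp, tau'_zero]
  · refine ⟨Or.inr (Or.inr ?_), Or.inr (Or.inr ?_)⟩
    · change tau p.2 = 1
      rw [hp, tau_one]
    · change tau' p.2 = 1
      rw [hp, tau'_one]

lemma S1_glue {m : ℕ} {S : Set (Phase n)} {T : Type} [TopologicalSpace T] {T0 : Set T}
    {y1 y2 z1 z2 : T × I → Phase n → Phase n} (h1 : AHS b m S (relI T0) y1 z1)
    (h2 : AHS b m S (relI T0) y2 z2) :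
    AHS b m S (relI T0) (fun p x => y1 (p.1, tau p.2) x + y2 (p.1, tau' p.2) x - x)
      (fun p x => z1 (p.1, tau p.2) x + z2 (p.1, tau' p.2) x - x) := by
  obtain ⟨F1, hF1, F10, F11, F1r⟩ := h1
  obtain ⟨F2, hF2, F20, F21, F2r⟩ := h2
  have c1 : Continuous (fun q : (T × I) × I => (((q.1.1, tau q.1.2), q.2) : (T × I) × I)) :=
    ((continuous_fst.comp continuous_fst).prodMk
      (continuous_tau.comp (continuous_snd.comp continuous_fst))).prodMk continuous_snd
  have c2 : Continuous (fun q : (T × I) × I => (((q.1.1, tau' q.1.2), q.2) : (T × I) × I)) :=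
    ((continuous_fst.comp continuous_fst).prodMk
      (continuous_tau'.comp (continuous_snd.comp continuous_fst))).prodMk continuous_snd
  refine ⟨fun q x => F1 ((q.1.1, tau q.1.2), q.2) x + F2 ((q.1.1, tau' q.1.2), q.2) x - x,
    ⟨((hF1.cf.base c1).add (hF2.cf.base c2)).sub (CF.const contDiff_id), ?_, ?_, ?_⟩, ?_, ?_, ?_⟩
  · intro q x
    rcases tau_cases q.1.2 with h | h
    · have e : (fun x => F1 ((q.1.1, tau q.1.2), q.2) x + F2 ((q.1.1, tau' q.1.2), q.2) x - x) =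
          F1 ((q.1.1, tau q.1.2), q.2) := by
        funext x
        rw [F2r _ (Or.inr (Or.inl h)), add_sub_cancel_right]
      rw [e]
      exact hF1.adm _ x
    · have e : (fun x => F1 ((q.1.1, tau q.1.2), q.2) x + F2 ((q.1.1, tau' q.1.2), q.2) x - x) =
          F2 ((q.1.1, tau' q.1.2), q.2) := by
        funext x
        rw [F1r _ (Or.inr (Or.inr h)), add_sub_cancel_left]
      rw [e]
      exact hF2.adm _ x
  · intro q i hi x
    rw [hF1.per _ i hi, hF2.per _ i hi]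
    abel
  · intro q x hx
    rw [hF1.supp _ x hx, hF2.supp _ x hx, add_sub_cancel_right]
  · intro p x
    beta_reduce
    rw [F10, F20]
  · intro p x
    beta_reduce
    rw [F11, F21]
  · intro p hp s x
    beta_reduce
    rw [F1r _ (S1_mem_tau hp).1, F2r _ (S1_mem_tau hp).2, add_sub_cancel_right]

lemma S1_per (hR : St_PerA) {j : Fin N} {l : ℕ+} {T : Type} [TopologicalSpace T] {T0 : Set T}
    {S S' : Set (Phase n)} (hS' : Cyl b ((j : ℕ) + 1) S') {c δ : ℝ} (h0 : 0 < δ) (h1 : δ ≤ 1 / 2)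
    (hS : S ⊆ cut (scal b (one1 j l)) j (δ - c) (1 - δ - c) S') {y z : T → Phase n → Phase n}
    (h : AHS b (j : ℕ) S T0 y z) :
    AHS (scal b (one1 j l)) ((j : ℕ) + 1) S' T0 (fun t => perM (scal b (one1 j l)) j c (y t))
      (fun t => perM (scal b (one1 j l)) j c (z t)) := by
  obtain ⟨F, hF, F0, F1, Fr⟩ := h
  refine ⟨fun p => perM (scal b (one1 j l)) j c (F p),
    hR _ j _ S' (S1_cyl hS') c δ h0 h1 F ((S1_alevS hF).mono hS), ?_, ?_, ?_⟩
  · intro t x
    unfold perM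
    beta_reduce
    rw [F0]
  · intro t x
    unfold perM
    beta_reduce
    rw [F1]
  · intro t ht s x
    exact S1_perM_id j c (Fr t ht s) x

end S1

/-- **S1**: if the loop detector vanishes on `u`, then in a large cover `u` is homotopic to the
periodization of a family of loops. -/
theorem thm_S1 (h1 : St_S1L) (hS : St_SymplS) (hP : St_PerS) (hR : St_PerA) (hE : St_EH)
    (hL : St_LHSc) (hA : St_AHSc) : St_S1 := by
  intro n N b j T _ _ T0 S' hS' u hu hu0 hD
  obtain ⟨R, l0, hR0, hl⟩ := h1 b j T T0 S' hS' u hu hu0 hD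
  refine ⟨max l0 ⌈2 * R + 3⌉₊, fun l hl1 => ?_⟩
  obtain ⟨-, y1, y2, hy1, hy2, hy0, hyA⟩ := hl l ((le_max_left _ _).trans hl1)
  have hlR : 2 * R + 3 ≤ ((l : ℕ) : ℝ) :=
    (Nat.le_ceil _).trans (Nat.cast_le.2 ((le_max_right _ _).trans hl1))
  have hlpos : (0 : ℝ) < ((l : ℕ) : ℝ) := S1_pos l
  -- symplectic replacements
  obtain ⟨z1, hz1, hz10, hz1A⟩ := (hS b (j : ℕ) (T × I) (relI T0) _ (hS'.cut 1 (((l : ℕ) : ℝ) - 1))
    j.2.le).1 y1 hy1 (fun p hp x => (hy0 p hp x).1)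
  obtain ⟨z2, hz2, hz20, hz2A⟩ := (hS b (j : ℕ) (T × I) (relI T0) _ (hS'.cut (-R) R)
    j.2.le).1 y2 hy2 (fun p hp x => (hy0 p hp x).2)
  set B := scal b (one1 j l) with hB
  set δ : ℝ := 1 / ((l : ℕ) : ℝ) with hδ
  have hδ0 : 0 < δ := by positivity
  have hδ1 : δ ≤ 1 / 2 := by
    rw [hδ]
    apply one_div_le_one_div_of_le (by norm_num)
    linarith
  have hδl : δ * ((l : ℕ) : ℝ) = 1 := by
    rw [hδ]
    field_simp
  have hS1 : cut b j 1 (((l : ℕ) : ℝ) - 1) S' ⊆ cut B j (δ - 0) (1 - δ - 0) S' := by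
    apply S1_cut
    · rw [sub_zero, hδl]
    · rw [sub_zero, sub_mul, hδl, one_mul]
  have hS2 : cut b j (-R) R S' ⊆ cut B j (δ - 1 / 2) (1 - δ - 1 / 2) S' := by
    apply S1_cut
    · rw [sub_mul, hδl]
      linarith
    · have : (1 - δ - 1 / 2) * ((l : ℕ) : ℝ) = ((l : ℕ) : ℝ) / 2 - δ * ((l : ℕ) : ℝ) := by ring
      rw [this, hδl]
      linarith
  -- the shift
  obtain ⟨k, hk1, hk2⟩ : ∃ k : ℤ, R + 1 ≤ (k : ℝ) ∧ (k : ℝ) ≤ ((l : ℕ) : ℝ) - R - 1 := by
    refine ⟨⌈R + 1⌉, Int.le_ceil _, ?_⟩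
    have := Int.ceil_lt_add_one (R + 1)
    linarith
  set κ : ℝ := (k : ℝ) / ((l : ℕ) : ℝ) with hκ
  have hκB : κ • B j = (k : ℝ) • b j := by
    rw [hB, S1_scal_self, smul_smul, hκ]
    congr 1
    field_simp
  set w2 : T × I → Equiv.Perm (Phase n) := fun p => cj (κ • B j) (z2 p) with hw2
  have hw2L : LevS b (j : ℕ) (cut b j 1 (((l : ℕ) : ℝ) - 1) S') w2 := by
    refine hz2.cj (v := fun _ => κ • B j) continuous_const ?_
    intro _ x hx
    rw [hκB]
    refine ⟨hS'.inv j (Nat.lt_succ_self _) _ x hx.1, ?_⟩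
    change 1 ≤ b.repr (x + (k : ℝ) • b j) j ∧ b.repr (x + (k : ℝ) • b j) j ≤ ((l : ℕ) : ℝ) - 1
    rw [repr_add_smul_self]
    have := hx.2
    constructor <;> linarith [this.1, this.2]
  have hw20 : ∀ p ∈ relI T0, w2 p = 1 := by
    intro p hp
    rw [hw2]
    change cj (κ • B j) (z2 p) = 1
    rw [hz20 p hp, cj_one]
  -- periodizations
  have hSB : Cyl B ((j : ℕ) + 1) S' := S1_cyl hS'
  obtain ⟨P1, hP1, hP1e⟩ := hP B j (T × I) S' hSB 0 δ hδ0 hδ1 z1 ((S1_levS hz1).mono hS1)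
  obtain ⟨P2, hP2, hP2e⟩ := hP B j (T × I) S' hSB (1 / 2) δ hδ0 hδ1 z2 ((S1_levS hz2).mono hS2)
  obtain ⟨P3, hP3, hP3e⟩ := hP B j (T × I) S' hSB 0 δ hδ0 hδ1 w2 ((S1_levS hw2L).mono hS1)
  have hP10 : ∀ p ∈ relI T0, P1 p = 1 := by
    intro p hp
    ext1 x
    rw [hP1e, S1_perM_id j 0 (fun x => by rw [hz10 p hp]; rfl)]
    rfl
  have hP20 : ∀ p ∈ relI T0, P2 p = 1 := by
    intro p hp
    ext1 x
    rw [hP2e, S1_perM_id j _ (fun x => by rw [hz20 p hp]; rfl)]
    rfl
  have hP3c : ∀ p, P3 p = cj (κ • B j) (P2 p) := by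
    intro p
    ext1 x
    rw [hP3e, cj_apply, hP2e]
    have e : (w2 p : Phase n → Phase n) = fun y => z2 p (y - κ • B j) + κ • B j := by
      funext y
      exact cj_apply _ _ _
    rw [e]
    refine S1_perM_cj (r := R / ((l : ℕ) : ℝ)) ?_ ?_ ?_ ?_ x
    · rw [div_lt_div_iff₀ hlpos (by norm_num)]
      linarith
    · rw [hκ, ← sub_div]
      apply div_pos _ hlpos
      linarith
    · rw [hκ, ← add_div, div_lt_one hlpos]
      linarith
    · intro y hy
      apply hz2.supp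
      intro hy'
      rw [hB, S1_repr_self, abs_div, Nat.abs_cast, div_lt_div_iff_of_pos_right hlpos] at hy
      have := hy'.2
      have h3 : |b.repr y j| ≤ R := abs_le.2 this
      linarith
  have hk1' := hk1
  -- the homotopies
  have A1 : AHS B ((j : ℕ) + 1) S' (relI T0) (fun p => perM B j 0 (y1 p))
      (fun p => perM B j 0 (z1 p)) := S1_per hR hS' hδ0 hδ1 hS1 hz1A
  have A2 : AHS B ((j : ℕ) + 1) S' (relI T0) (fun p => perM B j (1 / 2) (y2 p))
      (fun p => perM B j (1 / 2) (z2 p)) := S1_per hR hS' hδ0 hδ1 hS2 hz2A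
  have A3 := S1_glue A1 A2
  have A4 : AHS B ((j : ℕ) + 1) S' (relI T0) (fun p x => u p x)
      (fun p x => (P1 (p.1, tau p.2) * P2 (p.1, tau' p.2)) x) := by
    have A5 := ((hA B ((j : ℕ) + 1) S' (T × I) (relI T0) _ _ _).2.1 hyA A3)
    have e : (fun (p : T × I) x => perM B j 0 (z1 (p.1, tau p.2)) x +
        perM B j (1 / 2) (z2 (p.1, tau' p.2)) x - x) =
        (fun (p : T × I) x => (P1 (p.1, tau p.2) * P2 (p.1, tau' p.2)) x) := by
      funext p x
      rw [Equiv.Perm.mul_apply]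
      rcases tau_cases p.2 with h | h
      · have e2 : ∀ x, z2 (p.1, tau' p.2) x = x := by
          intro x
          rw [hz20 _ (Or.inr (Or.inl h))]
          rfl
        rw [S1_perM_id j _ e2, hP20 _ (Or.inr (Or.inl h)), add_sub_cancel_right, Equiv.Perm.one_apply,
          hP1e]
      · have e2 : ∀ x, z1 (p.1, tau p.2) x = x := by
          intro x
          rw [hz10 _ (Or.inr (Or.inr h))]
          rfl
        rw [S1_perM_id j _ e2, hP10 _ (Or.inr (Or.inr h)), add_sub_cancel_left, Equiv.Perm.one_apply,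
          hP2e]
    rw [e] at A5
    exact A5
  have ct : Continuous (fun p : T × I => ((p.1, tau p.2) : T × I)) :=
    continuous_fst.prodMk (continuous_tau.comp continuous_snd)
  have ct' : Continuous (fun p : T × I => ((p.1, tau' p.2) : T × I)) :=
    continuous_fst.prodMk (continuous_tau'.comp continuous_snd)
  have L1 : LHS B ((j : ℕ) + 1) S' (relI T0) u
      (fun p => P1 (p.1, tau p.2) * P2 (p.1, tau' p.2)) :=
    (hS B ((j : ℕ) + 1) (T × I) (relI T0) S' hSB j.2).2 _ _ (S1_levS_scal hu)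
      ((hP1.reparam ct).mul (hP2.reparam ct')) A4
  have L2 : LHS B ((j : ℕ) + 1) S' (relI T0) (fun p => P1 p * P2 p)
      (fun p => P1 (p.1, tau p.2) * P2 (p.1, tau' p.2)) :=
    (hE B ((j : ℕ) + 1) S' T T0).1 P1 P2 hP1 hP2 hP10 hP20
  have L3 : LHS B ((j : ℕ) + 1) S' (relI T0) P2 P3 := by
    refine ⟨fun q => cj (((q.2 : ℝ) * κ) • B j) (P2 q.1), ?_, ?_, ?_, ?_⟩
    · refine (hP2.reparam continuous_fst).cj (v := fun q : (T × I) × I => ((q.2 : ℝ) * κ) • B j) ?_ ?_
      · exact ((continuous_subtype_val.comp continuous_snd).mul continuous_const).smul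
          continuous_const
      · intro q x hx
        exact hSB.inv j (Nat.lt_succ_self _) _ x hx
    · intro p
      change cj ((((0 : I) : ℝ) * κ) • B j) (P2 p) = _
      rw [Icc.coe_zero, zero_mul, zero_smul, cj_zero]
    · intro p
      change cj ((((1 : I) : ℝ) * κ) • B j) (P2 p) = _
      rw [Icc.coe_one, one_mul, hP3c]
    · intro p hp s
      change cj (((s : ℝ) * κ) • B j) (P2 p) = 1
      rw [hP20 p hp, cj_one]
  have L4 : LHS B ((j : ℕ) + 1) S' (relI T0) (fun p => P1 p * P2 p) (fun p => P1 p * P3 p) :=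
    (LHS.refl hP1 hP10).mul L3
  have L5 : LHS B ((j : ℕ) + 1) S' (relI T0) u (fun p => P1 p * P3 p) :=
    (hL B _ S' (T × I) (relI T0) _ _ _).2
      ((hL B _ S' (T × I) (relI T0) _ _ _).2 L1 ((hL B _ S' (T × I) (relI T0) _ _ u).1 L2)) L4
  refine ⟨fun p => z1 p * w2 p, fun p => P1 p * P3 p, hz1.mul hw2L, ?_, hP1.mul hP3, ?_, L5⟩
  · intro p hp
    change z1 p * w2 p = 1
    rw [hz10 p hp, hw20 p hp, mul_one]
  · intro p x
    rw [Equiv.Perm.mul_apply, hP3e, hP1e]
    refine S1_perM_mul (δ := δ) hδ0 ?_ x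
    intro y
    by_cases hy : y ∈ cut b j 1 (((l : ℕ) : ℝ) - 1) S'
    · right
      have h3 := hS1 ((hw2L.mem_iff p y).2 hy)
      rw [sub_zero, sub_zero] at h3
      exact h3.2
    · left
      exact hw2L.supp p y hy

end Pool.Agent.BHS
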