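import Mathlib
import Pool.Agent.BHS.Stmts
import Pool.Agent.BHS.Basic
import Pool.Agent.TOL.Grid

set_option maxSynthPendingDepth 3

open scoped ContDiff Distributions Topology unitInterval
open Set Function TopologicalSpace

namespace Pool.Agent.BHS

open Pool.Agent.Helper17 Pool.Agent.TOR Pool.Agent.TOL

section s1l

/-! ### Phases -/

/-- the increasing phase starting at `r` -/
noncomputable def S1L_up (e r ξ : ℝ) : ℝ := Real.smoothTransition (e * (ξ - r))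

/-- the decreasing phase ending at `r` -/
noncomputable def S1L_dn (e r ξ : ℝ) : ℝ := Real.smoothTransition (-(e * (ξ - r)))

lemma S1L_st : ContDiff ℝ ∞ Real.smoothTransition := Real.smoothTransition.contDiff

lemma S1L_up_zero {e r ξ : ℝ} (he : 0 < e) (h : ξ ≤ r) : S1L_up e r ξ = 0 := by
  unfold S1L_up
  apply Real.smoothTransition.zero_of_nonpos
  nlinarith

lemma S1L_up_one {e r ξ : ℝ} (he : 0 < e) (h : r + 1 / e ≤ ξ) : S1L_up e r ξ = 1 := by
  unfold S1L_up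
  apply Real.smoothTransition.one_of_one_le
  have h1 : 1 / e ≤ ξ - r := by linarith
  rw [div_le_iff₀ he] at h1
  linarith

lemma S1L_dn_zero {e r ξ : ℝ} (he : 0 < e) (h : r ≤ ξ) : S1L_dn e r ξ = 0 := by
  unfold S1L_dn
  apply Real.smoothTransition.zero_of_nonpos
  nlinarith

lemma S1L_dn_one {e r ξ : ℝ} (he : 0 < e) (h : ξ ≤ r - 1 / e) : S1L_dn e r ξ = 1 := by
  unfold S1L_dn
  apply Real.smoothTransition.one_of_one_le
  have h1 : 1 / e ≤ r - ξ := by linarith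
  rw [div_le_iff₀ he] at h1
  linarith

lemma S1L_up_mem (e r ξ : ℝ) : 0 ≤ S1L_up e r ξ ∧ S1L_up e r ξ ≤ 1 :=
  ⟨Real.smoothTransition.nonneg _, Real.smoothTransition.le_one _⟩

lemma S1L_dn_mem (e r ξ : ℝ) : 0 ≤ S1L_dn e r ξ ∧ S1L_dn e r ξ ≤ 1 :=
  ⟨Real.smoothTransition.nonneg _, Real.smoothTransition.le_one _⟩

lemma S1L_up_shift (e r c ξ : ℝ) : S1L_up e r (ξ - c) = S1L_up e (r + c) ξ := by
  unfold S1L_up
  congr 2
  ring

lemma S1L_dn_shift (e r c ξ : ℝ) : S1L_dn e r (ξ - c) = S1L_dn e (r + c) ξ := by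
  unfold S1L_dn
  congr 3
  ring

lemma S1L_up_smooth (e r : ℝ) : ContDiff ℝ ∞ (S1L_up e r) :=
  Real.smoothTransition.contDiff.comp (contDiff_const.mul (contDiff_id.sub contDiff_const))

lemma S1L_dn_smooth (e r : ℝ) : ContDiff ℝ ∞ (S1L_dn e r) :=
  Real.smoothTransition.contDiff.comp (contDiff_const.mul (contDiff_id.sub contDiff_const)).neg

lemma S1L_up_deriv {C : ℝ} (hC : ∀ x, |deriv Real.smoothTransition x| ≤ C) {e : ℝ} (he : 0 < e)
    (r ξ : ℝ) : |deriv (S1L_up e r) ξ| ≤ C * e := by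
  have h1 : HasDerivAt (fun ξ : ℝ => e * (ξ - r)) (e * 1) ξ :=
    ((hasDerivAt_id ξ).sub_const r).const_mul e
  have h2 : HasDerivAt Real.smoothTransition (deriv Real.smoothTransition (e * (ξ - r)))
      (e * (ξ - r)) :=
    (S1L_st.differentiable (by simp) _).hasDerivAt
  have h3 := h2.comp ξ h1
  have h4 : deriv (S1L_up e r) ξ = deriv Real.smoothTransition (e * (ξ - r)) * (e * 1) := h3.deriv
  rw [h4, mul_one, abs_mul, abs_of_pos he]
  exact mul_le_mul_of_nonneg_right (hC _) he.le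

lemma S1L_dn_deriv {C : ℝ} (hC : ∀ x, |deriv Real.smoothTransition x| ≤ C) {e : ℝ} (he : 0 < e)
    (r ξ : ℝ) : |deriv (S1L_dn e r) ξ| ≤ C * e := by
  have h1 : HasDerivAt (fun ξ : ℝ => -(e * (ξ - r))) (-(e * 1)) ξ :=
    (((hasDerivAt_id ξ).sub_const r).const_mul e).neg
  have h2 : HasDerivAt Real.smoothTransition (deriv Real.smoothTransition (-(e * (ξ - r))))
      (-(e * (ξ - r))) :=
    (S1L_st.differentiable (by simp) _).hasDerivAt
  have h3 := h2.comp ξ h1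
  have h4 : deriv (S1L_dn e r) ξ =
      deriv Real.smoothTransition (-(e * (ξ - r))) * (-(e * 1)) := h3.deriv
  rw [h4, mul_one, abs_mul, abs_neg, abs_of_pos he]
  exact mul_le_mul_of_nonneg_right (hC _) he.le

/-- the phase which is `1` in the middle of the interval `[0, l]` -/
noncomputable def S1L_th0 (e r l ξ : ℝ) : ℝ := S1L_up e r ξ * S1L_dn e (l - r) ξ

/-- the phase which is `0` near `0` -/
noncomputable def S1L_ph (e r ξ : ℝ) : ℝ := S1L_dn e (-r) ξ + S1L_up e r ξ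

/-- the periodic extension of `S1L_th0` -/
noncomputable def S1L_th (e r l ξ : ℝ) : ℝ := S1L_th0 e r l (ξ - (⌊ξ / l⌋ : ℝ) * l)

lemma S1L_th0_smooth (e r l : ℝ) : ContDiff ℝ ∞ (S1L_th0 e r l) :=
  (S1L_up_smooth e r).mul (S1L_dn_smooth e (l - r))

lemma S1L_ph_smooth (e r : ℝ) : ContDiff ℝ ∞ (S1L_ph e r) :=
  (S1L_dn_smooth e (-r)).add (S1L_up_smooth e r)

lemma S1L_th0_mem (e r l ξ : ℝ) : 0 ≤ S1L_th0 e r l ξ ∧ S1L_th0 e r l ξ ≤ 1 := by
  obtain ⟨h1, h2⟩ := S1L_up_mem e r ξ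
  obtain ⟨h3, h4⟩ := S1L_dn_mem e (l - r) ξ
  exact ⟨mul_nonneg h1 h3, mul_le_one₀ h2 h3 h4⟩

lemma S1L_th_mem (e r l ξ : ℝ) : 0 ≤ S1L_th e r l ξ ∧ S1L_th e r l ξ ≤ 1 := S1L_th0_mem _ _ _ _

lemma S1L_th0_deriv {C : ℝ} (hC : ∀ x, |deriv Real.smoothTransition x| ≤ C) {e : ℝ} (he : 0 < e)
    (r l ξ : ℝ) : |deriv (S1L_th0 e r l) ξ| ≤ 2 * (C * e) := by
  have h1 : HasDerivAt (S1L_up e r) (deriv (S1L_up e r) ξ) ξ :=
    ((S1L_up_smooth e r).differentiable (by simp) _).hasDerivAt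
  have h2 : HasDerivAt (S1L_dn e (l - r)) (deriv (S1L_dn e (l - r)) ξ) ξ :=
    ((S1L_dn_smooth e (l - r)).differentiable (by simp) _).hasDerivAt
  have h3 : deriv (S1L_th0 e r l) ξ = deriv (S1L_up e r) ξ * S1L_dn e (l - r) ξ +
      S1L_up e r ξ * deriv (S1L_dn e (l - r)) ξ := (h1.mul h2).deriv
  rw [h3]
  refine (abs_add_le _ _).trans ?_
  rw [abs_mul, abs_mul]
  obtain ⟨a1, a2⟩ := S1L_up_mem e r ξ
  obtain ⟨a3, a4⟩ := S1L_dn_mem e (l - r) ξ
  rw [abs_of_nonneg a1, abs_of_nonneg a3]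
  have b1 := S1L_up_deriv hC he r ξ
  have b2 := S1L_dn_deriv hC he (l - r) ξ
  have c1 : |deriv (S1L_up e r) ξ| * S1L_dn e (l - r) ξ ≤ C * e * 1 :=
    mul_le_mul b1 a4 a3 ((abs_nonneg _).trans b1)
  have c2 : S1L_up e r ξ * |deriv (S1L_dn e (l - r)) ξ| ≤ 1 * (C * e) :=
    mul_le_mul a2 b2 (abs_nonneg _) zero_le_one
  linarith

lemma S1L_ph_deriv {C : ℝ} (hC : ∀ x, |deriv Real.smoothTransition x| ≤ C) {e : ℝ} (he : 0 < e)
    (r ξ : ℝ) : |deriv (S1L_ph e r) ξ| ≤ 2 * (C * e) := by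
  have h1 : HasDerivAt (S1L_up e r) (deriv (S1L_up e r) ξ) ξ :=
    ((S1L_up_smooth e r).differentiable (by simp) _).hasDerivAt
  have h2 : HasDerivAt (S1L_dn e (-r)) (deriv (S1L_dn e (-r)) ξ) ξ :=
    ((S1L_dn_smooth e (-r)).differentiable (by simp) _).hasDerivAt
  have h3 : deriv (S1L_ph e r) ξ = deriv (S1L_dn e (-r)) ξ + deriv (S1L_up e r) ξ :=
    (h2.add h1).deriv
  rw [h3]
  refine (abs_add_le _ _).trans ?_
  have b1 := S1L_up_deriv hC he r ξ
  have b2 := S1L_dn_deriv hC he (-r) ξ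
  linarith

lemma S1L_th0_zero {e r l ξ : ℝ} (he : 0 < e) (h : ξ ≤ r ∨ l - r ≤ ξ) : S1L_th0 e r l ξ = 0 := by
  unfold S1L_th0
  rcases h with h | h
  · rw [S1L_up_zero he h, zero_mul]
  · rw [S1L_dn_zero he h, mul_zero]

/-- the periodic extension near an interval of length `l` -/
lemma S1L_th_window {e r l : ℝ} (he : 0 < e) (hr : 0 < r) (hl : r ≤ l) {ξ : ℝ} {k : ℤ}
    (h1 : k * l - r < ξ) (h2 : ξ < (k + 1) * l + r) :
    S1L_th e r l ξ = S1L_th0 e r l (ξ - k * l) := by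
  have hl0 : 0 < l := lt_of_lt_of_le hr hl
  unfold S1L_th
  rcases lt_or_ge ξ (k * l) with h3 | h3
  · have h4 : ⌊ξ / l⌋ = k - 1 := by
      rw [Int.floor_eq_iff]
      push_cast
      rw [le_div_iff₀ hl0, div_lt_iff₀ hl0]
      constructor
      · nlinarith
      · nlinarith
    rw [h4]
    push_cast
    rw [S1L_th0_zero he (Or.inr (by nlinarith)), S1L_th0_zero he (Or.inl (by nlinarith))]
  · rcases lt_or_ge ξ ((k + 1) * l) with h5 | h5
    · have h4 : ⌊ξ / l⌋ = k := by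
        rw [Int.floor_eq_iff]
        rw [le_div_iff₀ hl0, div_lt_iff₀ hl0]
        exact ⟨h3, h5⟩
      rw [h4]
    · have h4 : ⌊ξ / l⌋ = k + 1 := by
        rw [Int.floor_eq_iff]
        push_cast
        rw [le_div_iff₀ hl0, div_lt_iff₀ hl0]
        constructor
        · nlinarith
        · nlinarith
      rw [h4]
      push_cast
      rw [S1L_th0_zero he (Or.inl (by nlinarith)), S1L_th0_zero he (Or.inr (by nlinarith))]

lemma S1L_th_near {e r l : ℝ} (he : 0 < e) (hr : 0 < r) (hl : r ≤ l) (ξ : ℝ) :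
    S1L_th e r l =ᶠ[𝓝 ξ] fun η => S1L_th0 e r l (η - (⌊ξ / l⌋ : ℝ) * l) := by
  have hl0 : 0 < l := lt_of_lt_of_le hr hl
  obtain ⟨k, hk⟩ : ∃ k : ℤ, k = ⌊ξ / l⌋ := ⟨_, rfl⟩
  have h1 : (k : ℝ) * l ≤ ξ := by
    rw [← le_div_iff₀ hl0, hk]
    exact Int.floor_le _
  have h2 : ξ < ((k : ℝ) + 1) * l := by
    rw [← div_lt_iff₀ hl0, hk]
    exact Int.lt_floor_add_one _
  rw [← hk]
  filter_upwards [Ioo_mem_nhds (show (k : ℝ) * l - r < ξ by linarith)
    (show ξ < ((k : ℝ) + 1) * l + r by linarith)] with η hη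
  exact S1L_th_window he hr hl hη.1 hη.2

lemma S1L_th_smooth {e r l : ℝ} (he : 0 < e) (hr : 0 < r) (hl : r ≤ l) :
    ContDiff ℝ ∞ (S1L_th e r l) := by
  rw [contDiff_iff_contDiffAt]
  intro ξ
  refine ContDiffAt.congr_of_eventuallyEq ?_ (S1L_th_near he hr hl ξ)
  exact ((S1L_th0_smooth e r l).comp (contDiff_id.sub contDiff_const)).contDiffAt

lemma S1L_th_deriv {C : ℝ} (hC : ∀ x, |deriv Real.smoothTransition x| ≤ C) {e r l : ℝ}
    (he : 0 < e) (hr : 0 < r) (hl : r ≤ l) (ξ : ℝ) :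
    |deriv (S1L_th e r l) ξ| ≤ 2 * (C * e) := by
  rw [(S1L_th_near he hr hl ξ).deriv_eq]
  have h1 : HasDerivAt (S1L_th0 e r l) (deriv (S1L_th0 e r l) (ξ - (⌊ξ / l⌋ : ℝ) * l))
      (ξ - (⌊ξ / l⌋ : ℝ) * l) :=
    ((S1L_th0_smooth e r l).differentiable (by simp) _).hasDerivAt
  have h2 : HasDerivAt (fun η : ℝ => η - (⌊ξ / l⌋ : ℝ) * l) 1 ξ :=
    (hasDerivAt_id ξ).sub_const _
  have h3 := (h1.comp ξ h2).deriv
  have h4 : deriv (fun η => S1L_th0 e r l (η - (⌊ξ / l⌋ : ℝ) * l)) ξ =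
      deriv (S1L_th0 e r l) (ξ - (⌊ξ / l⌋ : ℝ) * l) * 1 := h3
  rw [h4, mul_one]
  exact S1L_th0_deriv hC he r l _

lemma S1L_th_per {e r l : ℝ} (hl : 0 < l) (ξ : ℝ) : S1L_th e r l (ξ + l) = S1L_th e r l ξ := by
  unfold S1L_th
  have h1 : (ξ + l) / l = ξ / l + 1 := by field_simp
  rw [h1, Int.floor_add_one]
  push_cast
  congr 1
  ring

/-- relation with the phase near `0` -/
lemma S1L_ph_eq {e r l : ℝ} (he : 0 < e) (hr : 0 < r) (hl : 2 * (r + 1 / e) < l) {ξ : ℝ} (k : ℤ)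
    (h1 : k * l - l / 2 ≤ ξ) (h2 : ξ < k * l + l / 2) :
    S1L_ph e r (ξ - k * l) = S1L_th e r l ξ := by
  have he' : 0 < 1 / e := by positivity
  have hl0 : 0 < l := by linarith
  unfold S1L_ph
  rcases le_or_gt (k * l) ξ with h | h
  · rw [S1L_th_window he hr (by linarith) (k := k) (by linarith) (by linarith)]
    unfold S1L_th0
    rw [S1L_dn_zero he (by linarith), S1L_dn_one he (by linarith)]
    ring
  · have h3 : (((k - 1 : ℤ) : ℝ) + 1) * l = k * l := by push_cast; ring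
    have h4 : ((k - 1 : ℤ) : ℝ) * l = k * l - l := by push_cast; ring
    rw [S1L_th_window he hr (by linarith) (k := k - 1) (by linarith) (by linarith), h4]
    unfold S1L_th0
    rw [S1L_up_zero he (by linarith), S1L_up_one he (by linarith)]
    have h5 : S1L_dn e (l - r) (ξ - (k * l - l)) = S1L_dn e (-r) (ξ - k * l) := by
      unfold S1L_dn
      congr 3
      ring
    rw [h5]
    ring

/-- values of the phase near `0`: sum of the two steps -/
lemma S1L_ph_mem {e r : ℝ} (he : 0 < e) (hr : 0 < r) (ξ : ℝ) :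
    0 ≤ S1L_ph e r ξ ∧ S1L_ph e r ξ ≤ 1 := by
  unfold S1L_ph
  obtain ⟨a1, a2⟩ := S1L_up_mem e r ξ
  obtain ⟨a3, a4⟩ := S1L_dn_mem e (-r) ξ
  rcases le_or_gt 0 ξ with h | h
  · rw [S1L_dn_zero he (by linarith), zero_add]
    exact ⟨a1, a2⟩
  · rw [S1L_up_zero he (by linarith), add_zero]
    exact ⟨a3, a4⟩

/-! ### Families of maps -/

variable {n N : ℕ} {b : Module.Basis (Fin N) ℝ (Phase n)}

lemma S1L_int {f : Phase n → Phase n} {v : Phase n} (h : ∀ x, f (x + v) = f x + v) (k : ℤ) :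
    ∀ x : Phase n, f (x + (k : ℝ) • v) = f x + (k : ℝ) • v := by
  induction k using Int.induction_on with
  | zero => intro x; simp
  | succ k ih =>
    intro x
    have h1 : ∀ y : Phase n, y + (((k : ℤ) + 1 : ℤ) : ℝ) • v = (y + ((k : ℤ) : ℝ) • v) + v := by
      intro y
      push_cast
      rw [add_smul, one_smul]
      abel
    rw [h1, h1, h, ih]
  | pred k ih =>
    intro x
    have h1 : ∀ y : Phase n, y + ((-(k : ℤ) - 1 : ℤ) : ℝ) • v + v =
        y + ((-(k : ℤ) : ℤ) : ℝ) • v := by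
      intro y
      push_cast
      rw [sub_smul, one_smul]
      abel
    have h2 := h (x + ((-(k : ℤ) - 1 : ℤ) : ℝ) • v)
    rw [h1, ih, ← h1] at h2
    exact (add_right_cancel h2).symm

/-- the map with the parameter `p` -/
noncomputable def S1L_g (M : ℕ) {T : Type} (u : T × I → Equiv.Perm (Phase n)) (t : T) (p : ℝ)
    (x : Phase n) : Phase n := grid M (fun a y => u (t, a) y) p x

/-- the data of the construction -/
structure S1L_D (b : Module.Basis (Fin N) ℝ (Phase n)) (j : Fin N) {T : Type} [TopologicalSpace T]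
    (T0 : Set T) (S' : Set (Phase n)) (u : T × I → Equiv.Perm (Phase n)) (M : ℕ) (ε : ℝ) :
    Prop where
  cyl : Cyl b ((j : ℕ) + 1) S'
  lev : LevS b ((j : ℕ) + 1) S' u
  rel : ∀ p ∈ relI T0, u p = 1
  Mpos : 0 < M
  adm : ∀ φ : ℝ → ℝ, Differentiable ℝ φ → (∀ ξ, |deriv φ ξ| ≤ ε) → ∀ t x,
    Admissible (fderiv ℝ (fun x => S1L_g M u t (φ (b.repr x j)) x) x)

variable {j : Fin N} {T : Type} [TopologicalSpace T] {T0 : Set T} {S' : Set (Phase n)}
  {u : T × I → Equiv.Perm (Phase n)} {M : ℕ} {ε : ℝ}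

lemma S1L_D.low (h : S1L_D b j T0 S' u M ε) {t : T} {p : ℝ} (hp : p ≤ 0) (x : Phase n) :
    S1L_g M u t p x = x := by
  unfold S1L_g
  rw [grid_zero M _ hp]
  have h1 : u (t, 0) = 1 := h.rel _ (Or.inr (Or.inl rfl))
  show u (t, 0) x = x
  rw [h1]
  rfl

lemma S1L_D.high (h : S1L_D b j T0 S' u M ε) {t : T} {p : ℝ} (hp : 1 ≤ p) (x : Phase n) :
    S1L_g M u t p x = x := by
  unfold S1L_g
  rw [grid_one h.Mpos _ hp]
  have h1 : u (t, 1) = 1 := h.rel _ (Or.inr (Or.inr rfl))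
  show u (t, 1) x = x
  rw [h1]
  rfl

lemma S1L_D.out (h : S1L_D b j T0 S' u M ε) {t : T} {p : ℝ} {x : Phase n} (hx : x ∉ S') :
    S1L_g M u t p x = x :=
  grid_const M (fun a => h.lev.supp (t, a) x hx) p

lemma S1L_D.relT (h : S1L_D b j T0 S' u M ε) {t : T} (ht : t ∈ T0) (p : ℝ) (x : Phase n) :
    S1L_g M u t p x = x :=
  grid_const M (fun a => by
    have h1 : u (t, a) = 1 := h.rel _ (Or.inl ht)
    show u (t, a) x = x
    rw [h1]
    rfl) p

lemma S1L_D.per (h : S1L_D b j T0 S' u M ε) {t : T} (p : ℝ) {i : Fin N}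
    (hi : (i : ℕ) < (j : ℕ) + 1) (k : ℤ) (x : Phase n) :
    S1L_g M u t p (x + (k : ℝ) • b i) = S1L_g M u t p x + (k : ℝ) • b i :=
  S1L_int (f := S1L_g M u t p) (fun y => grid_per M (fun a => h.lev.per (t, a) i hi y) p) k x

lemma S1L_CF {T' : Type} [TopologicalSpace T'] (M : ℕ)
    {V : T × I → Phase n → Phase n} (hV : CF V) {f : T' → T} (hf : Continuous f)
    {P : T' → Phase n → ℝ} (hP : CF P) :
    CF (fun t x => grid M (fun a => V (f t, a)) (P t x) x) := by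
  have hc : ∀ a : I, CF (fun t x => V (f t, a) x) := fun a =>
    hV.base (hf.prodMk continuous_const)
  unfold grid
  refine (hc 0).add (CF_sum _ fun m => ?_)
  refine CF.smul ?_ ((hc _).sub (hc _))
  have h1 : CF (fun (t : T') (x : Phase n) => (M : ℝ) * P t x - m) :=
    hP.comp_smooth (g := fun y : ℝ => (M : ℝ) * y - m) fun _ _ =>
      ((contDiff_const.mul contDiff_id).sub contDiff_const).contDiffAt
  exact h1.comp_smooth (g := Real.smoothTransition) fun _ _ =>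
    Real.smoothTransition.contDiff.contDiffAt

/-- the family with the phase `c ψ + d` -/
noncomputable def S1L_G (b : Module.Basis (Fin N) ℝ (Phase n)) (j : Fin N) (M : ℕ) {T T' : Type}
    (u : T × I → Equiv.Perm (Phase n)) (f : T' → T) (c d : T' → ℝ) (ψ : ℝ → ℝ) (t : T')
    (x : Phase n) : Phase n :=
  S1L_g M u (f t) (c t * ψ (b.repr x j) + d t) x

lemma S1L_D.cfG (h : S1L_D b j T0 S' u M ε) {T' : Type} [TopologicalSpace T'] {f : T' → T}
    (hf : Continuous f) {c d : T' → ℝ} (hc : Continuous c) (hd : Continuous d) {ψ : ℝ → ℝ}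
    (hψ : ContDiff ℝ ∞ ψ) : CF (S1L_G b j M u f c d ψ) := by
  have h1 : CF (fun (_ : T') (x : Phase n) => ψ (b.repr x j)) :=
    (CF_coord b j).comp_smooth (g := ψ) fun _ _ => hψ.contDiffAt
  have h2 : CF (fun (t : T') (x : Phase n) => c t • ψ (b.repr x j) + d t) :=
    ((CF.param hc).smul h1).add (CF.param hd)
  exact S1L_CF M (V := fun p x => u p x) h.lev.cf hf h2

lemma S1L_D.admG (h : S1L_D b j T0 S' u M ε) {T' : Type} [TopologicalSpace T'] {f : T' → T}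
    {c d : T' → ℝ} (hc1 : ∀ t, |c t| ≤ 1) {ψ : ℝ → ℝ}
    (hψ : ContDiff ℝ ∞ ψ) (hψ' : ∀ ξ, |deriv ψ ξ| ≤ ε) (t : T') (x : Phase n) :
    Admissible (fderiv ℝ (S1L_G b j M u f c d ψ t) x) := by
  have hd1 : Differentiable ℝ ψ := hψ.differentiable (by simp)
  refine h.adm (fun ξ => c t * ψ ξ + d t) ((hd1.const_mul _).add_const _) ?_ (f t) x
  intro ξ
  have h2 : HasDerivAt (fun ξ => c t * ψ ξ + d t) (c t * deriv ψ ξ) ξ :=
    ((hd1 ξ).hasDerivAt.const_mul _).add_const _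
  rw [h2.deriv, abs_mul]
  calc |c t| * |deriv ψ ξ| ≤ 1 * ε := mul_le_mul (hc1 t) (hψ' ξ) (abs_nonneg _) zero_le_one
    _ = ε := one_mul _

/-- the family at level `j` -/
lemma S1L_D.levG (h : S1L_D b j T0 S' u M ε) {T' : Type} [TopologicalSpace T'] {f : T' → T}
    (hf : Continuous f) {c d : T' → ℝ} (hc : Continuous c) (hd : Continuous d)
    (hc1 : ∀ t, |c t| ≤ 1) {ψ : ℝ → ℝ}
    (hψ : ContDiff ℝ ∞ ψ) (hψ' : ∀ ξ, |deriv ψ ξ| ≤ ε) {p q : ℝ}
    (hpq : ∀ t ξ, (p ≤ ξ ∧ ξ ≤ q) ∨ c t * ψ ξ + d t ≤ 0 ∨ 1 ≤ c t * ψ ξ + d t) :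
    ALevS b (j : ℕ) (cut b j p q S') (S1L_G b j M u f c d ψ) := by
  refine ⟨h.cfG hf hc hd hψ, h.admG hc1 hψ hψ', ?_, ?_⟩
  · intro t i hi x
    have hne : i ≠ j := by
      intro h1
      rw [h1] at hi
      exact lt_irrefl _ hi
    have h1 := h.per (t := f t) (c t * ψ (b.repr (x + b i) j) + d t) (i := i) (by omega) 1 x
    have h2 := repr_add_smul_ne (b := b) x 1 hne
    rw [Int.cast_one, one_smul] at h1
    rw [one_smul] at h2
    show S1L_g M u (f t) (c t * ψ (b.repr (x + b i) j) + d t) (x + b i) =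
      S1L_g M u (f t) (c t * ψ (b.repr x j) + d t) x + b i
    rw [h1, h2]
  · intro t x hx
    show S1L_g M u (f t) (c t * ψ (b.repr x j) + d t) x = x
    by_cases hxS : x ∈ S'
    · rcases hpq t (b.repr x j) with h1 | h1 | h1
      · exact absurd ⟨hxS, h1⟩ hx
      · exact h.low h1 x
      · exact h.high h1 x
    · exact h.out hxS

/-! ### The cover -/

lemma S1L_scal_ne {l : ℕ+} {i : Fin N} (h : i ≠ j) : scal b (one1 j l) i = b i := by
  rw [scal_apply, one1_ne h]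
  simp

lemma S1L_scal_self {l : ℕ+} : scal b (one1 j l) j = ((l : ℕ) : ℝ) • b j := by
  rw [scal_apply, one1_self]

lemma S1L_repr_self {l : ℕ+} (x : Phase n) :
    (scal b (one1 j l)).repr x j = b.repr x j / ((l : ℕ) : ℝ) := by
  rw [scal_repr, one1_self]

lemma S1L_cyl {l : ℕ+} (h : Cyl b ((j : ℕ) + 1) S') :
    Cyl (scal b (one1 j l)) ((j : ℕ) + 1) S' := by
  obtain ⟨R, hR⟩ := h.bdd
  refine ⟨h.closed, ?_, R, ?_⟩
  · intro i hi s x hx
    rw [scal_apply, smul_smul]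
    exact h.inv i hi _ x hx
  · intro x hx i hi
    have h1 := hR hx i hi
    have hne : i ≠ j := by
      intro h2
      rw [h2] at hi
      omega
    rw [scal_repr, one1_ne hne]
    simpa using h1

lemma S1L_alevS {l : ℕ+} {T' : Type} [TopologicalSpace T'] {S : Set (Phase n)}
    {F : T' → Phase n → Phase n} (h : ALevS b (j : ℕ) S F) :
    ALevS (scal b (one1 j l)) (j : ℕ) S F := by
  refine ⟨h.cf, h.adm, ?_, h.supp⟩
  intro t i hi x
  have hne : i ≠ j := by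
    intro h1
    rw [h1] at hi
    exact lt_irrefl _ hi
  rw [S1L_scal_ne hne]
  exact h.per t i hi x

/-- the family in the cover -/
lemma S1L_D.levC (h : S1L_D b j T0 S' u M ε) {l : ℕ+} {T' : Type} [TopologicalSpace T']
    {f : T' → T} (hf : Continuous f) {c d : T' → ℝ} (hc : Continuous c) (hd : Continuous d)
    (hc1 : ∀ t, |c t| ≤ 1) {ψ : ℝ → ℝ}
    (hψ : ContDiff ℝ ∞ ψ) (hψ' : ∀ ξ, |deriv ψ ξ| ≤ ε) (hper : ∀ ξ, ψ (ξ + ((l : ℕ) : ℝ)) = ψ ξ) :
    ALevS (scal b (one1 j l)) ((j : ℕ) + 1) S' (S1L_G b j M u f c d ψ) := by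
  refine ⟨h.cfG hf hc hd hψ, h.admG hc1 hψ hψ', ?_, ?_⟩
  · intro t i hi x
    by_cases hij : i = j
    · rw [hij, S1L_scal_self]
      have h1 := h.per (t := f t)
        (c t * ψ (b.repr (x + ((l : ℕ) : ℝ) • b j) j) + d t) (i := j) (by omega)
        ((l : ℕ) : ℤ) x
      rw [Int.cast_natCast] at h1
      have h2 := repr_add_smul_self (b := b) x ((l : ℕ) : ℝ) j
      show S1L_g M u (f t) (c t * ψ (b.repr (x + ((l : ℕ) : ℝ) • b j) j) + d t)
        (x + ((l : ℕ) : ℝ) • b j) =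
        S1L_g M u (f t) (c t * ψ (b.repr x j) + d t) x + ((l : ℕ) : ℝ) • b j
      rw [h1, h2, hper]
    · rw [S1L_scal_ne hij]
      have h1 := h.per (t := f t) (c t * ψ (b.repr (x + b i) j) + d t) (i := i) (by omega) 1 x
      have h2 := repr_add_smul_ne (b := b) x 1 hij
      rw [Int.cast_one, one_smul] at h1
      rw [one_smul] at h2
      show S1L_g M u (f t) (c t * ψ (b.repr (x + b i) j) + d t) (x + b i) =
        S1L_g M u (f t) (c t * ψ (b.repr x j) + d t) x + b i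
      rw [h1, h2]
  · intro t x hx
    exact h.out hx

/-! ### Gluing -/

lemma S1L_comb {B : Module.Basis (Fin N) ℝ (Phase n)} {k : ℕ} {S : Set (Phase n)} {T' : Type}
    [TopologicalSpace T'] {F G H : T' → Phase n → Phase n} (hF : ALevS B k S F)
    (hG : ALevS B k S G) (hH : ALevS B k S H)
    (h : ∀ t x, (∀ᶠ y in 𝓝 x, F t y = H t y) ∨ ∀ᶠ y in 𝓝 x, G t y = H t y) :
    ALevS B k S (fun t x => F t x + G t x - H t x) := by
  refine ⟨(hF.cf.add hG.cf).sub hH.cf, ?_, ?_, ?_⟩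
  · intro t x
    rcases h t x with h1 | h1
    · have h2 : (fun x => F t x + G t x - H t x) =ᶠ[𝓝 x] G t := by
        filter_upwards [h1] with y hy
        rw [hy]
        abel
      rw [h2.fderiv_eq]
      exact hG.adm t x
    · have h2 : (fun x => F t x + G t x - H t x) =ᶠ[𝓝 x] F t := by
        filter_upwards [h1] with y hy
        rw [hy]
        abel
      rw [h2.fderiv_eq]
      exact hF.adm t x
  · intro t i hi x
    show F t (x + B i) + G t (x + B i) - H t (x + B i) = F t x + G t x - H t x + B i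
    rw [hF.per t i hi, hG.per t i hi, hH.per t i hi]
    abel
  · intro t x hx
    show F t x + G t x - H t x = x
    rw [hF.supp t x hx, hG.supp t x hx, hH.supp t x hx]
    abel

lemma S1L_id (B : Module.Basis (Fin N) ℝ (Phase n)) (k : ℕ) (S : Set (Phase n)) (T' : Type)
    [TopologicalSpace T'] : ALevS B k S (fun (_ : T') (x : Phase n) => x) :=
  (LevS.one (b := B) k S T').alevS

/-- conjugation by the translation by `c b_j` -/
noncomputable def S1L_C (b : Module.Basis (Fin N) ℝ (Phase n)) (j : Fin N) (c : ℝ)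
    (f : Phase n → Phase n) (x : Phase n) : Phase n := f (x - c • b j) + c • b j

lemma S1L_conj {S S1 : Set (Phase n)} {T' : Type} [TopologicalSpace T']
    {F : T' → Phase n → Phase n} (hF : ALevS b (j : ℕ) S F) (c : ℝ)
    (hS : ∀ x ∈ S, x + c • b j ∈ S1) :
    ALevS b (j : ℕ) S1 (fun t => S1L_C b j c (F t)) := by
  have h0 : CF (fun (_ : T') (x : Phase n) => x - c • b j) :=
    CF.const (contDiff_id.sub contDiff_const)
  refine ⟨(hF.cf.comp h0).add (CF.param continuous_const), ?_, ?_, ?_⟩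
  · intro t x
    have h1 : HasFDerivAt (fun x : Phase n => x - c • b j) (ContinuousLinearMap.id ℝ _) x :=
      (hasFDerivAt_id x).sub_const _
    have h2 : HasFDerivAt (F t) (fderiv ℝ (F t) (x - c • b j)) (x - c • b j) :=
      (hF.cf.differentiable t _).hasFDerivAt
    have h3 := (h2.comp x h1).add_const (c • b j)
    rw [ContinuousLinearMap.comp_id] at h3
    have h4 : fderiv ℝ (S1L_C b j c (F t)) x = fderiv ℝ (F t) (x - c • b j) := h3.fderiv
    rw [h4]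
    exact hF.adm t _
  · intro t i hi x
    show F t (x + b i - c • b j) + c • b j = F t (x - c • b j) + c • b j + b i
    have h1 : x + b i - c • b j = (x - c • b j) + b i := by abel
    rw [h1, hF.per t i hi]
    abel
  · intro t x hx
    show F t (x - c • b j) + c • b j = x
    rw [hF.supp t _ fun h1 => hx (by have := hS _ h1; rwa [sub_add_cancel] at this),
      sub_add_cancel]

lemma S1L_C_id (b : Module.Basis (Fin N) ℝ (Phase n)) (j : Fin N) (c : ℝ) {f : Phase n → Phase n}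
    (hf : ∀ x, f x = x) (x : Phase n) : S1L_C b j c f x = x := by
  unfold S1L_C
  rw [hf, sub_add_cancel]

/-- conjugation of the families with phases -/
lemma S1L_D.conjg (h : S1L_D b j T0 S' u M ε) (t : T) (k : ℤ) (ψ : ℝ → ℝ) (x : Phase n) :
    S1L_C b j (k : ℝ) (fun y => S1L_g M u t (ψ (b.repr y j)) y) x =
      S1L_g M u t (ψ (b.repr x j - k)) x := by
  unfold S1L_C
  have h1 := h.per (t := t) (ψ (b.repr x j - k)) (i := j) (by omega) k (x - (k : ℝ) • b j)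
  rw [sub_add_cancel] at h1
  show S1L_g M u t (ψ (b.repr (x - (k : ℝ) • b j) j)) (x - (k : ℝ) • b j) + (k : ℝ) • b j = _
  rw [repr_sub_smul_self, h1]

/-- periodization in the cover as a conjugation -/
lemma S1L_perM (b : Module.Basis (Fin N) ℝ (Phase n)) (j : Fin N) (l : ℕ+) (c : ℝ)
    (f : Phase n → Phase n) (x : Phase n) :
    perM (scal b (one1 j l)) j c f x =
      S1L_C b j (((⌊b.repr x j / ((l : ℕ) : ℝ) + c⌋ * ((l : ℕ) : ℤ) : ℤ) : ℝ)) f x := by
  unfold perM S1L_C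
  rw [S1L_repr_self, S1L_scal_self, smul_smul]
  push_cast
  rfl

lemma S1L_perM_comb (B : Module.Basis (Fin N) ℝ (Phase n)) (j : Fin N) (c : ℝ)
    (F G H : Phase n → Phase n) (x : Phase n) :
    perM B j c (fun x => F x + G x - H x) x = perM B j c F x + perM B j c G x -
      perM B j c H x := by
  have key : ∀ a c d v : Phase n, a + c - d + v = a + v + (c + v) - (d + v) :=
    fun a c d v => by abel
  exact key _ _ _ _

lemma S1L_perM_id (B : Module.Basis (Fin N) ℝ (Phase n)) (j : Fin N) (c : ℝ)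
    {f : Phase n → Phase n} (hf : ∀ x, f x = x) (x : Phase n) : perM B j c f x = x := by
  unfold perM
  rw [hf, sub_add_cancel]

/-! ### The construction -/

/-- the null homotopies of the two steps -/
structure S1L_E (b : Module.Basis (Fin N) ℝ (Phase n)) (j : Fin N) {T : Type} [TopologicalSpace T]
    (T0 : Set T) (S' : Set (Phase n)) (u : T × I → Equiv.Perm (Phase n)) (M : ℕ) (ε : ℝ)
    (e R0 : ℝ) (r : ℕ) (Hp Hm : T × I → Phase n → Phase n) : Prop where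
  D : S1L_D b j T0 S' u M ε
  he : 0 < e
  hR0 : 0 ≤ R0
  hr : R0 + 1 ≤ (r : ℝ)
  th0 : ∀ (l : ℝ) ξ, |deriv (S1L_th0 e r l) ξ| ≤ ε
  ph : ∀ ξ, |deriv (S1L_ph e r) ξ| ≤ ε
  levp : ALevS b (j : ℕ) (cut b j (-R0) (1 / e + R0) S') Hp
  zerop : ∀ t x, Hp (t, 0) x = S1L_g M u t (S1L_up e 0 (b.repr x j)) x
  onep : ∀ t x, Hp (t, 1) x = x
  relp : ∀ t ∈ T0, ∀ s x, Hp (t, s) x = x
  levm : ALevS b (j : ℕ) (cut b j (-(1 / e) - R0) R0 S') Hm
  zerom : ∀ t x, Hm (t, 0) x = S1L_g M u t (S1L_dn e 0 (b.repr x j)) x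
  onem : ∀ t x, Hm (t, 1) x = x
  relm : ∀ t ∈ T0, ∀ s x, Hm (t, s) x = x

section con

variable {e R0 : ℝ} {r : ℕ} {Hp Hm : T × I → Phase n → Phase n}

/-- the increasing step at `r` -/
noncomputable def S1L_P (b : Module.Basis (Fin N) ℝ (Phase n)) (j : Fin N) (r : ℕ) {T : Type}
    (Hp : T × I → Phase n → Phase n) (p : T × I) (x : Phase n) : Phase n :=
  S1L_C b j ((r : ℤ) : ℝ) (Hp p) x

/-- the decreasing step at `c` -/
noncomputable def S1L_Q (b : Module.Basis (Fin N) ℝ (Phase n)) (j : Fin N) (c : ℤ) {T : Type}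
    (Hm : T × I → Phase n → Phase n) (p : T × I) (x : Phase n) : Phase n :=
  S1L_C b j (c : ℝ) (Hm p) x

lemma S1L_E.levP (h : S1L_E b j T0 S' u M ε e R0 r Hp Hm) :
    ALevS b (j : ℕ) (cut b j (r - R0) (r + 1 / e + R0) S') (S1L_P b j r Hp) := by
  refine S1L_conj h.levp _ ?_
  intro x hx
  refine ⟨h.D.cyl.inv j (by omega) _ x hx.1, ?_⟩
  have h1 := hx.2
  change _ ≤ b.repr x j ∧ b.repr x j ≤ _ at h1
  change _ ≤ b.repr (x + _) j ∧ b.repr (x + _) j ≤ _
  rw [repr_add_smul_self, Int.cast_natCast]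
  constructor
  · linarith [h1.1]
  · linarith [h1.2]

lemma S1L_E.levQ (h : S1L_E b j T0 S' u M ε e R0 r Hp Hm) (c : ℤ) :
    ALevS b (j : ℕ) (cut b j (c - 1 / e - R0) (c + R0) S') (S1L_Q b j c Hm) := by
  refine S1L_conj h.levm _ ?_
  intro x hx
  refine ⟨h.D.cyl.inv j (by omega) _ x hx.1, ?_⟩
  have h1 := hx.2
  change _ ≤ b.repr x j ∧ b.repr x j ≤ _ at h1
  change _ ≤ b.repr (x + _) j ∧ b.repr (x + _) j ≤ _
  rw [repr_add_smul_self]
  constructor
  · linarith [h1.1]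
  · linarith [h1.2]

lemma S1L_E.P_id (h : S1L_E b j T0 S' u M ε e R0 r Hp Hm) (p : T × I) {x : Phase n}
    (hx : b.repr x j < r - R0 ∨ r + 1 / e + R0 < b.repr x j) : S1L_P b j r Hp p x = x := by
  apply h.levP.supp
  rintro ⟨-, h1, h2⟩
  rcases hx with h3 | h3
  · linarith
  · linarith

lemma S1L_E.Q_id (h : S1L_E b j T0 S' u M ε e R0 r Hp Hm) (c : ℤ) (p : T × I) {x : Phase n}
    (hx : b.repr x j < c - 1 / e - R0 ∨ c + R0 < b.repr x j) : S1L_Q b j c Hm p x = x := by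
  apply (h.levQ c).supp
  rintro ⟨-, h1, h2⟩
  rcases hx with h3 | h3
  · linarith
  · linarith

lemma S1L_E.P0 (h : S1L_E b j T0 S' u M ε e R0 r Hp Hm) (t : T) (x : Phase n) :
    S1L_P b j r Hp (t, 0) x = S1L_g M u t (S1L_up e r (b.repr x j)) x := by
  have h1 : Hp (t, 0) = fun y => S1L_g M u t (S1L_up e 0 (b.repr y j)) y := funext (h.zerop t)
  unfold S1L_P
  rw [h1, h.D.conjg t r (S1L_up e 0) x, S1L_up_shift, zero_add, Int.cast_natCast]

lemma S1L_E.Q0 (h : S1L_E b j T0 S' u M ε e R0 r Hp Hm) (c : ℤ) (t : T) (x : Phase n) :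
    S1L_Q b j c Hm (t, 0) x = S1L_g M u t (S1L_dn e c (b.repr x j)) x := by
  have h1 : Hm (t, 0) = fun y => S1L_g M u t (S1L_dn e 0 (b.repr y j)) y := funext (h.zerom t)
  unfold S1L_Q
  rw [h1, h.D.conjg t c (S1L_dn e 0) x, S1L_dn_shift, zero_add]

/-- the second half of the first loop -/
noncomputable def S1L_N (b : Module.Basis (Fin N) ℝ (Phase n)) (j : Fin N) (r : ℕ) (l : ℕ+)
    {T : Type} (Hp Hm : T × I → Phase n → Phase n) (p : T × I) (x : Phase n) : Phase n :=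
  S1L_P b j r Hp p x + S1L_Q b j (((l : ℕ) : ℤ) - r) Hm p x - x

/-- the first half of the second loop -/
noncomputable def S1L_N' (b : Module.Basis (Fin N) ℝ (Phase n)) (j : Fin N) (r : ℕ)
    {T : Type} (Hp Hm : T × I → Phase n → Phase n) (p : T × I) (x : Phase n) : Phase n :=
  S1L_P b j r Hp p x + S1L_Q b j (-(r : ℤ)) Hm p x - x

lemma S1L_ev (b : Module.Basis (Fin N) ℝ (Phase n)) (j : Fin N) {x : Phase n} {c : ℝ}
    (h : b.repr x j < c) : ∀ᶠ y in 𝓝 x, b.repr y j < c :=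
  (isOpen_lt (continuous_repr b j) continuous_const).mem_nhds h

lemma S1L_ev' (b : Module.Basis (Fin N) ℝ (Phase n)) (j : Fin N) {x : Phase n} {c : ℝ}
    (h : c < b.repr x j) : ∀ᶠ y in 𝓝 x, c < b.repr y j :=
  (isOpen_lt continuous_const (continuous_repr b j)).mem_nhds h

lemma S1L_E.levN (h : S1L_E b j T0 S' u M ε e R0 r Hp Hm) {l : ℕ+}
    (hl : 2 * (r + 1 / e + R0) + 2 ≤ ((l : ℕ) : ℝ)) :
    ALevS b (j : ℕ) (cut b j 1 (((l : ℕ) : ℝ) - 1) S') (S1L_N b j r l Hp Hm) := by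
  have he : 0 < 1 / e := one_div_pos.2 h.he
  have hR := h.hR0
  have hr := h.hr
  have hlc : ((((l : ℕ) : ℤ) - r : ℤ) : ℝ) = ((l : ℕ) : ℝ) - r := by push_cast; rfl
  have h1 : ALevS b (j : ℕ) (cut b j 1 (((l : ℕ) : ℝ) - 1) S') (S1L_P b j r Hp) :=
    h.levP.mono (cut_mono subset_rfl (by linarith) (by linarith))
  have h2 : ALevS b (j : ℕ) (cut b j 1 (((l : ℕ) : ℝ) - 1) S')
      (S1L_Q b j (((l : ℕ) : ℤ) - r) Hm) :=
    (h.levQ _).mono (cut_mono subset_rfl (by rw [hlc]; linarith) (by rw [hlc]; linarith))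
  refine S1L_comb h1 h2 (S1L_id b j _ _) ?_
  intro p x
  rcases lt_or_ge (b.repr x j) (((l : ℕ) : ℝ) - r - 1 / e - R0) with h3 | h3
  · right
    filter_upwards [S1L_ev b j h3] with y hy
    exact h.Q_id _ p (Or.inl (by rw [hlc]; exact hy))
  · left
    filter_upwards [S1L_ev' b j (show (r : ℝ) + 1 / e + R0 < b.repr x j by linarith)] with y hy
    exact h.P_id p (Or.inr hy)

lemma S1L_E.levN' (h : S1L_E b j T0 S' u M ε e R0 r Hp Hm) :
    ALevS b (j : ℕ) (cut b j (-(r + 1 / e + R0)) (r + 1 / e + R0) S') (S1L_N' b j r Hp Hm) := by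
  have he : 0 < 1 / e := one_div_pos.2 h.he
  have hR := h.hR0
  have hr := h.hr
  have hlc : ((-(r : ℤ) : ℤ) : ℝ) = -(r : ℝ) := by push_cast; rfl
  have h1 : ALevS b (j : ℕ) (cut b j (-(r + 1 / e + R0)) (r + 1 / e + R0) S')
      (S1L_P b j r Hp) :=
    h.levP.mono (cut_mono subset_rfl (by linarith) (by linarith))
  have h2 : ALevS b (j : ℕ) (cut b j (-(r + 1 / e + R0)) (r + 1 / e + R0) S')
      (S1L_Q b j (-(r : ℤ)) Hm) :=
    (h.levQ _).mono (cut_mono subset_rfl (by rw [hlc]; linarith) (by rw [hlc]; linarith))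
  refine S1L_comb h1 h2 (S1L_id b j _ _) ?_
  intro p x
  rcases lt_or_ge (b.repr x j) (r - R0) with h3 | h3
  · left
    filter_upwards [S1L_ev b j h3] with y hy
    exact h.P_id p (Or.inl hy)
  · right
    filter_upwards [S1L_ev' b j (show -(r : ℝ) + R0 < b.repr x j by linarith)] with y hy
    exact h.Q_id _ p (Or.inr (by rw [hlc]; exact hy))

lemma S1L_E.N0 (h : S1L_E b j T0 S' u M ε e R0 r Hp Hm) {l : ℕ+}
    (hl : 2 * (r + 1 / e + R0) + 2 ≤ ((l : ℕ) : ℝ)) (t : T) (x : Phase n) :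
    S1L_N b j r l Hp Hm (t, 0) x = S1L_g M u t (S1L_th0 e r ((l : ℕ) : ℝ) (b.repr x j)) x := by
  have he : 0 < 1 / e := one_div_pos.2 h.he
  have hR := h.hR0
  have hr := h.hr
  have hlc : ((((l : ℕ) : ℤ) - r : ℤ) : ℝ) = ((l : ℕ) : ℝ) - r := by push_cast; rfl
  unfold S1L_N S1L_th0
  rw [h.P0, h.Q0, hlc]
  rcases lt_or_ge (b.repr x j) (((l : ℕ) : ℝ) / 2) with h3 | h3
  · rw [S1L_dn_one h.he (by linarith), mul_one, h.D.high le_rfl, add_sub_cancel_right]
  · rw [S1L_up_one h.he (by linarith), one_mul, h.D.high le_rfl]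
    abel

lemma S1L_E.N'0 (h : S1L_E b j T0 S' u M ε e R0 r Hp Hm) (t : T) (x : Phase n) :
    S1L_N' b j r Hp Hm (t, 0) x = S1L_g M u t (S1L_ph e r (b.repr x j)) x := by
  have he : 0 < 1 / e := one_div_pos.2 h.he
  have hR := h.hR0
  have hr := h.hr
  have hlc : ((-(r : ℤ) : ℤ) : ℝ) = -(r : ℝ) := by push_cast; rfl
  unfold S1L_N' S1L_ph
  rw [h.P0, h.Q0, hlc]
  rcases lt_or_ge (b.repr x j) 0 with h3 | h3
  · rw [S1L_up_zero h.he (by linarith), add_zero, h.D.low le_rfl]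
    abel
  · rw [S1L_dn_zero h.he (by linarith), zero_add, h.D.low le_rfl, add_sub_cancel_right]

lemma S1L_E.P1 (h : S1L_E b j T0 S' u M ε e R0 r Hp Hm) (t : T) (x : Phase n) :
    S1L_P b j r Hp (t, 1) x = x := S1L_C_id b j _ (h.onep t) x

lemma S1L_E.Q1 (h : S1L_E b j T0 S' u M ε e R0 r Hp Hm) (c : ℤ) (t : T) (x : Phase n) :
    S1L_Q b j c Hm (t, 1) x = x := S1L_C_id b j _ (h.onem t) x

lemma S1L_E.Prel (h : S1L_E b j T0 S' u M ε e R0 r Hp Hm) {t : T} (ht : t ∈ T0) (s : I)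
    (x : Phase n) : S1L_P b j r Hp (t, s) x = x := S1L_C_id b j _ (h.relp t ht s) x

lemma S1L_E.Qrel (h : S1L_E b j T0 S' u M ε e R0 r Hp Hm) (c : ℤ) {t : T} (ht : t ∈ T0) (s : I)
    (x : Phase n) : S1L_Q b j c Hm (t, s) x = x := S1L_C_id b j _ (h.relm t ht s) x

lemma S1L_E.N1 (h : S1L_E b j T0 S' u M ε e R0 r Hp Hm) {l : ℕ+} (t : T) (x : Phase n) :
    S1L_N b j r l Hp Hm (t, 1) x = x := by
  unfold S1L_N
  rw [h.P1, h.Q1, add_sub_cancel_right]

lemma S1L_E.N'1 (h : S1L_E b j T0 S' u M ε e R0 r Hp Hm) (t : T) (x : Phase n) :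
    S1L_N' b j r Hp Hm (t, 1) x = x := by
  unfold S1L_N'
  rw [h.P1, h.Q1, add_sub_cancel_right]

lemma S1L_E.Nrel (h : S1L_E b j T0 S' u M ε e R0 r Hp Hm) {l : ℕ+} {t : T} (ht : t ∈ T0) (s : I)
    (x : Phase n) : S1L_N b j r l Hp Hm (t, s) x = x := by
  unfold S1L_N
  rw [h.Prel ht, h.Qrel _ ht, add_sub_cancel_right]

lemma S1L_E.N'rel (h : S1L_E b j T0 S' u M ε e R0 r Hp Hm) {t : T} (ht : t ∈ T0) (s : I)
    (x : Phase n) : S1L_N' b j r Hp Hm (t, s) x = x := by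
  unfold S1L_N'
  rw [h.Prel ht, h.Qrel _ ht, add_sub_cancel_right]

/-- the periodizations of the two null homotopies are the same -/
lemma S1L_E.perN (h : S1L_E b j T0 S' u M ε e R0 r Hp Hm) {l : ℕ+}
    (hl : 2 * (r + 1 / e + R0) + 2 ≤ ((l : ℕ) : ℝ)) (p : T × I) (x : Phase n) :
    perM (scal b (one1 j l)) j (1 / 2) (S1L_N' b j r Hp Hm p) x =
      perM (scal b (one1 j l)) j 0 (S1L_N b j r l Hp Hm p) x := by
  have he : 0 < 1 / e := one_div_pos.2 h.he
  have hR := h.hR0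
  have hr := h.hr
  have hr0 : 0 < (r : ℝ) := by linarith
  have hl0 : (0 : ℝ) < ((l : ℕ) : ℝ) := by linarith
  have hlc : ((((l : ℕ) : ℤ) - r : ℤ) : ℝ) = ((l : ℕ) : ℝ) - r := by push_cast; rfl
  have hrc : ((-(r : ℤ) : ℤ) : ℝ) = -(r : ℝ) := by push_cast; rfl
  rw [S1L_perM, S1L_perM, add_zero]
  obtain ⟨k, hk⟩ : ∃ k : ℤ, k = ⌊b.repr x j / ((l : ℕ) : ℝ) + 1 / 2⌋ := ⟨_, rfl⟩
  obtain ⟨ξ, hξ⟩ : ∃ ξ, ξ = b.repr x j := ⟨_, rfl⟩
  obtain ⟨L, hL⟩ : ∃ L : ℝ, L = ((l : ℕ) : ℝ) := ⟨_, rfl⟩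
  have hk1 : (k : ℝ) * L - L / 2 ≤ ξ := by
    have h1 := Int.floor_le (b.repr x j / ((l : ℕ) : ℝ) + 1 / 2)
    rw [← hk, ← hξ, ← hL] at h1
    have h2 : (k : ℝ) - 1 / 2 ≤ ξ / L := by linarith
    rw [le_div_iff₀ (by rw [hL]; exact hl0)] at h2
    linarith
  have hk2 : ξ < (k : ℝ) * L + L / 2 := by
    have h1 := Int.lt_floor_add_one (b.repr x j / ((l : ℕ) : ℝ) + 1 / 2)
    rw [← hk, ← hξ, ← hL] at h1
    have h2 : ξ / L < (k : ℝ) + 1 / 2 := by linarith
    rw [div_lt_iff₀ (by rw [hL]; exact hl0)] at h2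
    linarith
  rw [← hk, ← hξ]
  rw [← hL] at hl hl0 hlc
  have hkl : ∀ m : ℤ, ((m * ((l : ℕ) : ℤ) : ℤ) : ℝ) = (m : ℝ) * L := by
    intro m
    push_cast
    rw [hL]
  rw [hkl]
  rcases le_or_gt ((k : ℝ) * L) ξ with h3 | h3
  · have h4 : ⌊ξ / ((l : ℕ) : ℝ)⌋ = k := by
      rw [← hL, Int.floor_eq_iff, le_div_iff₀ hl0, div_lt_iff₀ hl0]
      constructor
      · exact h3
      · nlinarith
    rw [h4, hkl]
    unfold S1L_C
    obtain ⟨y, hy⟩ : ∃ y, y = x - ((k : ℝ) * L) • b j := ⟨_, rfl⟩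
    have hyr : b.repr y j = ξ - (k : ℝ) * L := by rw [hy, repr_sub_smul_self, hξ]
    rw [← hy]
    unfold S1L_N S1L_N'
    rw [h.Q_id _ p (Or.inr (by rw [hyr, hrc]; linarith)),
      h.Q_id _ p (Or.inl (by rw [hyr, hlc]; linarith))]
  · have h4 : ⌊ξ / ((l : ℕ) : ℝ)⌋ = k - 1 := by
      rw [← hL, Int.floor_eq_iff]
      push_cast
      rw [le_div_iff₀ hl0, div_lt_iff₀ hl0]
      constructor
      · nlinarith
      · nlinarith
    rw [h4, hkl]
    unfold S1L_C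
    obtain ⟨y, hy⟩ : ∃ y, y = x - ((k : ℝ) * L) • b j := ⟨_, rfl⟩
    have hyr : b.repr y j = ξ - (k : ℝ) * L := by rw [hy, repr_sub_smul_self, hξ]
    have hy' : x - (((k - 1 : ℤ) : ℝ) * L) • b j = y + L • b j := by
      rw [hy]
      push_cast
      rw [sub_mul, one_mul, sub_smul]
      abel
    have hyr' : b.repr (y + L • b j) j = ξ - (k : ℝ) * L + L := by
      rw [repr_add_smul_self, hyr]
    rw [← hy, hy']
    unfold S1L_N S1L_N'
    rw [h.P_id p (x := y) (Or.inl (by rw [hyr]; linarith)),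
      h.P_id p (x := y + L • b j) (Or.inr (by rw [hyr']; linarith))]
    unfold S1L_Q S1L_C
    rw [hlc, hrc]
    have h5 : y - (-(r : ℝ)) • b j = y + (r : ℝ) • b j := by rw [neg_smul, sub_neg_eq_add]
    have h6 : y + L • b j - (L - (r : ℝ)) • b j = y + (r : ℝ) • b j := by
      rw [sub_smul]
      abel
    rw [h5, h6]
    push_cast
    rw [neg_smul, sub_smul, sub_mul, one_mul, sub_smul]
    abel

/-- the first half of the first loop -/
noncomputable def S1L_A (b : Module.Basis (Fin N) ℝ (Phase n)) (j : Fin N) (M : ℕ) (e : ℝ) (r : ℕ)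
    (l : ℕ+) {T : Type} (u : T × I → Equiv.Perm (Phase n)) (p : T × I) (x : Phase n) : Phase n :=
  S1L_G b j M u Prod.fst (fun q : T × I => (q.2 : ℝ)) (fun _ => 0) (S1L_th0 e r ((l : ℕ) : ℝ)) p x

/-- the second half of the second loop -/
noncomputable def S1L_B (b : Module.Basis (Fin N) ℝ (Phase n)) (j : Fin N) (M : ℕ) (e : ℝ) (r : ℕ)
    {T : Type} (u : T × I → Equiv.Perm (Phase n)) (p : T × I) (x : Phase n) : Phase n :=
  S1L_G b j M u Prod.fst (fun q : T × I => 1 - (q.2 : ℝ)) (fun q : T × I => (q.2 : ℝ))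
    (S1L_ph e r) p x

lemma S1L_I_abs (a : I) : |(a : ℝ)| ≤ 1 := by
  rw [abs_of_nonneg a.2.1]
  exact a.2.2

lemma S1L_I_abs' (a : I) : |1 - (a : ℝ)| ≤ 1 := by
  have h1 := a.2.1
  have h2 := a.2.2
  rw [abs_le]
  constructor
  · linarith
  · linarith

lemma S1L_I_abs2 (a c : ℝ) (ha : 0 ≤ a) (ha' : a ≤ 1) (hc : 0 ≤ c) (hc' : c ≤ 1) :
    |a - c| ≤ 1 := by
  rw [abs_le]
  constructor
  · linarith
  · linarith

lemma S1L_E.levA (h : S1L_E b j T0 S' u M ε e R0 r Hp Hm) {l : ℕ+} :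
    ALevS b (j : ℕ) (cut b j 1 (((l : ℕ) : ℝ) - 1) S') (S1L_A b j M e r l u) := by
  have hR := h.hR0
  have hr := h.hr
  refine h.D.levG continuous_fst (continuous_subtype_val.comp continuous_snd) continuous_const
    (fun q => S1L_I_abs q.2) (S1L_th0_smooth _ _ _) (h.th0 _) ?_
  intro p ξ
  by_cases h1 : 1 ≤ ξ ∧ ξ ≤ ((l : ℕ) : ℝ) - 1
  · exact Or.inl h1
  · right
    left
    rw [S1L_th0_zero h.he]
    · simp
    · by_contra h2
      push Not at h2
      exact h1 ⟨by linarith [h2.1], by linarith [h2.2]⟩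

lemma S1L_E.levB (h : S1L_E b j T0 S' u M ε e R0 r Hp Hm) :
    ALevS b (j : ℕ) (cut b j (-(r + 1 / e + R0)) (r + 1 / e + R0) S') (S1L_B b j M e r u) := by
  have he : 0 < 1 / e := one_div_pos.2 h.he
  have hR := h.hR0
  have hr := h.hr
  refine h.D.levG continuous_fst
    (continuous_const.sub (continuous_subtype_val.comp continuous_snd))
    (continuous_subtype_val.comp continuous_snd)
    (fun q => S1L_I_abs' q.2) (S1L_ph_smooth _ _) h.ph ?_
  intro p ξ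
  by_cases h1 : -(r + 1 / e + R0) ≤ ξ ∧ ξ ≤ r + 1 / e + R0
  · exact Or.inl h1
  · right
    right
    have h2 : S1L_ph e r ξ = 1 := by
      unfold S1L_ph
      rcases lt_or_ge ξ (-(r + 1 / e + R0)) with h3 | h3
      · rw [S1L_dn_one h.he (by linarith), S1L_up_zero h.he (by linarith), add_zero]
      · have h4 : r + 1 / e + R0 < ξ := by
          by_contra h5
          exact h1 ⟨h3, not_lt.1 h5⟩
        rw [S1L_dn_zero h.he (by linarith), S1L_up_one h.he (by linarith), zero_add]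
    rw [h2]
    show 1 ≤ (1 - (p.2 : ℝ)) * 1 + (p.2 : ℝ)
    linarith

omit [TopologicalSpace T] in
lemma S1L_E.A_apply (e : ℝ) (r : ℕ) (l : ℕ+) (t : T) (s : I) (x : Phase n) :
    S1L_A b j M e r l u (t, s) x =
      S1L_g M u t ((s : ℝ) * S1L_th0 e r ((l : ℕ) : ℝ) (b.repr x j) + 0) x := rfl

omit [TopologicalSpace T] in
lemma S1L_E.B_apply (e : ℝ) (r : ℕ) (t : T) (s : I) (x : Phase n) :
    S1L_B b j M e r u (t, s) x =
      S1L_g M u t ((1 - (s : ℝ)) * S1L_ph e r (b.repr x j) + (s : ℝ)) x := rfl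

/-- periodization of the families with phases -/
lemma S1L_E.perA (h : S1L_E b j T0 S' u M ε e R0 r Hp Hm) {l : ℕ+} (t : T) (s : I)
    (x : Phase n) : perM (scal b (one1 j l)) j 0 (S1L_A b j M e r l u (t, s)) x =
      S1L_g M u t ((s : ℝ) * S1L_th e r ((l : ℕ) : ℝ) (b.repr x j) + 0) x := by
  rw [S1L_perM, add_zero]
  have h1 : S1L_A b j M e r l u (t, s) = fun y => S1L_g M u t
      ((fun ξ => (s : ℝ) * S1L_th0 e r ((l : ℕ) : ℝ) ξ + 0) (b.repr y j)) y := rfl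
  rw [h1, h.D.conjg t _ (fun ξ => (s : ℝ) * S1L_th0 e r ((l : ℕ) : ℝ) ξ + 0) x]
  show S1L_g M u t _ x = _
  beta_reduce
  push_cast
  rfl

lemma S1L_E.perB (h : S1L_E b j T0 S' u M ε e R0 r Hp Hm) {l : ℕ+}
    (hl : 2 * (r + 1 / e + R0) + 2 ≤ ((l : ℕ) : ℝ)) (t : T) (s : I)
    (x : Phase n) : perM (scal b (one1 j l)) j (1 / 2) (S1L_B b j M e r u (t, s)) x =
      S1L_g M u t ((1 - (s : ℝ)) * S1L_th e r ((l : ℕ) : ℝ) (b.repr x j) + (s : ℝ)) x := by
  have he : 0 < 1 / e := one_div_pos.2 h.he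
  have hR := h.hR0
  have hr := h.hr
  have hr0 : 0 < (r : ℝ) := by linarith
  have hl0 : (0 : ℝ) < ((l : ℕ) : ℝ) := by linarith
  rw [S1L_perM]
  have h1 : S1L_B b j M e r u (t, s) = fun y => S1L_g M u t
      ((fun ξ => (1 - (s : ℝ)) * S1L_ph e r ξ + (s : ℝ)) (b.repr y j)) y := rfl
  rw [h1, h.D.conjg t _ (fun ξ => (1 - (s : ℝ)) * S1L_ph e r ξ + (s : ℝ)) x]
  beta_reduce
  obtain ⟨k, hk⟩ : ∃ k : ℤ, k = ⌊b.repr x j / ((l : ℕ) : ℝ) + 1 / 2⌋ := ⟨_, rfl⟩
  rw [← hk]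
  have hk1 : (k : ℝ) * ((l : ℕ) : ℝ) - ((l : ℕ) : ℝ) / 2 ≤ b.repr x j := by
    have h1 := Int.floor_le (b.repr x j / ((l : ℕ) : ℝ) + 1 / 2)
    rw [← hk] at h1
    have h2 : (k : ℝ) - 1 / 2 ≤ b.repr x j / ((l : ℕ) : ℝ) := by linarith
    rw [le_div_iff₀ hl0] at h2
    linarith
  have hk2 : b.repr x j < (k : ℝ) * ((l : ℕ) : ℝ) + ((l : ℕ) : ℝ) / 2 := by
    have h1 := Int.lt_floor_add_one (b.repr x j / ((l : ℕ) : ℝ) + 1 / 2)
    rw [← hk] at h1
    have h2 : b.repr x j / ((l : ℕ) : ℝ) < (k : ℝ) + 1 / 2 := by linarith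
    rw [div_lt_iff₀ hl0] at h2
    linarith
  have h2 := S1L_ph_eq (e := e) (r := r) (l := ((l : ℕ) : ℝ)) h.he hr0 (by linarith) k hk1 hk2
  have h3 : (((k * ((l : ℕ) : ℤ)) : ℤ) : ℝ) = (k : ℝ) * ((l : ℕ) : ℝ) := by push_cast; rfl
  rw [h3, h2]

/-- the first loop -/
noncomputable def S1L_y1 (b : Module.Basis (Fin N) ℝ (Phase n)) (j : Fin N) (M : ℕ) (e : ℝ) (r : ℕ)
    (l : ℕ+) {T : Type} (u : T × I → Equiv.Perm (Phase n)) (Hp Hm : T × I → Phase n → Phase n)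
    (p : T × I) (x : Phase n) : Phase n :=
  S1L_A b j M e r l u (p.1, tau p.2) x + S1L_N b j r l Hp Hm (p.1, tau' p.2) x -
    S1L_A b j M e r l u (p.1, 1) x

/-- the second loop -/
noncomputable def S1L_y2 (b : Module.Basis (Fin N) ℝ (Phase n)) (j : Fin N) (M : ℕ) (e : ℝ) (r : ℕ)
    {T : Type} (u : T × I → Equiv.Perm (Phase n)) (Hp Hm : T × I → Phase n → Phase n)
    (p : T × I) (x : Phase n) : Phase n :=
  S1L_N' b j r Hp Hm (p.1, unitInterval.symm (tau p.2)) x + S1L_B b j M e r u (p.1, tau' p.2) x -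
    S1L_B b j M e r u (p.1, 0) x

lemma S1L_E.NA (h : S1L_E b j T0 S' u M ε e R0 r Hp Hm) {l : ℕ+}
    (hl : 2 * (r + 1 / e + R0) + 2 ≤ ((l : ℕ) : ℝ)) (t : T) (x : Phase n) :
    S1L_N b j r l Hp Hm (t, 0) x = S1L_A b j M e r l u (t, 1) x := by
  rw [h.N0 hl, S1L_E.A_apply, Icc.coe_one, one_mul, add_zero]

lemma S1L_E.NB (h : S1L_E b j T0 S' u M ε e R0 r Hp Hm) (t : T) (x : Phase n) :
    S1L_N' b j r Hp Hm (t, 0) x = S1L_B b j M e r u (t, 0) x := by
  rw [h.N'0, S1L_E.B_apply, Icc.coe_zero, sub_zero, one_mul, add_zero]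

lemma S1L_E.A0 (h : S1L_E b j T0 S' u M ε e R0 r Hp Hm) {l : ℕ+} (t : T) (x : Phase n) :
    S1L_A b j M e r l u (t, 0) x = x := by
  rw [S1L_E.A_apply, Icc.coe_zero, zero_mul, add_zero]
  exact h.D.low le_rfl x

lemma S1L_E.B1 (h : S1L_E b j T0 S' u M ε e R0 r Hp Hm) (t : T) (x : Phase n) :
    S1L_B b j M e r u (t, 1) x = x := by
  rw [S1L_E.B_apply, Icc.coe_one, sub_self, zero_mul, zero_add]
  exact h.D.high le_rfl x

lemma S1L_E.levy1 (h : S1L_E b j T0 S' u M ε e R0 r Hp Hm) {l : ℕ+}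
    (hl : 2 * (r + 1 / e + R0) + 2 ≤ ((l : ℕ) : ℝ)) :
    ALevS b (j : ℕ) (cut b j 1 (((l : ℕ) : ℝ) - 1) S') (S1L_y1 b j M e r l u Hp Hm) := by
  refine S1L_comb
    (h.levA.reparam (continuous_fst.prodMk (continuous_tau.comp continuous_snd)))
    ((h.levN hl).reparam (continuous_fst.prodMk (continuous_tau'.comp continuous_snd)))
    (h.levA.reparam (continuous_fst.prodMk continuous_const)) ?_
  intro p x
  rcases tau_cases p.2 with h1 | h1
  · right
    refine Filter.Eventually.of_forall fun y => ?_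
    rw [h1]
    exact h.NA hl p.1 y
  · left
    refine Filter.Eventually.of_forall fun y => ?_
    rw [h1]

lemma S1L_E.levy2 (h : S1L_E b j T0 S' u M ε e R0 r Hp Hm) :
    ALevS b (j : ℕ) (cut b j (-(r + 1 / e + R0)) (r + 1 / e + R0) S')
      (S1L_y2 b j M e r u Hp Hm) := by
  refine S1L_comb
    (h.levN'.reparam (continuous_fst.prodMk
      (unitInterval.continuous_symm.comp (continuous_tau.comp continuous_snd))))
    (h.levB.reparam (continuous_fst.prodMk (continuous_tau'.comp continuous_snd)))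
    (h.levB.reparam (continuous_fst.prodMk continuous_const)) ?_
  intro p x
  rcases tau_cases p.2 with h1 | h1
  · right
    refine Filter.Eventually.of_forall fun y => ?_
    rw [h1]
  · left
    refine Filter.Eventually.of_forall fun y => ?_
    rw [h1, unitInterval.symm_one]
    exact h.NB p.1 y

lemma S1L_E.rely (h : S1L_E b j T0 S' u M ε e R0 r Hp Hm) {l : ℕ+}
    (hl : 2 * (r + 1 / e + R0) + 2 ≤ ((l : ℕ) : ℝ)) (p : T × I) (hp : p ∈ relI T0)
    (x : Phase n) :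
    S1L_y1 b j M e r l u Hp Hm p x = x ∧ S1L_y2 b j M e r u Hp Hm p x = x := by
  obtain ⟨t, a⟩ := p
  unfold S1L_y1 S1L_y2
  simp only
  rcases hp with hp | hp | hp
  · have hA : ∀ s, S1L_A b j M e r l u (t, s) x = x := fun s => h.D.relT hp _ x
    have hB : ∀ s, S1L_B b j M e r u (t, s) x = x := fun s => h.D.relT hp _ x
    rw [hA, hA, hB, hB, h.Nrel hp, h.N'rel hp]
    exact ⟨by abel, by abel⟩
  · have ha : a = 0 := hp
    subst ha
    rw [tau_zero, tau'_zero, h.A0, h.NA hl, unitInterval.symm_zero, h.N'1]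
    exact ⟨by abel, by abel⟩
  · have ha : a = 1 := hp
    subst ha
    rw [tau_one, tau'_one, h.N1, unitInterval.symm_one, h.NB, h.B1]
    exact ⟨by abel, by abel⟩

/-! ### The homotopies in the cover -/

/-- the reparametrisation of the first term -/
noncomputable def S1L_c1 (a : I) : I := tau (tau a)

/-- the reparametrisation of the third term -/
noncomputable def S1L_c3 (a : I) : I := tau' (tau' a)

/-- the reparametrisation of the second term -/
noncomputable def S1L_c2 (a : I) : I := tau' (tau a) * unitInterval.symm (tau (tau' a))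

lemma S1L_c1_cont : Continuous S1L_c1 := continuous_tau.comp continuous_tau

lemma S1L_c3_cont : Continuous S1L_c3 := continuous_tau'.comp continuous_tau'

lemma S1L_c2_cont : Continuous S1L_c2 :=
  (continuous_tau'.comp continuous_tau).mul
    (unitInterval.continuous_symm.comp (continuous_tau.comp continuous_tau'))

lemma S1L_c_cases (a : I) : S1L_c2 a = 0 ∨ (S1L_c1 a = 1 ∧ S1L_c3 a = 0) := by
  unfold S1L_c1 S1L_c2 S1L_c3
  rcases tau_cases a with h1 | h1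
  · rw [h1, tau_zero, tau'_zero]
    rcases tau_cases (tau a) with h2 | h2
    · left
      rw [h2, zero_mul]
    · right
      exact ⟨h2, rfl⟩
  · rw [h1, tau_one, tau'_one]
    rcases tau_cases (tau' a) with h2 | h2
    · right
      exact ⟨rfl, h2⟩
    · left
      rw [h2, unitInterval.symm_one, mul_zero]

/-- the periodization of the null homotopy -/
noncomputable def S1L_PN (b : Module.Basis (Fin N) ℝ (Phase n)) (j : Fin N) (r : ℕ) (l : ℕ+)
    {T : Type} (Hp Hm : T × I → Phase n → Phase n) (p : T × I) (x : Phase n) : Phase n :=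
  perM (scal b (one1 j l)) j 0 (S1L_N b j r l Hp Hm p) x

lemma S1L_E.levPN (h : S1L_E b j T0 S' u M ε e R0 r Hp Hm) (hPer : St_PerA) {l : ℕ+}
    (hl : 2 * (r + 1 / e + R0) + 2 ≤ ((l : ℕ) : ℝ)) :
    ALevS (scal b (one1 j l)) ((j : ℕ) + 1) S' (S1L_PN b j r l Hp Hm) := by
  have he : 0 < 1 / e := one_div_pos.2 h.he
  have hR := h.hR0
  have hr := h.hr
  have hl0 : (0 : ℝ) < ((l : ℕ) : ℝ) := by linarith
  have h1 : (2 : ℝ) ≤ ((l : ℕ) : ℝ) := by linarith
  refine hPer (scal b (one1 j l)) j (T × I) S' (S1L_cyl h.D.cyl) 0 (1 / ((l : ℕ) : ℝ))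
    (by positivity) (by rw [div_le_div_iff₀ hl0 (by norm_num)]; linarith) _ ?_
  refine (S1L_alevS (h.levN hl)).mono ?_
  intro x hx
  refine ⟨hx.1, ?_⟩
  have h2 := hx.2
  change _ ≤ b.repr x j ∧ b.repr x j ≤ _ at h2
  change 1 / ((l : ℕ) : ℝ) - 0 ≤ (scal b (one1 j l)).repr x j ∧
    (scal b (one1 j l)).repr x j ≤ 1 - 1 / ((l : ℕ) : ℝ) - 0
  rw [S1L_repr_self, sub_zero, sub_zero]
  constructor
  · rw [div_le_div_iff_of_pos_right hl0]
    exact h2.1
  · rw [div_le_iff₀ hl0, sub_mul, one_mul, div_mul_cancel₀ _ hl0.ne']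
    exact h2.2

lemma S1L_E.PN0 (h : S1L_E b j T0 S' u M ε e R0 r Hp Hm) {l : ℕ+}
    (hl : 2 * (r + 1 / e + R0) + 2 ≤ ((l : ℕ) : ℝ)) (t : T) (x : Phase n) :
    S1L_PN b j r l Hp Hm (t, 0) x =
      S1L_g M u t (1 * S1L_th e r ((l : ℕ) : ℝ) (b.repr x j) + 0) x := by
  unfold S1L_PN
  have h1 : S1L_N b j r l Hp Hm (t, 0) = S1L_A b j M e r l u (t, 1) := funext (h.NA hl t)
  rw [h1, h.perA, Icc.coe_one]

lemma S1L_E.PN1 (h : S1L_E b j T0 S' u M ε e R0 r Hp Hm) {l : ℕ+} (t : T) (x : Phase n) :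
    S1L_PN b j r l Hp Hm (t, 1) x = x := S1L_perM_id _ _ _ (h.N1 t) x

lemma S1L_E.PNrel (h : S1L_E b j T0 S' u M ε e R0 r Hp Hm) {l : ℕ+} {t : T} (ht : t ∈ T0)
    (s : I) (x : Phase n) : S1L_PN b j r l Hp Hm (t, s) x = x :=
  S1L_perM_id _ _ _ (h.Nrel ht s) x

/-- the periodization of the two loops -/
lemma S1L_E.final (h : S1L_E b j T0 S' u M ε e R0 r Hp Hm) {l : ℕ+}
    (hl : 2 * (r + 1 / e + R0) + 2 ≤ ((l : ℕ) : ℝ)) (t : T) (a : I) (x : Phase n) :
    S1L_g M u t (((S1L_c1 a : ℝ) - (S1L_c3 a : ℝ)) * S1L_th e r ((l : ℕ) : ℝ) (b.repr x j) +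
        (S1L_c3 a : ℝ)) x + S1L_PN b j r l Hp Hm (t, S1L_c2 a) x -
      S1L_g M u t (1 * S1L_th e r ((l : ℕ) : ℝ) (b.repr x j) + 0) x =
    perM (scal b (one1 j l)) j 0 (S1L_y1 b j M e r l u Hp Hm (t, tau a)) x +
      perM (scal b (one1 j l)) j (1 / 2) (S1L_y2 b j M e r u Hp Hm (t, tau' a)) x - x := by
  have e1 : perM (scal b (one1 j l)) j 0 (S1L_y1 b j M e r l u Hp Hm (t, tau a)) x =
      S1L_g M u t ((tau (tau a) : ℝ) * S1L_th e r ((l : ℕ) : ℝ) (b.repr x j) + 0) x +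
        S1L_PN b j r l Hp Hm (t, tau' (tau a)) x -
        S1L_g M u t (1 * S1L_th e r ((l : ℕ) : ℝ) (b.repr x j) + 0) x := by
    have h1 := S1L_perM_comb (scal b (one1 j l)) j 0 (S1L_A b j M e r l u (t, tau (tau a)))
      (S1L_N b j r l Hp Hm (t, tau' (tau a))) (S1L_A b j M e r l u (t, 1)) x
    rw [h.perA, h.perA, Icc.coe_one] at h1
    exact h1
  have e2 : perM (scal b (one1 j l)) j (1 / 2) (S1L_y2 b j M e r u Hp Hm (t, tau' a)) x =
      S1L_PN b j r l Hp Hm (t, unitInterval.symm (tau (tau' a))) x +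
      S1L_g M u t ((1 - (tau' (tau' a) : ℝ)) * S1L_th e r ((l : ℕ) : ℝ) (b.repr x j) +
        (tau' (tau' a) : ℝ)) x -
        S1L_g M u t ((1 - 0) * S1L_th e r ((l : ℕ) : ℝ) (b.repr x j) + 0) x := by
    have h1 := S1L_perM_comb (scal b (one1 j l)) j (1 / 2)
      (S1L_N' b j r Hp Hm (t, unitInterval.symm (tau (tau' a))))
      (S1L_B b j M e r u (t, tau' (tau' a))) (S1L_B b j M e r u (t, 0)) x
    rw [h.perB hl, h.perB hl, Icc.coe_zero, h.perN hl] at h1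
    exact h1
  rw [e1, e2]
  unfold S1L_c1 S1L_c2 S1L_c3
  rcases tau_cases a with h1 | h1
  · rw [h1, tau_zero, tau'_zero, unitInterval.symm_zero, mul_one, h.PN1, Icc.coe_zero,
      sub_zero, sub_zero]
    abel
  · rw [h1, tau_one, tau'_one, one_mul, h.PN1, Icc.coe_one, sub_zero]
    abel

end con

/-- [S1L] -/
theorem thm_S1L (hN : St_PhNull) (hQ : St_SeqPh) (_hP : St_PhLin) (hG : St_GrAdm)
    (hA : St_AHSc) (hR : St_PerA) : St_S1L := by
  intro n N b j T _ _ T0 S' hS u hu hrel hIs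
  obtain ⟨M1, hM1, hN1⟩ := hN b j T T0 S' hS u hu hrel hIs
  obtain ⟨M2, hM2, hQ1⟩ := hQ b j T T0 S' hS u hu hrel
  obtain ⟨Rt, htame⟩ := hu.tame hS
  obtain ⟨M3, hM3, hG1⟩ := hG b j T Rt (fun p x => u p x) htame
  obtain ⟨M, hM⟩ : ∃ M, M = max M1 (max M2 M3) := ⟨_, rfl⟩
  have m1 : M1 ≤ M := by rw [hM]; exact le_max_left _ _
  have m2 : M2 ≤ M := by rw [hM]; exact (le_max_left _ _).trans (le_max_right _ _)
  have m3 : M3 ≤ M := by rw [hM]; exact (le_max_right _ _).trans (le_max_right _ _)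
  obtain ⟨ε1, hε1, hN2⟩ := hN1 M m1
  obtain ⟨ε2, hε2, hQ2⟩ := hQ1 M m2
  obtain ⟨ε3, hε3, hG2⟩ := hG1 M m3 M m3
  obtain ⟨ε, hε⟩ : ∃ ε, ε = min ε1 (min ε2 ε3) := ⟨_, rfl⟩
  have hε0 : 0 < ε := by rw [hε]; exact lt_min hε1 (lt_min hε2 hε3)
  have g1 : ε ≤ ε1 := by rw [hε]; exact min_le_left _ _
  have g2 : ε ≤ ε2 := by rw [hε]; exact (min_le_right _ _).trans (min_le_left _ _)
  have g3 : ε ≤ ε3 := by rw [hε]; exact (min_le_right _ _).trans (min_le_right _ _)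
  obtain ⟨C, hC0, hC⟩ := gri_deriv_bound
  obtain ⟨e, he⟩ : ∃ e, e = ε / (2 * (C + 1)) := ⟨_, rfl⟩
  have he0 : 0 < e := by rw [he]; positivity
  have hCe : 2 * (C * e) ≤ ε := by
    have h1 : 2 * ((C + 1) * e) = ε := by
      rw [he]
      field_simp
    nlinarith
  have hCe' : C * e ≤ ε := by
    have h1 : 0 ≤ C * e := by positivity
    linarith
  have hinv : 0 < 1 / e := by positivity
  have D : S1L_D b j T0 S' u M ε := by
    refine ⟨hS, hu, hrel, lt_of_lt_of_le hM1 m1, ?_⟩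
    intro φ hφ hφ' t x
    have h1 := (hG2 φ hφ (fun ξ => (hφ' ξ).trans g3) t x 0 ⟨le_rfl, zero_le_one⟩).1
    rw [sub_zero, one_smul, zero_smul, add_zero] at h1
    exact h1
  obtain ⟨R1, hR1, hup⟩ := hN2 (S1L_up e 0) 0 (1 / e) (S1L_up_smooth e 0)
    (fun ξ => (S1L_up_deriv hC he0 0 ξ).trans (hCe'.trans g1)) hinv.le
    (Or.inl fun ξ hξ => (S1L_up_zero he0 hξ).le)
    (Or.inr fun ξ hξ => (S1L_up_one he0 (by linarith)).ge)
  obtain ⟨R2, hR2, hdn⟩ := hN2 (S1L_dn e 0) (-(1 / e)) 0 (S1L_dn_smooth e 0)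
    (fun ξ => (S1L_dn_deriv hC he0 0 ξ).trans (hCe'.trans g1)) (by linarith)
    (Or.inr fun ξ hξ => (S1L_dn_one he0 (by linarith)).ge)
    (Or.inl fun ξ hξ => (S1L_dn_zero he0 hξ).le)
  obtain ⟨R0, hR0⟩ : ∃ R0, R0 = max R1 R2 := ⟨_, rfl⟩
  have r1 : R1 ≤ R0 := by rw [hR0]; exact le_max_left _ _
  have r2 : R2 ≤ R0 := by rw [hR0]; exact le_max_right _ _
  obtain ⟨Hp, hp1, hp2, hp3, hp4⟩ := hup
  obtain ⟨Hm, hm1, hm2, hm3, hm4⟩ := hdn
  obtain ⟨r, hr⟩ := exists_nat_ge (R0 + 1)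
  have E : S1L_E b j T0 S' u M ε e R0 r Hp Hm :=
    { D := D
      he := he0
      hR0 := hR1.trans r1
      hr := hr
      th0 := fun l ξ => (S1L_th0_deriv hC he0 r l ξ).trans hCe
      ph := fun ξ => (S1L_ph_deriv hC he0 r ξ).trans hCe
      levp := hp1.mono (cut_mono subset_rfl (by linarith) (by linarith))
      zerop := hp2
      onep := hp3
      relp := hp4
      levm := hm1.mono (cut_mono subset_rfl (by linarith) (by linarith))
      zerom := hm2
      onem := hm3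
      relm := hm4 }
  have hr0 : 0 < (r : ℝ) := by
    have := E.hR0
    linarith
  have hRR : 0 ≤ r + 1 / e + R0 := by
    have := E.hR0
    linarith
  refine ⟨r + 1 / e + R0, ⌈2 * (r + 1 / e + R0) + 2⌉₊, hRR, fun l hl => ?_⟩
  have hl' : 2 * (r + 1 / e + R0) + 2 ≤ ((l : ℕ) : ℝ) := Nat.ceil_le.1 hl
  have hrl : (r : ℝ) ≤ ((l : ℕ) : ℝ) := by
    have := E.hR0
    linarith
  have hl0 : (0 : ℝ) < ((l : ℕ) : ℝ) := by linarith
  refine ⟨hl', S1L_y1 b j M e r l u Hp Hm, S1L_y2 b j M e r u Hp Hm, E.levy1 hl', E.levy2,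
    fun p hp x => E.rely hl' p hp x, ?_⟩
  obtain ⟨θ, hθ⟩ : ∃ θ, θ = S1L_th e r ((l : ℕ) : ℝ) := ⟨_, rfl⟩
  have t1 : ContDiff ℝ ∞ θ := by rw [hθ]; exact S1L_th_smooth he0 hr0 hrl
  have t2 : ∀ ξ, |deriv θ ξ| ≤ ε := fun ξ => by
    rw [hθ]
    exact (S1L_th_deriv hC he0 hr0 hrl ξ).trans hCe
  have t3 : ∀ ξ, 0 ≤ θ ξ ∧ θ ξ ≤ 1 := fun ξ => by rw [hθ]; exact S1L_th_mem _ _ _ _
  have t4 : ∀ ξ, θ (ξ + ((l : ℕ) : ℝ)) = θ ξ := fun ξ => by rw [hθ]; exact S1L_th_per hl0 ξ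
  have hq := hQ2 l θ t1 (fun ξ => (t2 ξ).trans g2) t3 t4
  -- the reparametrisation
  have hX : ∀ f g : I → I, Continuous f → Continuous g →
      Continuous (fun q : (T × I) × I => (1 - (q.2 : ℝ)) * (f q.1.2 : ℝ) +
        (q.2 : ℝ) * (g q.1.2 : ℝ)) := by
    intro f g hf hg
    have h1 : Continuous (fun q : (T × I) × I => (q.2 : ℝ)) :=
      continuous_subtype_val.comp continuous_snd
    have h2 : Continuous (fun q : (T × I) × I => q.1.2) := continuous_snd.comp continuous_fst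
    exact ((continuous_const.sub h1).mul (continuous_subtype_val.comp (hf.comp h2))).add
      (h1.mul (continuous_subtype_val.comp (hg.comp h2)))
  have hXm : ∀ (f g : I → I) (q : (T × I) × I), 0 ≤ (1 - (q.2 : ℝ)) * (f q.1.2 : ℝ) +
      (q.2 : ℝ) * (g q.1.2 : ℝ) ∧ (1 - (q.2 : ℝ)) * (f q.1.2 : ℝ) +
      (q.2 : ℝ) * (g q.1.2 : ℝ) ≤ 1 := by
    intro f g q
    have a1 := q.2.2.1
    have a2 := q.2.2.2
    have a3 := (f q.1.2).2.1
    have a4 := (f q.1.2).2.2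
    have a5 := (g q.1.2).2.1
    have a6 := (g q.1.2).2.2
    constructor
    · have := mul_nonneg (sub_nonneg.2 a2) a3
      have := mul_nonneg a1 a5
      linarith
    · have := mul_le_mul_of_nonneg_left a4 (sub_nonneg.2 a2)
      have := mul_le_mul_of_nonneg_left a6 a1
      linarith
  have h2 : AHS (scal b (one1 j l)) ((j : ℕ) + 1) S' (relI T0)
      (Gr b j M (fun (q : (T × I) × I) x => u (q.1.1, q.2) x)
        (fun p ξ => (tau p.2 : ℝ) * θ ξ + (tau' p.2 : ℝ) * (1 - θ ξ)))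
      (fun (p : T × I) x => S1L_g M u p.1 (((S1L_c1 p.2 : ℝ) - (S1L_c3 p.2 : ℝ)) *
        θ (b.repr x j) + (S1L_c3 p.2 : ℝ)) x) := by
    refine ⟨S1L_G b j M u (fun q : (T × I) × I => q.1.1)
      (fun q : (T × I) × I => ((1 - (q.2 : ℝ)) * (tau q.1.2 : ℝ) +
        (q.2 : ℝ) * (S1L_c1 q.1.2 : ℝ)) - ((1 - (q.2 : ℝ)) * (tau' q.1.2 : ℝ) +
        (q.2 : ℝ) * (S1L_c3 q.1.2 : ℝ)))
      (fun q : (T × I) × I => (1 - (q.2 : ℝ)) * (tau' q.1.2 : ℝ) +
        (q.2 : ℝ) * (S1L_c3 q.1.2 : ℝ)) θ, ?_, ?_, ?_, ?_⟩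
    · refine D.levC (continuous_fst.comp continuous_fst)
        ((hX _ _ continuous_tau S1L_c1_cont).sub (hX _ _ continuous_tau' S1L_c3_cont))
        (hX _ _ continuous_tau' S1L_c3_cont) ?_ t1 t2 t4
      intro q
      exact S1L_I_abs2 _ _ (hXm tau S1L_c1 q).1 (hXm tau S1L_c1 q).2 (hXm tau' S1L_c3 q).1
        (hXm tau' S1L_c3 q).2
    · intro p x
      show S1L_g M u p.1 _ x = S1L_g M u p.1 _ x
      congr 1
      simp only [Icc.coe_zero]
      ring
    · intro p x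
      show S1L_g M u p.1 _ x = S1L_g M u p.1 _ x
      congr 1
      simp only [Icc.coe_one]
      ring
    · intro p hp s x
      obtain ⟨t, a⟩ := p
      rcases hp with hp | hp | hp
      · exact D.relT hp _ x
      · have ha : a = 0 := hp
        subst ha
        refine D.low (le_of_eq ?_) x
        simp only [S1L_c1, S1L_c3, tau_zero, tau'_zero, Icc.coe_zero]
        ring
      · have ha : a = 1 := hp
        subst ha
        refine D.high (le_of_eq ?_) x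
        simp only [S1L_c1, S1L_c3, tau_one, tau'_one, Icc.coe_one]
        ring
  -- the insertion of the null homotopy
  have h3 : AHS (scal b (one1 j l)) ((j : ℕ) + 1) S' (relI T0)
      (fun (p : T × I) x => S1L_g M u p.1 (((S1L_c1 p.2 : ℝ) - (S1L_c3 p.2 : ℝ)) *
        θ (b.repr x j) + (S1L_c3 p.2 : ℝ)) x)
      (fun p x => perM (scal b (one1 j l)) j 0 (S1L_y1 b j M e r l u Hp Hm (p.1, tau p.2)) x +
          perM (scal b (one1 j l)) j (1 / 2) (S1L_y2 b j M e r u Hp Hm (p.1, tau' p.2)) x -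
          x) := by
    have hc : ∀ f : I → I, Continuous f →
        Continuous (fun q : (T × I) × I => (f q.1.2 : ℝ)) := fun f hf =>
      continuous_subtype_val.comp (hf.comp (continuous_snd.comp continuous_fst))
    have hF := D.levC (l := l) (f := fun q : (T × I) × I => q.1.1)
      (c := fun q => (S1L_c1 q.1.2 : ℝ) - (S1L_c3 q.1.2 : ℝ))
      (d := fun q => (S1L_c3 q.1.2 : ℝ)) (continuous_fst.comp continuous_fst)
      ((hc _ S1L_c1_cont).sub (hc _ S1L_c3_cont)) (hc _ S1L_c3_cont)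
      (fun q => S1L_I_abs2 _ _ (S1L_c1 q.1.2).2.1 (S1L_c1 q.1.2).2.2 (S1L_c3 q.1.2).2.1
        (S1L_c3 q.1.2).2.2) t1 t2 t4
    have hH := D.levC (l := l) (f := fun q : (T × I) × I => q.1.1)
      (c := fun _ => (1 : ℝ)) (d := fun _ => (0 : ℝ)) (continuous_fst.comp continuous_fst)
      continuous_const continuous_const (fun _ => by simp) t1 t2 t4
    have hcs : Continuous (fun q : (T × I) × I => ((q.1.1, q.2 * S1L_c2 q.1.2) : T × I)) :=
      (continuous_fst.comp continuous_fst).prodMk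
        (continuous_snd.mul (S1L_c2_cont.comp (continuous_snd.comp continuous_fst)))
    have hP := (E.levPN hR hl').reparam hcs
    have hPN0 : ∀ t x, S1L_PN b j r l Hp Hm (t, 0) x =
        S1L_g M u t (1 * θ (b.repr x j) + 0) x := fun t x => by
      rw [hθ]
      exact E.PN0 hl' t x
    refine ⟨_, S1L_comb hF hP hH ?_, ?_, ?_, ?_⟩
    · intro q x
      rcases S1L_c_cases q.1.2 with h4 | ⟨h4, h5⟩
      · right
        refine Filter.Eventually.of_forall fun y => ?_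
        rw [h4, mul_zero]
        exact hPN0 _ y
      · left
        refine Filter.Eventually.of_forall fun y => ?_
        show S1L_g M u q.1.1 _ y = S1L_g M u q.1.1 _ y
        congr 1
        simp only [h4, h5, Icc.coe_one, Icc.coe_zero]
        ring
    · intro p x
      simp only [zero_mul]
      rw [hPN0]
      exact add_sub_cancel_right _ _
    · intro p x
      obtain ⟨t, a⟩ := p
      have h4 := E.final hl' t a x
      rw [← hθ] at h4
      simp only [one_mul] at h4 ⊢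
      rw [← h4]
      show _ + _ - S1L_g M u t (1 * θ (b.repr x j) + 0) x = _
      rw [one_mul]
      rfl
    · intro p hp s x
      obtain ⟨t, a⟩ := p
      show S1L_g M u t (((S1L_c1 a : ℝ) - (S1L_c3 a : ℝ)) * θ (b.repr x j) + (S1L_c3 a : ℝ)) x +
        S1L_PN b j r l Hp Hm (t, s * S1L_c2 a) x - S1L_g M u t (1 * θ (b.repr x j) + 0) x = x
      rcases hp with hp | hp | hp
      · rw [D.relT hp, D.relT hp, E.PNrel hp, add_sub_cancel_right]
      · have ha : a = 0 := hp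
        subst ha
        have h4 : S1L_c2 0 = 0 := by
          unfold S1L_c2
          rw [tau_zero, tau'_zero, zero_mul]
        rw [h4, mul_zero, hPN0, add_sub_cancel_right]
        refine D.low (le_of_eq ?_) x
        simp only [S1L_c1, S1L_c3, tau_zero, tau'_zero, Icc.coe_zero]
        ring
      · have ha : a = 1 := hp
        subst ha
        have h4 : S1L_c2 1 = 0 := by
          unfold S1L_c2
          rw [tau'_one, tau_one, unitInterval.symm_one, mul_zero]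
        rw [h4, mul_zero, hPN0, add_sub_cancel_right]
        refine D.high (le_of_eq ?_) x
        simp only [S1L_c1, S1L_c3, tau_one, tau'_one, Icc.coe_one]
        ring
  have hT := (hA (scal b (one1 j l)) ((j : ℕ) + 1) S' (T × I) (relI T0)
    (fun p x => u p x) _ _).2.1 hq h2
  exact (hA (scal b (one1 j l)) ((j : ℕ) + 1) S' (T × I) (relI T0)
    (fun p x => u p x) _ _).2.1 hT h3

end s1l

end Pool.Agent.BHS
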