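import Mathlib
import Pool.Agent.BHS.Basic
import Pool.Agent.BHS.Stmts
import Pool.Agent.TOL.Sympl

/-!
# BHS, module SymplS: making admissible families symplectic, with support sets
-/

set_option maxSynthPendingDepth 3

open scoped ContDiff Distributions Topology unitInterval
open Set Function TopologicalSpace

namespace Pool.Agent.BHS

open Pool.Agent.Helper17 Pool.Agent.TOR Pool.Agent.TOL

theorem thm_SymplS (hM : St_MoserS) (hB : St_BijS) : St_SymplS := by
  intro n N b j T _ _ T0 S hS hj
  constructor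
  · intro Ψ hΨ hΨ0
    obtain ⟨ρ, hρ, hcons, hρs, hρ0, hρid, hρper⟩ := hM b j T S hS Ψ hΨ
    have hd : ∀ (t : T) (s : I) x, fderiv ℝ (fun x => Ψ t (ρ (t, s) x)) x =
        (fderiv ℝ (Ψ t) (ρ (t, s) x)).comp (fderiv ℝ (ρ (t, s)) x) := fun t s x =>
      fderiv_comp x (hΨ.cf.differentiable t _) (hρ.differentiable (t, s) x)
    have hlev : ALevS b j S (fun (p : T × I) x => Ψ p.1 (ρ p x)) := by
      refine ⟨(hΨ.cf.base continuous_fst).comp hρ, ?_, ?_, ?_⟩
      · intro p x
        have h1 := hd p.1 p.2 x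
        have h2 : (fun x => Ψ p.1 (ρ p x)) = fun x => Ψ p.1 (ρ (p.1, p.2) x) := rfl
        rw [h2, h1]
        exact admissible_moser p.2.2 (hΨ.adm p.1 _) (fun v w => hcons p.1 p.2 x v w)
      · intro p i hi x
        beta_reduce
        rw [hρper p i hi, hΨ.per p.1 i hi]
      · intro p x hx
        rw [hρs p x hx, hΨ.supp p.1 x hx]
    have hc1 : Continuous (fun t : T => ((t, (1 : I)) : T × I)) :=
      continuous_id.prodMk continuous_const
    have hcf1 : CF (fun t x => Ψ t (ρ (t, 1) x)) := hlev.cf.base hc1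
    obtain ⟨Φ, hΦ, hΦe⟩ := hB b j T S hS hj (fun t x => Ψ t (ρ (t, 1) x)) hcf1 (by
      intro t x u v
      rw [hd t 1 x]
      exact syl_symp (s := 1) (fun v w => hcons t 1 x v w) (Or.inl rfl) u v)
      (fun t => hlev.per (t, 1)) (fun t => hlev.supp (t, 1))
    refine ⟨Φ, hΦ, ?_, fun p x => Ψ p.1 (ρ p x), hlev, ?_, ?_, ?_⟩
    · intro t ht
      ext1 x
      rw [hΦe, hρid t (hΨ0 t ht), hΨ0 t ht]
      rfl
    · intro t x
      beta_reduce
      rw [hρ0 t x]
    · intro t x
      exact (hΦe t x).symm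
    · intro t ht s x
      beta_reduce
      rw [hρid t (hΨ0 t ht), hΨ0 t ht]
  · intro g0 g1 hg0 hg1 h
    obtain ⟨F, hF, hF0, hF1, hFr⟩ := h
    obtain ⟨ρ, hρ, hcons, hρs, hρ0, hρid, hρper⟩ := hM b j (T × I) S hS F hF
    have hd : ∀ (p : T × I) (s : I) x, fderiv ℝ (fun x => F p (ρ (p, s) x)) x =
        (fderiv ℝ (F p) (ρ (p, s) x)).comp (fderiv ℝ (ρ (p, s)) x) := fun p s x =>
      fderiv_comp x (hF.cf.differentiable p _) (hρ.differentiable (p, s) x)
    have hs0 : ∀ t x u v, omegaStd (fderiv ℝ (F (t, 0)) x u) (fderiv ℝ (F (t, 0)) x v) =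
        omegaStd u v := by
      intro t
      have e : F (t, 0) = g0 t := funext (hF0 t)
      rw [e]
      exact hg0.symp t
    have hs1 : ∀ t x u v, omegaStd (fderiv ℝ (F (t, 1)) x u) (fderiv ℝ (F (t, 1)) x v) =
        omegaStd u v := by
      intro t
      have e : F (t, 1) = g1 t := funext (hF1 t)
      rw [e]
      exact hg1.symp t
    have hc : Continuous (fun p : T × I => (((p.1, sylc p.2), sylr p.2) : (T × I) × I)) :=
      (continuous_fst.prodMk (continuous_sylc.comp continuous_snd)).prodMk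
        (continuous_sylr.comp continuous_snd)
    have hc' : Continuous (fun p : T × I => ((p.1, sylc p.2) : T × I)) :=
      continuous_fst.prodMk (continuous_sylc.comp continuous_snd)
    set G : T × I → Phase n → Phase n := fun p x =>
      F (p.1, sylc p.2) (ρ ((p.1, sylc p.2), sylr p.2) x) with hG
    have hGcf : CF G := (hF.cf.base hc').comp (hρ.base hc)
    obtain ⟨Φ, hΦ, hΦe⟩ := hB b j (T × I) S hS hj G hGcf (by
      intro p x u v
      have h1 := hd (p.1, sylc p.2) (sylr p.2) x
      simp only [hG]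
      rw [h1]
      refine syl_symp (s := (sylr p.2 : ℝ)) (fun v w => hcons _ (sylr p.2) x v w) ?_ u v
      rcases syl_cases p.2 with h | h | h
      · left
        rw [h]
        rfl
      · right
        intro u v
        rw [h]
        exact hs0 _ _ u v
      · right
        intro u v
        rw [h]
        exact hs1 _ _ u v) (by
      intro p i hi x
      simp only [hG]
      rw [hρper _ i hi, hF.per _ i hi]) (by
      intro p x hx
      simp only [hG]
      rw [hρs _ x hx, hF.supp _ x hx])
    refine ⟨Φ, hΦ, ?_, ?_, ?_⟩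
    · intro t
      ext1 x
      rw [hΦe]
      simp only [hG, sylr_zero, sylc_zero]
      rw [hρ0, hF0]
    · intro t
      ext1 x
      rw [hΦe]
      simp only [hG, sylr_one, sylc_one]
      rw [hρ0, hF1]
    · intro t ht s
      ext1 x
      rw [hΦe]
      simp only [hG]
      rw [hρid _ (fun x => hFr t ht _ x), hFr t ht]
      rfl

end Pool.Agent.BHS
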