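import Mathlib
import Pool.Agent.BHS.Rho

set_option maxSynthPendingDepth 3

open scoped ContDiff Distributions Topology unitInterval
open Set Function TopologicalSpace

namespace Pool.Agent.BHS

open Pool.Agent.Helper17 Pool.Agent.TOR Pool.Agent.TOL

section tower

variable {n N : ℕ} {b : Module.Basis (Fin N) ℝ (Phase n)} {T : Type}

/-- The families of the iterated commutators, by recursion: `cw b J j m k F` is the family over
`T × I^m` of the iterated commutators of the family `F` over `T × I^k` with the translations by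
`θ_i b_i`, `i ∈ J`, `i < j` (`m - k` is the number of these `i`; the `θ_i` are the last `m - k`
coordinates of the cube). -/
noncomputable def cw (b : Module.Basis (Fin N) ℝ (Phase n)) (J : Finset (Fin N)) : (j : ℕ) →
    (m k : ℕ) → (T × (Fin k → I) → Equiv.Perm (Phase n)) → T × (Fin m → I) →
      Equiv.Perm (Phase n)
  | 0, m, k, F => if h : m = k then h ▸ F else fun _ => 1
  | j + 1, m, k, F =>
    if hj : j < N then
      if (⟨j, hj⟩ : Fin N) ∈ J then
        match m with
        | 0 => fun _ => 1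
        | m + 1 => fun p => lamF b ⟨j, hj⟩ (cw b J j m k F) (unsnoc p)
      else cw b J j m k F
    else cw b J j m k F

lemma cw_zero (J : Finset (Fin N)) (m : ℕ) (F : T × (Fin m → I) → Equiv.Perm (Phase n)) :
    cw b J 0 m m F = F := by
  simp only [cw, dif_pos]

lemma cw_zero_ne (J : Finset (Fin N)) {m k : ℕ} (h : m ≠ k)
    (F : T × (Fin k → I) → Equiv.Perm (Phase n)) : cw b J 0 m k F = fun _ => 1 := by
  simp only [cw, dif_neg h]

lemma cw_mem {J : Finset (Fin N)} {j : ℕ} (hj : j < N) (h : (⟨j, hj⟩ : Fin N) ∈ J) (m k : ℕ)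
    (F : T × (Fin k → I) → Equiv.Perm (Phase n)) : cw b J (j + 1) (m + 1) k F =
      fun p => lamF b ⟨j, hj⟩ (cw b J j m k F) (unsnoc p) := by
  rw [cw, dif_pos hj, if_pos h]

lemma cw_mem_zero {J : Finset (Fin N)} {j : ℕ} (hj : j < N) (h : (⟨j, hj⟩ : Fin N) ∈ J) (k : ℕ)
    (F : T × (Fin k → I) → Equiv.Perm (Phase n)) : cw b J (j + 1) 0 k F = fun _ => 1 := by
  rw [cw, dif_pos hj, if_pos h]

lemma cw_not_mem {J : Finset (Fin N)} {j : ℕ} (hj : j < N) (h : (⟨j, hj⟩ : Fin N) ∉ J)
    (m k : ℕ) (F : T × (Fin k → I) → Equiv.Perm (Phase n)) :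
    cw b J (j + 1) m k F = cw b J j m k F := by
  rw [cw, dif_pos hj, if_neg h]

lemma cw_ge {J : Finset (Fin N)} {j : ℕ} (hj : ¬ j < N)
    (m k : ℕ) (F : T × (Fin k → I) → Equiv.Perm (Phase n)) :
    cw b J (j + 1) m k F = cw b J j m k F := by
  rw [cw, dif_neg hj]

variable [TopologicalSpace T]

lemma one_mem_Fam {j : ℕ} {X : Type} [TopologicalSpace X] {X0 : Set X} :
    (fun _ : X => (1 : Equiv.Perm (Phase n))) ∈ Fam b j X X0 := (Fam b j X X0).one_mem

/-- The iterated commutators are families at the same level. -/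
lemma cw_fam (J : Finset (Fin N)) {T0 : Set T} {i : ℕ} {k : ℕ}
    {F : T × (Fin k → I) → Equiv.Perm (Phase n)}
    (hF : F ∈ Fam b i (T × (Fin k → I)) (SS k T0)) : ∀ (j : ℕ), j ≤ i → ∀ m,
    cw b J j m k F ∈ Fam b i (T × (Fin m → I)) (SS m T0) := by
  intro j
  induction j with
  | zero =>
    intro _ m
    by_cases h : m = k
    · subst h
      rw [cw_zero]
      exact hF
    · rw [cw_zero_ne J h]
      exact one_mem_Fam
  | succ j ih =>
    intro hji m
    by_cases hj : j < N
    · by_cases h : (⟨j, hj⟩ : Fin N) ∈ J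
      · cases m with
        | zero =>
          rw [cw_mem_zero hj h]
          exact one_mem_Fam
        | succ m =>
          rw [cw_mem hj h]
          exact Fam.comp (lamF_mem (i := ⟨j, hj⟩) hji (ih (by omega) m)) continuous_unsnoc
            (fun _ hq => unsnoc_mem hq)
      · rw [cw_not_mem hj h]
        exact ih (by omega) m
    · rw [cw_ge hj]
      exact ih (by omega) m

lemma Per1.lamF {i j : Fin N} (hij : i < j) {δ R : ℝ} (hδ : 0 < δ) {X : Type}
    [TopologicalSpace X] {g P : X → Equiv.Perm (Phase n)} (h : Per1 b j δ R ∅ g P) :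
    Per1 b j δ R ∅ (BHS.lamF b i g) (BHS.lamF b i P) := by
  have h1 : Per1 b j δ R ∅ (fun p : X × I => g p.1) (fun p => P p.1) :=
    TOL.Per1.reparam h continuous_fst
  refine TOL.Per1.cm hδ h1 ((continuous_subtype_val.comp continuous_snd).smul
    continuous_const) ?_
  intro t l hl
  rw [repr_smul_basis, if_neg]
  intro h
  rw [← h] at hl
  exact absurd hij (not_lt.2 hl)

/-- Iterated commutators and periodizations. -/
lemma cw_per (J : Finset (Fin N)) {i : Fin N} {δ R : ℝ} (hδ : 0 < δ) {k : ℕ}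
    {g P : T × (Fin k → I) → Equiv.Perm (Phase n)} (h : Per1 b i δ R ∅ g P) : ∀ (j : ℕ),
    j ≤ (i : ℕ) → ∀ m, Per1 b i δ R ∅ (cw b J j m k g) (cw b J j m k P) := by
  intro j
  have hone : ∀ m, Per1 b i δ R ∅ (fun _ : T × (Fin m → I) => (1 : Equiv.Perm (Phase n)))
      (fun _ => 1) := by
    intro m
    refine ⟨(LevS.one _ _ _).lev subset_rfl, (LevS.one _ _ _).lev subset_rfl, ?_,
      fun _ _ _ _ => rfl, fun t ht => absurd ht (notMem_empty t)⟩
    intro t x hx
    exact absurd rfl hx
  induction j with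
  | zero =>
    intro _ m
    by_cases hm : m = k
    · subst hm
      rw [cw_zero, cw_zero]
      exact h
    · rw [cw_zero_ne J hm, cw_zero_ne J hm]
      exact hone m
  | succ j ih =>
    intro hji m
    have hj : j < N := by omega
    by_cases hJ : (⟨j, hj⟩ : Fin N) ∈ J
    · cases m with
      | zero =>
        rw [cw_mem_zero hj hJ, cw_mem_zero hj hJ]
        exact hone 0
      | succ m =>
        rw [cw_mem hj hJ, cw_mem hj hJ]
        have hlt : (⟨j, hj⟩ : Fin N) < i := hji
        exact TOL.Per1.reparam (Per1.lamF hlt hδ (ih (by omega) m)) continuous_unsnoc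
    · rw [cw_not_mem hj hJ, cw_not_mem hj hJ]
      exact ih (by omega) m

/-- A tower of partial periodizations. -/
structure Tow (b : Module.Basis (Fin N) ℝ (Phase n)) (δ R : ℝ) {X : Type} [TopologicalSpace X]
    (X0 : Set X) (Q : ℕ → X → Equiv.Perm (Phase n)) : Prop where
  pos : 0 < δ
  le : δ ≤ 1 / 2
  mem : ∀ j ≤ N, Q j ∈ Fam b j X X0
  per : ∀ i : Fin N, Per1 b i δ R ∅ (Q i) (Q (i + 1))

variable [CompactSpace T]

/-- The matrix of the `ρ_J` and the iterated commutators: the diagonal. -/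
theorem rho_cw_diag (H : Core) (J : Finset (Fin N)) {T0 : Set T} {δ R : ℝ} {k : ℕ}
    {Q : ℕ → T × (Fin k → I) → Equiv.Perm (Phase n)} (hQ : Tow b δ R (SS k T0) Q) :
    ∀ (j : ℕ) (hj : j ≤ N) (m : ℕ), m = k + (J.filter fun i : Fin N => (i : ℕ) < j).card →
    rho H b J T0 j m k (cl (cw b J j m k (Q j)) (cw_fam J (hQ.mem j hj) j le_rfl m)) =
      cl (Q 0) (hQ.mem 0 (Nat.zero_le N)) := by
  intro j
  induction j with
  | zero =>
    intro hj m hm
    have h0 : (J.filter fun i : Fin N => (i : ℕ) < 0) = ∅ := by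
      ext i; simp
    rw [h0, Finset.card_empty, add_zero] at hm
    subst hm
    rw [rho_zero]
    have e := cw_zero (b := b) J m (Q 0)
    simp only [e]
  | succ j ih =>
    intro hj m hm
    have hjN : j < N := hj
    have hper := hQ.per ⟨j, hjN⟩
    by_cases hJ : (⟨j, hjN⟩ : Fin N) ∈ J
    · have hcard : (J.filter fun i : Fin N => (i : ℕ) < j + 1).card =
          (J.filter fun i : Fin N => (i : ℕ) < j).card + 1 := by
        have h1 : (J.filter fun i : Fin N => (i : ℕ) < j + 1) =
            insert (⟨j, hjN⟩ : Fin N) (J.filter fun i : Fin N => (i : ℕ) < j) := by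
          ext i
          simp only [Finset.mem_filter, Finset.mem_insert]
          constructor
          · rintro ⟨h1, h2⟩
            by_cases h3 : (i : ℕ) = j
            · exact Or.inl (Fin.ext h3)
            · exact Or.inr ⟨h1, by omega⟩
          · rintro (h1 | ⟨h1, h2⟩)
            · subst h1
              exact ⟨hJ, Nat.lt_succ_self _⟩
            · exact ⟨h1, by omega⟩
        rw [h1, Finset.card_insert_of_notMem]
        simp
      rw [hcard] at hm
      cases m with
      | zero => omega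
      | succ m =>
        rw [rho_mem H T0 hjN hJ, Dc_cl]
        have hg := cw_fam J (hQ.mem j hjN.le) j le_rfl m
        have hp := cw_per J hQ.pos hper j le_rfl m
        have hp' : Per1 b ⟨j, hjN⟩ δ R (SS m T0) (cw b J j m k (Q j))
            (cw b J j m k (Q (j + 1))) := hp.rel_of hg.2
        have e1 : (fun p => cw b J (j + 1) (m + 1) k (Q (j + 1)) (snocM p)) =
            lamF b ⟨j, hjN⟩ (cw b J j m k (Q (j + 1))) := by
          funext p
          rw [cw_mem hjN hJ]
          simp only [unsnoc_snocM]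
        simp only [e1]
        have hP : lamF b ⟨j, hjN⟩ (cw b J j m k (Q (j + 1))) ∈
            Fam b ((⟨j, hjN⟩ : Fin N) + 1 : ℕ) ((T × (Fin m → I)) × I) (relI (SS m T0)) :=
          lamF_mem (i := ⟨j, hjN⟩) (Nat.lt_succ_self j)
            (cw_fam J (hQ.mem (j + 1) hj) j (Nat.le_succ j) m)
        rw [Dm_lam H (j := ⟨j, hjN⟩) hQ.pos hQ.le hp' hg hP]
        exact ih hjN.le m (by omega)
    · have hcard : (J.filter fun i : Fin N => (i : ℕ) < j + 1) = J.filter fun i : Fin N => (i : ℕ) < j := by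
        ext i
        simp only [Finset.mem_filter]
        constructor
        · rintro ⟨h1, h2⟩
          refine ⟨h1, ?_⟩
          by_contra h3
          have : i = ⟨j, hjN⟩ := Fin.ext (by simp only; omega)
          rw [this] at h1
          exact hJ h1
        · rintro ⟨h1, h2⟩
          exact ⟨h1, by omega⟩
      rw [hcard] at hm
      rw [rho_not_mem H T0 hjN hJ]
      have hg := cw_fam J (hQ.mem j hjN.le) j le_rfl m
      have hp := cw_per J hQ.pos hper j le_rfl m
      have hp' : Per1 b ⟨j, hjN⟩ δ R (SS m T0) (cw b J j m k (Q j))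
          (cw b J j m k (Q (j + 1))) := hp.rel_of hg.2
      have e1 := cw_not_mem (b := b) hjN hJ m k (Q (j + 1))
      simp only [e1]
      rw [Wm_per H (j := ⟨j, hjN⟩) hQ.pos hQ.le hp' hg
        (cw_fam J (hQ.mem (j + 1) hj) j (Nat.le_succ j) m)]
      exact ih hjN.le m hm

/-- The matrix of the `ρ_J` and the iterated commutators: the upper triangle. -/
theorem rho_cw_above (H : Core) (J J' : Finset (Fin N)) {T0 : Set T} {δ R : ℝ} {k : ℕ}
    {Q : ℕ → T × (Fin k → I) → Equiv.Perm (Phase n)} (hQ : Tow b δ R (SS k T0) Q) :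
    ∀ (j : ℕ) (hj : j ≤ N),
    (∃ i ∈ J, (i : ℕ) < j ∧ i ∉ J' ∧ ∀ l : Fin N, i < l → (l : ℕ) < j → (l ∈ J ↔ l ∈ J')) →
    ∀ m k' : ℕ, rho H b J T0 j m k'
      (cl (cw b J' j m k (Q j)) (cw_fam J' (hQ.mem j hj) j le_rfl m)) = 1 := by
  intro j
  induction j with
  | zero =>
    rintro hj ⟨i, -, hi, -⟩
    exact absurd hi (Nat.not_lt_zero _)
  | succ j ih =>
    rintro hj ⟨i, hiJ, hi, hiJ', hab⟩ m k'
    have hjN : j < N := hj
    have hper := hQ.per ⟨j, hjN⟩
    have hg := fun m => cw_fam J' (hQ.mem j hjN.le) j le_rfl m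
    have hp := fun m => cw_per J' hQ.pos hper j le_rfl m
    have hp' := fun m => (hp m).rel_of (hg m).2
    by_cases hij : (i : ℕ) = j
    · have hi' : i = ⟨j, hjN⟩ := Fin.ext hij
      subst hi'
      cases m with
      | zero => rw [rho_mem_zero H T0 hjN hiJ]
      | succ m =>
        rw [rho_mem H T0 hjN hiJ, Dc_cl]
        have e1 : (fun p => cw b J' (j + 1) (m + 1) k (Q (j + 1)) (snocM p)) =
            fun p => cw b J' j (m + 1) k (Q (j + 1)) (snocM p) := by
          rw [cw_not_mem hjN hiJ']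
        simp only [e1]
        have hp2 : Per1 b ⟨j, hjN⟩ δ R (relI (SS m T0))
            (fun p => cw b J' j (m + 1) k (Q j) (snocM p))
            (fun p => cw b J' j (m + 1) k (Q (j + 1)) (snocM p)) :=
          (TOL.Per1.reparam (hp (m + 1)) continuous_snocM).rel_of
            (fun p hp => (hg (m + 1)).2 _ (snocM_mem hp))
        have hP : (fun p => cw b J' j (m + 1) k (Q (j + 1)) (snocM p)) ∈
            Fam b ((⟨j, hjN⟩ : Fin N) + 1 : ℕ) ((T × (Fin m → I)) × I) (relI (SS m T0)) :=
          Fam.comp (cw_fam J' (hQ.mem (j + 1) hj) j (Nat.le_succ j) (m + 1)) continuous_snocM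
            (fun _ hp => snocM_mem hp)
        rw [Dm_per H (j := ⟨j, hjN⟩) hQ.pos hQ.le hp2 hP]
        exact rho_one H J T0 j m k'
    · have hij' : (i : ℕ) < j := by omega
      have hlt : i < ⟨j, hjN⟩ := hij'
      have hiff := hab ⟨j, hjN⟩ hlt (Nat.lt_succ_self j)
      have hab' : ∃ i ∈ J, (i : ℕ) < j ∧ i ∉ J' ∧
          ∀ l : Fin N, i < l → (l : ℕ) < j → (l ∈ J ↔ l ∈ J') :=
        ⟨i, hiJ, hij', hiJ', fun l h1 h2 => hab l h1 (Nat.lt_succ_of_lt h2)⟩
      by_cases hJ : (⟨j, hjN⟩ : Fin N) ∈ J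
      · have hJ' := hiff.1 hJ
        cases m with
        | zero => rw [rho_mem_zero H T0 hjN hJ]
        | succ m =>
          rw [rho_mem H T0 hjN hJ, Dc_cl]
          have e1 : (fun p => cw b J' (j + 1) (m + 1) k (Q (j + 1)) (snocM p)) =
              lamF b ⟨j, hjN⟩ (cw b J' j m k (Q (j + 1))) := by
            funext p
            rw [cw_mem hjN hJ']
            simp only [unsnoc_snocM]
          simp only [e1]
          have hP : lamF b ⟨j, hjN⟩ (cw b J' j m k (Q (j + 1))) ∈
              Fam b ((⟨j, hjN⟩ : Fin N) + 1 : ℕ) ((T × (Fin m → I)) × I) (relI (SS m T0)) :=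
            lamF_mem (i := ⟨j, hjN⟩) (Nat.lt_succ_self j)
              (cw_fam J' (hQ.mem (j + 1) hj) j (Nat.le_succ j) m)
          rw [Dm_lam H (j := ⟨j, hjN⟩) hQ.pos hQ.le (hp' m) (hg m) hP]
          exact ih hjN.le hab' m k'
      · have hJ' : (⟨j, hjN⟩ : Fin N) ∉ J' := fun h => hJ (hiff.2 h)
        rw [rho_not_mem H T0 hjN hJ]
        have e1 := cw_not_mem (b := b) hjN hJ' m k (Q (j + 1))
        simp only [e1]
        rw [Wm_per H (j := ⟨j, hjN⟩) hQ.pos hQ.le (hp' m) (hg m)
          (cw_fam J' (hQ.mem (j + 1) hj) j (Nat.le_succ j) m)]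
        exact ih hjN.le hab' m k'

end tower

end Pool.Agent.BHS
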