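import Mathlib
import Pool.Agent.BHS.KInd
import Pool.Agent.BHS.Tower
import Pool.Agent.BHS.MoserS
import Pool.Agent.BHS.BijS
import Pool.Agent.BHS.SymplS
import Pool.Agent.BHS.AHSc
import Pool.Agent.BHS.GridP
import Pool.Agent.BHS.GrAdm
import Pool.Agent.BHS.PhLin
import Pool.Agent.BHS.DExist
import Pool.Agent.BHS.DInv
import Pool.Agent.BHS.DMul
import Pool.Agent.BHS.DLam
import Pool.Agent.BHS.DPer
import Pool.Agent.BHS.DCov
import Pool.Agent.BHS.PerA
import Pool.Agent.BHS.PhNull
import Pool.Agent.BHS.SeqPh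
import Pool.Agent.BHS.S1L
import Pool.Agent.BHS.S1
import Pool.Agent.BHS.Dil0
import Pool.Agent.BHS.EH
import Pool.Agent.BHS.EHpow
import Pool.Agent.BHS.LamMul
import Pool.Agent.BHS.LamPow
import Pool.Agent.BHS.Bridge

namespace Pool.Agent.BHS

theorem sympS : St_SymplS := thm_SymplS thm_MoserS thm_BijS

theorem grAdm : St_GrAdm := thm_GrAdm thm_GridP

theorem phLin : St_PhLin := thm_PhLin grAdm

theorem eh : St_EH := thm_EH thm_LHSc

theorem dInv : St_DInv := thm_DInv grAdm thm_AHSc sympS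

theorem phNull : St_PhNull := thm_PhNull phLin grAdm thm_AHSc

theorem seqPh : St_SeqPh := thm_SeqPh grAdm thm_AHSc

theorem s1L : St_S1L := thm_S1L phNull seqPh phLin grAdm thm_AHSc thm_PerA

/-- All results on families. -/
theorem core (hPer : St_PerS) : Core where
  dExist := thm_DExist phLin sympS thm_AHSc
  dInv := dInv
  dMul := thm_DMul phLin grAdm sympS thm_AHSc eh dInv
  dLam := thm_DLam
  dPer := thm_DPer grAdm
  dCov := thm_DCov
  perS := hPer
  s1 := thm_S1 s1L sympS hPer thm_PerA eh thm_LHSc thm_AHSc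
  dil0 := thm_Dil0
  eh := eh
  lamMul := thm_LamMul thm_LHSc
  lamPow := thm_LamPow thm_EHpow thm_LHSc
  ahsC := thm_AHSc

end Pool.Agent.BHS
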