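import Mathlib
import Pool.Agent.BHS.Claim

set_option maxSynthPendingDepth 3

open scoped unitInterval
open Set TopologicalSpace

namespace Pool.Agent.BHS.Claim

open Pool.Agent.Helper17 Pool.Agent.TOR

/-- Statement of the main theorem for families over `T`. -/
def MainT (n N : ℕ) (T : Type) [TopologicalSpace T] [CompactSpace T] (T0 : Set T) (m : ℕ) : Prop :=
  ∃ (κ : ∀ (b : Module.Basis (Fin N) ℝ (Phase n)) (J : Finset (Fin N)), J.card ≤ m →
        HG T0 (m - J.card) (SympCt n) → HG T0 m (TorusSymp b))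
    (ρ : ∀ (b : Module.Basis (Fin N) ℝ (Phase n)) (J : Finset (Fin N)), J.card ≤ m →
        HG T0 m (TorusSymp b) → HG T0 (m - J.card) (SympCt n)),
    -- `κ_J` is given by the iterated commutators
    (∀ b J hJ α x, IsCommClass b J hJ α x ↔ κ b J hJ α = x) ∧
    -- `κ_J` and `ρ_J` are homomorphisms
    (0 < m → ∀ b J hJ, (∀ α β, κ b J hJ (α * β) = κ b J hJ α * κ b J hJ β) ∧
      ∀ x y, ρ b J hJ (x * y) = ρ b J hJ x * ρ b J hJ y) ∧
    -- the matrix `ρ_J κ_J'` is unitriangular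
    (∀ b J hJ α, ρ b J hJ (κ b J hJ α) = α) ∧
    (∀ b J hJ J' hJ' α, Above J J' → ρ b J hJ (κ b J' hJ' α) = 1) ∧
    -- finite covers
    (∀ b (L : Fin N → ℕ+) J hJ x,
      ρ (scal b L) J hJ (pull b L x) = ρ b J hJ x ^ ∏ i ∈ Jᶜ, (L i : ℕ)) ∧
    (N ≤ m → ∀ b x,
      -- the classes which die in a finite cover
      ((∃ L : Fin N → ℕ+, pull b L x = 1) ↔
        ∀ J hJ, IsOfFinOrder (ρ b J hJ x) ∧ (J = Finset.univ → ρ b J hJ x = 1)) ∧
      -- in a finite cover, every class is a product of commutator classes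
      ∃ L : Fin N → ℕ+, pull b L x ∈ Subgroup.closure {y | ∃ J hJ α, y = pull b L (κ b J hJ α)})

/-- Statement of the corollaries. -/
def MainC (n N : ℕ) (b : Module.Basis (Fin N) ℝ (Phase n)) : Prop :=
  -- `π_k(G) = 0` for a given `k`
  (∀ k : ℕ, Subsingleton (HomotopyGroup (Fin k) (SympCt n) 1) ↔
    ∀ x : HG (∅ : Set Unit) (N + k) (TorusSymp b), ∃ L : Fin N → ℕ+, pull b L x ∈
      Subgroup.closure {y | ∃ J hJ α x', J ≠ Finset.univ ∧ IsCommClass b J hJ α x' ∧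
        y = pull b L x'}) ∧
  -- `π_k(G) = 0` for all `k`
  ((∀ k : ℕ, Subsingleton (HomotopyGroup (Fin k) (SympCt n) 1)) ↔
    ∀ m : ℕ, N ≤ m → ∀ u : C(Fin m → I, TorusSymp b), (∀ s ∈ Cube.boundary (Fin m), u s = 1) →
      ∃ L : Fin N → ℕ+, ((lift b L).comp u).HomotopicRel (ContinuousMap.const _ 1)
        (Cube.boundary (Fin m)))

/-- The main theorem. -/
def Main : Prop :=
  ∀ (n N : ℕ),
    (∀ (T : Type) [TopologicalSpace T] [CompactSpace T] (T0 : Set T) (m : ℕ), MainT n N T T0 m) ∧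
    ∀ b : Module.Basis (Fin N) ℝ (Phase n), MainC n N b

/-- What the analysis has to provide. -/
def CoreT (n N : ℕ) (T : Type) [TopologicalSpace T] [CompactSpace T] (T0 : Set T) (m : ℕ) : Prop :=
  ∃ (κ : ∀ (b : Module.Basis (Fin N) ℝ (Phase n)) (J : Finset (Fin N)), J.card ≤ m →
        HG T0 (m - J.card) (SympCt n) → HG T0 m (TorusSymp b))
    (ρ : ∀ (b : Module.Basis (Fin N) ℝ (Phase n)) (J : Finset (Fin N)), J.card ≤ m →
        HG T0 m (TorusSymp b) → HG T0 (m - J.card) (SympCt n)),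
    (∀ b J hJ α x, IsCommClass b J hJ α x ↔ κ b J hJ α = x) ∧
    (0 < m → ∀ b J hJ, (∀ α β, κ b J hJ (α * β) = κ b J hJ α * κ b J hJ β) ∧
      ∀ x y, ρ b J hJ (x * y) = ρ b J hJ x * ρ b J hJ y) ∧
    (∀ b J hJ α, ρ b J hJ (κ b J hJ α) = α) ∧
    (∀ b J hJ J' hJ' α, Above J J' → ρ b J hJ (κ b J' hJ' α) = 1) ∧
    (∀ b (L : Fin N → ℕ+) J hJ x,
      ρ (scal b L) J hJ (pull b L x) = ρ b J hJ x ^ ∏ i ∈ Jᶜ, (L i : ℕ)) ∧
    (N ≤ m → ∀ b x, (∀ J hJ, ρ b J hJ x = 1) → ∃ L : Fin N → ℕ+, pull b L x = 1)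

end Pool.Agent.BHS.Claim
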