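import Mathlib
import Pool.Agent.BHS.MainStmt

set_option maxSynthPendingDepth 3

open scoped unitInterval
open Set TopologicalSpace

namespace Pool.Agent.BHS.Claim

open Pool.Agent.Helper17 Pool.Agent.TOR

/-! ### Covers of covers -/

section covers

variable {n N : ℕ}

lemma scal_scal (b : Module.Basis (Fin N) ℝ (Phase n)) (L L' : Fin N → ℕ+) :
    scal (scal b L) L' = scal b (L * L') := by
  apply Module.Basis.eq_of_apply_eq
  intro i
  rw [scal_apply, scal_apply, scal_apply, smul_smul]
  congr 1
  simp only [Pi.mul_apply, PNat.mul_coe, Nat.cast_mul]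
  ring

variable {T : Type} [TopologicalSpace T] [CompactSpace T] {T0 : Set T} {m : ℕ}

/-- Auxiliary form of `pull` for arbitrary bases. -/
noncomputable def pullG {b b' : Module.Basis (Fin N) ℝ (Phase n)}
    (h : TorusSymp b ≤ TorusSymp b') : HG T0 m (TorusSymp b) →* HG T0 m (TorusSymp b') where
  toFun := Quotient.map
    (fun f => ⟨(⟨Subgroup.inclusion h, continuous_iInf_rng.2 fun k => continuous_induced_rng.2
      (continuous_iff_le_induced.2 (iInf_le _ k))⟩ : C(TorusSymp b, TorusSymp b')).comp f.map,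
      fun p hp => by
        change Subgroup.inclusion h (f.map p) = 1
        rw [f.rel p hp]
        rfl⟩)
    fun _ _ hh => hh.map fun H => H.compContinuousMap _
  map_one' := rfl
  map_mul' := by
    rintro ⟨f⟩ ⟨g⟩
    rfl

lemma pull_eq (b : Module.Basis (Fin N) ℝ (Phase n)) (L : Fin N → ℕ+)
    (x : HG T0 m (TorusSymp b)) : pull b L x = pullG (le_scal b L) x := by
  obtain ⟨f⟩ := x
  rfl

lemma pullG_pullG {b b' b'' : Module.Basis (Fin N) ℝ (Phase n)}
    (h : TorusSymp b ≤ TorusSymp b') (h' : TorusSymp b' ≤ TorusSymp b'')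
    (x : HG T0 m (TorusSymp b)) : pullG h' (pullG h x) = pullG (h.trans h') x := by
  obtain ⟨f⟩ := x
  rfl

lemma pullG_congr {b b' b'' : Module.Basis (Fin N) ℝ (Phase n)} (e : b' = b'')
    (h : TorusSymp b ≤ TorusSymp b') (h' : TorusSymp b ≤ TorusSymp b'')
    (x : HG T0 m (TorusSymp b)) : pullG h x = 1 ↔ pullG h' x = 1 := by
  subst e
  rfl

lemma pull_pull (b : Module.Basis (Fin N) ℝ (Phase n)) (L L' : Fin N → ℕ+)
    (x : HG T0 m (TorusSymp b)) :
    pull (scal b L) L' (pull b L x) = 1 ↔ pull b (L * L') x = 1 := by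
  rw [pull_eq, pull_eq, pull_eq, pullG_pullG]
  exact pullG_congr (scal_scal b L L') _ _ x

/-- With the order of `Finset.Colex`, larger sets are above. -/
lemma above_of_lt {J J' : Finset (Fin N)} (h : toColex J' < toColex J) : Above J J' := by
  obtain ⟨a, ha, ha', hb⟩ := Finset.Colex.toColex_lt_toColex_iff_exists_forall_lt.1 h
  have hne : (J \ J').Nonempty := ⟨a, Finset.mem_sdiff.2 ⟨ha, ha'⟩⟩
  have hm := Finset.mem_sdiff.1 ((J \ J').max'_mem hne)
  refine ⟨(J \ J').max' hne, hm.1, hm.2, fun i hi => ⟨fun h1 => ?_, fun h1 => ?_⟩⟩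
  · by_contra h2
    exact absurd ((J \ J').le_max' i (Finset.mem_sdiff.2 ⟨h1, h2⟩)) (not_le.2 hi)
  · by_contra h2
    have h3 := hb i h1 h2
    exact absurd ((J \ J').le_max' a (Finset.mem_sdiff.2 ⟨ha, ha'⟩))
      (not_le.2 (hi.trans h3))

lemma above_univ {J : Finset (Fin N)} (h : J ≠ Finset.univ) : Above Finset.univ J := by
  apply above_of_lt
  exact Finset.Colex.toColex_lt_toColex_of_ssubset (Finset.ssubset_univ_iff.2 h)

end covers

/-! ### Comparison with the homotopy groups of Mathlib -/

section mathlib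

variable {X : Type} [TopologicalSpace X] [Group X]

/-- Forgetting the point. -/
def Fam.toLoop {k : ℕ} (f : Fam (∅ : Set Unit) k X) : GenLoop (Fin k) X 1 :=
  ⟨f.map.comp ⟨fun s => ((), s), by fun_prop⟩, fun s hs => f.rel ((), s) (Or.inr hs)⟩

/-- Adding a point. -/
def ofLoop {k : ℕ} (u : GenLoop (Fin k) X 1) : Fam (∅ : Set Unit) k X :=
  ⟨u.1.comp ⟨Prod.snd, continuous_snd⟩, fun p hp => u.2 p.2 (hp.resolve_left (fun h => h))⟩

lemma homotopic_toLoop {k : ℕ} {f g : Fam (∅ : Set Unit) k X}
    (h : f.map.HomotopicRel g.map (bdry ∅ k)) :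
    GenLoop.Homotopic f.toLoop g.toLoop := by
  obtain ⟨H⟩ := h
  refine ⟨⟨⟨⟨fun q => H (q.1, ((), q.2)), by fun_prop⟩, fun s => ?_, fun s => ?_⟩,
    fun t s hs => ?_⟩⟩
  · exact H.apply_zero _
  · exact H.apply_one _
  · exact H.eq_fst t (Or.inr hs)

lemma homotopic_ofLoop {k : ℕ} {u v : GenLoop (Fin k) X 1} (h : GenLoop.Homotopic u v) :
    (ofLoop u).map.HomotopicRel (ofLoop v).map (bdry ∅ k) := by
  obtain ⟨H⟩ := h
  refine ⟨⟨⟨⟨fun q => H (q.1, q.2.2), by fun_prop⟩, fun s => ?_, fun s => ?_⟩,
    fun t s hs => ?_⟩⟩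
  · exact H.apply_zero _
  · exact H.apply_one _
  · exact H.eq_fst t (hs.resolve_left (fun h => h))

lemma subsingleton_iff {k : ℕ} : Subsingleton (HG (∅ : Set Unit) k X) ↔
    Subsingleton (HomotopyGroup (Fin k) X 1) := by
  constructor
  · rintro ⟨h⟩
    refine ⟨fun a c => ?_⟩
    induction a using Quotient.inductionOn with | _ u
    induction c using Quotient.inductionOn with | _ v
    exact Quotient.sound (homotopic_toLoop (Quotient.exact (h (ofLoop u).cls (ofLoop v).cls)))
  · rintro ⟨h⟩
    refine ⟨fun a c => ?_⟩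
    obtain ⟨f⟩ := a
    obtain ⟨g⟩ := c
    have h1 := homotopic_ofLoop (Quotient.exact (h (Quotient.mk _ f.toLoop)
      (Quotient.mk _ g.toLoop)))
    exact Quotient.sound h1

end mathlib

/-! ### Triangular elimination -/

section elim

/-- Abstract form: `κ_J : A_J → E`, `ρ_J : E → A_J` homomorphisms with a unitriangular matrix. -/
lemma elimination {ι : Type} [LinearOrder ι] [Fintype ι] {E : Type} [Group E] {A : ι → Type}
    [∀ i, Group (A i)] (κ : ∀ i, A i → E) (ρ : ∀ i, E → A i)
    (hρ : ∀ i x y, ρ i (x * y) = ρ i x * ρ i y) (h1 : ∀ i α, ρ i (κ i α) = α)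
    (h2 : ∀ i j α, j < i → ρ i (κ j α) = 1) (x : E) :
    ∃ p ∈ Subgroup.closure {y | ∃ i α, y = κ i α}, ∀ i, ρ i (x * p⁻¹) = 1 := by
  have hinv : ∀ i y, ρ i y⁻¹ = (ρ i y)⁻¹ := by
    intro i y
    have h0 : ρ i 1 = 1 := by
      have := hρ i 1 1
      rw [mul_one] at this
      exact (mul_eq_left.1 this.symm)
    apply eq_inv_of_mul_eq_one_left
    rw [← hρ, inv_mul_cancel, h0]
  suffices h : ∀ s : Finset ι, ∃ p ∈ Subgroup.closure {y | ∃ i α, y = κ i α},
      ∀ i ∈ s, ρ i (x * p⁻¹) = 1 by
    obtain ⟨p, hp, h⟩ := h Finset.univ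
    exact ⟨p, hp, fun i => h i (Finset.mem_univ i)⟩
  intro s
  induction s using Finset.induction_on_min with
  | empty => exact ⟨1, one_mem _, fun i hi => absurd hi (Finset.notMem_empty i)⟩
  | insert a s ha ih =>
    obtain ⟨p, hp, h⟩ := ih
    refine ⟨κ a (ρ a (x * p⁻¹)) * p, mul_mem (Subgroup.subset_closure ⟨a, _, rfl⟩) hp, ?_⟩
    intro i hi
    rw [mul_inv_rev, ← mul_assoc, hρ, hinv]
    rcases Finset.mem_insert.1 hi with rfl | hi
    · rw [h1, mul_inv_cancel]
    · rw [h i hi, h2 i a _ (ha i hi), inv_one, mul_one]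

end elim

section derive

variable {n N : ℕ}

instance instSubsingletonHG {T : Type} [TopologicalSpace T] {T0 : Set T} {m : ℕ} {X : Type}
    [TopologicalSpace X] [Group X] [Subsingleton X] : Subsingleton (HG T0 m X) := by
  refine ⟨fun a c => ?_⟩
  obtain ⟨f⟩ := a
  obtain ⟨g⟩ := c
  exact congrArg (Quotient.mk _) (Fam.ext (ContinuousMap.ext fun _ => Subsingleton.elim _ _))

lemma subsingleton_phase (b : Module.Basis (Fin 0) ℝ (Phase n)) : Subsingleton (Phase n) :=
  b.repr.toEquiv.injective.subsingleton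

/-- A hypothetical homomorphism sends `1` to `1`. -/
lemma hom_one {E F : Type} [Group E] [Group F] {f : E → F} (h : ∀ x y, f (x * y) = f x * f y) :
    f 1 = 1 := by
  have := h 1 1
  rw [mul_one] at this
  exact mul_eq_left.1 this.symm

theorem mainT_of_core {T : Type} [TopologicalSpace T] [CompactSpace T] {T0 : Set T} {m : ℕ}
    (h : CoreT n N T T0 m) : MainT n N T T0 m := by
  obtain ⟨κ, ρ, hc, hh, hi, hj, hii, hiii⟩ := h
  refine ⟨κ, ρ, hc, hh, hi, hj, hii, fun hN b x => ?_⟩
  have hcard : ∀ J : Finset (Fin N), J.card ≤ m := fun J =>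
    (Finset.card_le_univ J).trans (by simpa using hN)
  rcases Nat.eq_zero_or_pos m with hm | hm
  · have hN0 : N = 0 := by omega
    subst hN0
    have hs := subsingleton_phase b
    refine ⟨⟨fun _ J hJ => ⟨?_, fun _ => Subsingleton.elim _ _⟩,
      fun _ => ⟨1, Subsingleton.elim _ _⟩⟩, 1, ?_⟩
    · rw [Subsingleton.elim (ρ b J hJ x) 1]
      exact IsOfFinOrder.one
    · rw [Subsingleton.elim (pull b 1 x) 1]
      exact one_mem _
  have hone : ∀ b J hJ, ρ b J hJ 1 = 1 := fun b J hJ => hom_one (hh hm b J hJ).2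
  constructor
  · constructor
    · rintro ⟨L, hL⟩ J hJ
      have h1 : ρ b J hJ x ^ ∏ i ∈ Jᶜ, (L i : ℕ) = 1 := by
        rw [← hii, hL, hone]
      refine ⟨isOfFinOrder_iff_pow_eq_one.2 ⟨_, Finset.prod_pos fun i _ => (L i).pos, h1⟩, ?_⟩
      rintro rfl
      rw [Finset.compl_univ, Finset.prod_empty, pow_one] at h1
      exact h1
    · intro h
      -- a common multiple of the orders
      set q : ℕ := ∏ J : Finset (Fin N), orderOf (ρ b J (hcard J) x) with hq
      have hqpos : 0 < q := Finset.prod_pos fun J _ => (h J (hcard J)).1.orderOf_pos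
      have hdvd : ∀ J, orderOf (ρ b J (hcard J) x) ∣ q := fun J =>
        Finset.dvd_prod_of_mem _ (Finset.mem_univ J)
      set Q : Fin N → ℕ+ := fun _ => Nat.toPNat q hqpos with hQ
      obtain ⟨L', hL'⟩ := hiii hN (scal b Q) (pull b Q x)
        (fun J hJ => by
          rw [hii]
          by_cases hJu : J = Finset.univ
          · rw [(h J hJ).2 hJu, one_pow]
          · have h2 : Jᶜ.Nonempty := by
              rw [Finset.nonempty_iff_ne_empty]
              intro h3
              exact hJu (by simpa using congrArg compl h3)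
            obtain ⟨i, hi'⟩ := h2
            apply orderOf_dvd_iff_pow_eq_one.1
            exact (hdvd J).trans (Finset.dvd_prod_of_mem (fun i => (Q i : ℕ)) hi'))
      exact ⟨_, (pull_pull b _ _ x).1 hL'⟩
  · -- elimination
    have hfin : Finite (Colex (Finset (Fin N))) := Finite.of_injective ofColex ofColex.injective
    let hft := Fintype.ofFinite (Colex (Finset (Fin N)))
    obtain ⟨p, hp, hall⟩ := elimination (ι := Colex (Finset (Fin N)))
      (A := fun J => HG T0 (m - (ofColex J).card) (SympCt n))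
      (fun J => κ b (ofColex J) (hcard _)) (fun J => ρ b (ofColex J) (hcard _))
      (fun J => (hh hm b (ofColex J) (hcard _)).2) (fun J => hi b (ofColex J) (hcard _))
      (fun J J' α hlt => hj b _ _ _ _ α (above_of_lt (by simpa using hlt))) x
    obtain ⟨L, hL⟩ := hiii hN b (x * p⁻¹) (fun J hJ => hall (toColex J))
    refine ⟨L, ?_⟩
    have h1 : pull b L x = pull b L p := by
      rw [map_mul, map_inv] at hL
      exact mul_inv_eq_one.1 hL
    rw [h1]
    have h2 : pull b L p ∈ Subgroup.map (pull b L)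
        (Subgroup.closure {y | ∃ (i : Colex (Finset (Fin N))) (α : HG T0
          (m - (ofColex i).card) (SympCt n)), y = κ b (ofColex i) (hcard _) α}) :=
      Subgroup.mem_map_of_mem _ hp
    rw [MonoidHom.map_closure] at h2
    refine Subgroup.closure_mono ?_ h2
    rintro y ⟨z, ⟨J, α, rfl⟩, rfl⟩
    exact ⟨ofColex J, hcard _, α, rfl⟩

theorem mainC_of_core (h : ∀ m, CoreT n N Unit ∅ m) (b : Module.Basis (Fin N) ℝ (Phase n)) :
    MainC n N b := by
  have hA : ∀ k : ℕ, Subsingleton (HomotopyGroup (Fin k) (SympCt n) 1) ↔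
      ∀ x : HG (∅ : Set Unit) (N + k) (TorusSymp b), ∃ L : Fin N → ℕ+, pull b L x ∈
        Subgroup.closure {y | ∃ J hJ α x', J ≠ Finset.univ ∧ IsCommClass b J hJ α x' ∧
          y = pull b L x'} := by
    intro k
    have hk : N + k - (Finset.univ : Finset (Fin N)).card = k := by
      rw [Finset.card_univ, Fintype.card_fin]
      omega
    have hku : (Finset.univ : Finset (Fin N)).card ≤ N + k := by
      rw [Finset.card_univ, Fintype.card_fin]
      omega
    rw [← subsingleton_iff]
    obtain ⟨κ, ρ, hc, hh, hi, hj, hii, hiii⟩ := mainT_of_core (h (N + k))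
    constructor
    · intro hs x
      obtain ⟨L, hL⟩ := (hiii (Nat.le_add_right N k) b x).2
      refine ⟨L, ?_⟩
      refine (Subgroup.closure_le _).2 ?_ hL
      rintro y ⟨J, hJ, α, rfl⟩
      by_cases hJu : J = Finset.univ
      · subst hJu
        have h1 : κ b Finset.univ hJ α = 1 := by
          have hs' : Subsingleton (HG (∅ : Set Unit)
              (N + k - (Finset.univ : Finset (Fin N)).card) (SympCt n)) := by
            rw [hk]
            exact hs
          rcases Nat.eq_zero_or_pos (N + k) with hm | hm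
          · have hN0 : N = 0 := by omega
            subst hN0
            have := subsingleton_phase b
            exact Subsingleton.elim _ _
          · rw [Subsingleton.elim α 1]
            exact hom_one (hh hm b _ hJ).1
        rw [h1, map_one]
        exact one_mem _
      · exact Subgroup.subset_closure ⟨J, hJ, α, κ b J hJ α, hJu, (hc b J hJ α _).2 rfl, rfl⟩
    · intro hx
      rcases Nat.eq_zero_or_pos (N + k) with hm | hm
      · have hN0 : N = 0 := by omega
        subst hN0
        have := subsingleton_phase b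
        infer_instance
      · have hs' : Subsingleton (HG (∅ : Set Unit)
            (N + k - (Finset.univ : Finset (Fin N)).card) (SympCt n)) := by
          suffices h0 : ∀ α : HG (∅ : Set Unit)
              (N + k - (Finset.univ : Finset (Fin N)).card) (SympCt n), α = 1 from
            ⟨fun α β => (h0 α).trans (h0 β).symm⟩
          intro α
          obtain ⟨L, hL⟩ := hx (κ b Finset.univ hku α)
          let R : HG (∅ : Set Unit) (N + k) (TorusSymp (scal b L)) →*
              HG (∅ : Set Unit) (N + k - (Finset.univ : Finset (Fin N)).card) (SympCt n) :=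
            MonoidHom.mk' (ρ (scal b L) Finset.univ hku) (hh hm _ _ hku).2
          have hR : ∀ x, R (pull b L x) = ρ b Finset.univ hku x := by
            intro x
            change ρ (scal b L) Finset.univ hku (pull b L x) = _
            rw [hii, Finset.compl_univ, Finset.prod_empty, pow_one]
          have h1 : Subgroup.closure {y | ∃ J hJ α x', J ≠ Finset.univ ∧
              IsCommClass b J hJ α x' ∧ y = pull b L x'} ≤ R.ker := by
            rw [Subgroup.closure_le]
            rintro y ⟨J, hJ, α', x', hne, hx', rfl⟩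
            rw [hc] at hx'
            subst hx'
            change R _ = 1
            rw [hR]
            exact hj b _ _ _ _ _ (above_univ hne)
          have h2 : R (pull b L (κ b Finset.univ hku α)) = 1 := h1 hL
          rw [hR, hi] at h2
          exact h2
        rw [hk] at hs'
        exact hs'
  refine ⟨hA, fun hs m hm u hu => ?_, fun hu k => ?_⟩
  · obtain ⟨κ, ρ, hc, hh, hi, hj, hii, hiii⟩ := mainT_of_core (h m)
    have hs' : ∀ J : Finset (Fin N),
        Subsingleton (HG (∅ : Set Unit) (m - J.card) (SympCt n)) := fun J =>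
      subsingleton_iff.2 (hs _)
    obtain ⟨L, hL⟩ := (hiii hm b (ofLoop ⟨u, hu⟩).cls).1.2 fun J hJ => by
      have := hs' J
      rw [Subsingleton.elim (ρ b J hJ _) 1]
      exact ⟨IsOfFinOrder.one, fun _ => rfl⟩
    exact ⟨L, homotopic_toLoop (Quotient.exact hL)⟩
  · rw [hA]
    intro x
    obtain ⟨f⟩ := x
    obtain ⟨L, hL⟩ := hu (N + k) (Nat.le_add_right N k) f.toLoop.1 f.toLoop.2
    refine ⟨L, ?_⟩
    have h1 : pull b L (Quotient.mk _ f) = 1 := by
      obtain ⟨H⟩ := hL
      refine Quotient.sound ⟨⟨⟨⟨fun q => H (q.1, q.2.2), by fun_prop⟩, fun s => ?_,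
        fun s => ?_⟩, fun t s hs => ?_⟩⟩
      · exact H.apply_zero _
      · exact H.apply_one _
      · exact H.eq_fst t (hs.resolve_left (fun h => h))
    have h2 : pull b L (Quotient.mk _ f) ∈ Subgroup.closure {y | ∃ J hJ α x',
        J ≠ Finset.univ ∧ IsCommClass b J hJ α x' ∧ y = pull b L x'} := by
      rw [h1]
      exact one_mem _
    exact h2

theorem main_of_core (h : ∀ (n N : ℕ) (T : Type) [TopologicalSpace T] [CompactSpace T]
    (T0 : Set T) (m : ℕ), CoreT n N T T0 m) : Main :=
  fun n N => ⟨fun T _ _ T0 m => mainT_of_core (h n N T T0 m),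
    fun b => mainC_of_core (h n N Unit ∅) b⟩

end derive

end Pool.Agent.BHS.Claim
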