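import Mathlib
import Pool.Agent.BHS.Class
import Pool.Agent.BHS.LHSc
import Pool.Agent.BHS.LamMul

set_option maxSynthPendingDepth 3

open scoped ContDiff Topology unitInterval
open Set Function TopologicalSpace

namespace Pool.Agent.BHS

open Pool.Agent.Helper17 Pool.Agent.TOR Pool.Agent.TOL

section words

variable {n N : ℕ} {b : Module.Basis (Fin N) ℝ (Phase n)}

/-- The vectors `θ_i b_{e i}`. -/
noncomputable def wve (b : Module.Basis (Fin N) ℝ (Phase n)) {r : ℕ} (e : Fin r → Fin N)
    (θ : Fin r → I) : Fin r → Phase n := fun i => (θ i : ℝ) • b (e i)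

lemma word_bdry_e {r : ℕ} (e : Fin r → Fin N) {θ : Fin r → I} {g : Equiv.Perm (Phase n)}
    (hg : ∀ (i : Fin N) x, g (x + b i) = g x + b i) (hθ : θ ∈ Cube.boundary (Fin r)) :
    word r (wve b e θ) g = 1 := by
  induction r with
  | zero =>
    obtain ⟨i, -⟩ := hθ
    exact i.elim0
  | succ k ih =>
    have hlast : word (k + 1) (wve b e θ) g = cm ((θ (Fin.last k) : ℝ) • b (e (Fin.last k)))
        (word k (wve b (fun i => e i.castSucc) (fun i => θ i.castSucc)) g) := rfl
    rw [hlast]
    obtain ⟨i, hi⟩ := hθ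
    induction i using Fin.lastCases with
    | last =>
      rcases hi with hi | hi
      · rw [hi, Icc.coe_zero, zero_smul, cm_zero]
      · rw [hi, Icc.coe_one, one_smul]
        apply cm_eq_one
        apply word_comm
        exact hg _
    | cast i =>
      rw [ih (fun i => e i.castSucc) ⟨i, hi⟩, cm_one]

/-- The family of the iterated commutators. -/
noncomputable def WF (b : Module.Basis (Fin N) ℝ (Phase n)) {r : ℕ} (e : Fin r → Fin N)
    {X : Type} (P : X → Equiv.Perm (Phase n)) (p : X × (Fin r → I)) : Equiv.Perm (Phase n) :=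
  word r (wve b e p.2) (P p.1)

/-- The family of the commutators with `a b_i`. -/
noncomputable def LamF (b : Module.Basis (Fin N) ℝ (Phase n)) (i : Fin N) {X : Type}
    (P : X → Equiv.Perm (Phase n)) (p : X × I) : Equiv.Perm (Phase n) :=
  cm ((p.2 : ℝ) • b i) (P p.1)

variable {X : Type} [TopologicalSpace X] {X0 : Set X} {P P' Q : X → Equiv.Perm (Phase n)}

lemma WF_lh {r : ℕ} (e : Fin r → Fin N) (h : LH b N X0 P P') :
    LH b N (SS r X0) (WF b e P) (WF b e P') := by
  obtain ⟨R, F, hF, h0, h1, hr⟩ := h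
  refine ⟨R, fun q => word r (wve b e q.1.2) (F (q.1.1, q.2)), ?_, ?_, ?_, ?_⟩
  · refine word_lev (F := fun q : (X × (Fin r → I)) × I => F (q.1.1, q.2)) ?_ r
      (fun q => wve b e q.1.2) ?_ ?_
    · exact hF.reparam ((continuous_fst.comp continuous_fst).prodMk continuous_snd)
    · intro i
      have h1 : Continuous (fun q : (X × (Fin r → I)) × I => ((q.1.2 i : I) : ℝ)) :=
        continuous_subtype_val.comp ((continuous_apply i).comp
          (continuous_snd.comp continuous_fst))
      exact h1.smul continuous_const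
    · intro t i l hl
      exact absurd l.2 (not_lt.2 hl)
  · intro p
    simp only [h0]
    rfl
  · intro p
    simp only [h1]
    rfl
  · intro p hp s
    beta_reduce
    rcases hp with hp | hp
    · rw [hr _ hp, word_one]
    · exact word_bdry_e e (fun i x => hF.per _ i i.2 x) hp

lemma WF_mem {r : ℕ} (e : Fin r → Fin N) (h : P ∈ Fam b N X X0) :
    WF b e P ∈ Fam b N (X × (Fin r → I)) (SS r X0) :=
  mem_Fam_left (WF_lh e (Fam.refl h))

lemma LamF_lh (i : Fin N) (h : LH b N X0 P P') :
    LH b N (relI X0) (LamF b i P) (LamF b i P') := by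
  have h1 := WF_lh (fun _ : Fin 1 => i) h
  have hf : Continuous (fun p : X × I => ((p.1, fun _ => p.2) : X × (Fin 1 → I))) :=
    continuous_fst.prodMk (continuous_pi fun _ => continuous_snd)
  have h2 := lh_reparam (Y0 := relI X0) h1 hf (by
    rintro p (hp | hp)
    · exact Or.inl hp
    · exact Or.inr ⟨0, hp⟩)
  have e0 : ∀ P : X → Equiv.Perm (Phase n), (fun p : X × I =>
      WF b (fun _ : Fin 1 => i) P (p.1, fun _ => p.2)) = LamF b i P := fun P => by
    funext p
    rfl
  rw [e0, e0] at h2
  exact h2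

lemma LamF_mem (i : Fin N) (h : P ∈ Fam b N X X0) : LamF b i P ∈ Fam b N (X × I) (relI X0) :=
  mem_Fam_left (LamF_lh i (Fam.refl h))

/-- Conjugation of a homotopy by a family. -/
lemma lh_conj {j : ℕ} {A B C : X → Equiv.Perm (Phase n)} (h : LH b j X0 A B)
    (hC : ∃ R, Lev b j R C) :
    LH b j X0 (fun t => C t * A t * (C t)⁻¹) (fun t => C t * B t * (C t)⁻¹) := by
  obtain ⟨R, F, hF, h0, h1, hr⟩ := h
  obtain ⟨R', hC⟩ := hC
  have hCf := (hC.mono (le_max_right R R')).reparam (continuous_fst (X := X) (Y := I))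
  refine ⟨max R R', fun p => C p.1 * F p * (C p.1)⁻¹,
    (hCf.mul (hF.mono (le_max_left R R'))).mul hCf.inv, ?_, ?_, ?_⟩
  · intro t; simp only [h0]
  · intro t; simp only [h1]
  · intro t ht s; simp only [hr t ht s, mul_one, mul_inv_cancel]

lemma cm_mul (v : Phase n) (g h : Equiv.Perm (Phase n)) :
    cm v (g * h) = cm v g * (g * cm v h * g⁻¹) := by
  simp only [cm, mul_inv_rev]
  group

end words

end Pool.Agent.BHS
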