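import Mathlib
import Pool.Agent.BHS.KapA

set_option maxSynthPendingDepth 3

open scoped ContDiff Topology unitInterval
open Set Function TopologicalSpace

namespace Pool.Agent.BHS

open Pool.Agent.Helper17 Pool.Agent.TOR Pool.Agent.TOL

section sep

variable {n N : ℕ} {b : Module.Basis (Fin N) ℝ (Phase n)} {X : Type} [TopologicalSpace X]
  {X0 : Set X} {P P' Q : X → Equiv.Perm (Phase n)}

lemma kap_levS (h : P ∈ Fam b N X X0) : LevS b N univ P := by
  obtain ⟨⟨R, hR⟩, -⟩ := h
  exact (levS_of_lev hR).mono (subset_univ _)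

lemma kap_lev {P : X → Equiv.Perm (Phase n)} (h : LevS b N univ P) (R : ℝ) : Lev b N R P :=
  h.lev fun _ _ i hi => absurd i.2 (not_lt.2 hi)

/-- Translation of a family. -/
lemma kap_cj (h : P ∈ Fam b N X X0) (v : Phase n) :
    LH b N X0 P (fun t => cj v (P t)) := by
  have h1 : LevS b N univ (fun p : X × I => cj ((p.2 : ℝ) • v) (P p.1)) :=
    ((kap_levS h).reparam continuous_fst).cj
      ((continuous_subtype_val.comp continuous_snd).smul continuous_const)
      (fun _ _ _ => mem_univ _)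
  refine ⟨0, _, kap_lev h1 0, ?_, ?_, ?_⟩
  · intro t
    beta_reduce
    rw [Icc.coe_zero, zero_smul, cj_zero]
  · intro t
    beta_reduce
    rw [Icc.coe_one, one_smul]
  · intro t ht s
    beta_reduce
    rw [h.2 t ht, cj_one]

/-- The condition on the moved points. -/
def Mid (b : Module.Basis (Fin N) ℝ (Phase n)) (i : Fin N) (c : ℝ) (x : Phase n) : Prop :=
  3 / 8 ≤ Int.fract (b.repr x i - c) ∧ Int.fract (b.repr x i - c) ≤ 5 / 8

lemma mid_disj {i : Fin N} {x : Phase n} (h0 : Mid b i 0 x) (h1 : Mid b i (1 / 2) x) : False := by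
  obtain ⟨a1, a2⟩ := h0
  obtain ⟨c1, c2⟩ := h1
  rw [sub_zero] at a1 a2
  have e1 := Int.self_sub_floor (b.repr x i)
  have e2 := Int.self_sub_floor (b.repr x i - 1 / 2)
  have h1 : ((⌊b.repr x i⌋ - ⌊b.repr x i - 1 / 2⌋ : ℤ) : ℝ) < 1 := by
    push_cast
    linarith
  have h2 : (0 : ℝ) < ((⌊b.repr x i⌋ - ⌊b.repr x i - 1 / 2⌋ : ℤ) : ℝ) := by
    push_cast
    linarith
  have h3 : ⌊b.repr x i⌋ - ⌊b.repr x i - 1 / 2⌋ < 1 := by exact_mod_cast h1
  have h4 : 0 < ⌊b.repr x i⌋ - ⌊b.repr x i - 1 / 2⌋ := by exact_mod_cast h2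
  omega

lemma mid_cm {i e : Fin N} (hie : i ≠ e) {c a : ℝ} {g : Equiv.Perm (Phase n)}
    (hg : ∀ x, g x ≠ x → Mid b i c x) {x : Phase n} (hx : cm (a • b e) g x ≠ x) :
    Mid b i c x := by
  by_contra hm
  apply hx
  have h1 : g x = x := by
    by_contra h
    exact hm (hg x h)
  have h2 : g.symm x = x := by
    rw [Equiv.symm_apply_eq, h1]
  have h3 : g (x - a • b e) = x - a • b e := by
    by_contra h
    have h4 := hg _ h
    unfold Mid at h4 hm
    rw [repr_sub_smul_ne x a (Ne.symm hie)] at h4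
    exact hm h4
  rw [cm_apply, h2, h3, sub_add_cancel]

lemma mid_cj {i : Fin N} {g : Equiv.Perm (Phase n)} (hg : ∀ x, g x ≠ x → Mid b i 0 x)
    {x : Phase n} (hx : cj ((1 / 2 : ℝ) • b i) g x ≠ x) : Mid b i (1 / 2) x := by
  have h1 : g (x - (1 / 2 : ℝ) • b i) ≠ x - (1 / 2 : ℝ) • b i := by
    intro h
    apply hx
    rw [cj_apply, h, sub_add_cancel]
  have h2 := hg _ h1
  unfold Mid at h2 ⊢
  rwa [repr_sub_smul_self, sub_zero] at h2

/-- Multiplicativity of the first commutator. -/
lemma LamF_mul_sep {i e : Fin N} (hie : i ≠ e) (hP : P ∈ Fam b N X X0) (hQ : Q ∈ Fam b N X X0)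
    (hPs : ∀ t x, P t x ≠ x → Mid b i 0 x) (hQs : ∀ t x, Q t x ≠ x → Mid b i 0 x) :
    LH b N (relI X0) (LamF b e (fun t => P t * Q t))
      (fun p => LamF b e P p * LamF b e Q p) := by
  set Q' : X → Equiv.Perm (Phase n) := fun t => cj ((1 / 2 : ℝ) • b i) (Q t) with hQ'
  have h1 : LH b N (relI X0) (LamF b e Q) (LamF b e Q') := LamF_lh e (kap_cj hQ _)
  have hPf : ∃ R, Lev b N R (fun p : X × I => P p.1) := by
    obtain ⟨⟨R, h⟩, -⟩ := hP
    exact ⟨R, h.reparam continuous_fst⟩
  have h2 := lh_conj h1 hPf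
  have h3 : (fun p : X × I => P p.1 * LamF b e Q' p * (P p.1)⁻¹) = LamF b e Q' := by
    funext p
    have hd : Equiv.Perm.Disjoint (P p.1) (LamF b e Q' p) := by
      intro x
      by_contra hcon
      push Not at hcon
      exact mid_disj (hPs _ _ hcon.1) (mid_cm hie (fun x hx => mid_cj (hQs p.1) hx) hcon.2)
    rw [hd.commute.eq, mul_inv_cancel_right]
  rw [h3] at h2
  have h4 := lh_trans h2 (lh_symm h1)
  have h5 := lh_mul (Fam.refl (LamF_mem e hP)) h4
  have h6 : (fun p : X × I => LamF b e P p * (P p.1 * LamF b e Q p * (P p.1)⁻¹)) =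
      LamF b e (fun t => P t * Q t) := by
    funext p
    exact (cm_mul _ _ _).symm
  rw [h6] at h5
  exact h5

end sep

section ehp

variable {X Y : Type} [TopologicalSpace X] [TopologicalSpace Y]

lemma EHP.transport {X0 : Set X} {Y0 : Set Y} (h : EHP Y0) {f : X → Y} {g : Y → X}
    (hf : Continuous f) (hg : Continuous g) (hgf : ∀ x, g (f x) = x)
    (hf0 : ∀ x ∈ X0, f x ∈ Y0) (hg0 : ∀ y ∈ Y0, g y ∈ X0) : EHP X0 := by
  obtain ⟨α, β, hα, hβ, hα0, hβ0, hr, he⟩ := h
  refine ⟨fun p => g (α (f p.1, p.2)), fun p => g (β (f p.1, p.2)),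
    hg.comp (hα.comp ((hf.comp continuous_fst).prodMk continuous_snd)),
    hg.comp (hβ.comp ((hf.comp continuous_fst).prodMk continuous_snd)), ?_, ?_, ?_, ?_⟩
  · intro t; simp only [hα0, hgf]
  · intro t; simp only [hβ0, hgf]
  · intro t ht s
    exact ⟨hg0 _ (hr _ (hf0 t ht) s).1, hg0 _ (hr _ (hf0 t ht) s).2⟩
  · intro t
    exact (he (f t)).imp (hg0 _) (hg0 _)

/-- Splitting off the last coordinate. -/
def snocF (r : ℕ) (p : X × (Fin (r + 1) → I)) : (X × (Fin r → I)) × I :=
  ((p.1, fun i => p.2 i.castSucc), p.2 (Fin.last r))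

lemma continuous_snocF (r : ℕ) : Continuous (snocF (X := X) r) := by
  refine (continuous_fst.prodMk (continuous_pi fun i => ?_)).prodMk ?_
  · exact (continuous_apply _).comp continuous_snd
  · exact (continuous_apply _).comp continuous_snd

lemma snocF_mem {X0 : Set X} {r : ℕ} {p : X × (Fin (r + 1) → I)} (hp : p ∈ SS (r + 1) X0) :
    snocF r p ∈ relI (SS r X0) := by
  rcases hp with hp | ⟨i, hi⟩
  · exact Or.inl (Or.inl hp)
  · induction i using Fin.lastCases with
    | last => exact Or.inr hi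
    | cast i => exact Or.inl (Or.inr ⟨i, hi⟩)

lemma kap_ehp_SS (X0 : Set X) (r : ℕ) : EHP (SS (r + 1) X0) := by
  refine (ehp_relI (SS r X0)).transport (f := snocF r)
    (g := fun q : (X × (Fin r → I)) × I =>
      ((q.1.1, Fin.snoc (α := fun _ => I) q.1.2 q.2) : X × (Fin (r + 1) → I)))
    (continuous_snocF r) ?_ ?_ (fun _ => snocF_mem) ?_
  · refine (continuous_fst.comp continuous_fst).prodMk (continuous_pi fun i => ?_)
    induction i using Fin.lastCases with
    | last =>
      simp only [Fin.snoc_last]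
      exact continuous_snd
    | cast i =>
      simp only [Fin.snoc_castSucc]
      exact (continuous_apply i).comp (continuous_snd.comp continuous_fst)
  · intro p
    refine Prod.ext rfl ?_
    funext i
    induction i using Fin.lastCases with
    | last => simp [snocF]
    | cast i => simp [snocF]
  · rintro q ((hq | ⟨i, hi⟩) | hq)
    · exact Or.inl hq
    · refine Or.inr ⟨i.castSucc, ?_⟩
      simp only [Fin.snoc_castSucc]
      exact hi
    · refine Or.inr ⟨Fin.last r, ?_⟩
      simp only [Fin.snoc_last]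
      exact hq

end ehp

section mult

variable {n N : ℕ} {b : Module.Basis (Fin N) ℝ (Phase n)} {X : Type} [TopologicalSpace X]
  {X0 : Set X} {P P' Q : X → Equiv.Perm (Phase n)}

lemma LamF_mul_ehp (i : Fin N) (hE : EHP X0) (hP : P ∈ Fam b N X X0) (hQ : Q ∈ Fam b N X X0) :
    LH b N (relI X0) (LamF b i (fun t => P t * Q t))
      (fun p => LamF b i P p * LamF b i Q p) :=
  (thm_LamMul thm_LHSc b N univ (cyl_univ b) i i.2 X X0 P Q hE (kap_levS hP) (kap_levS hQ)
    hP.2 hQ.2).lh (cyl_univ b)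

lemma WF_succ {r : ℕ} (e : Fin (r + 1) → Fin N) (P : X → Equiv.Perm (Phase n)) :
    WF b e P = fun p => LamF b (e (Fin.last r)) (WF b (fun i => e i.castSucc) P) (snocF r p) :=
  rfl

/-- Multiplicativity of the iterated commutators. -/
lemma WF_mul (hP : P ∈ Fam b N X X0) (hQ : Q ∈ Fam b N X X0)
    (h1 : ∀ e : Fin N, LH b N (relI X0) (LamF b e (fun t => P t * Q t))
      (fun p => LamF b e P p * LamF b e Q p)) {r : ℕ} (e : Fin r → Fin N) :
    LH b N (SS r X0) (WF b e (fun t => P t * Q t)) (fun p => WF b e P p * WF b e Q p) := by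
  have hPQ : (fun t => P t * Q t) ∈ Fam b N X X0 := (Fam b N X X0).mul_mem hP hQ
  induction r with
  | zero => exact Fam.refl (WF_mem e hPQ)
  | succ r ih =>
    have h2 := ih (fun i => e i.castSucc)
    have h3 : LH b N (relI (SS r X0)) (LamF b (e (Fin.last r))
        (WF b (fun i => e i.castSucc) (fun t => P t * Q t)))
        (fun p => LamF b (e (Fin.last r)) (WF b (fun i => e i.castSucc) P) p *
          LamF b (e (Fin.last r)) (WF b (fun i => e i.castSucc) Q) p) := by
      rcases Nat.eq_zero_or_pos r with hr | hr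
      · subst hr
        have h4 := lh_reparam (Y0 := relI (SS 0 X0)) (h1 (e (Fin.last 0)))
          (f := fun q : (X × (Fin 0 → I)) × I => (q.1.1, q.2))
          ((continuous_fst.comp continuous_fst).prodMk continuous_snd) (by
            rintro q ((hq | ⟨i, -⟩) | hq)
            · exact Or.inl hq
            · exact i.elim0
            · exact Or.inr hq)
        have e0 : ∀ P : X → Equiv.Perm (Phase n), (fun q : (X × (Fin 0 → I)) × I =>
            LamF b (e (Fin.last 0)) P (q.1.1, q.2)) =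
            LamF b (e (Fin.last 0)) (WF b (fun i : Fin 0 => e i.castSucc) P) := fun P => by
          funext q
          rfl
        have e1 : (fun q : (X × (Fin 0 → I)) × I => LamF b (e (Fin.last 0)) P (q.1.1, q.2) *
            LamF b (e (Fin.last 0)) Q (q.1.1, q.2)) =
            fun q => LamF b (e (Fin.last 0)) (WF b (fun i : Fin 0 => e i.castSucc) P) q *
              LamF b (e (Fin.last 0)) (WF b (fun i : Fin 0 => e i.castSucc) Q) q := by
          rw [← e0 P, ← e0 Q]
        rw [e0, e1] at h4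
        exact h4
      · obtain ⟨r', rfl⟩ := Nat.exists_eq_succ_of_ne_zero hr.ne'
        exact lh_trans (LamF_lh _ h2) (LamF_mul_ehp _ (kap_ehp_SS X0 r') (WF_mem _ hP)
          (WF_mem _ hQ))
    have h5 := lh_reparam (Y0 := SS (r + 1) X0) h3 (continuous_snocF r) (fun _ => snocF_mem)
    rw [WF_succ e (fun t => P t * Q t), WF_succ e P, WF_succ e Q]
    exact h5

end mult

end Pool.Agent.BHS
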