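import Mathlib
import Pool.Agent.BHS.KapB
import Pool.Agent.BHS.Bridge
import Pool.Agent.TOL.DilRel
import Pool.Agent.TOR.Pers

set_option maxSynthPendingDepth 3

open scoped ContDiff Topology unitInterval
open Set Function TopologicalSpace

namespace Pool.Agent.BHS

open Pool.Agent.Helper17 Pool.Agent.TOR Pool.Agent.TOL

/-! ### Periodic extensions -/

section per

variable {n N : ℕ} {b : Module.Basis (Fin N) ℝ (Phase n)}

lemma per_span {ψ : Equiv.Perm (Phase n)} (h : ∀ (i : Fin N) x, ψ (x + b i) = ψ x + b i)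
    {v : Phase n} (hv : v ∈ Submodule.span ℤ (Set.range b)) : ∀ x, ψ (x + v) = ψ x + v := by
  induction hv using Submodule.span_induction with
  | mem v hv =>
    obtain ⟨i, rfl⟩ := hv
    exact h i
  | zero => intro x; simp
  | add v w _ _ hv hw =>
    intro x
    rw [← add_assoc, hw, hv, add_assoc]
  | smul a v _ hv =>
    intro x
    have h1 : ∀ (k : ℕ) (x : Phase n), ψ (x + (k : ℤ) • v) = ψ x + (k : ℤ) • v := by
      intro k
      induction k with
      | zero => intro x; simp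
      | succ k ih =>
        intro x
        have e : ((k + 1 : ℕ) : ℤ) • v = (k : ℤ) • v + v := by
          push_cast
          rw [add_smul, one_smul]
        rw [e, ← add_assoc, hv, ih, add_assoc]
    obtain ⟨k, rfl | rfl⟩ := a.eq_nat_or_neg
    · exact h1 k x
    · have h2 := h1 k (x + (-(k : ℤ)) • v)
      have e : x + (-(k : ℤ)) • v + (k : ℤ) • v = x := by
        rw [neg_smul]; abel
      rw [e] at h2
      rw [h2, neg_smul]
      abel

lemma flr_eq_of_mem {x v : Phase n} (hv : v ∈ Submodule.span ℤ (Set.range b))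
    (hx : x - v ∈ openBox b) : flr b N x = v := by
  apply b.repr.injective
  ext i
  rw [per_repr_flr, if_pos i.2]
  obtain ⟨k, hk⟩ := (b.mem_span_iff_repr_mem ℤ v).1 hv i
  have hk' : b.repr v i = (k : ℝ) := hk.symm
  have h1 := hx i
  rw [map_sub, Finsupp.sub_apply, hk'] at h1
  rw [hk']
  congr 1
  rw [Int.floor_eq_iff]
  constructor <;> linarith [h1.1, h1.2]

variable {K : Compacts (Phase n)} (hK : (K : Set (Phase n)) ⊆ openBox b)

lemma perPerm_unique {φ : SympSupp n K} {ψ : Equiv.Perm (Phase n)}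
    (h : ∀ (i : Fin N) x, ψ (x + b i) = ψ x + b i) (hψ : IsPer b K φ.1 ψ) :
    ψ = perPerm b hK N φ := by
  ext1 x
  rw [perPerm_apply]
  by_cases hx : x - flr b N x ∈ K
  · have h1 := per_span h (per_flr_mem b N x) (x - flr b N x)
    rw [sub_add_cancel, hψ.1 _ hx] at h1
    exact h1
  · rw [φ.2 _ hx, sub_add_cancel]
    apply hψ.2
    intro v hv hxv
    rw [← flr_eq_of_mem hv (hK hxv)] at hxv
    exact hx hxv

lemma perPerm_isPer (φ : SympSupp n K) : IsPer b K φ.1 (perPerm b hK N φ) := by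
  constructor
  · intro x hx
    have h1 : flr b N x = 0 := flr_eq_of_mem (Submodule.zero_mem _) (by
      rw [sub_zero]; exact hK hx)
    rw [perPerm_apply, h1, sub_zero, add_zero]
  · intro x hx
    rw [perPerm_apply, φ.2 _ (hx _ (per_flr_mem b N x)), sub_add_cancel]

/-- Product in `SympSupp n K`. -/
def suppMul (φ ψ : SympSupp n K) : SympSupp n K :=
  ⟨φ.1 * ψ.1, fun p hp => by
    change (φ.1 : Equiv.Perm (Phase n)) ((ψ.1 : Equiv.Perm (Phase n)) p) = p
    rw [ψ.2 p hp, φ.2 p hp]⟩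

lemma perPerm_lev {X : Type} [TopologicalSpace X] {g : X → SympSupp n K} (hg : Continuous g) :
    Lev b N 1 (fun p => perPerm b hK N (g p)) := by
  obtain ⟨δ, hδ, hδ', hKδ⟩ := per_exists_delta b K hK
  exact per_lev b hK hδ hKδ N g hg

lemma perPerm_per (φ : SympSupp n K) (i : Fin N) (x : Phase n) :
    perPerm b hK N φ (x + b i) = perPerm b hK N φ x + b i :=
  (perPerm_lev hK (continuous_const (y := φ) (X := Unit))).per () i i.2 x

lemma perPerm_mul (φ ψ : SympSupp n K) :
    perPerm b hK N (suppMul φ ψ) = perPerm b hK N φ * perPerm b hK N ψ := by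
  symm
  apply perPerm_unique
  · intro i x
    change perPerm b hK N φ (perPerm b hK N ψ (x + b i)) = _
    rw [perPerm_per, perPerm_per]
    rfl
  · constructor
    · intro x hx
      change perPerm b hK N φ (perPerm b hK N ψ x) =
        (φ.1 : Equiv.Perm (Phase n)) ((ψ.1 : Equiv.Perm (Phase n)) x)
      rw [(perPerm_isPer hK ψ).1 x hx]
      by_cases h : (ψ.1 : Equiv.Perm (Phase n)) x = x
      · rw [h, (perPerm_isPer hK φ).1 x hx]
      · rw [(perPerm_isPer hK φ).1 _ (per_mem_of_ne ψ h).2]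
    · intro x hx
      change perPerm b hK N φ (perPerm b hK N ψ x) = x
      rw [(perPerm_isPer hK ψ).2 x hx, (perPerm_isPer hK φ).2 x hx]

lemma perPerm_one {φ : SympSupp n K} (h : φ.1 = 1) : perPerm b hK N φ = 1 := by
  ext1 x
  rw [perPerm_apply, h]
  change x - flr b N x + flr b N x = x
  abel

lemma perPerm_fam {X : Type} [TopologicalSpace X] {X0 : Set X} {g : X → SympSupp n K}
    (hg : Continuous g) (h0 : ∀ t ∈ X0, (g t).1 = 1) :
    (fun p => perPerm b hK N (g p)) ∈ Fam b N X X0 :=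
  ⟨⟨1, perPerm_lev hK hg⟩, fun t ht => perPerm_one hK (h0 t ht)⟩

lemma perPerm_lh {X : Type} [TopologicalSpace X] {X0 : Set X} {g g' : C(X, SympSupp n K)}
    (h0 : ∀ t ∈ X0, (g t).1 = 1) (h : g.HomotopicRel g' X0) :
    LH b N X0 (fun p => perPerm b hK N (g p)) (fun p => perPerm b hK N (g' p)) := by
  obtain ⟨H⟩ := h
  refine ⟨1, fun p => perPerm b hK N (H (p.2, p.1)),
    perPerm_lev hK (g := fun p : X × I => H (p.2, p.1))
      (H.continuous.comp (continuous_snd.prodMk continuous_fst)), ?_, ?_, ?_⟩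
  · intro t
    beta_reduce
    rw [H.apply_zero]
  · intro t
    beta_reduce
    rw [H.apply_one]
  · intro t ht s
    beta_reduce
    rw [H.eq_fst s ht]
    exact perPerm_one hK (h0 t ht)

end per

/-! ### Boxes -/

section boxes

variable {n N : ℕ}

lemma isCompact_box (b : Module.Basis (Fin N) ℝ (Phase n)) (δ : ℝ) :
    IsCompact {x : Phase n | ∀ i, δ ≤ b.repr x i ∧ b.repr x i ≤ 1 - δ} := by
  have hcl : IsClosed {x : Phase n | ∀ i, δ ≤ b.repr x i ∧ b.repr x i ≤ 1 - δ} := by
    have : {x : Phase n | ∀ i, δ ≤ b.repr x i ∧ b.repr x i ≤ 1 - δ} =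
        ⋂ i : Fin N, {x | δ ≤ b.repr x i} ∩ {x | b.repr x i ≤ 1 - δ} := by
      ext x
      simp
    rw [this]
    exact isClosed_iInter fun i => (isClosed_le continuous_const (continuous_repr b i)).inter
      (isClosed_le (continuous_repr b i) continuous_const)
  refine (isCompact_slab_zero b (|δ| + 1)).of_isClosed_subset hcl ?_
  intro x hx i _
  have h1 := hx i
  have h2 := neg_abs_le δ
  have h3 := le_abs_self δ
  rw [abs_le]
  constructor <;> linarith [h1.1, h1.2]

/-- The closed box `δ ≤ ξ_i ≤ 1 - δ`. -/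
def boxC (b : Module.Basis (Fin N) ℝ (Phase n)) (δ : ℝ) : Compacts (Phase n) :=
  ⟨{x | ∀ i, δ ≤ b.repr x i ∧ b.repr x i ≤ 1 - δ}, isCompact_box b δ⟩

lemma mem_boxC {b : Module.Basis (Fin N) ℝ (Phase n)} {δ : ℝ} {x : Phase n} :
    x ∈ (boxC b δ : Set (Phase n)) ↔ ∀ i, δ ≤ b.repr x i ∧ b.repr x i ≤ 1 - δ := Iff.rfl

lemma boxC_sub {b : Module.Basis (Fin N) ℝ (Phase n)} {δ : ℝ} (hδ : 0 < δ) :
    (boxC b δ : Set (Phase n)) ⊆ openBox b := fun x hx i => by
  have := hx i
  constructor <;> linarith [this.1, this.2]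

lemma boxC_convex (b : Module.Basis (Fin N) ℝ (Phase n)) (δ : ℝ) :
    Convex ℝ (boxC b δ : Set (Phase n)) := by
  intro x hx y hy s t hs ht hst i
  have h1 := hx i
  have h2 := hy i
  have e : b.repr (s • x + t • y) i = s * b.repr x i + t * b.repr y i := by
    rw [map_add, map_smul, map_smul, Finsupp.add_apply, Finsupp.smul_apply, Finsupp.smul_apply,
      smul_eq_mul, smul_eq_mul]
  rw [e]
  constructor
  · nlinarith [mul_le_mul_of_nonneg_left h1.1 hs, mul_le_mul_of_nonneg_left h2.1 ht]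
  · nlinarith [mul_le_mul_of_nonneg_left h1.2 hs, mul_le_mul_of_nonneg_left h2.2 ht]

lemma boxC_interior (b : Module.Basis (Fin N) ℝ (Phase n)) {δ : ℝ} (hδ : δ < 1 / 2) :
    (interior (boxC b δ : Set (Phase n))).Nonempty := by
  have ho : IsOpen {x : Phase n | ∀ i, δ < b.repr x i ∧ b.repr x i < 1 - δ} := by
    have : {x : Phase n | ∀ i, δ < b.repr x i ∧ b.repr x i < 1 - δ} =
        ⋂ i : Fin N, {x | δ < b.repr x i} ∩ {x | b.repr x i < 1 - δ} := by
      ext x
      simp
    rw [this]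
    exact isOpen_iInter_of_finite fun i =>
      (isOpen_lt continuous_const (continuous_repr b i)).inter
      (isOpen_lt (continuous_repr b i) continuous_const)
  have hsub : {x : Phase n | ∀ i, δ < b.repr x i ∧ b.repr x i < 1 - δ} ⊆
      (boxC b δ : Set (Phase n)) := fun x hx i => ⟨(hx i).1.le, (hx i).2.le⟩
  refine ⟨b.repr.symm (Finsupp.equivFunOnFinite.symm fun _ => 1 / 2),
    interior_maximal hsub ho fun i => ?_⟩
  rw [LinearEquiv.apply_symm_apply]
  change δ < 1 / 2 ∧ (1 / 2 : ℝ) < 1 - δ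
  constructor <;> linarith

lemma exists_boxC (b : Module.Basis (Fin N) ℝ (Phase n)) {K : Compacts (Phase n)}
    (hK : (K : Set (Phase n)) ⊆ openBox b) :
    ∃ δ : ℝ, 0 < δ ∧ δ < 1 / 2 ∧ ∀ δ' ≤ δ, (K : Set (Phase n)) ⊆ boxC b δ' := by
  obtain ⟨δ, hδ, hδ', h⟩ := per_exists_delta b K hK
  refine ⟨min δ (1 / 4), lt_min hδ (by norm_num), (min_le_right _ _).trans_lt (by norm_num), ?_⟩
  intro δ' hδ'' x hx i
  have h1 := h x hx i
  have h2 := hδ''.trans (min_le_left δ (1 / 4))
  constructor <;> linarith [h1.1, h1.2]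

end boxes

end Pool.Agent.BHS
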