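import Mathlib
import Pool.Agent.BHS.KapC

set_option maxSynthPendingDepth 3

open scoped ContDiff Topology unitInterval
open Set Function TopologicalSpace

namespace Pool.Agent.BHS

open Pool.Agent.Helper17 Pool.Agent.TOR Pool.Agent.TOL

section kf

variable {n N : ℕ} {b : Module.Basis (Fin N) ℝ (Phase n)} {T : Type} [TopologicalSpace T]
  {T0 : Set T} {m : ℕ}

/-- Splitting of the coordinates of the cube. -/
def splitF {r : ℕ} (h : r ≤ m) (p : T × (Fin m → I)) : (T × (Fin (m - r) → I)) × (Fin r → I) :=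
  ((p.1, fun i => p.2 (Fin.cast (Nat.sub_add_cancel h) (Fin.castAdd r i))),
    fun i => p.2 (Fin.cast (Nat.sub_add_cancel h) (Fin.natAdd (m - r) i)))

lemma continuous_splitF {r : ℕ} (h : r ≤ m) : Continuous (splitF (T := T) h) :=
  (continuous_fst.prodMk (continuous_pi fun _ => (continuous_apply _).comp continuous_snd)).prodMk
    (continuous_pi fun _ => (continuous_apply _).comp continuous_snd)

lemma splitF_append {r : ℕ} (h : r ≤ m) (t : T) (s : Fin (m - r) → I) (θ : Fin r → I) :
    splitF h (t, fun i => Fin.append s θ (Fin.cast (Nat.sub_add_cancel h).symm i)) =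
      ((t, s), θ) := by
  unfold splitF
  refine Prod.ext (Prod.ext rfl ?_) ?_
  · funext i
    change Fin.append s θ (Fin.cast _ (Fin.cast _ (Fin.castAdd r i))) = s i
    rw [Fin.cast_cast, Fin.cast_eq_self, Fin.append_left]
  · funext i
    change Fin.append s θ (Fin.cast _ (Fin.cast _ (Fin.natAdd (m - r) i))) = θ i
    rw [Fin.cast_cast, Fin.cast_eq_self, Fin.append_right]

lemma append_splitF {r : ℕ} (h : r ≤ m) (p : T × (Fin m → I)) :
    ((splitF h p).1.1, fun i => Fin.append (splitF h p).1.2 (splitF h p).2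
      (Fin.cast (Nat.sub_add_cancel h).symm i)) = p := by
  refine Prod.ext rfl ?_
  funext i
  obtain ⟨i', rfl⟩ : ∃ i', Fin.cast (Nat.sub_add_cancel h) i' = i :=
    ⟨Fin.cast (Nat.sub_add_cancel h).symm i, by rw [Fin.cast_cast, Fin.cast_eq_self]⟩
  change Fin.append (splitF h p).1.2 (splitF h p).2 (Fin.cast _ (Fin.cast _ i')) = _
  rw [Fin.cast_cast, Fin.cast_eq_self]
  induction i' using Fin.addCases with
  | left i => rw [Fin.append_left]; rfl
  | right i => rw [Fin.append_right]; rfl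

lemma splitF_mem {r : ℕ} (h : r ≤ m) {p : T × (Fin m → I)} (hp : p ∈ Claim.bdry T0 m) :
    splitF h p ∈ SS r (Claim.bdry T0 (m - r)) := by
  rcases hp with hp | ⟨i, hi⟩
  · exact Or.inl (Or.inl hp)
  · obtain ⟨i', rfl⟩ : ∃ i', Fin.cast (Nat.sub_add_cancel h) i' = i :=
      ⟨Fin.cast (Nat.sub_add_cancel h).symm i, by rw [Fin.cast_cast, Fin.cast_eq_self]⟩
    induction i' using Fin.addCases with
    | left i => exact Or.inl (Or.inr ⟨i, hi⟩)
    | right i => exact Or.inr ⟨i, hi⟩

/-- The family of the iterated commutators over `T × I^m`. -/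
noncomputable def KF (b : Module.Basis (Fin N) ℝ (Phase n)) (J : Finset (Fin N))
    (hJ : J.card ≤ m) (P : T × (Fin (m - J.card) → I) → Equiv.Perm (Phase n))
    (p : T × (Fin m → I)) : Equiv.Perm (Phase n) :=
  WF b (J.orderEmbOfFin rfl) P (splitF hJ p)

variable {J : Finset (Fin N)} {hJ : J.card ≤ m}
  {P P' Q : T × (Fin (m - J.card) → I) → Equiv.Perm (Phase n)}

lemma KF_lh (h : LH b N (Claim.bdry T0 (m - J.card)) P P') :
    LH b N (Claim.bdry T0 m) (KF b J hJ P) (KF b J hJ P') := by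
  have h1 := lh_reparam (Y0 := Claim.bdry T0 m) (WF_lh (J.orderEmbOfFin rfl) h)
    (continuous_splitF hJ) (fun _ => splitF_mem hJ)
  exact h1

lemma KF_mem (h : P ∈ Fam b N _ (Claim.bdry T0 (m - J.card))) :
    KF b J hJ P ∈ Fam b N _ (Claim.bdry T0 m) :=
  mem_Fam_left (KF_lh (Fam.refl h))

lemma KF_mul (hP : P ∈ Fam b N _ (Claim.bdry T0 (m - J.card)))
    (hQ : Q ∈ Fam b N _ (Claim.bdry T0 (m - J.card)))
    (h1 : ∀ e : Fin N, LH b N (relI (Claim.bdry T0 (m - J.card)))
      (LamF b e (fun t => P t * Q t)) (fun p => LamF b e P p * LamF b e Q p)) :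
    LH b N (Claim.bdry T0 m) (KF b J hJ (fun t => P t * Q t))
      (fun p => KF b J hJ P p * KF b J hJ Q p) := by
  have h2 := lh_reparam (Y0 := Claim.bdry T0 m) (WF_mul hP hQ h1 (J.orderEmbOfFin rfl))
    (continuous_splitF hJ) (fun _ => splitF_mem hJ)
  exact h2

end kf

section comm

variable {n N : ℕ} {b : Module.Basis (Fin N) ℝ (Phase n)} {T : Type} [TopologicalSpace T]
  [CompactSpace T] {T0 : Set T} {m : ℕ} {J : Finset (Fin N)} {hJ : J.card ≤ m}

/-- `itcomm` is `word`. -/
lemma itcomm_eq (k : ℕ) (v : Fin k → Phase n) (g : Equiv.Perm (Phase n)) :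
    Claim.itcomm k v g = word k v g := by
  induction k with
  | zero => rfl
  | succ k ih =>
    change Claim.tcomm _ (Claim.itcomm k _ g) = cm _ (word k _ g)
    rw [ih]
    rfl

/-- The data of a commutator class, on families. -/
structure CommData (b : Module.Basis (Fin N) ℝ (Phase n)) (J : Finset (Fin N)) (hJ : J.card ≤ m)
    (K : Compacts (Phase n)) (hK : (K : Set (Phase n)) ⊆ openBox b)
    (g : C(T × (Fin (m - J.card) → I), SympSupp n K))
    (α : Claim.HG T0 (m - J.card) (SympCt n)) (x : Claim.HG T0 m (TorusSymp b)) : Prop where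
  rel : ∀ p ∈ Claim.bdry T0 (m - J.card), (g p).1 = 1
  fst : ∃ h, (real_symp b).equiv α = cl (fun p => ((g p).1 : Equiv.Perm (Phase n))) h
  snd : ∃ h, (real_torus b).equiv x = cl (KF b J hJ fun p => perPerm b hK N (g p)) h

lemma commData_of {α : Claim.HG T0 (m - J.card) (SympCt n)}
    {x : Claim.HG T0 m (TorusSymp b)} (hx : Claim.IsCommClass b J hJ α x) :
    ∃ K hK g, CommData (T0 := T0) b J hJ K hK g α x := by
  obtain ⟨K, g, a, u, hK, ha, rfl, rfl, hu⟩ := hx
  have hrel : ∀ p ∈ Claim.bdry T0 (m - J.card), (g p).1 = 1 := fun p hp => by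
    rw [← ha, a.rel p hp]
  have hKF := KF_mem (hJ := hJ) (perPerm_fam hK g.continuous hrel)
  refine ⟨K, hK, g, hrel, ?_, hKF, ?_⟩
  · have e : (fun p => ((g p).1 : Equiv.Perm (Phase n))) =
        fun p => (SympCt n).subtype (a.map p) := by
      funext p
      rw [ha]
      rfl
    rw [e]
    exact ⟨_, (real_symp b).equiv_cls a⟩
  · rw [(real_torus b).equiv_cls]
    congr 1
    funext p
    obtain ⟨ψ, hψ, h1⟩ := hu (splitF hJ p).1.1 (splitF hJ p).1.2 (splitF hJ p).2
    rw [append_splitF] at h1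
    change ((u.map p : TorusSymp b) : Equiv.Perm (Phase n)) = _
    rw [h1, itcomm_eq, perPerm_unique hK ψ.2.2.2.2 hψ]
    rfl

lemma commData_to {K : Compacts (Phase n)} {hK : (K : Set (Phase n)) ⊆ openBox b}
    {g : C(T × (Fin (m - J.card) → I), SympSupp n K)}
    {α : Claim.HG T0 (m - J.card) (SympCt n)} {x : Claim.HG T0 m (TorusSymp b)}
    (h : CommData (T0 := T0) b J hJ K hK g α x) : Claim.IsCommClass b J hJ α x := by
  obtain ⟨h1, h2⟩ := h.snd
  obtain ⟨u, hu, hu0⟩ := (real_torus b).exists_map h1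
  have hx : x = (⟨u, hu0⟩ : Claim.Fam T0 m (TorusSymp b)).cls := by
    rw [← (real_torus b).equiv_symm_cl (f := ⟨u, hu0⟩) h1 hu, ← h2, MulEquiv.symm_apply_apply]
  obtain ⟨h3, h4⟩ := h.fst
  have hα : α = (⟨(⟨SympSupp.incl K, SympSupp.continuous_incl K⟩ :
      C(SympSupp n K, SympCt n)).comp g, h.rel⟩ : Claim.Fam T0 (m - J.card) (SympCt n)).cls := by
    rw [← (real_symp b).equiv_symm_cl (f := ⟨(⟨SympSupp.incl K, SympSupp.continuous_incl K⟩ :
      C(SympSupp n K, SympCt n)).comp g, h.rel⟩) h3 (fun _ => rfl), ← h4,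
      MulEquiv.symm_apply_apply]
  refine ⟨K, g, _, _, hK, fun p => rfl, hα.symm, hx.symm, ?_⟩
  intro t s θ
  refine ⟨⟨perPerm b hK N (g (t, s)), (perPerm_lev hK g.continuous).isTorusSymp (t, s)⟩,
    perPerm_isPer hK _, ?_⟩
  have e := hu (t, fun i => Fin.append s θ (Fin.cast (Nat.sub_add_cancel hJ).symm i))
  change ((u _ : TorusSymp b) : Equiv.Perm (Phase n)) = _
  refine Eq.trans e ?_
  unfold KF
  rw [splitF_append, itcomm_eq]
  rfl

/-- Every class has data in a given box. -/
lemma exists_commData {δ : ℝ} (hδ : 0 < δ) (hδ' : δ < 1 / 2)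
    (α : Claim.HG T0 (m - J.card) (SympCt n)) :
    ∃ g x, CommData (T0 := T0) b J hJ (boxC b δ) (boxC_sub hδ) g α x := by
  obtain ⟨a⟩ := α
  obtain ⟨g, hg0, hg⟩ := (thm_DilRel (boxC b δ) (boxC_convex b δ) (boxC_interior b hδ')
    (T × (Fin (m - J.card) → I)) (Claim.bdry T0 (m - J.card))).1 a.map a.rel
  have hKF := KF_mem (hJ := hJ) (perPerm_fam (boxC_sub hδ) g.continuous hg0)
  refine ⟨g, (real_torus b).equiv.symm (cl _ hKF), hg0, ?_, hKF, ?_⟩
  · have h1 := (real_symp b).mem_Fam (f := fun p => (g p).1)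
      ((SympSupp.continuous_incl _).comp g.continuous) hg0
    refine ⟨h1, ?_⟩
    change (real_symp b).equiv a.cls = _
    rw [(real_symp b).equiv_cls, cl_eq_iff]
    exact ((real_symp b).homotopic_iff a.rel).1 hg
  · rw [MulEquiv.apply_symm_apply]

/-- The class only depends on `α`. -/
lemma commData_unique {K K' : Compacts (Phase n)} {hK : (K : Set (Phase n)) ⊆ openBox b}
    {hK' : (K' : Set (Phase n)) ⊆ openBox b}
    {g : C(T × (Fin (m - J.card) → I), SympSupp n K)}
    {g' : C(T × (Fin (m - J.card) → I), SympSupp n K')}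
    {α : Claim.HG T0 (m - J.card) (SympCt n)} {x x' : Claim.HG T0 m (TorusSymp b)}
    (h : CommData (T0 := T0) b J hJ K hK g α x)
    (h' : CommData (T0 := T0) b J hJ K' hK' g' α x') : x = x' := by
  obtain ⟨δ1, hδ1, hδ1', hs1⟩ := exists_boxC b hK
  obtain ⟨δ2, hδ2, hδ2', hs2⟩ := exists_boxC b hK'
  set δ := min δ1 δ2 with hδdef
  have hδ : 0 < δ := lt_min hδ1 hδ2
  have hle : K ≤ boxC b δ := hs1 δ (min_le_left _ _)
  have hle' : K' ≤ boxC b δ := hs2 δ (min_le_right _ _)
  set G : C(T × (Fin (m - J.card) → I), SympSupp n (boxC b δ)) :=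
    ⟨fun p => SympSupp.mono hle (g p),
      (SympSupp.isInducing_mono hle).continuous.comp g.continuous⟩ with hG
  set G' : C(T × (Fin (m - J.card) → I), SympSupp n (boxC b δ)) :=
    ⟨fun p => SympSupp.mono hle' (g' p),
      (SympSupp.isInducing_mono hle').continuous.comp g'.continuous⟩ with hG'
  have hG1 : ∀ p, (G p).1 = (g p).1 := fun p => rfl
  have hG1' : ∀ p, (G' p).1 = (g' p).1 := fun p => rfl
  obtain ⟨k1, e1⟩ := h.fst
  obtain ⟨k2, e2⟩ := h'.fst
  have h1 : ((⟨SympSupp.incl _, SympSupp.continuous_incl _⟩ :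
      C(SympSupp n (boxC b δ), SympCt n)).comp G).HomotopicRel
      ((⟨SympSupp.incl _, SympSupp.continuous_incl _⟩ :
      C(SympSupp n (boxC b δ), SympCt n)).comp G') (Claim.bdry T0 (m - J.card)) := by
    rw [(real_symp b).homotopic_iff h.rel]
    have h2 := e1.symm.trans e2
    rw [cl_eq_iff] at h2
    exact h2
  have h2 := (thm_DilRel (boxC b δ) (boxC_convex b δ)
    (boxC_interior b ((min_le_left _ _).trans_lt hδ1')) (T × (Fin (m - J.card) → I))
    (Claim.bdry T0 (m - J.card))).2 G G' h.rel h'.rel h1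
  have h3 := KF_lh (hJ := hJ) (perPerm_lh (boxC_sub hδ) h.rel h2)
  obtain ⟨k3, e3⟩ := h.snd
  obtain ⟨k4, e4⟩ := h'.snd
  apply (real_torus b).equiv.injective
  rw [e3, e4, cl_eq_iff]
  exact h3

theorem commClass_unique {α : Claim.HG T0 (m - J.card) (SympCt n)}
    {x x' : Claim.HG T0 m (TorusSymp b)} (h : Claim.IsCommClass b J hJ α x)
    (h' : Claim.IsCommClass b J hJ α x') : x = x' := by
  obtain ⟨K, hK, g, h⟩ := commData_of h
  obtain ⟨K', hK', g', h'⟩ := commData_of h'
  exact commData_unique h h'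

theorem commClass_exists (b : Module.Basis (Fin N) ℝ (Phase n)) (J : Finset (Fin N))
    (hJ : J.card ≤ m) (α : Claim.HG T0 (m - J.card) (SympCt n)) :
    ∃ x, Claim.IsCommClass b J hJ α x := by
  obtain ⟨g, x, h⟩ := exists_commData (b := b) (J := J) (hJ := hJ) (δ := 1 / 4) (by norm_num)
    (by norm_num) α
  exact ⟨x, commData_to h⟩

/-- The commutator class. -/
noncomputable def kappa (b : Module.Basis (Fin N) ℝ (Phase n)) (J : Finset (Fin N))
    (hJ : J.card ≤ m) (α : Claim.HG T0 (m - J.card) (SympCt n)) : Claim.HG T0 m (TorusSymp b) :=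
  (commClass_exists b J hJ α).choose

theorem kappa_iff (b : Module.Basis (Fin N) ℝ (Phase n)) (J : Finset (Fin N))
    (hJ : J.card ≤ m) (α : Claim.HG T0 (m - J.card) (SympCt n))
    (x : Claim.HG T0 m (TorusSymp b)) : Claim.IsCommClass b J hJ α x ↔ kappa b J hJ α = x := by
  have h := (commClass_exists b J hJ α).choose_spec
  constructor
  · exact fun h' => commClass_unique h h'
  · rintro rfl
    exact h

/-- Representatives in a given box. -/
theorem kappa_rep (b : Module.Basis (Fin N) ℝ (Phase n)) (J : Finset (Fin N))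
    (hJ : J.card ≤ m) {δ : ℝ} (hδ : 0 < δ) (hδ' : δ < 1 / 2)
    (α : Claim.HG T0 (m - J.card) (SympCt n)) :
    ∃ g, CommData (T0 := T0) b J hJ (boxC b δ) (boxC_sub hδ) g α (kappa b J hJ α) := by
  obtain ⟨g, x, h⟩ := exists_commData (b := b) (J := J) (hJ := hJ) hδ hδ' α
  have hx := (kappa_iff b J hJ α x).1 (commData_to h)
  rw [hx]
  exact ⟨g, h⟩

theorem kappa_mul (b : Module.Basis (Fin N) ℝ (Phase n)) (J : Finset (Fin N))
    (hJ : J.card ≤ m) (α β : Claim.HG T0 (m - J.card) (SympCt n)) :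
    kappa b J hJ (α * β) = kappa b J hJ α * kappa b J hJ β := by
  obtain ⟨g, hg⟩ := kappa_rep b J hJ (δ := 3 / 8) (by norm_num) (by norm_num) α
  obtain ⟨h, hh⟩ := kappa_rep b J hJ (δ := 3 / 8) (by norm_num) (by norm_num) β
  have hK : (boxC b (3 / 8) : Set (Phase n)) ⊆ openBox b := boxC_sub (by norm_num)
  -- the product
  have hc : Continuous (fun p => suppMul (g p) (h p)) := by
    rw [(SympSupp.isClosedEmbedding_incl (boxC b (3 / 8))).isInducing.continuous_iff]
    exact Helper42.continuous_mul_family ((SympSupp.continuous_incl _).comp g.continuous)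
      ((SympSupp.continuous_incl _).comp h.continuous)
  have hrel : ∀ p ∈ Claim.bdry T0 (m - J.card), (suppMul (g p) (h p)).1 = 1 := fun p hp => by
    change (g p).1 * (h p).1 = 1
    rw [hg.rel p hp, hh.rel p hp, mul_one]
  have hPf := perPerm_fam hK g.continuous hg.rel
  have hQf := perPerm_fam hK h.continuous hh.rel
  have hmid : ∀ (i : Fin N) (φ : SympSupp n (boxC b (3 / 8))) x, perPerm b hK N φ x ≠ x →
      Mid b i 0 x := by
    intro i φ x hx
    have h1 : x - flr b N x ∈ (boxC b (3 / 8) : Set (Phase n)) := by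
      by_contra hcon
      apply hx
      rw [perPerm_apply, φ.2 _ hcon, sub_add_cancel]
    have h2 := h1 i
    have h3 : b.repr (x - flr b N x) i = Int.fract (b.repr x i - 0) := by
      rw [map_sub, Finsupp.sub_apply, per_repr_flr, if_pos i.2, sub_zero]
      exact Int.self_sub_floor _
    rw [h3] at h2
    exact ⟨h2.1, h2.2.trans (by norm_num)⟩
  have hmul : LH b N (Claim.bdry T0 m)
      (KF b J hJ fun p => perPerm b hK N (g p) * perPerm b hK N (h p))
      (fun p => KF b J hJ (fun p => perPerm b hK N (g p)) p *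
        KF b J hJ (fun p => perPerm b hK N (h p)) p) := by
    apply KF_mul hPf hQf
    intro e
    obtain ⟨i, hi⟩ : ∃ i : Fin N, i ≠ e := by
      have hcard : N = 2 * n := by
        have h1 := Module.finrank_eq_card_basis b
        rw [finrank_euclideanSpace, Fintype.card_sum, Fintype.card_fin, Fintype.card_fin] at h1
        omega
      have he := e.2
      rcases Nat.eq_zero_or_pos (e : ℕ) with h0 | h0
      · exact ⟨⟨1, by omega⟩, fun h => by
          have := congrArg Fin.val h
          simp only at this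
          omega⟩
      · exact ⟨⟨0, by omega⟩, fun h => by
          have := congrArg Fin.val h
          simp only at this
          omega⟩
    exact LamF_mul_sep hi hPf hQf (fun t x => hmid i _ x) (fun t x => hmid i _ x)
  have hdata : CommData (T0 := T0) b J hJ (boxC b (3 / 8)) hK ⟨_, hc⟩ (α * β)
      (kappa b J hJ α * kappa b J hJ β) := by
    obtain ⟨k1, e1⟩ := hg.fst
    obtain ⟨k2, e2⟩ := hh.fst
    obtain ⟨k3, e3⟩ := hg.snd
    obtain ⟨k4, e4⟩ := hh.snd
    refine ⟨hrel, ⟨(Fam b 0 _ _).mul_mem k1 k2, ?_⟩, mem_Fam_left (KF_lh (Fam.refl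
      (perPerm_fam hK hc hrel))), ?_⟩
    · rw [map_mul, e1, e2, cl_mul]
      rfl
    · rw [map_mul, e3, e4, cl_mul, cl_eq_iff]
      have e : (fun p => perPerm b hK N ((⟨_, hc⟩ : C(T × (Fin (m - J.card) → I), _)) p)) =
          fun p => perPerm b hK N (g p) * perPerm b hK N (h p) :=
        funext fun p => perPerm_mul hK _ _
      rw [e]
      exact lh_symm hmul
  exact (kappa_iff b J hJ _ _).1 (commData_to hdata)

end comm

end Pool.Agent.BHS
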