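import Mathlib
import Pool.Agent.BHS.Kappa
import Pool.Agent.BHS.Tower

set_option maxSynthPendingDepth 3

open scoped ContDiff Topology unitInterval
open Set Function TopologicalSpace

namespace Pool.Agent.BHS

open Pool.Agent.Helper17 Pool.Agent.TOR Pool.Agent.TOL

section cw

variable {n N : ℕ} {b : Module.Basis (Fin N) ℝ (Phase n)} {T : Type}

/-- Splitting of the coordinates of the cube. -/
def splitK {m k r : ℕ} (h : m = k + r) (p : T × (Fin m → I)) :
    (T × (Fin k → I)) × (Fin r → I) :=
  ((p.1, fun i => p.2 (Fin.cast h.symm (Fin.castAdd r i))),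
    fun i => p.2 (Fin.cast h.symm (Fin.natAdd k i)))

lemma cw_eq (J : Finset (Fin N)) {k : ℕ} (P : T × (Fin k → I) → Equiv.Perm (Phase n)) :
    ∀ (j : ℕ), j ≤ N → ∀ (r : ℕ) (e : Fin r → Fin N), StrictMono e →
    (∀ i : Fin N, (i ∈ J ∧ (i : ℕ) < j) ↔ ∃ a, e a = i) → ∀ (m : ℕ) (hm : m = k + r)
    (p : T × (Fin m → I)), cw b J j m k P p = WF b e P (splitK hm p) := by
  intro j
  induction j with
  | zero =>
    intro _ r e _ hr m hm p
    have hr0 : r = 0 := by
      rcases Nat.eq_zero_or_pos r with h | h
      · exact h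
      · exact absurd ((hr _).2 ⟨⟨0, h⟩, rfl⟩).2 (Nat.not_lt_zero _)
    subst hr0
    obtain rfl : m = k := by omega
    have h1 : cw b J 0 m m P = P := cw_zero J m P
    rw [h1]
    rfl
  | succ j ih =>
    intro hj r e he hr m hm p
    have hjN : j < N := hj
    by_cases hJ : (⟨j, hjN⟩ : Fin N) ∈ J
    · obtain ⟨a, ha⟩ := (hr ⟨j, hjN⟩).1 ⟨hJ, Nat.lt_succ_self j⟩
      obtain ⟨r', rfl⟩ : ∃ r', r = r' + 1 :=
        ⟨r - 1, by have := a.2; omega⟩
      have hlast : e (Fin.last r') = ⟨j, hjN⟩ := by
        apply le_antisymm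
        · have h1 := ((hr (e (Fin.last r'))).2 ⟨_, rfl⟩).2
          rw [Fin.le_def]
          simp only
          omega
        · rw [← ha]
          exact he.monotone (Fin.le_last a)
      have hcast : ∀ i : Fin N, (i ∈ J ∧ (i : ℕ) < j) ↔ ∃ a : Fin r', e a.castSucc = i := by
        intro i
        constructor
        · rintro ⟨h1, h2⟩
          obtain ⟨c, hc⟩ := (hr i).1 ⟨h1, by omega⟩
          induction c using Fin.lastCases with
          | last =>
            exfalso
            rw [hlast] at hc
            rw [← hc] at h2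
            exact absurd h2 (lt_irrefl _)
          | cast c => exact ⟨c, hc⟩
        · rintro ⟨c, rfl⟩
          refine ⟨((hr _).2 ⟨_, rfl⟩).1, ?_⟩
          have h1 := he (Fin.castSucc_lt_last c)
          rw [hlast, Fin.lt_def] at h1
          exact h1
      subst hm
      have h1 : cw b J (j + 1) (k + (r' + 1)) k P =
          fun p => lamF b ⟨j, hjN⟩ (cw b J j (k + r') k P) (unsnoc p) :=
        cw_mem hjN hJ (k + r') k P
      rw [h1]
      have h2 := ih hjN.le r' (fun a => e a.castSucc)
        (fun x y hxy => he (Fin.castSucc_lt_castSucc_iff.2 hxy)) hcast (k + r') rfl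
        (unsnoc p).1
      change TOL.cm (((unsnoc p).2 : ℝ) • b ⟨j, hjN⟩) (cw b J j (k + r') k P (unsnoc p).1) = _
      rw [h2, ← hlast]
      rfl
    · have h1 : cw b J (j + 1) m k P = cw b J j m k P := cw_not_mem hjN hJ m k P
      rw [h1]
      apply ih hjN.le r e he
      intro i
      rw [← hr i]
      constructor
      · rintro ⟨h2, h3⟩
        exact ⟨h2, by omega⟩
      · rintro ⟨h2, h3⟩
        refine ⟨h2, ?_⟩
        by_contra h4
        have h5 : i = ⟨j, hjN⟩ := Fin.ext (by simp only; omega)
        rw [h5] at h2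
        exact hJ h2

lemma KF_eq_cw {m : ℕ} {J : Finset (Fin N)} {hJ : J.card ≤ m}
    (P : T × (Fin (m - J.card) → I) → Equiv.Perm (Phase n)) :
    KF b J hJ P = cw b J N m (m - J.card) P := by
  funext p
  rw [cw_eq J P N le_rfl J.card (J.orderEmbOfFin rfl) (J.orderEmbOfFin rfl).strictMono ?_ m
    (Nat.sub_add_cancel hJ).symm p]
  · rfl
  · intro i
    constructor
    · rintro ⟨h, -⟩
      have h1 : i ∈ Set.range (J.orderEmbOfFin rfl) := by
        rw [Finset.range_orderEmbOfFin]
        exact h
      exact h1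
    · rintro ⟨a, rfl⟩
      exact ⟨Finset.orderEmbOfFin_mem J rfl a, Fin.is_lt _⟩

end cw

section tow

variable {n N : ℕ} {b : Module.Basis (Fin N) ℝ (Phase n)} {K : Compacts (Phase n)}
  (hK : (K : Set (Phase n)) ⊆ openBox b)

/-- The tower of partial periodizations. -/
lemma tow_perPerm {X : Type} [TopologicalSpace X] {X0 : Set X} {g : X → SympSupp n K}
    (hg : Continuous g) (h0 : ∀ t ∈ X0, (g t).1 = 1) :
    ∃ δ, Tow b δ 1 X0 (fun j p => perPerm b hK j (g p)) := by
  obtain ⟨δ, hδ, hδ', hKδ⟩ := per_exists_delta b K hK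
  have hlev : ∀ j, Lev b j 1 (fun p => perPerm b hK j (g p)) := fun j =>
    per_lev b hK hδ hKδ j g hg
  refine ⟨δ, hδ, hδ', fun j _ => ⟨⟨1, hlev j⟩, fun t ht => ?_⟩, fun i => ?_⟩
  · ext1 x
    rw [perPerm_apply, h0 t ht]
    change x - flr b j x + flr b j x = x
    abel
  · refine ⟨hlev i, hlev (i + 1), ?_, ?_, fun t ht => absurd ht (notMem_empty t)⟩
    · intro t x hx
      have h1 : x - flr b i x ∈ K := by
        by_contra hcon
        apply hx
        rw [perPerm_apply, (g t).2 _ hcon, sub_add_cancel]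
      have h2 := hKδ _ h1 i
      rw [map_sub, Finsupp.sub_apply, per_repr_flr, if_neg (lt_irrefl _), sub_zero] at h2
      exact h2
    · intro t x hx0 hx1
      rw [perPerm_apply, perPerm_apply]
      rcases hx1.lt_or_eq with hx1 | hx1
      · have h3 : flr b ((i : ℕ) + 1) x = flr b (i : ℕ) x := by
          apply b.repr.injective
          ext l
          rw [per_repr_flr, per_repr_flr]
          by_cases hl : (l : ℕ) < (i : ℕ)
          · rw [if_pos hl, if_pos (by omega)]
          · rw [if_neg hl]
            by_cases hl' : (l : ℕ) < (i : ℕ) + 1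
            · rw [if_pos hl']
              have h4 : l = i := Fin.ext (by omega)
              rw [h4]
              have h5 : ⌊b.repr x i⌋ = 0 := by
                rw [Int.floor_eq_iff]
                constructor
                · push_cast; linarith
                · push_cast; linarith
              rw [h5, Int.cast_zero]
            · rw [if_neg hl']
        rw [h3]
      · have h4 : x - flr b ((i : ℕ) + 1) x ∉ K := by
          intro hcon
          have h5 := (hKδ _ hcon i).1
          rw [map_sub, Finsupp.sub_apply, per_repr_flr, if_pos (Nat.lt_succ_self _), hx1] at h5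
          rw [Int.floor_one, Int.cast_one] at h5
          linarith
        have h6 : x - flr b (i : ℕ) x ∉ K := by
          intro hcon
          have h5 := (hKδ _ hcon i).2
          rw [map_sub, Finsupp.sub_apply, per_repr_flr, if_neg (lt_irrefl _), hx1] at h5
          linarith
        rw [(g t).2 _ h4, (g t).2 _ h6, sub_add_cancel, sub_add_cancel]

lemma perPerm_zero (φ : SympSupp n K) : perPerm b hK 0 φ = φ.1 := by
  ext1 x
  have h1 : flr b 0 x = 0 := by
    unfold flr
    exact Finset.sum_eq_zero fun i _ => if_neg (Nat.not_lt_zero _)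
  rw [perPerm_apply, h1, sub_zero, add_zero]

end tow

section final

variable {n N : ℕ} {b : Module.Basis (Fin N) ℝ (Phase n)} {T : Type} [TopologicalSpace T]
  [CompactSpace T] {T0 : Set T} {m : ℕ}

/-- The commutator class in terms of a tower. -/
theorem kappa_tow (b : Module.Basis (Fin N) ℝ (Phase n)) (J : Finset (Fin N))
    (hJ : J.card ≤ m) (α : Claim.HG T0 (m - J.card) (SympCt n)) :
    ∃ (δ : ℝ) (Q : ℕ → T × (Fin (m - J.card) → I) → Equiv.Perm (Phase n))
      (hQ : Tow b δ 1 (SS (m - J.card) T0) Q),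
      (real_symp b).equiv α = cl (Q 0) (hQ.mem 0 (Nat.zero_le N)) ∧
      (real_torus b).equiv (kappa b J hJ α) =
        cl (cw b J N m (m - J.card) (Q N)) (cw_fam J (hQ.mem N le_rfl) N le_rfl m) := by
  obtain ⟨g, hg⟩ := kappa_rep b J hJ (δ := 1 / 4) (by norm_num) (by norm_num) α
  have hK : (boxC b (1 / 4) : Set (Phase n)) ⊆ openBox b := boxC_sub (by norm_num)
  obtain ⟨δ, hQ⟩ := tow_perPerm hK g.continuous hg.rel
  refine ⟨δ, fun j p => perPerm b hK j (g p), hQ, ?_, ?_⟩
  · obtain ⟨h1, h2⟩ := hg.fst
    have e : (fun p => perPerm b hK 0 (g p)) = fun p => ((g p).1 : Equiv.Perm (Phase n)) :=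
      funext fun p => perPerm_zero hK _
    have h3 : LH b 0 (SS (m - J.card) T0) (fun p => ((g p).1 : Equiv.Perm (Phase n)))
        (fun p => perPerm b hK 0 (g p)) := by
      rw [e]
      exact Fam.refl h1
    exact h2.trans ((cl_eq_iff _ _).2 h3)
  · obtain ⟨h1, h2⟩ := hg.snd
    have h3 : LH b N (SS m T0) (KF b J hJ fun p => perPerm b hK N (g p))
        (cw b J N m (m - J.card) fun p => perPerm b hK N (g p)) := by
      rw [← KF_eq_cw (hJ := hJ)]
      exact Fam.refl h1
    exact h2.trans ((cl_eq_iff _ _).2 h3)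

end final

end Pool.Agent.BHS
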