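import Mathlib
import Pool.Agent.BHS.Stmts
import Pool.Agent.BHS.Basic
import Pool.Agent.BHS.PerA

/-!
# BHS, module PerS: periodization of a symplectic family supported in a strip
-/

set_option maxSynthPendingDepth 3

open scoped ContDiff Distributions Topology unitInterval
open Set Function TopologicalSpace Filter

namespace Pool.Agent.BHS

open Pool.Agent.Helper17 Pool.Agent.TOR Pool.Agent.TOL

variable {n N : ℕ} {b : Module.Basis (Fin N) ℝ (Phase n)}

lemma PerS_supp_symm {S : Set (Phase n)} {g : Equiv.Perm (Phase n)} (hg : ∀ x ∉ S, g x = x) :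
    ∀ x ∉ S, g.symm x = x := by
  intro x hx
  rw [Equiv.symm_apply_eq]
  exact (hg x hx).symm

/-- The periodization of the inverse is the inverse of the periodization. -/
lemma PerS_inv {j : Fin N} {S' : Set (Phase n)} {c δ : ℝ} (hδ : 0 < δ)
    {g : Equiv.Perm (Phase n)} (hg : ∀ x ∉ cut b j (δ - c) (1 - δ - c) S', g x = x)
    (x : Phase n) : perM b j c g.symm (perM b j c g x) = x := by
  set k : ℝ := (⌊b.repr x j + c⌋ : ℝ) with hk
  set y : Phase n := x - k • b j with hy
  have hyc : b.repr y j + c = b.repr x j + c - k := by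
    rw [hy, repr_sub_smul_self]
    ring
  have hz : 0 ≤ b.repr (g y) j + c ∧ b.repr (g y) j + c < 1 := by
    by_cases h : y ∈ cut b j (δ - c) (1 - δ - c) S'
    · have h1 : g y ∈ cut b j (δ - c) (1 - δ - c) S' := by
        by_contra h2
        have h3 := hg _ h2
        have h4 : g y = y := g.injective h3
        rw [h4] at h2
        exact h2 h
      obtain ⟨-, h2, h3⟩ := h1
      constructor
      · linarith
      · linarith
    · rw [hg y h, hyc, hk]
      exact ⟨by linarith [Int.floor_le (b.repr x j + c)],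
        by linarith [Int.lt_floor_add_one (b.repr x j + c)]⟩
  have hfl : ⌊b.repr (g y + k • b j) j + c⌋ = ⌊b.repr x j + c⌋ := by
    rw [Int.floor_eq_iff, repr_add_smul_self, ← hk]
    constructor
    · linarith [hz.1]
    · linarith [hz.2]
  have h1 : perM b j c g x = g y + k • b j := rfl
  rw [h1]
  unfold perM
  rw [hfl, ← hk, add_sub_cancel_right, Equiv.symm_apply_apply, hy, sub_add_cancel]

/-- The periodization of a permutation. -/
noncomputable def PerS_perm (b : Module.Basis (Fin N) ℝ (Phase n)) (j : Fin N)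
    (S' : Set (Phase n)) (c δ : ℝ) (hδ : 0 < δ) (g : Equiv.Perm (Phase n))
    (hg : ∀ x ∉ cut b j (δ - c) (1 - δ - c) S', g x = x) : Equiv.Perm (Phase n) where
  toFun := perM b j c g
  invFun := perM b j c g.symm
  left_inv := PerS_inv hδ hg
  right_inv := PerS_inv (g := g.symm) hδ (PerS_supp_symm hg)

theorem thm_PerS : St_PerS := by
  intro n N b j T _ S' hS c δ hδ hδ' g hg
  refine ⟨fun t => PerS_perm b j S' c δ hδ (g t) (hg.supp t), ⟨?_, ?_, ?_, ?_, ?_⟩,
    fun _ _ => rfl⟩
  · exact PerA_CF hδ hδ' hg.cf hg.supp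
  · exact PerA_CF (g := fun t => (g t).symm) hδ hδ' hg.cf'
      (fun t => PerS_supp_symm (hg.supp t))
  · intro t x u v
    change omegaStd (fderiv ℝ (perM b j c (g t)) x u) (fderiv ℝ (perM b j c (g t)) x v) =
      omegaStd u v
    obtain ⟨U, hU, hx, h⟩ := PerA_local (g := fun t => (g t : Phase n → Phase n)) hδ hδ'
      hg.supp x
    rcases h with ⟨w, h⟩ | h
    · have h1 : perM b j c (g t) =ᶠ[𝓝 x] fun x => g t (x - w) + w := by
        filter_upwards [hU.mem_nhds hx] with y hy
        exact h t y hy
      have h2 : HasFDerivAt (fun x => g t (x - w) + w) (fderiv ℝ (g t) (x - w)) x := by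
        have h3 : HasFDerivAt (fun x : Phase n => x - w)
            (ContinuousLinearMap.id ℝ (Phase n)) x := (hasFDerivAt_id x).sub_const _
        have h4 := ((hg.cf.differentiable t (x - w)).hasFDerivAt.comp x h3).add_const w
        simpa using h4
      rw [h1.fderiv_eq, h2.fderiv]
      exact hg.symp t _ u v
    · have h1 : perM b j c (g t) =ᶠ[𝓝 x] id := by
        filter_upwards [hU.mem_nhds hx] with y hy
        exact h t y hy
      rw [h1.fderiv_eq, fderiv_id]
      rfl
  · intro t i hi x
    exact PerA_per (hg.per t) i hi x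
  · intro t x hx
    exact PerA_supp hS (hg.supp t) x hx

end Pool.Agent.BHS
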