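import Mathlib
import Pool.Agent.BHS.KInd
import Pool.Agent.BHS.Bridge

set_option maxSynthPendingDepth 3

open scoped ContDiff Distributions Topology unitInterval
open Set Function TopologicalSpace

namespace Pool.Agent.BHS

open Pool.Agent.Helper17 Pool.Agent.TOR Pool.Agent.TOL

section rhoHG

variable {n N : ℕ} {T : Type} [TopologicalSpace T] [CompactSpace T] {T0 : Set T}

/-- The map `ρ_J` on homotopy classes of maps. -/
noncomputable def rhoHG (H : Core) (b : Module.Basis (Fin N) ℝ (Phase n)) (J : Finset (Fin N))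
    (T0 : Set T) (m k : ℕ) (x : Claim.HG T0 m (TorusSymp b)) : Claim.HG T0 k (SympCt n) :=
  (real_symp b).equiv.symm (rho H b J T0 N m k ((real_torus b).equiv x))

lemma rhoHG_mul (H : Core) (b : Module.Basis (Fin N) ℝ (Phase n)) (J : Finset (Fin N))
    {m : ℕ} (hm : 0 < m) (k : ℕ) (x y : Claim.HG T0 m (TorusSymp b)) :
    rhoHG H b J T0 m k (x * y) = rhoHG H b J T0 m k x * rhoHG H b J T0 m k y := by
  have h := rho_mul H J T0 N m k (Or.inl hm) ((real_torus b).equiv x) ((real_torus b).equiv y)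
  have h2 : (real_torus b).equiv (x * y) = (real_torus b).equiv x * (real_torus b).equiv y :=
    map_mul _ _ _
  calc rhoHG H b J T0 m k (x * y)
      = (real_symp b).equiv.symm (rho H b J T0 N m k
          ((real_torus b).equiv x * (real_torus b).equiv y)) :=
        congrArg (fun z => (real_symp b).equiv.symm (rho H b J T0 N m k z)) h2
    _ = (real_symp b).equiv.symm (rho H b J T0 N m k ((real_torus b).equiv x) *
          rho H b J T0 N m k ((real_torus b).equiv y)) := congrArg _ h
    _ = _ := map_mul _ _ _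

lemma equiv_cov (b : Module.Basis (Fin N) ℝ (Phase n)) (L : Fin N → ℕ+) {k : ℕ}
    (α : Claim.HG T0 k (SympCt n)) :
    (real_symp (scal b L)).equiv α = Cl.cov L ((real_symp b).equiv α) := by
  obtain ⟨f, rfl⟩ : ∃ f : Claim.Fam T0 k (SympCt n), f.cls = α := Quotient.exists_rep α
  rfl

lemma equiv_pull' (b : Module.Basis (Fin N) ℝ (Phase n)) (L : Fin N → ℕ+) {m : ℕ}
    (x : Claim.HG T0 m (TorusSymp b)) :
    (real_torus (scal b L)).equiv (Claim.pull b L x) = Cl.cov L ((real_torus b).equiv x) := by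
  obtain ⟨f, rfl⟩ : ∃ f : Claim.Fam T0 m (TorusSymp b), f.cls = x := Quotient.exists_rep x
  rfl

lemma filter_lt_top (J : Finset (Fin N)) : (J.filter fun i : Fin N => (i : ℕ) < N) = J := by
  ext i
  simp

lemma rhoHG_pull (H : Core) (b : Module.Basis (Fin N) ℝ (Phase n)) (L : Fin N → ℕ+)
    (J : Finset (Fin N)) (m k : ℕ) (x : Claim.HG T0 m (TorusSymp b)) :
    rhoHG H (scal b L) J T0 m k (Claim.pull b L x) =
      rhoHG H b J T0 m k x ^ ∏ i ∈ Jᶜ, (L i : ℕ) := by
  unfold rhoHG
  rw [MulEquiv.symm_apply_eq, map_pow, equiv_cov, MulEquiv.apply_symm_apply, equiv_pull']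
  have h := rho_cov H J T0 L N le_rfl m k ((real_torus b).equiv x)
  rw [filter_lt_top] at h
  exact h

lemma rhoHG_complete (H : Core) (b : Module.Basis (Fin N) ℝ (Phase n)) {m : ℕ} (hm : N ≤ m)
    (x : Claim.HG T0 m (TorusSymp b))
    (hx : ∀ J : Finset (Fin N), J.card ≤ m → rhoHG H b J T0 m (m - J.card) x = 1) :
    ∃ L : Fin N → ℕ+, Claim.pull b L x = 1 := by
  obtain ⟨L, hL⟩ := complete H T0 b hm ((real_torus b).equiv x) (by
    intro J k hk
    have h1 : k = m - J.card := by omega
    subst h1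
    have h2 := hx J (by omega)
    unfold rhoHG at h2
    rw [MulEquiv.symm_apply_eq, map_one] at h2
    exact h2)
  refine ⟨L, ?_⟩
  apply (real_torus (scal b L)).equiv.injective
  exact ((equiv_pull' b L x).trans hL).trans (map_one (real_torus (scal b L)).equiv).symm

end rhoHG

end Pool.Agent.BHS
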