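import Mathlib
import Pool.Agent.BHS.RhoHG
import Pool.Agent.BHS.KapTow
import Pool.Agent.BHS.Derive
import Pool.Agent.BHS.CoreF
import Pool.Agent.BHS.PerS

set_option maxSynthPendingDepth 3

open scoped ContDiff Distributions Topology unitInterval
open Set Function TopologicalSpace

namespace Pool.Agent.BHS

open Pool.Agent.Helper17 Pool.Agent.TOR Pool.Agent.TOL

section final

variable {n N : ℕ} {T : Type} [TopologicalSpace T] [CompactSpace T] {T0 : Set T} {m : ℕ}

lemma rhoHG_diag (H : Core) (b : Module.Basis (Fin N) ℝ (Phase n)) (J : Finset (Fin N))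
    (hJ : J.card ≤ m) (α : Claim.HG T0 (m - J.card) (SympCt n)) :
    rhoHG H b J T0 m (m - J.card) (kappa b J hJ α) = α := by
  obtain ⟨δ, Q, hQ, h0, h1⟩ := kappa_tow b J hJ α
  have h2 := rho_cw_diag H J hQ N le_rfl m (by rw [filter_lt_top]; omega)
  apply (real_symp b).equiv.injective
  refine ((real_symp b).equiv.apply_symm_apply _).trans ?_
  refine Eq.trans ?_ h0.symm
  refine Eq.trans ?_ h2
  exact congrArg (rho H b J T0 N m (m - J.card)) h1

lemma rhoHG_above (H : Core) (b : Module.Basis (Fin N) ℝ (Phase n)) (J J' : Finset (Fin N))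
    (hJ' : J'.card ≤ m) (hab : Claim.Above J J') (k : ℕ)
    (α : Claim.HG T0 (m - J'.card) (SympCt n)) :
    rhoHG H b J T0 m k (kappa b J' hJ' α) = 1 := by
  obtain ⟨δ, Q, hQ, h0, h1⟩ := kappa_tow b J' hJ' α
  obtain ⟨i, hi, hi', hl⟩ := hab
  have h2 := rho_cw_above H J J' hQ N le_rfl
    ⟨i, hi, i.2, hi', fun l hl' _ => hl l hl'⟩ m k
  apply (real_symp b).equiv.injective
  refine ((real_symp b).equiv.apply_symm_apply _).trans ?_
  refine Eq.trans ?_ (map_one (real_symp b).equiv).symm
  refine Eq.trans ?_ h2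
  exact congrArg (rho H b J T0 N m k) h1

theorem coreT (H : Core) (n N : ℕ) (T : Type) [TopologicalSpace T] [CompactSpace T]
    (T0 : Set T) (m : ℕ) : Claim.CoreT n N T T0 m := by
  refine ⟨fun b J hJ => kappa b J hJ, fun b J _ => rhoHG H b J T0 m (m - J.card), ?_, ?_, ?_, ?_,
    ?_, ?_⟩
  · intro b J hJ α x
    exact kappa_iff b J hJ α x
  · intro hm b J hJ
    exact ⟨kappa_mul b J hJ, rhoHG_mul H b J hm _⟩
  · intro b J hJ α
    exact rhoHG_diag H b J hJ α
  · intro b J hJ J' hJ' α hab
    exact rhoHG_above H b J J' hJ' hab _ α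
  · intro b L J hJ x
    exact rhoHG_pull H b L J m _ x
  · intro hm b x hx
    exact rhoHG_complete H b hm x hx

end final

theorem coreH : Core := core thm_PerS

/-- The main theorem. -/
theorem main : Claim.Main :=
  Claim.main_of_core fun n N T _ _ T0 m => coreT coreH n N T T0 m

end Pool.Agent.BHS
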