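import Mathlib
import Pool.Agent.BHS.Stmts
import Pool.Agent.BHS.Basic

set_option maxSynthPendingDepth 3

open scoped ContDiff Distributions Topology unitInterval
open Set Function TopologicalSpace

namespace Pool.Agent.BHS

open Pool.Agent.Helper17 Pool.Agent.TOR Pool.Agent.TOL

lemma Sep_slab {n N : ℕ} {b : Module.Basis (Fin N) ℝ (Phase n)} {j : ℕ} {R c : ℝ} (k : Fin N)
    {x : Phase n} (hx : x ∈ slab b j R) (s : ℝ) (hs : |s| ≤ |c|) :
    x + s • b k ∈ slab b j (|R| + |c|) := by
  intro i hi
  have h1 : |b.repr x i| ≤ |R| := (hx i hi).trans (le_abs_self R)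
  rw [repr_add_smul]
  split_ifs
  · exact (abs_add_le _ _).trans (add_le_add h1 hs)
  · rw [add_zero]
    exact h1.trans (le_add_of_nonneg_right (abs_nonneg c))

/-- Separation of two families by a translation. -/
theorem thm_Sep (hc : St_LHSc) : St_Sep := by
  intro n N b j hj R T _ T0 u v hu hv hu0 hv0
  obtain ⟨k, hk⟩ : ∃ k : Fin N, (k : ℕ) = N - 1 := ⟨⟨N - 1, by omega⟩, rfl⟩
  have hjk : j ≤ (k : ℕ) := by omega
  obtain ⟨c, hcd⟩ : ∃ c : ℝ, c = 2 * |R| + 1 := ⟨_, rfl⟩
  have hc0 : 0 ≤ c := by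
    rw [hcd]
    positivity
  have hu' : LevS b j (slab b j (|R| + |c|)) u := (levS_of_lev hu).mono fun x hx => by
    have h1 := Sep_slab (c := c) k hx 0 (by rw [abs_zero]; exact abs_nonneg c)
    rwa [zero_smul, add_zero] at h1
  have hH : LHS b j (slab b j (|R| + |c|)) T0 v (fun t => cj (c • b k) (v t)) := by
    refine ⟨fun p => cj (((p.2 : ℝ) * c) • b k) (v p.1), ?_, ?_, ?_, ?_⟩
    · refine LevS.cj (S := slab b j R) ((levS_of_lev hv).reparam continuous_fst)
        (v := fun p : T × I => ((p.2 : ℝ) * c) • b k) ?_ ?_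
      · exact ((continuous_subtype_val.comp continuous_snd).mul continuous_const).smul
          continuous_const
      · intro p x hx
        refine Sep_slab k hx _ ?_
        rw [abs_mul]
        have h1 : |(p.2 : ℝ)| ≤ 1 := by
          rw [abs_of_nonneg p.2.2.1]
          exact p.2.2.2
        calc |(p.2 : ℝ)| * |c| ≤ 1 * |c| := by gcongr
          _ = |c| := one_mul _
    · intro t
      show cj ((((0 : I) : ℝ) * c) • b k) (v t) = v t
      rw [Icc.coe_zero, zero_mul, zero_smul, cj_zero]
    · intro t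
      show cj ((((1 : I) : ℝ) * c) • b k) (v t) = cj (c • b k) (v t)
      rw [Icc.coe_one, one_mul]
    · intro t ht s
      show cj _ (v t) = 1
      rw [hv0 t ht, cj_one]
  have hdis : ∀ t t' x, u t x ≠ x → cj (c • b k) (v t') x = x := by
    intro t t' x hx
    have h1 : x ∈ slab b j R := by
      by_contra h
      exact hx (hu.supp t x h)
    have h2 : |b.repr x k| ≤ R := h1 k hjk
    have h3 : x - c • b k ∉ slab b j R := by
      intro h
      have h4 : |b.repr (x - c • b k) k| ≤ R := h k hjk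
      rw [repr_sub_smul_self] at h4
      have h5 := (abs_le.1 h4).1
      have h6 := (abs_le.1 h2).2
      have h7 := le_abs_self R
      rw [hcd] at h5
      have h8 : 0 ≤ |R| := abs_nonneg R
      linarith
    rw [cj_apply, hv.supp t' _ h3, sub_add_cancel]
  refine ⟨⟨c, k, hjk, lh_iff.2 ⟨_, hH⟩, hdis⟩, lh_iff.2 ⟨|R| + |c|, ?_⟩⟩
  have hcomm : (fun t => u t * cj (c • b k) (v t)) = fun t => cj (c • b k) (v t) * u t := by
    funext t
    have h1 : Equiv.Perm.Disjoint (u t) (cj (c • b k) (v t)) := by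
      intro x
      by_cases h : u t x = x
      · exact Or.inl h
      · exact Or.inr (hdis t t x h)
    exact h1.commute
  have h1 : LHS b j (slab b j (|R| + |c|)) T0 (fun t => u t * v t)
      (fun t => u t * cj (c • b k) (v t)) := (LHS.refl hu' hu0).mul hH
  have h2 : LHS b j (slab b j (|R| + |c|)) T0 (fun t => cj (c • b k) (v t) * u t)
      (fun t => v t * u t) :=
    ((hc b j (slab b j (|R| + |c|)) T T0 v (fun t => cj (c • b k) (v t)) v).1 hH).mul
      (LHS.refl hu' hu0)
  rw [hcomm] at h1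
  exact (hc b j (slab b j (|R| + |c|)) T T0 _ _ _).2 h1 h2

end Pool.Agent.BHS
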