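import Mathlib
import Pool.Agent.BHS.Stmts
import Pool.Agent.BHS.Basic

/-!
# BHS, module SeqPh: loops are homotopic, in a cover, to loops with phases varying in space
-/

set_option maxSynthPendingDepth 3

open scoped ContDiff Distributions Topology unitInterval
open Set Function TopologicalSpace

namespace Pool.Agent.BHS

open Pool.Agent.Helper17 Pool.Agent.TOR Pool.Agent.TOL

section seqph

variable {n N : ℕ}

/-- the grid smoothing with a smooth phase gives smooth families -/
lemma SeqPh_CF {T T' : Type} [TopologicalSpace T] [TopologicalSpace T'] (M : ℕ)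
    {V : T × I → Phase n → Phase n} (hV : CF V) {f : T' → T} (hf : Continuous f)
    {ψ : T' → Phase n → ℝ} (hψ : CF ψ) :
    CF (fun t x => grid M (fun a => V (f t, a)) (ψ t x) x) := by
  have hc : ∀ a : I, CF (fun t x => V (f t, a) x) := fun a =>
    hV.base (hf.prodMk continuous_const)
  unfold grid
  refine (hc 0).add (CF_sum _ fun m => ?_)
  refine CF.smul ?_ ((hc _).sub (hc _))
  have h1 : CF (fun (t : T') (x : Phase n) => (M : ℝ) * ψ t x - m) :=
    hψ.comp_smooth (g := fun y : ℝ => (M : ℝ) * y - m) fun _ _ =>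
      ((contDiff_const.mul contDiff_id).sub contDiff_const).contDiffAt
  exact h1.comp_smooth (g := Real.smoothTransition) fun _ _ =>
    Real.smoothTransition.contDiff.contDiffAt

/-- periodicity in the cover -/
lemma SeqPh_per {F : Phase n → Phase n} {v : Phase n} (h : ∀ x, F (x + v) = F x + v) (m : ℕ)
    (x : Phase n) : F (x + (m : ℝ) • v) = F x + (m : ℝ) • v := by
  induction m with
  | zero => simp
  | succ m ih =>
    push_cast
    rw [add_smul, one_smul, ← add_assoc, h, ih, add_assoc]

end seqph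

theorem thm_SeqPh (hG : St_GrAdm) (hA : St_AHSc) : St_SeqPh := by
  intro n N b j T _ _ T0 S' hS' u hu hu1
  obtain ⟨R, hR⟩ := hu.tame hS'
  obtain ⟨M0, hM0, hM⟩ := hG b j T R (fun p x => u p x) hR
  refine ⟨M0, hM0, fun M hMM => ?_⟩
  obtain ⟨ε0, hε0, hε⟩ := hM M hMM M hMM
  refine ⟨ε0, hε0, fun l θ hθ hθd hθ01 hθp => ?_⟩
  have hMpos : 0 < M := lt_of_lt_of_le hM0 hMM
  obtain ⟨b', hb'⟩ : ∃ b', b' = scal b (one1 j l) := ⟨_, rfl⟩
  rw [← hb']
  have hb'i : ∀ i : Fin N, b' i = ((one1 j l i : ℕ) : ℝ) • b i := fun i => by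
    rw [hb', scal_apply]
  have hut0 : ∀ t, u (t, 0) = 1 := fun t => hu1 _ (Or.inr (Or.inl rfl))
  have hut1 : ∀ t, u (t, 1) = 1 := fun t => hu1 _ (Or.inr (Or.inr rfl))
  have hper : ∀ p, ∀ i : Fin N, (i : ℕ) < (j : ℕ) + 1 → ∀ x, u p (x + b' i) = u p x + b' i := by
    intro p i hi x
    rw [hb'i]
    exact SeqPh_per (hu.per p i hi) _ x
  -- the phases are periodic
  have hθx : ∀ i : Fin N, ∀ x, θ (b.repr (x + b' i) j) = θ (b.repr x j) := by
    intro i x
    rw [hb'i, repr_add_smul]
    by_cases hij : i = j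
    · rw [if_pos hij, hij, one1_self, hθp]
    · rw [if_neg hij, add_zero]
  have hpr : ∀ a : I, pr (a : ℝ) = a := fun a => projIcc_val zero_le_one a
  -- the middle family
  set G : T × I → Phase n → Phase n := fun p x => grid M (fun a => u (p.1, a)) (p.2 : ℝ) x with hGd
  -- first homotopy
  have hom1 : AHS b' ((j : ℕ) + 1) S' (relI T0) (fun p x => u p x) G := by
    refine ⟨fun p x => (1 - (p.2 : ℝ)) • u p.1 x + (p.2 : ℝ) • grid M
      (fun a => (u (p.1.1, a) : Phase n → Phase n)) (p.1.2 : ℝ) x, ⟨?_, ?_, ?_, ?_⟩, ?_, ?_, ?_⟩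
    · have c1 : Continuous fun p : (T × I) × I => (p.2 : ℝ) :=
        continuous_subtype_val.comp continuous_snd
      have c2 : Continuous fun p : (T × I) × I => (p.1.2 : ℝ) :=
        continuous_subtype_val.comp (continuous_snd.comp continuous_fst)
      refine CF.add (CF.smul (CF.param (continuous_const.sub c1)) (hu.cf.base continuous_fst))
        (CF.smul (CF.param c1) ?_)
      exact SeqPh_CF M (V := fun q x => u q x) hu.cf (f := fun p : (T × I) × I => p.1.1)
        (continuous_fst.comp continuous_fst) (CF.param c2)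
    · intro p x
      have h1 := (hε (fun _ => (p.1.2 : ℝ)) (differentiable_const _) (fun ξ => by
        rw [deriv_const, abs_zero]; exact hε0.le) p.1.1 x (1 - (p.2 : ℝ))
        ⟨by linarith [p.2.2.2], by linarith [p.2.2.1]⟩).2
      rw [hpr] at h1
      have hd1 : DifferentiableAt ℝ (u (p.1.1, p.1.2)) x := hu.cf.differentiable _ x
      have hd2 : DifferentiableAt ℝ (fun x => grid M
          (fun a => (u (p.1.1, a) : Phase n → Phase n)) (p.1.2 : ℝ) x) x :=
        (SeqPh_CF M (V := fun q x => u q x) hu.cf (f := fun _ : Unit => p.1.1)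
          continuous_const (CF.param (c := fun _ => (p.1.2 : ℝ)) continuous_const)).differentiable
            () x
      have h2 : fderiv ℝ (fun x => (1 - (p.2 : ℝ)) • u p.1 x + (p.2 : ℝ) • grid M
          (fun a => (u (p.1.1, a) : Phase n → Phase n)) (p.1.2 : ℝ) x) x =
          (1 - (1 - (p.2 : ℝ))) • fderiv ℝ (fun x => grid M
            (fun a => (u (p.1.1, a) : Phase n → Phase n)) (p.1.2 : ℝ) x) x +
          (1 - (p.2 : ℝ)) • fderiv ℝ (fun x => u (p.1.1, p.1.2) x) x := by
        have h3 := ((hd1.hasFDerivAt.const_smul (1 - (p.2 : ℝ))).add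
          (hd2.hasFDerivAt.const_smul (p.2 : ℝ))).fderiv
        rw [show 1 - (1 - (p.2 : ℝ)) = (p.2 : ℝ) by ring, add_comm]
        exact h3
      show Admissible (fderiv ℝ (fun x => (1 - (p.2 : ℝ)) • u p.1 x + (p.2 : ℝ) • grid M
          (fun a => (u (p.1.1, a) : Phase n → Phase n)) (p.1.2 : ℝ) x) x)
      rw [h2]
      exact h1
    · intro p i hi x
      rw [hper p.1 i hi x, grid_per M (fun a => hper (p.1.1, a) i hi x)]
      module
    · intro p x hx
      rw [hu.supp _ x hx, grid_const M (fun a => hu.supp (p.1.1, a) x hx)]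
      module
    · intro p x
      simp
    · intro p x
      simp [hGd]
    · intro p hp s x
      simp only
      have h1 : grid M (fun a => (u (p.1, a) : Phase n → Phase n)) (p.2 : ℝ) x = x := by
        rcases hp with hp | hp | hp
        · refine grid_const M (fun a => ?_) _
          rw [hu1 (p.1, a) (Or.inl hp)]
          rfl
        · rw [hp, Icc.coe_zero, grid_zero M _ le_rfl, hut0]
          rfl
        · rw [hp, Icc.coe_one, grid_one hMpos _ le_rfl, hut1]
          rfl
      rw [hu1 p hp, h1]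
      show (1 - (s : ℝ)) • x + (s : ℝ) • x = x
      module
  -- second homotopy
  have hom2 : AHS b' ((j : ℕ) + 1) S' (relI T0) G
      (Gr b j M (fun (q : (T × I) × I) x => u (q.1.1, q.2) x)
          (fun p ξ => (tau p.2 : ℝ) * θ ξ + (tau' p.2 : ℝ) * (1 - θ ξ))) := by
    set ψ : (T × I) × I → ℝ → ℝ := fun p ξ => (1 - (p.2 : ℝ)) * (p.1.2 : ℝ) +
      (p.2 : ℝ) * ((tau p.1.2 : ℝ) * θ ξ + (tau' p.1.2 : ℝ) * (1 - θ ξ)) with hψ
    have hψd : ∀ p ξ, HasDerivAt (ψ p)
        (((p.2 : ℝ) * ((tau p.1.2 : ℝ) - (tau' p.1.2 : ℝ))) * deriv θ ξ) ξ := by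
      intro p ξ
      have h1 : HasDerivAt θ (deriv θ ξ) ξ := (hθ.differentiable (by simp) ξ).hasDerivAt
      have h2 := (((h1.const_mul (tau p.1.2 : ℝ)).add
        ((h1.const_sub 1).const_mul (tau' p.1.2 : ℝ))).const_mul (p.2 : ℝ)).const_add
          ((1 - (p.2 : ℝ)) * (p.1.2 : ℝ))
      refine h2.congr_deriv ?_
      ring
    refine ⟨fun p x => grid M (fun a => (u (p.1.1, a) : Phase n → Phase n))
      (ψ p (b.repr x j)) x, ⟨?_, ?_, ?_, ?_⟩, ?_, ?_, ?_⟩
    · have c1 : Continuous fun p : (T × I) × I => (p.2 : ℝ) :=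
        continuous_subtype_val.comp continuous_snd
      have c2 : Continuous fun p : (T × I) × I => (p.1.2 : ℝ) :=
        continuous_subtype_val.comp (continuous_snd.comp continuous_fst)
      have c3 : Continuous fun p : (T × I) × I => (tau p.1.2 : ℝ) :=
        continuous_subtype_val.comp (continuous_tau.comp (continuous_snd.comp continuous_fst))
      have c4 : Continuous fun p : (T × I) × I => (tau' p.1.2 : ℝ) :=
        continuous_subtype_val.comp (continuous_tau'.comp (continuous_snd.comp continuous_fst))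
      have hθ1 : CF (fun (_ : (T × I) × I) (x : Phase n) => θ (b.repr x j)) :=
        (CF_coord b j).comp_smooth (g := θ) fun _ _ => hθ.contDiffAt
      have hθ2 : CF (fun (_ : (T × I) × I) (x : Phase n) => 1 - θ (b.repr x j)) :=
        (CF_coord b j).comp_smooth (g := fun ξ => 1 - θ ξ) fun _ _ =>
          (contDiff_const.sub hθ).contDiffAt
      refine SeqPh_CF M (V := fun q x => u q x) hu.cf (f := fun p : (T × I) × I => p.1.1)
        (continuous_fst.comp continuous_fst) ?_
      exact (CF.param ((continuous_const.sub c1).mul c2)).add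
        (CF.smul (CF.param c1) ((CF.smul (CF.param c3) hθ1).add (CF.smul (CF.param c4) hθ2)))
    · intro p x
      have h1 := (hε (ψ p) (fun ξ => (hψd p ξ).differentiableAt) (fun ξ => by
        rw [(hψd p ξ).deriv, abs_mul]
        have e1 : |(p.2 : ℝ) * ((tau p.1.2 : ℝ) - (tau' p.1.2 : ℝ))| ≤ 1 := by
          rw [abs_mul]
          have e2 : |(p.2 : ℝ)| ≤ 1 := by
            rw [abs_of_nonneg p.2.2.1]; exact p.2.2.2
          have e3 : |(tau p.1.2 : ℝ) - (tau' p.1.2 : ℝ)| ≤ 1 := by
            rw [abs_le]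
            constructor
            · linarith [(tau p.1.2).2.1, (tau' p.1.2).2.2]
            · linarith [(tau p.1.2).2.2, (tau' p.1.2).2.1]
          calc |(p.2 : ℝ)| * |(tau p.1.2 : ℝ) - (tau' p.1.2 : ℝ)| ≤ 1 * 1 :=
                mul_le_mul e2 e3 (abs_nonneg _) zero_le_one
            _ = 1 := one_mul 1
        calc |(p.2 : ℝ) * ((tau p.1.2 : ℝ) - (tau' p.1.2 : ℝ))| * |deriv θ ξ| ≤ 1 * ε0 :=
              mul_le_mul e1 (hθd ξ) (abs_nonneg _) zero_le_one
          _ = ε0 := one_mul _) p.1.1 x 0 ⟨le_rfl, zero_le_one⟩).1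
      rw [sub_zero, one_smul, zero_smul, add_zero] at h1
      exact h1
    · intro p i hi x
      have h1 : ψ p (b.repr (x + b' i) j) = ψ p (b.repr x j) := by
        simp only [hψ, hθx]
      rw [h1, grid_per M (fun a => hper (p.1.1, a) i hi x)]
    · intro p x hx
      exact grid_const M (fun a => hu.supp (p.1.1, a) x hx) _
    · intro p x
      simp only [hGd, hψ]
      rw [Icc.coe_zero, sub_zero, one_mul, zero_mul, add_zero]
    · intro p x
      simp only [hψ, Gr]
      rw [Icc.coe_one, sub_self, zero_mul, zero_add, one_mul]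
    · intro p hp s x
      rcases hp with hp | hp | hp
      · refine grid_const M (fun a => ?_) _
        simp only
        rw [hu1 (p.1, a) (Or.inl hp)]
        rfl
      · simp only [hψ]
        rw [hp, tau_zero, tau'_zero, Icc.coe_zero, mul_zero, zero_mul, zero_mul, add_zero,
          mul_zero, add_zero, grid_zero M _ le_rfl, hut0]
        rfl
      · simp only [hψ]
        rw [hp, tau_one, tau'_one, Icc.coe_one, grid_one hMpos _ (by linarith), hut1]
        rfl
  exact (hA b' ((j : ℕ) + 1) S' (T × I) (relI T0) _ _ _).2.1 hom1 hom2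

end Pool.Agent.BHS
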