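import Mathlib
import Pool.Agent.TOR.Base

set_option maxSynthPendingDepth 3

open scoped ContDiff Distributions Topology unitInterval
open Set Function TopologicalSpace

namespace Pool.Agent.BHS.Stm

open Pool.Agent.Helper17 (Phase omegaStd)

/-! ### Short names for the standard structures of `ℝ^{2n}` -/

section inst

/-- The normed group `ℝ^{2n}`. -/
noncomputable instance (priority := 10001) iN (n : ℕ) : NormedAddCommGroup (Phase n) :=
  inferInstance

/-- The normed space `ℝ^{2n}`. -/
noncomputable instance (priority := 10001) iS (n : ℕ) : NormedSpace ℝ (Phase n) :=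
  inferInstance

/-- The additive group `ℝ^{2n}`. -/
noncomputable instance (priority := 10001) iA (n : ℕ) : AddCommGroup (Phase n) :=
  inferInstance

/-- The additive monoid `ℝ^{2n}`. -/
noncomputable instance (priority := 10001) iAM (n : ℕ) : AddCommMonoid (Phase n) :=
  inferInstance

/-- The vector space `ℝ^{2n}`. -/
noncomputable instance (priority := 10001) iM (n : ℕ) : Module ℝ (Phase n) :=
  inferInstance

/-- The topology of `ℝ^{2n}`. -/
noncomputable instance (priority := 10001) iT (n : ℕ) : TopologicalSpace (Phase n) :=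
  inferInstance

end inst

variable {n N : ℕ}

/-- Bases of `ℝ^{2n}`. -/
abbrev Bas (n N : ℕ) : Type := Module.Basis (Fin N) ℝ (Phase n)

/-- The vector `b_i`. -/
noncomputable def vec (b : Bas n N) (i : Fin N) : Phase n := b i

/-- The coordinate of index `i` in the basis `b`. -/
noncomputable def crd (b : Bas n N) (i : Fin N) (x : Phase n) : ℝ := b.repr x i

/-- `f` is `C^∞`. -/
def Smooth (f : Phase n → Phase n) : Prop := ContDiff ℝ ∞ f

/-- `f^* ω_st = ω_st`. -/
def Sympl (f : Phase n → Phase n) : Prop :=
  ∀ p u v : Phase n, omegaStd (fderiv ℝ f p u) (fderiv ℝ f p v) = omegaStd u v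

/-! ### Compactly supported symplectomorphisms -/

/-- A bijection `φ` of `ℝ^{2n}` is a compactly supported symplectomorphism if `φ` and its inverse
are `C^∞`, `φ^* ω_st = ω_st`, and `φ` is the identity outside some compact set. -/
def IsSympCt (φ : Equiv.Perm (Phase n)) : Prop :=
  Smooth φ ∧ Smooth φ.symm ∧ Sympl φ ∧ ∃ K : Set (Phase n), IsCompact K ∧ ∀ p ∉ K, φ p = p

lemma IsSympCt.mul {φ ψ : Equiv.Perm (Phase n)} (h1 : IsSympCt φ) (h2 : IsSympCt ψ) :
    IsSympCt (φ * ψ) := Helper17.IsSympCt.mul h1 h2

lemma IsSympCt.one : IsSympCt (1 : Equiv.Perm (Phase n)) := Helper17.IsSympCt.one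

lemma IsSympCt.inv {φ : Equiv.Perm (Phase n)} (h : IsSympCt φ) : IsSympCt φ⁻¹ :=
  Helper17.IsSympCt.inv h

/-- The group `G = Symp_ct(ℝ^{2n}, ω_st)`. -/
def SympCt (n : ℕ) : Subgroup (Equiv.Perm (Phase n)) where
  carrier := {φ | IsSympCt φ}
  mul_mem' := IsSympCt.mul
  one_mem' := IsSympCt.one
  inv_mem' := IsSympCt.inv

/-- The elements of `Symp_ct(ℝ^{2n}, ω_st)` supported in the compact set `K`. -/
def SympSupp (n : ℕ) (K : Compacts (Phase n)) : Type :=
  {φ : SympCt n // ∀ p ∉ K, (φ : Equiv.Perm (Phase n)) p = p}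

/-- The inclusion of the subgroup supported in `K`. -/
def SympSupp.incl (K : Compacts (Phase n)) : SympSupp n K → SympCt n := Subtype.val

/-- The displacement `φ - id`. -/
noncomputable def dis {K : Compacts (Phase n)} (φ : SympSupp n K) (p : Phase n) : Phase n :=
  (φ.1 : Equiv.Perm (Phase n)) p - p

lemma contDiff_dis {K : Compacts (Phase n)} (φ : SympSupp n K) :
    ContDiff ℝ ((⊤ : ℕ∞) : WithTop ℕ∞) (dis φ) :=
  Helper17.SympSupp.contDiff_disp (K := K) φ

lemma dis_eq_zero {K : Compacts (Phase n)} (φ : SympSupp n K) :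
    EqOn (dis φ) 0 (K : Set (Phase n))ᶜ :=
  Helper17.SympSupp.disp_eq_zero (K := K) φ

/-- The displacement `φ - id` of a symplectomorphism supported in `K`, as an element of the
Fréchet space of smooth maps `ℝ^{2n} → ℝ^{2n}` supported in `K`. -/
noncomputable def SympSupp.disp (K : Compacts (Phase n)) (φ : SympSupp n K) :
    𝓓_{K}(Phase n, Phase n) where
  toFun := dis φ
  contDiff' := contDiff_dis φ
  zero_on_compl' := dis_eq_zero φ

/-- The `C^∞` topology on the subgroup supported in `K`: uniform convergence of the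
displacement together with all its derivatives. -/
noncomputable instance topSupp (n : ℕ) (K : Compacts (Phase n)) :
    TopologicalSpace (SympSupp n K) :=
  TopologicalSpace.induced (SympSupp.disp K) inferInstance

/-- The direct limit topology on `Symp_ct(ℝ^{2n}, ω_st)`: the finest topology for which all the
inclusions of the subgroups supported in compact sets are continuous. -/
noncomputable instance topG (n : ℕ) : TopologicalSpace (SympCt n) :=
  ⨆ K : Compacts (Phase n), TopologicalSpace.coinduced (SympSupp.incl K) (topSupp n K)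

/-! ### The torus and its group of symplectomorphisms -/

/-- A bijection `ψ` of `ℝ^{2n}` is (the lift of) a symplectomorphism of the torus
`ℝ^{2n} / Λ`, `Λ` the lattice generated by the basis `b`, if `ψ` and its inverse are `C^∞`,
`ψ^* ω_st = ω_st`, and `ψ` commutes with the translations by the vectors `b i`. -/
def IsTorusSymp (b : Bas n N) (ψ : Equiv.Perm (Phase n)) : Prop :=
  Smooth ψ ∧ Smooth ψ.symm ∧ Sympl ψ ∧ ∀ (i : Fin N) (x : Phase n), ψ (x + vec b i) =
    ψ x + vec b i

lemma IsTorusSymp.one (b : Bas n N) : IsTorusSymp b (1 : Equiv.Perm (Phase n)) :=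
  TOR.IsTorusSymp.one b

lemma IsTorusSymp.mul {b : Bas n N} {φ ψ : Equiv.Perm (Phase n)} (h1 : IsTorusSymp b φ)
    (h2 : IsTorusSymp b ψ) : IsTorusSymp b (φ * ψ) := TOR.IsTorusSymp.mul h1 h2

lemma IsTorusSymp.inv {b : Bas n N} {φ : Equiv.Perm (Phase n)} (h : IsTorusSymp b φ) :
    IsTorusSymp b φ⁻¹ := TOR.IsTorusSymp.inv h

/-- The group `S_b` of symplectomorphisms of `ℝ^{2n}` commuting with the lattice spanned by the
basis `b`: the lifts of the symplectomorphisms of the torus `ℝ^{2n} / Λ` which act trivially on its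
first homology. -/
def TorusSymp (b : Bas n N) : Subgroup (Equiv.Perm (Phase n)) where
  carrier := {φ | IsTorusSymp b φ}
  mul_mem' := IsTorusSymp.mul
  one_mem' := IsTorusSymp.one b
  inv_mem' := IsTorusSymp.inv

/-- `k`-linear maps. -/
abbrev Jet (n k : ℕ) : Type := Phase n [×k]→L[ℝ] Phase n

/-- The topology of the space of `k`-linear maps. -/
noncomputable instance (priority := 10001) iJ (n k : ℕ) : TopologicalSpace (Jet n k) :=
  inferInstance

/-- The derivative of order `k`. -/
noncomputable def der (k : ℕ) (f : Phase n → Phase n) : Phase n → Jet n k :=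
  iteratedFDeriv ℝ k f

lemma continuous_der (b : Bas n N) (k : ℕ) (ψ : TorusSymp b) :
    Continuous (der k (ψ : Equiv.Perm (Phase n))) :=
  ContDiff.continuous_iteratedFDeriv (WithTop.coe_le_coe.2 le_top) ψ.2.1

/-- The derivative of order `k`, as a continuous map. -/
noncomputable def jet (b : Bas n N) (k : ℕ) (ψ : TorusSymp b) : C(Phase n, Jet n k) :=
  ⟨der k (ψ : Equiv.Perm (Phase n)), continuous_der b k ψ⟩

/-- The `C^∞` topology: convergence of all derivatives, uniformly on compact sets. -/
noncomputable instance topS (b : Bas n N) : TopologicalSpace (TorusSymp b) :=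
  ⨅ k : ℕ, TopologicalSpace.induced (jet b k) inferInstance

/-- The open fundamental box of the lattice. -/
def openBox (b : Bas n N) : Set (Phase n) := {x | ∀ i, 0 < crd b i x ∧ crd b i x < 1}

/-- The lattice spanned by `b`. -/
def lat (b : Bas n N) : Set (Phase n) := {v | v ∈ Submodule.span ℤ (Set.range b)}

/-- `ψ` is the periodic extension of `φ|K`: equal to `φ` on `K`, and to the identity outside the
translates of `K` by the lattice. -/
def IsPer (b : Bas n N) (K : Set (Phase n)) (φ ψ : Equiv.Perm (Phase n)) : Prop :=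
  (∀ x ∈ K, ψ x = φ x) ∧ ∀ x, (∀ v ∈ lat b, x - v ∉ K) → ψ x = x

end Pool.Agent.BHS.Stm
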