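import Mathlib
import Pool.Agent.BHS.Stm
import Pool.Agent.BHS.Claim

set_option maxSynthPendingDepth 3

open scoped ContDiff Topology unitInterval
open Set Function TopologicalSpace

namespace Pool.Agent.BHS.Stm

open Pool.Agent.Helper17 (Phase omegaStd)
open Pool.Agent.BHS.Claim (HG Fam KGroup bdry itcomm tcomm)

variable {n N : ℕ}

instance kG (n : ℕ) : KGroup (SympCt n) :=
  (inferInstance : KGroup (Helper17.SympCt n))

instance kS (b : Bas n N) : KGroup (TorusSymp b) :=
  (inferInstance : KGroup (TOR.TorusSymp b))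

/-! ### The groups of classes -/

section cls

variable {T : Type} [TopologicalSpace T] (T0 : Set T) (m : ℕ)

/-- The classes of the maps `T × I^m → G = Symp_ct(ℝ^{2n})`. -/
def ClG (n : ℕ) : Type := HG T0 m (SympCt n)

/-- The classes of the maps `T × I^m → S_b`, `S_b` the group of the torus of the basis `b`. -/
def ClS (b : Bas n N) : Type := HG T0 m (TorusSymp b)

noncomputable instance gG [CompactSpace T] (n : ℕ) : Group (ClG T0 m n) :=
  Claim.instGroupHG (T0 := T0) (m := m) (X := SympCt n)

noncomputable instance gS [CompactSpace T] (b : Bas n N) : Group (ClS T0 m b) :=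
  Claim.instGroupHG (T0 := T0) (m := m) (X := TorusSymp b)

end cls

/-! ### Finite covers -/

lemma cast_ne_zero (l : ℕ+) : ((l : ℕ) : ℝ) ≠ 0 := Nat.cast_ne_zero.2 l.ne_zero

/-- The basis `(L_i b_i)`; it spans a sublattice, of index `∏ L_i`, of the lattice of `b`. -/
noncomputable def scal (b : Bas n N) (L : Fin N → ℕ+) : Bas n N :=
  b.unitsSMul fun i => Units.mk0 ((L i : ℕ) : ℝ) (cast_ne_zero (L i))

lemma le_scal (b : Bas n N) (L : Fin N → ℕ+) : TorusSymp b ≤ TorusSymp (scal b L) :=
  Claim.le_scal b L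

/-- The inclusion of `S_b` in the group of the finite cover of the torus defined by the sublattice
spanned by the `L_i b_i` (a symplectomorphism is sent to its lift to the cover). -/
def inc (b : Bas n N) (L : Fin N → ℕ+) (ψ : TorusSymp b) : TorusSymp (scal b L) :=
  ⟨ψ, le_scal b L ψ.2⟩

lemma continuous_inc (b : Bas n N) (L : Fin N → ℕ+) : Continuous (inc b L) :=
  (Claim.lift b L).continuous

/-- The inclusion as a continuous map. -/
noncomputable def lift (b : Bas n N) (L : Fin N → ℕ+) : C(TorusSymp b, TorusSymp (scal b L)) :=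
  ⟨inc b L, continuous_inc b L⟩

variable {T : Type} [TopologicalSpace T] {T0 : Set T} {m : ℕ}

/-- The class in `ClS` of a family of maps. -/
noncomputable def clsS {b : Bas n N} (f : Fam T0 m (TorusSymp b)) : ClS T0 m b := f.cls

/-- The class in `ClG` of a family of maps. -/
noncomputable def clsG (f : Fam T0 m (SympCt n)) : ClG T0 m n := f.cls

lemma lift_rel {b : Bas n N} (L : Fin N → ℕ+) (f : Fam T0 m (TorusSymp b)) :
    ∀ p ∈ bdry T0 m, (lift b L).comp f.map p = 1 := by
  intro p hp
  change lift b L (f.map p) = 1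
  rw [f.rel p hp]
  rfl

/-- The lift of a family to a finite cover. -/
noncomputable def liftF {b : Bas n N} (L : Fin N → ℕ+) (f : Fam T0 m (TorusSymp b)) :
    Fam T0 m (TorusSymp (scal b L)) :=
  ⟨(lift b L).comp f.map, lift_rel L f⟩

lemma liftF_hom {b : Bas n N} (L : Fin N → ℕ+) {f g : Fam T0 m (TorusSymp b)} (h : f ≈ g) :
    clsS (liftF L f) = clsS (liftF L g) :=
  Quotient.sound (h.map fun H => H.compContinuousMap (lift b L))

/-- The lift `x|L` of the class `x` to the finite cover with the basis `(L_i b_i)`. -/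
noncomputable def res (b : Bas n N) (L : Fin N → ℕ+) (x : ClS T0 m b) :
    ClS T0 m (scal b L) :=
  Quotient.lift (fun f => clsS (liftF L f)) (fun _ _ => liftF_hom L) x

/-! ### Iterated commutators -/

/-- The points `(s, θ)` of `I^m = I^{m-r} × I^r`. -/
def app {r : ℕ} (h : r ≤ m) (s : Fin (m - r) → I) (θ : Fin r → I) : Fin m → I :=
  fun i => Fin.append s θ (Fin.cast (Nat.sub_add_cancel h).symm i)

/-- `x` is the class of the family of the iterated commutators of the periodic extensions of the
`g (t, s)` (`t ∈ T`, `s ∈ I^{m-r}`) with the translations by `θ_1 b_{j_1}`, …, `θ_r b_{j_r}`,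
`θ ∈ I^r`, where `J = {j_1 < … < j_r}` and `g` is a family of symplectomorphisms supported in a
compact subset of the open fundamental box whose class in `G = Symp_ct(ℝ^{2n})` is `α`. -/
def IsComm (b : Bas n N) (J : Finset (Fin N)) (hJ : J.card ≤ m)
    (α : ClG T0 (m - J.card) n) (x : ClS T0 m b) : Prop :=
  ∃ (K : Compacts (Phase n)) (g : C(T × (Fin (m - J.card) → I), SympSupp n K))
    (a : Fam T0 (m - J.card) (SympCt n)) (u : Fam T0 m (TorusSymp b)),
    (K : Set (Phase n)) ⊆ openBox b ∧ (∀ p, a.map p = SympSupp.incl K (g p)) ∧ clsG a = α ∧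
      clsS u = x ∧
      ∀ (t : T) (s : Fin (m - J.card) → I) (θ : Fin J.card → I), ∃ ψ : TorusSymp b,
        IsPer b K (SympSupp.incl K (g (t, s))) ψ ∧
        (u.map (t, app hJ s θ) : Equiv.Perm (Phase n)) =
          itcomm J.card (fun i => (θ i : ℝ) • vec b (J.orderEmbOfFin rfl i)) ψ

/-- The largest element of the symmetric difference of `J` and `J'` belongs to `J`. -/
def Above (J J' : Finset (Fin N)) : Prop :=
  ∃ j ∈ J, j ∉ J' ∧ ∀ i, j < i → (i ∈ J ↔ i ∈ J')

end Pool.Agent.BHS.Stm
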