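import Mathlib
import Pool.Agent.BHS.Stm2

set_option maxSynthPendingDepth 3

open scoped ContDiff Topology unitInterval
open Set Function TopologicalSpace

namespace Pool.Agent.BHS.Stm

open Pool.Agent.Helper17 (Phase)

/-! ### The maps `κ_J` and `ρ_J` -/

section maps

variable {T : Type} [TopologicalSpace T] (T0 : Set T) (m n N : ℕ)

/-- Systems of maps `κ_J`: classes of maps `T × I^{m-|J|} → G` are sent to classes of maps
`T × I^m → S_b`, `J` a subset of the basis `b` with `|J| ≤ m`. -/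
def Kap : Type :=
  ∀ (b : Bas n N) (J : Finset (Fin N)), J.card ≤ m → ClG T0 (m - J.card) n → ClS T0 m b

/-- Systems of maps `ρ_J` in the other direction. -/
def Rho : Type :=
  ∀ (b : Bas n N) (J : Finset (Fin N)), J.card ≤ m → ClS T0 m b → ClG T0 (m - J.card) n

variable {T0 m n N}

/-- `κ_J` is given by the iterated commutators (with the directions in `J`). -/
def AreComm (κ : Kap T0 m n N) : Prop := ∀ b J hJ α x, IsComm b J hJ α x ↔ κ b J hJ α = x

variable [CompactSpace T]

/-- The `κ_J` are homomorphisms. -/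
def HomK (κ : Kap T0 m n N) : Prop := ∀ b J hJ α β, κ b J hJ (α * β) = κ b J hJ α * κ b J hJ β

/-- The `ρ_J` are homomorphisms. -/
def HomR (ρ : Rho T0 m n N) : Prop := ∀ b J hJ x y, ρ b J hJ (x * y) = ρ b J hJ x * ρ b J hJ y

/-- `ρ_J κ_J = id`. -/
def Diag (κ : Kap T0 m n N) (ρ : Rho T0 m n N) : Prop :=
  ∀ b J hJ α, ρ b J hJ (κ b J hJ α) = α

/-- `ρ_J κ_J' = 1` if the largest element of the symmetric difference of `J` and `J'` is in `J`. -/
def Upper (κ : Kap T0 m n N) (ρ : Rho T0 m n N) : Prop :=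
  ∀ b J hJ J' hJ' α, Above J J' → ρ b J hJ (κ b J' hJ' α) = 1

omit [CompactSpace T] in
/-- `(ρ_J)_J` is onto the product. -/
def Onto (ρ : Rho T0 m n N) : Prop :=
  ∀ b (α : ∀ J : Finset (Fin N), J.card ≤ m → ClG T0 (m - J.card) n),
    ∃ x, ∀ J hJ, ρ b J hJ x = α J hJ

/-- `ρ_J (x|L) = ρ_J (x) ^ ∏_{i ∉ J} L_i`. -/
def Covers (ρ : Rho T0 m n N) : Prop :=
  ∀ b (L : Fin N → ℕ+) J hJ x,
    ρ (scal b L) J hJ (res b L x) = ρ b J hJ x ^ ∏ i ∈ Jᶜ, (L i : ℕ)

/-- A class dies in a finite cover if and only if all its images under the `ρ_J` have finite order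
and the image is trivial for the full set `J`. -/
def Dies (ρ : Rho T0 m n N) : Prop :=
  ∀ b x, (∃ L : Fin N → ℕ+, res b L x = 1) ↔
    ∀ J hJ, IsOfFinOrder (ρ b J hJ x) ∧ (J = Finset.univ → ρ b J hJ x = 1)

/-- In a finite cover, every class is a product of commutator classes. -/
def Generate (κ : Kap T0 m n N) : Prop :=
  ∀ b x, ∃ L : Fin N → ℕ+,
    res b L x ∈ Subgroup.closure {y | ∃ J hJ α, y = res b L (κ b J hJ α)}

end maps

/-! ### Homotopy groups -/

variable {n N : ℕ}

/-- `π_k(G) = 0`. -/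
def PiZero (n k : ℕ) : Prop := Subsingleton (HomotopyGroup (Fin k) (SympCt n) 1)

/-- The lifts to the finite cover given by `L` of the commutator classes `κ_J (α)`, `J` a proper
subset of the basis. -/
def Proper (b : Bas n N) (m : ℕ) (L : Fin N → ℕ+) : Set (ClS (∅ : Set Unit) m (scal b L)) :=
  {y | ∃ J hJ α x, J ≠ Finset.univ ∧ IsComm b J hJ α x ∧ y = res b L x}

/-- Every class in `π_m(S_b)` becomes in a finite cover a product of such classes. -/
def GenProper (b : Bas n N) (m : ℕ) : Prop :=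
  ∀ x : ClS (∅ : Set Unit) m b, ∃ L : Fin N → ℕ+, res b L x ∈ Subgroup.closure (Proper b m L)

/-- Every class in `π_m(S_b)` dies in a finite cover. -/
def AllDie (b : Bas n N) (m : ℕ) : Prop :=
  ∀ u : C(Fin m → I, TorusSymp b), (∀ s ∈ Cube.boundary (Fin m), u s = 1) →
    ∃ L : Fin N → ℕ+, ((lift b L).comp u).HomotopicRel (ContinuousMap.const _ 1)
      (Cube.boundary (Fin m))

/-- The composition of the periodic extension of symplectomorphisms supported in a compact subset of
the open fundamental box with `W` is homotopic to the inclusion. -/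
def Unwraps (b : Bas n N) (W : C(TorusSymp b, SympCt n)) : Prop :=
  ∀ K : Compacts (Phase n), (K : Set (Phase n)) ⊆ openBox b →
    ∃ P : C(SympSupp n K, TorusSymp b), (∀ φ, IsPer b K (SympSupp.incl K φ) (P φ)) ∧
      ∃ i : C(SympSupp n K, SympCt n), (∀ φ, i φ = SympSupp.incl K φ) ∧ (W.comp P).Homotopic i

end Pool.Agent.BHS.Stm
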