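import Mathlib
import Pool.Agent.BHS.Stm

set_option maxSynthPendingDepth 3

open scoped ContDiff Distributions Topology unitInterval
open Set Function TopologicalSpace

namespace Pool.Agent.BHS.Stm

open Pool.Agent.Helper17 (Phase omegaStd)

variable {n N : ℕ}

section check

example (n : ℕ) : SympCt n = Helper17.SympCt n := rfl
example (b : Bas n N) : TorusSymp b = TOR.TorusSymp b := rfl
example (n : ℕ) : topG n =
  Helper17.instTopologicalSpaceSubtypePermPhaseMemSubgroupSympCt n := rfl
example (b : Bas n N) : topS b =
  TOR.instTopologicalSpaceSubtypePermPhaseMemSubgroupTorusSymp b := rfl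
example (b : Bas n N) : openBox b = TOR.openBox b := rfl
example (b : Bas n N) (K : Set (Phase n)) (φ ψ : Equiv.Perm (Phase n)) :
  IsPer b K φ ψ = TOR.IsPer b K φ ψ := rfl

end check

end Pool.Agent.BHS.Stm
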