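import Mathlib
import Pool.Agent.BHS.Derive

set_option maxSynthPendingDepth 3

open scoped unitInterval
open Set TopologicalSpace

namespace Pool.Agent.BHS.Claim

open Pool.Agent.Helper17 Pool.Agent.TOR

/-- Joint surjectivity for a unitriangular matrix. -/
lemma elim_surj {ι : Type} [LinearOrder ι] [Fintype ι] {E : Type} [Group E] {A : ι → Type}
    [∀ i, Group (A i)] (κ : ∀ i, A i → E) (ρ : ∀ i, E → A i)
    (hρ : ∀ i x y, ρ i (x * y) = ρ i x * ρ i y) (h1 : ∀ i α, ρ i (κ i α) = α)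
    (h2 : ∀ i j α, j < i → ρ i (κ j α) = 1) (α : ∀ i, A i) : ∃ x, ∀ i, ρ i x = α i := by
  suffices h : ∀ s : Finset ι, ∃ x, ∀ i ∈ s, ρ i x = α i by
    obtain ⟨x, h⟩ := h Finset.univ
    exact ⟨x, fun i => h i (Finset.mem_univ i)⟩
  intro s
  induction s using Finset.induction_on_min with
  | empty => exact ⟨1, fun i hi => absurd hi (Finset.notMem_empty i)⟩
  | insert a s ha ih =>
    obtain ⟨x, h⟩ := ih
    refine ⟨x * κ a ((ρ a x)⁻¹ * α a), ?_⟩
    intro i hi
    rw [hρ]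
    rcases Finset.mem_insert.1 hi with rfl | hi
    · rw [h1, mul_inv_cancel_left]
    · rw [h2 i a _ (ha i hi), mul_one, h i hi]

variable {n N : ℕ}

/-- The sets `J` with `|J| ≤ m`, in the order of `Finset.Colex`. -/
theorem surj_of {T : Type} [TopologicalSpace T] [CompactSpace T] {T0 : Set T} {m : ℕ}
    {b : Module.Basis (Fin N) ℝ (Phase n)}
    (κ : ∀ J : Finset (Fin N), J.card ≤ m →
        HG T0 (m - J.card) (SympCt n) → HG T0 m (TorusSymp b))
    (ρ : ∀ J : Finset (Fin N), J.card ≤ m →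
        HG T0 m (TorusSymp b) → HG T0 (m - J.card) (SympCt n))
    (hρ : ∀ J hJ x y, ρ J hJ (x * y) = ρ J hJ x * ρ J hJ y)
    (h1 : ∀ J hJ α, ρ J hJ (κ J hJ α) = α)
    (h2 : ∀ J hJ J' hJ' α, Above J J' → ρ J hJ (κ J' hJ' α) = 1)
    (α : ∀ J : Finset (Fin N), J.card ≤ m → HG T0 (m - J.card) (SympCt n)) :
    ∃ x, ∀ J hJ, ρ J hJ x = α J hJ := by
  have hfin : Finite {J : Colex (Finset (Fin N)) // (ofColex J).card ≤ m} :=
    Finite.of_injective (fun J => ofColex J.1) fun _ _ h => Subtype.ext (ofColex.injective h)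
  let hft := Fintype.ofFinite {J : Colex (Finset (Fin N)) // (ofColex J).card ≤ m}
  obtain ⟨x, hx⟩ := elim_surj (ι := {J : Colex (Finset (Fin N)) // (ofColex J).card ≤ m})
    (A := fun J => HG T0 (m - (ofColex J.1).card) (SympCt n))
    (fun J => κ (ofColex J.1) J.2) (fun J => ρ (ofColex J.1) J.2)
    (fun J => hρ (ofColex J.1) J.2) (fun J => h1 (ofColex J.1) J.2)
    (fun J J' β hlt => h2 _ _ _ _ β (above_of_lt (by simpa using hlt)))
    (fun J => α (ofColex J.1) J.2)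
  exact ⟨x, fun J hJ => hx ⟨toColex J, hJ⟩⟩

end Pool.Agent.BHS.Claim
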